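import Pool.Agent.H459R3.NS.Defs

/-!
Active modes and active triads of a periodic velocity field.
-/

open scoped ENNReal

namespace Q186.AM

open H459R3.NS

/-- The mode `k` of the field `v` is active, with threshold `a`: the Fourier coefficient at `k` of
some component of `v` is larger than `a / ‖k‖²`. (`‖k‖` is the maximum norm.) -/
def Active (a : ℝ) (v : V → V) (k : K3) : Prop :=
  ∃ i, a < ‖k‖ ^ 2 * ‖fr (fun x => v x i) k‖

/-- `l` is the smallest member of a triad of active modes: there are `m` and `n` such that `l`, `m`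
and `n` are active, `l + m + n = 0`, `l` and `m` are linearly independent, `‖l‖ ≤ ‖m‖` and
`‖l‖ ≤ ‖n‖`. -/
def Least (a : ℝ) (v : V → V) (l : K3) : Prop :=
  Active a v l ∧ ∃ m n : K3, Active a v m ∧ Active a v n ∧ l + m + n = 0 ∧
    crossProduct l m ≠ 0 ∧ ‖l‖ ≤ ‖m‖ ∧ ‖l‖ ≤ ‖n‖

/-- The sum of `‖l‖^(-s)` over the frequencies `l` in `S`. -/
noncomputable def wsum (s : ℝ) (S : Set K3) : ℝ≥0∞ :=
  ∑' l : S, ENNReal.ofReal (‖(l : K3)‖ ^ (-s))

end Q186.AM
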