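import Pool.Agent.Q186.AM0
import Pool.Agent.Q63.Win.Lat
import Pool.Agent.W734.NS.Win

/-!
Lattice sums in the extended reals.
-/

open MeasureTheory Set Filter Topology
open scoped ENNReal

namespace Q186.AM

open H459R3.NS hiding box
open Pool.Agent.Q63.Win

theorem norm_eq_N (k : K3) : ‖k‖ = (N k : ℝ) := by
  apply le_antisymm
  · rw [pi_norm_le_iff_of_nonneg (Nat.cast_nonneg _)]
    intro j
    have h := (N_le_iff k (N k)).1 le_rfl j
    rw [Int.norm_eq_abs]
    exact_mod_cast h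
  · have h : N k ≤ ⌊‖k‖⌋₊ := by
      rw [N_le_iff]
      intro j
      have h1 := norm_le_pi_norm k j
      rw [Int.norm_eq_abs] at h1
      have h2 : (|k j|.toNat) ≤ ⌊‖k‖⌋₊ := by
        apply Nat.le_floor
        have : ((|k j|.toNat : ℕ) : ℝ) = |(k j : ℝ)| := by
          have h3 : ((|k j|.toNat : ℕ) : ℤ) = |k j| := Int.toNat_of_nonneg (abs_nonneg _)
          have h4 : (((|k j|.toNat : ℕ) : ℤ) : ℝ) = ((|k j| : ℤ) : ℝ) := by rw [h3]
          push_cast at h4
          exact h4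
        rw [this]
        exact h1
      have h5 := Int.toNat_of_nonneg (abs_nonneg (k j))
      omega
    calc (N k : ℝ) ≤ (⌊‖k‖⌋₊ : ℝ) := by exact_mod_cast h
      _ ≤ ‖k‖ := Nat.floor_le (norm_nonneg _)

theorem N_pos {k : K3} (h : k ≠ 0) : 0 < N k := Nat.pos_of_ne_zero fun h1 => h (N_eq_zero.1 h1)

theorem N_add_le (k l : K3) : N (k + l) ≤ N k + N l := by
  have h := norm_add_le k l
  rw [norm_eq_N, norm_eq_N, norm_eq_N] at h
  exact_mod_cast h

open Classical in
/-- Sums over balls. -/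
theorem lat_enn {β : ℝ} (hβ : -3 < β) (R : ℕ) :
    ∑' l : K3, (if 0 < N l ∧ N l ≤ R then ENNReal.ofReal ((N l : ℝ) ^ β) else 0)
      ≤ ENNReal.ofReal (26 / min (β + 3) 1 * (R : ℝ) ^ (β + 3)) := by
  have h1 : ∀ l ∉ (box R).erase 0,
      (if 0 < N l ∧ N l ≤ R then ENNReal.ofReal ((N l : ℝ) ^ β) else 0) = 0 := by
    intro l hl
    rw [if_neg]
    rintro ⟨h2, h3⟩
    apply hl
    rw [Finset.mem_erase, mem_box]
    refine ⟨fun h0 => ?_, h3⟩
    rw [h0, N_eq_zero.2 rfl] at h2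
    exact lt_irrefl _ h2
  rw [tsum_eq_sum h1]
  have h2 : ∀ l ∈ (box R).erase 0,
      (if 0 < N l ∧ N l ≤ R then ENNReal.ofReal ((N l : ℝ) ^ β) else 0)
        = ENNReal.ofReal ((N l : ℝ) ^ β) := by
    intro l hl
    rw [Finset.mem_erase, mem_box] at hl
    rw [if_pos ⟨N_pos hl.1, hl.2⟩]
  rw [Finset.sum_congr rfl h2, ← ENNReal.ofReal_sum_of_nonneg fun l _ => by positivity]
  exact ENNReal.ofReal_le_ofReal (lat hβ R)

theorem card_shell (n : ℕ) (hn : 1 ≤ n) :
    (((box n).filter fun l => n ≤ N l).card : ℝ) ≤ 26 * (n : ℝ) ^ 2 := by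
  obtain ⟨R, rfl⟩ : ∃ R, n = R + 1 := ⟨n - 1, by omega⟩
  have hsub : box R ⊆ box (R + 1) := box_mono (by omega)
  have e : ((box (R + 1)).filter fun l => R + 1 ≤ N l) = box (R + 1) \ box R := by
    ext l
    simp only [Finset.mem_filter, Finset.mem_sdiff, mem_box]
    omega
  rw [e, Finset.card_sdiff_of_subset hsub, card_box, card_box]
  have h5 : (2 * (R + 1) + 1) ^ 3 - (2 * R + 1) ^ 3 ≤ 26 * (R + 1) ^ 2 := by
    have h7 : (2 * (R + 1) + 1) ^ 3 ≤ (2 * R + 1) ^ 3 + 26 * (R + 1) ^ 2 := by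
      nlinarith [sq_nonneg R]
    omega
  calc (((2 * (R + 1) + 1) ^ 3 - (2 * R + 1) ^ 3 : ℕ) : ℝ)
      ≤ ((26 * (R + 1) ^ 2 : ℕ) : ℝ) := by exact_mod_cast h5
    _ = _ := by push_cast; ring

theorem step_half (m : ℝ) (hm : 1 ≤ m) :
    m ^ (-(3 / 2) : ℝ) ≤ 6 * (m ^ (-(1 / 2) : ℝ) - (m + 1) ^ (-(1 / 2) : ℝ)) := by
  have hm0 : 0 < m := by linarith
  set a := Real.sqrt m with ha
  set b := Real.sqrt (m + 1) with hb
  have ha0 : 0 < a := Real.sqrt_pos.2 hm0
  have hb0 : 0 < b := Real.sqrt_pos.2 (by linarith)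
  have ha2 : a ^ 2 = m := Real.sq_sqrt hm0.le
  have hb2 : b ^ 2 = m + 1 := Real.sq_sqrt (by linarith)
  have e1 : m ^ (-(3 / 2) : ℝ) = (a ^ 3)⁻¹ := by
    rw [Real.rpow_neg hm0.le, show (3 / 2 : ℝ) = (1 / 2) * (3 : ℕ) by norm_num, Real.rpow_mul hm0.le,
      ← Real.sqrt_eq_rpow, Real.rpow_natCast]
  have e2 : m ^ (-(1 / 2) : ℝ) = a⁻¹ := by
    rw [Real.rpow_neg hm0.le, ← Real.sqrt_eq_rpow]
  have e3 : (m + 1) ^ (-(1 / 2) : ℝ) = b⁻¹ := by
    rw [Real.rpow_neg (by linarith), ← Real.sqrt_eq_rpow]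
  rw [e1, e2, e3]
  have hba : b ≤ 2 * a := by
    rw [← abs_of_pos hb0, ← abs_of_pos (by positivity : 0 < 2 * a)]
    apply sq_le_sq.1
    nlinarith
  have hab : a ≤ b := Real.sqrt_le_sqrt (by linarith)
  have key : (b - a) * (b + a) = 1 := by nlinarith
  have h6 : a⁻¹ - b⁻¹ = (b - a) / (a * b) := by field_simp
  rw [h6, inv_eq_one_div, mul_div_assoc', div_le_div_iff₀ (by positivity) (by positivity)]
  -- a * b ≤ 6 (b - a) a ^ 3
  have h7 : b + a ≤ 3 * a := by linarith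
  have h8 : 1 ≤ (b - a) * (3 * a) := by
    calc (1 : ℝ) = (b - a) * (b + a) := key.symm
      _ ≤ (b - a) * (3 * a) := mul_le_mul_of_nonneg_left h7 (by linarith)
  have h9 : a * b ≤ 2 * a ^ 2 := by nlinarith
  nlinarith [mul_le_mul_of_nonneg_left h8 (by positivity : 0 ≤ 2 * a ^ 2)]

theorem tail_fin (R L : ℕ) (hR : 1 ≤ R) (hL : R ≤ L + 1) :
    ∑ l ∈ (box L).filter (fun l => R ≤ N l), (N l : ℝ) ^ (-(7 / 2) : ℝ)
      ≤ 156 * ((R : ℝ) ^ (-(1 / 2) : ℝ) - ((L : ℝ) + 1) ^ (-(1 / 2) : ℝ)) := by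
  induction L with
  | zero =>
    have hR1 : R = 1 := by omega
    subst hR1
    have : (box 0).filter (fun l => 1 ≤ N l) = ∅ := by
      rw [Finset.filter_eq_empty_iff]
      intro l hl
      rw [mem_box] at hl
      omega
    rw [this]
    simp
  | succ L ih =>
    rcases Nat.lt_or_ge (L + 1) R with h | h
    · -- R = L + 2
      have hR1 : R = L + 2 := by omega
      have : (box (L + 1)).filter (fun l => R ≤ N l) = ∅ := by
        rw [Finset.filter_eq_empty_iff]
        intro l hl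
        rw [mem_box] at hl
        omega
      rw [this, hR1]
      push_cast
      have : (L : ℝ) + 1 + 1 = L + 2 := by ring
      rw [this]
      simp
    · have e : (box (L + 1)).filter (fun l => R ≤ N l)
          = (box L).filter (fun l => R ≤ N l) ∪ (box (L + 1)).filter (fun l => L + 1 ≤ N l) := by
        ext l
        simp only [Finset.mem_filter, Finset.mem_union, mem_box]
        omega
      have hd : Disjoint ((box L).filter (fun l => R ≤ N l))
          ((box (L + 1)).filter (fun l => L + 1 ≤ N l)) := by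
        rw [Finset.disjoint_left]
        intro l h1 h2
        simp only [Finset.mem_filter, mem_box] at h1 h2
        omega
      rw [e, Finset.sum_union hd]
      have h3 : ∑ l ∈ (box (L + 1)).filter (fun l => L + 1 ≤ N l), (N l : ℝ) ^ (-(7 / 2) : ℝ)
          ≤ 26 * ((L : ℝ) + 1) ^ (-(3 / 2) : ℝ) := by
        have h4 : ∀ l ∈ (box (L + 1)).filter (fun l => L + 1 ≤ N l),
            (N l : ℝ) ^ (-(7 / 2) : ℝ) = ((L : ℝ) + 1) ^ (-(7 / 2) : ℝ) := by
          intro l hl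
          simp only [Finset.mem_filter, mem_box] at hl
          have : N l = L + 1 := by omega
          rw [this]
          push_cast
          rfl
        rw [Finset.sum_congr rfl h4, Finset.sum_const, nsmul_eq_mul]
        have h5 := card_shell (L + 1) (by omega)
        push_cast at h5
        have hL1 : (0 : ℝ) < (L : ℝ) + 1 := by positivity
        calc (((box (L + 1)).filter fun l => L + 1 ≤ N l).card : ℝ)
              * ((L : ℝ) + 1) ^ (-(7 / 2) : ℝ)
            ≤ 26 * ((L : ℝ) + 1) ^ 2 * ((L : ℝ) + 1) ^ (-(7 / 2) : ℝ) := by gcongr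
          _ = 26 * ((L : ℝ) + 1) ^ (-(3 / 2) : ℝ) := by
            rw [mul_assoc, ← Real.rpow_natCast, ← Real.rpow_add hL1]
            norm_num
      have h6 := ih h
      have h7 := step_half ((L : ℝ) + 1) (by
        have : (0 : ℝ) ≤ L := Nat.cast_nonneg L
        linarith)
      push_cast
      linarith

open Classical in
/-- Sums outside of balls. -/
theorem tail_enn (R : ℕ) (hR : 1 ≤ R) :
    ∑' l : K3, (if R ≤ N l then ENNReal.ofReal ((N l : ℝ) ^ (-(7 / 2) : ℝ)) else 0)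
      ≤ ENNReal.ofReal (156 * (R : ℝ) ^ (-(1 / 2) : ℝ)) := by
  rw [ENNReal.tsum_eq_iSup_sum]
  refine iSup_le fun F => ?_
  rw [← Finset.sum_filter, ← ENNReal.ofReal_sum_of_nonneg fun l _ => by positivity]
  refine ENNReal.ofReal_le_ofReal ?_
  set L := max R (F.sup N) with hL
  have hsub : F.filter (fun l => R ≤ N l) ⊆ (box L).filter (fun l => R ≤ N l) := by
    intro l hl
    rw [Finset.mem_filter] at hl ⊢
    refine ⟨?_, hl.2⟩
    rw [mem_box]
    exact (Finset.le_sup (f := N) hl.1).trans (le_max_right _ _)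
  refine (Finset.sum_le_sum_of_subset_of_nonneg hsub fun l _ _ => by positivity).trans ?_
  refine (tail_fin R L hR (by omega)).trans ?_
  have : 0 ≤ ((L : ℝ) + 1) ^ (-(1 / 2) : ℝ) := by positivity
  linarith

theorem two_mul_le_add_sq' (a b : ℝ≥0∞) : 2 * (a * b) ≤ a ^ 2 + b ^ 2 := by
  have key : ∀ a b : ℝ≥0∞, a ≤ b → 2 * (a * b) ≤ a ^ 2 + b ^ 2 := by
    intro a b h
    obtain ⟨d, rfl⟩ := exists_add_of_le h
    calc 2 * (a * (a + d)) ≤ 2 * (a * (a + d)) + d ^ 2 := le_self_add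
      _ = a ^ 2 + (a + d) ^ 2 := by ring
  rcases le_total a b with h | h
  · exact key a b h
  · rw [mul_comm a b, add_comm]
    exact key b a h

end Q186.AM
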