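import Pool.Agent.Q186.AMa

/-!
The trilinear sum over the triads, sorted by their smallest member.
-/

open MeasureTheory Set Filter Topology
open scoped ENNReal

namespace Q186.AM

open H459R3.NS hiding box
open Pool.Agent.Q63.Win

/-- `∑ N(k)² w(k)²` -/
noncomputable def PP (w : K3 → ℝ≥0∞) : ℝ≥0∞ := ∑' k, (N k * w k) ^ 2

theorem tsum_refl (f : K3 → ℝ≥0∞) (p : K3) : ∑' q, f (-p - q) = ∑' q, f q := by
  rw [← (Equiv.subLeft (-p)).tsum_eq f]
  rfl

open Classical in
theorem lemB {κ : ℝ} (hκ : 0 ≤ κ) (w : K3 → ℝ≥0∞) :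
    ∑' p : K3, ∑' q : K3, (if 0 < N p ∧ N p ≤ N q ∧ N p ≤ N (-p - q) then
      ENNReal.ofReal (κ / N p) * w q * w (-p - q) else 0) ≤ ENNReal.ofReal (26 * κ) * PP w := by
  set X : K3 → K3 → ℝ≥0∞ := fun p q => if 0 < N p ∧ N p ≤ N q then
    ENNReal.ofReal (κ / N p) * w q ^ 2 else 0 with hX
  have h1 : ∀ p q, 2 * (if 0 < N p ∧ N p ≤ N q ∧ N p ≤ N (-p - q) then
      ENNReal.ofReal (κ / N p) * w q * w (-p - q) else 0) ≤ X p q + X p (-p - q) := by
    intro p q
    split_ifs with h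
    · simp only [hX]
      rw [if_pos ⟨h.1, h.2.1⟩, if_pos ⟨h.1, h.2.2⟩]
      calc 2 * (ENNReal.ofReal (κ / N p) * w q * w (-p - q))
          = ENNReal.ofReal (κ / N p) * (2 * (w q * w (-p - q))) := by ring
        _ ≤ ENNReal.ofReal (κ / N p) * (w q ^ 2 + w (-p - q) ^ 2) := by
            gcongr
            exact two_mul_le_add_sq' _ _
        _ = _ := by ring
    · simp
  have h2 : ∑' p, ∑' q, X p q ≤ ENNReal.ofReal (26 * κ) * PP w := by
    rw [ENNReal.tsum_comm]
    unfold PP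
    rw [← ENNReal.tsum_mul_left]
    refine ENNReal.tsum_le_tsum fun q => ?_
    have e1 : ∀ p, X p q = (ENNReal.ofReal κ * w q ^ 2) *
        (if 0 < N p ∧ N p ≤ N q then ENNReal.ofReal ((N p : ℝ) ^ (-1 : ℝ)) else 0) := by
      intro p
      simp only [hX]
      split_ifs with h
      · rw [Real.rpow_neg_one, div_eq_mul_inv, ENNReal.ofReal_mul hκ]
        ring
      · simp
    simp_rw [e1]
    rw [ENNReal.tsum_mul_left]
    refine (mul_le_mul_right (lat_enn (β := -1) (by norm_num) (N q)) _).trans (le_of_eq ?_)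
    have e2 : 26 / min ((-1 : ℝ) + 3) 1 * (N q : ℝ) ^ ((-1 : ℝ) + 3) = 26 * (N q : ℝ) ^ 2 := by
      rw [show (-1 : ℝ) + 3 = 2 by norm_num, min_eq_right (by norm_num), Real.rpow_two]
      norm_num
    rw [e2, ENNReal.ofReal_mul (by norm_num : (0 : ℝ) ≤ 26), ENNReal.ofReal_mul
      (by norm_num : (0 : ℝ) ≤ 26), ENNReal.ofReal_pow (Nat.cast_nonneg _), ENNReal.ofReal_natCast]
    ring
  have h3 : 2 * ∑' p : K3, ∑' q : K3, (if 0 < N p ∧ N p ≤ N q ∧ N p ≤ N (-p - q) then
      ENNReal.ofReal (κ / N p) * w q * w (-p - q) else 0) ≤ 2 * (ENNReal.ofReal (26 * κ) * PP w) := by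
    rw [← ENNReal.tsum_mul_left]
    simp_rw [← ENNReal.tsum_mul_left]
    calc _ ≤ ∑' p, ∑' q, (X p q + X p (-p - q)) :=
          ENNReal.tsum_le_tsum fun p => ENNReal.tsum_le_tsum fun q => h1 p q
      _ = ∑' p, ∑' q, X p q + ∑' p, ∑' q, X p q := by
          rw [← ENNReal.tsum_add]
          refine tsum_congr fun p => ?_
          rw [ENNReal.tsum_add, tsum_refl (X p) p]
      _ ≤ _ := by
          rw [two_mul]
          exact add_le_add h2 h2
  exact (ENNReal.mul_le_mul_iff_right (by norm_num) (by norm_num)).1 h3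

open Classical in
theorem lemC {κ : ℝ} (hκ : 0 ≤ κ) (w : K3 → ℝ≥0∞) :
    ∑' p : K3, ∑' q : K3, (if 0 < N p ∧ N p ≤ N q ∧ N p ≤ N (-p - q) then
      w p * ENNReal.ofReal (κ / N q) * w (-p - q) else 0) ≤ ENNReal.ofReal (208 * κ) * PP w := by
  set Y : K3 → K3 → ℝ≥0∞ := fun p r => if 0 < N p ∧ N p ≤ N r then
    w p * ENNReal.ofReal (2 * κ / N r) * w r else 0 with hY
  set A : K3 → K3 → ℝ≥0∞ := fun p r => if 0 < N p ∧ N p ≤ N r then
    (N r * w r) ^ 2 * ENNReal.ofReal ((N r : ℝ) ^ (-(1 / 2) : ℝ) * (N p : ℝ) ^ (-(5 / 2) : ℝ))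
      else 0 with hA
  set B : K3 → K3 → ℝ≥0∞ := fun p r => if 0 < N p ∧ N p ≤ N r then
    (N p * w p) ^ 2 * ENNReal.ofReal ((N p : ℝ) ^ (1 / 2 : ℝ) * (N r : ℝ) ^ (-(7 / 2) : ℝ))
      else 0 with hB
  have h1 : ∀ p q, (if 0 < N p ∧ N p ≤ N q ∧ N p ≤ N (-p - q) then
      w p * ENNReal.ofReal (κ / N q) * w (-p - q) else 0) ≤ Y p (-p - q) := by
    intro p q
    split_ifs with h
    · simp only [hY]
      rw [if_pos ⟨h.1, h.2.2⟩]
      have h2 : N (-p - q) ≤ 2 * N q := by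
        have h3 := N_add_le (-p) (-q)
        rw [N_neg, N_neg, ← sub_eq_add_neg] at h3
        omega
      have hq : (0 : ℝ) < N q := by
        have : 0 < N q := by omega
        exact_mod_cast this
      have hr : (0 : ℝ) < N (-p - q) := by
        have : 0 < N (-p - q) := by omega
        exact_mod_cast this
      have h3 : κ / N q ≤ 2 * κ / N (-p - q) := by
        rw [div_le_div_iff₀ hq hr]
        have h4 : (N (-p - q) : ℝ) ≤ 2 * N q := by exact_mod_cast h2
        nlinarith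
      gcongr
    · exact bot_le
  have h2 : ∀ p r, Y p r ≤ ENNReal.ofReal κ * (A p r + B p r) := by
    intro p r
    simp only [hY, hA, hB]
    split_ifs with h
    · have hp : (0 : ℝ) < N p := by exact_mod_cast h.1
      have hr : (0 : ℝ) < N r := by
        have : 0 < N r := by omega
        exact_mod_cast this
      set a : ℝ≥0∞ := (N r * w r) * ENNReal.ofReal ((N r : ℝ) ^ (-(1 / 4) : ℝ)
        * (N p : ℝ) ^ (-(5 / 4) : ℝ)) with ha
      set b : ℝ≥0∞ := (N p * w p) * ENNReal.ofReal ((N p : ℝ) ^ (1 / 4 : ℝ)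
        * (N r : ℝ) ^ (-(7 / 4) : ℝ)) with hb
      have sq1 : ∀ x : ℝ, 0 < x → ∀ e : ℝ, (x ^ e) ^ 2 = x ^ (2 * e) := by
        intro x hx e
        rw [← Real.rpow_natCast, ← Real.rpow_mul hx.le]
        congr 1
        push_cast
        ring
      have sq2 : ∀ x y : ℝ, 0 < x → 0 < y → ∀ e f : ℝ,
          (x ^ e * y ^ f) ^ 2 = x ^ (2 * e) * y ^ (2 * f) := by
        intro x y hx hy e f
        rw [mul_pow, sq1 x hx, sq1 y hy]
      have ea : a ^ 2 = (N r * w r) ^ 2 * ENNReal.ofReal ((N r : ℝ) ^ (-(1 / 2) : ℝ)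
          * (N p : ℝ) ^ (-(5 / 2) : ℝ)) := by
        rw [ha, mul_pow, ← ENNReal.ofReal_pow (by positivity), sq2 _ _ hr hp]
        norm_num
      have eb : b ^ 2 = (N p * w p) ^ 2 * ENNReal.ofReal ((N p : ℝ) ^ (1 / 2 : ℝ)
          * (N r : ℝ) ^ (-(7 / 2) : ℝ)) := by
        rw [hb, mul_pow, ← ENNReal.ofReal_pow (by positivity), sq2 _ _ hp hr]
        norm_num
      have eab : w p * ENNReal.ofReal (2 * κ / N r) * w r = ENNReal.ofReal κ * (2 * (a * b)) := by
        have e3 : a * b = w p * w r * ENNReal.ofReal (1 / N r) := by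
          rw [ha, hb]
          have e4 : ((N r : ℝ≥0∞)) = ENNReal.ofReal (N r : ℝ) := (ENNReal.ofReal_natCast _).symm
          have e5 : ((N p : ℝ≥0∞)) = ENNReal.ofReal (N p : ℝ) := (ENNReal.ofReal_natCast _).symm
          rw [e4, e5]
          have e6 : ENNReal.ofReal (N r : ℝ) * w r * ENNReal.ofReal ((N r : ℝ) ^ (-(1 / 4) : ℝ)
              * (N p : ℝ) ^ (-(5 / 4) : ℝ)) * (ENNReal.ofReal (N p : ℝ) * w p *
              ENNReal.ofReal ((N p : ℝ) ^ (1 / 4 : ℝ) * (N r : ℝ) ^ (-(7 / 4) : ℝ)))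
              = w p * w r * (ENNReal.ofReal (N r : ℝ) * ENNReal.ofReal ((N r : ℝ) ^ (-(1 / 4) : ℝ)
              * (N p : ℝ) ^ (-(5 / 4) : ℝ)) * (ENNReal.ofReal (N p : ℝ) *
              ENNReal.ofReal ((N p : ℝ) ^ (1 / 4 : ℝ) * (N r : ℝ) ^ (-(7 / 4) : ℝ)))) := by ring
          rw [e6, ← ENNReal.ofReal_mul hr.le, ← ENNReal.ofReal_mul hp.le,
            ← ENNReal.ofReal_mul (by positivity)]
          congr 2
          have c1 : (N r : ℝ) * ((N r : ℝ) ^ (-(1 / 4) : ℝ) * (N p : ℝ) ^ (-(5 / 4) : ℝ))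
              * (N p * ((N p : ℝ) ^ (1 / 4 : ℝ) * (N r : ℝ) ^ (-(7 / 4) : ℝ)))
              = (N r * ((N r : ℝ) ^ (-(1 / 4) : ℝ) * (N r : ℝ) ^ (-(7 / 4) : ℝ)))
                * (N p * ((N p : ℝ) ^ (-(5 / 4) : ℝ) * (N p : ℝ) ^ (1 / 4 : ℝ))) := by ring
          rw [c1, ← Real.rpow_add hr, ← Real.rpow_add hp,
            show (-(1 / 4) : ℝ) + -(7 / 4) = -2 by norm_num,
            show (-(5 / 4) : ℝ) + 1 / 4 = -1 by norm_num, Real.rpow_neg_one, Real.rpow_neg hr.le,
            Real.rpow_two]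
          field_simp
        rw [e3, show 2 * κ / (N r : ℝ) = κ * (2 * (1 / N r)) by ring, ENNReal.ofReal_mul hκ,
          ENNReal.ofReal_mul (by norm_num : (0 : ℝ) ≤ 2)]
        simp only [ENNReal.ofReal_ofNat]
        ring
      rw [eab, ← ea, ← eb]
      gcongr
      exact two_mul_le_add_sq' a b
    · simp
  have hAs : ∑' p, ∑' r, A p r ≤ 52 * PP w := by
    rw [ENNReal.tsum_comm]
    unfold PP
    rw [← ENNReal.tsum_mul_left]
    refine ENNReal.tsum_le_tsum fun r => ?_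
    have e1 : ∀ p, A p r = ((N r * w r) ^ 2 * ENNReal.ofReal ((N r : ℝ) ^ (-(1 / 2) : ℝ))) *
        (if 0 < N p ∧ N p ≤ N r then ENNReal.ofReal ((N p : ℝ) ^ (-(5 / 2) : ℝ)) else 0) := by
      intro p
      simp only [hA]
      split_ifs with h
      · rw [ENNReal.ofReal_mul (by positivity)]
        ring
      · simp
    simp_rw [e1]
    rw [ENNReal.tsum_mul_left]
    refine (mul_le_mul_right (lat_enn (β := -(5 / 2)) (by norm_num) (N r)) _).trans ?_
    have e2 : 26 / min (-(5 / 2 : ℝ) + 3) 1 * (N r : ℝ) ^ (-(5 / 2 : ℝ) + 3)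
        = 52 * (N r : ℝ) ^ (1 / 2 : ℝ) := by
      rw [show -(5 / 2 : ℝ) + 3 = 1 / 2 by norm_num, min_eq_left (by norm_num)]
      norm_num
    rw [e2]
    rcases Nat.eq_zero_or_pos (N r) with h0 | h0
    · rw [h0]
      simp
    · have hr : (0 : ℝ) < N r := by exact_mod_cast h0
      calc (N r * w r) ^ 2 * ENNReal.ofReal ((N r : ℝ) ^ (-(1 / 2) : ℝ))
            * ENNReal.ofReal (52 * (N r : ℝ) ^ (1 / 2 : ℝ))
          = (N r * w r) ^ 2 * ENNReal.ofReal ((N r : ℝ) ^ (-(1 / 2) : ℝ)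
            * (52 * (N r : ℝ) ^ (1 / 2 : ℝ))) := by
            rw [mul_assoc, ← ENNReal.ofReal_mul (by positivity)]
        _ = (N r * w r) ^ 2 * ENNReal.ofReal 52 := by
            congr 2
            have c1 : (N r : ℝ) ^ (-(1 / 2) : ℝ) * (52 * (N r : ℝ) ^ (1 / 2 : ℝ))
                = 52 * ((N r : ℝ) ^ (-(1 / 2) : ℝ) * (N r : ℝ) ^ (1 / 2 : ℝ)) := by ring
            rw [c1, ← Real.rpow_add hr]
            norm_num
        _ = 52 * (N r * w r) ^ 2 := by
            rw [mul_comm]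
            simp only [ENNReal.ofReal_ofNat]
      exact le_rfl
  have hBs : ∑' p, ∑' r, B p r ≤ 156 * PP w := by
    unfold PP
    rw [← ENNReal.tsum_mul_left]
    refine ENNReal.tsum_le_tsum fun p => ?_
    rcases Nat.eq_zero_or_pos (N p) with h0 | h0
    · have : ∀ r, B p r = 0 := by
        intro r
        simp only [hB]
        rw [if_neg]
        rintro ⟨h, -⟩
        omega
      simp_rw [this]
      simp
    · have hp : (0 : ℝ) < N p := by exact_mod_cast h0
      have e1 : ∀ r, B p r = ((N p * w p) ^ 2 * ENNReal.ofReal ((N p : ℝ) ^ (1 / 2 : ℝ))) *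
          (if N p ≤ N r then ENNReal.ofReal ((N r : ℝ) ^ (-(7 / 2) : ℝ)) else 0) := by
        intro r
        simp only [hB]
        by_cases h : N p ≤ N r
        · rw [if_pos ⟨h0, h⟩, if_pos h, ENNReal.ofReal_mul (by positivity)]
          ring
        · rw [if_neg (fun h1 => h h1.2), if_neg h, mul_zero]
      simp_rw [e1]
      rw [ENNReal.tsum_mul_left]
      refine (mul_le_mul_right (tail_enn (N p) h0) _).trans (le_of_eq ?_)
      calc (N p * w p) ^ 2 * ENNReal.ofReal ((N p : ℝ) ^ (1 / 2 : ℝ))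
            * ENNReal.ofReal (156 * (N p : ℝ) ^ (-(1 / 2) : ℝ))
          = (N p * w p) ^ 2 * ENNReal.ofReal ((N p : ℝ) ^ (1 / 2 : ℝ)
            * (156 * (N p : ℝ) ^ (-(1 / 2) : ℝ))) := by
            rw [mul_assoc, ← ENNReal.ofReal_mul (by positivity)]
        _ = (N p * w p) ^ 2 * ENNReal.ofReal 156 := by
            congr 2
            have c1 : (N p : ℝ) ^ (1 / 2 : ℝ) * (156 * (N p : ℝ) ^ (-(1 / 2) : ℝ))
                = 156 * ((N p : ℝ) ^ (1 / 2 : ℝ) * (N p : ℝ) ^ (-(1 / 2) : ℝ)) := by ring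
            rw [c1, ← Real.rpow_add hp]
            norm_num
        _ = 156 * (N p * w p) ^ 2 := by
            rw [mul_comm]
            simp only [ENNReal.ofReal_ofNat]
  calc _ ≤ ∑' p, ∑' q, Y p (-p - q) :=
        ENNReal.tsum_le_tsum fun p => ENNReal.tsum_le_tsum fun q => h1 p q
    _ = ∑' p, ∑' r, Y p r := tsum_congr fun p => tsum_refl (Y p) p
    _ ≤ ∑' p, ∑' r, ENNReal.ofReal κ * (A p r + B p r) :=
        ENNReal.tsum_le_tsum fun p => ENNReal.tsum_le_tsum fun r => h2 p r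
    _ = ENNReal.ofReal κ * (∑' p, ∑' r, A p r + ∑' p, ∑' r, B p r) := by
        simp_rw [ENNReal.tsum_mul_left, ENNReal.tsum_add]
    _ ≤ ENNReal.ofReal κ * (52 * PP w + 156 * PP w) := by gcongr
    _ = ENNReal.ofReal (208 * κ) * PP w := by
        rw [ENNReal.ofReal_mul (by norm_num : (0 : ℝ) ≤ 208)]
        simp only [ENNReal.ofReal_ofNat]
        ring

open Classical in
/-- The part of the sum whose smallest member is in `L`. -/
noncomputable def ZL (L : Set K3) (w : K3 → ℝ≥0∞) : ℝ≥0∞ :=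
  ∑' p : K3, ∑' q : K3, (if p ∈ L ∧ N p ≤ N q ∧ N p ≤ N (-p - q) then
      w p * w q * w (-p - q) else 0)

open Classical in
/-- The sum over the sorted triads. -/
theorem sorted_le {κ : ℝ} (hκ : 0 ≤ κ) (w : K3 → ℝ≥0∞) (w0 : w 0 = 0) {Act L : Set K3}
    {C : K3 → K3 → Prop} (hw : ∀ k, k ≠ 0 → k ∉ Act → w k ≤ ENNReal.ofReal (κ / N k))
    (hL : ∀ p q, C p q → p ∈ Act → q ∈ Act → -p - q ∈ Act → N p ≤ N q → N p ≤ N (-p - q) → p ∈ L) :
    ∑' p : K3, ∑' q : K3, (if C p q ∧ N p ≤ N q ∧ N p ≤ N (-p - q) then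
      w p * w q * w (-p - q) else 0) ≤ ZL L w + ENNReal.ofReal (442 * κ) * PP w := by
  set F1 : K3 → K3 → ℝ≥0∞ := fun p q => if p ∈ L ∧ N p ≤ N q ∧ N p ≤ N (-p - q) then
      w p * w q * w (-p - q) else 0 with hF1
  set F2 : K3 → K3 → ℝ≥0∞ := fun p q => if 0 < N p ∧ N p ≤ N q ∧ N p ≤ N (-p - q) then
      ENNReal.ofReal (κ / N p) * w q * w (-p - q) else 0 with hF2
  set F3 : K3 → K3 → ℝ≥0∞ := fun p q => if 0 < N p ∧ N p ≤ N q ∧ N p ≤ N (-p - q) then
      w p * ENNReal.ofReal (κ / N q) * w (-p - q) else 0 with hF3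
  have h1 : ∀ p q, (if C p q ∧ N p ≤ N q ∧ N p ≤ N (-p - q) then
      w p * w q * w (-p - q) else 0) ≤ F1 p q + F2 p q + F3 p q + F3 p (-p - q) := by
    intro p q
    split_ifs with h
    · obtain ⟨hC, h1, h2⟩ := h
      rcases Nat.eq_zero_or_pos (N p) with hp | hp
      · rw [N_eq_zero.1 hp, w0]
        simp
      have hp0 : p ≠ 0 := fun h => by rw [N_eq_zero.2 h] at hp; omega
      have hq0 : q ≠ 0 := fun h => by rw [N_eq_zero.2 h] at h1; omega
      have hr0 : -p - q ≠ 0 := fun h => by rw [N_eq_zero.2 h] at h2; omega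
      by_cases ap : p ∈ Act
      · by_cases aq : q ∈ Act
        · by_cases ar : -p - q ∈ Act
          · have : p ∈ L := hL p q hC ap aq ar h1 h2
            refine le_add_right (le_add_right (le_add_right ?_))
            simp only [hF1]
            rw [if_pos ⟨this, h1, h2⟩]
          · refine le_add_left ?_
            simp only [hF3]
            have e : -p - (-p - q) = q := by abel
            rw [e, if_pos ⟨hp, h2, h1⟩]
            calc w p * w q * w (-p - q) = w p * w (-p - q) * w q := by ring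
              _ ≤ _ := by
                gcongr
                exact hw _ hr0 ar
        · refine le_add_right (le_add_left ?_)
          simp only [hF3]
          rw [if_pos ⟨hp, h1, h2⟩]
          gcongr
          exact hw _ hq0 aq
      · refine le_add_right (le_add_right (le_add_left ?_))
        simp only [hF2]
        rw [if_pos ⟨hp, h1, h2⟩]
        gcongr
        exact hw _ hp0 ap
    · exact bot_le
  calc _ ≤ ∑' p, ∑' q, (F1 p q + F2 p q + F3 p q + F3 p (-p - q)) :=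
        ENNReal.tsum_le_tsum fun p => ENNReal.tsum_le_tsum fun q => h1 p q
    _ = ∑' p, ∑' q, F1 p q + ∑' p, ∑' q, F2 p q + ∑' p, ∑' q, F3 p q + ∑' p, ∑' q, F3 p q := by
        rw [← ENNReal.tsum_add, ← ENNReal.tsum_add, ← ENNReal.tsum_add]
        refine tsum_congr fun p => ?_
        rw [ENNReal.tsum_add, ENNReal.tsum_add, ENNReal.tsum_add, tsum_refl (F3 p) p]
    _ ≤ ZL L w + ENNReal.ofReal (26 * κ) * PP w + ENNReal.ofReal (208 * κ) * PP w
        + ENNReal.ofReal (208 * κ) * PP w := by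
        gcongr
        · exact le_rfl
        · exact lemB hκ w
        · exact lemC hκ w
        · exact lemC hκ w
    _ = _ := by
        rw [ENNReal.ofReal_mul (by norm_num : (0 : ℝ) ≤ 26),
          ENNReal.ofReal_mul (by norm_num : (0 : ℝ) ≤ 208),
          ENNReal.ofReal_mul (by norm_num : (0 : ℝ) ≤ 442)]
        simp only [ENNReal.ofReal_ofNat]
        ring

theorem e2_sq (w : K3 → ℝ≥0∞) : e2 w ^ 2 = ∑' k, w k ^ 2 := by
  unfold e2
  rw [enn_half_sq]

theorem PP_eq (w : K3 → ℝ≥0∞) : e2 (fun k => N k * w k) ^ 2 = PP w := by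
  rw [e2_sq]
  rfl

theorem e2_refl (w : K3 → ℝ≥0∞) (p : K3) : e2 (fun q => w (-p - q)) = e2 w := by
  unfold e2
  rw [tsum_refl (fun q => w q ^ 2) p]

open Classical in
/-- First bound. -/
theorem ZL_le1 (L : Set K3) (w : K3 → ℝ≥0∞) :
    ZL L w ≤ (∑' p : L, w p) * e2 w ^ 2 := by
  unfold ZL
  have h1 : ∀ p, ∑' q : K3, (if p ∈ L ∧ N p ≤ N q ∧ N p ≤ N (-p - q) then
      w p * w q * w (-p - q) else 0) ≤ L.indicator w p * e2 w ^ 2 := by
    intro p
    by_cases hp : p ∈ L
    · rw [indicator_of_mem hp]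
      calc _ ≤ ∑' q : K3, w p * (w q * w (-p - q)) := by
            refine ENNReal.tsum_le_tsum fun q => ?_
            split_ifs
            · rw [mul_assoc]
            · exact bot_le
        _ = w p * ∑' q, w q * w (-p - q) := ENNReal.tsum_mul_left
        _ ≤ w p * (e2 w * e2 (fun q => w (-p - q))) := by
            gcongr
            exact enn_cs _ _
        _ = _ := by rw [e2_refl, sq]
    · rw [indicator_of_notMem hp]
      have : ∀ q : K3, (if p ∈ L ∧ N p ≤ N q ∧ N p ≤ N (-p - q) then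
          w p * w q * w (-p - q) else 0) = 0 := fun q => if_neg fun h => hp h.1
      simp_rw [this]
      simp
  refine (ENNReal.tsum_le_tsum h1).trans (le_of_eq ?_)
  rw [ENNReal.tsum_mul_right, tsum_subtype]

open Classical in
/-- Second bound. -/
theorem ZL_le2 {L : Set K3} (hL : (0 : K3) ∉ L) (w : K3 → ℝ≥0∞) :
    ZL L w ≤ (∑' p : L, (N (p : K3) : ℝ≥0∞)⁻¹ * w p) * (e2 (fun k => N k * w k) * e2 w) := by
  unfold ZL
  have h1 : ∀ p, ∑' q : K3, (if p ∈ L ∧ N p ≤ N q ∧ N p ≤ N (-p - q) then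
      w p * w q * w (-p - q) else 0)
      ≤ L.indicator (fun p => (N p : ℝ≥0∞)⁻¹ * w p) p * (e2 (fun k => N k * w k) * e2 w) := by
    intro p
    by_cases hp : p ∈ L
    · rw [indicator_of_mem hp]
      have hp0 : p ≠ 0 := fun h => hL (h ▸ hp)
      have hN : (N p : ℝ≥0∞) ≠ 0 := by
        have := N_pos hp0
        exact_mod_cast this.ne'
      calc _ ≤ ∑' q : K3, (N p : ℝ≥0∞)⁻¹ * w p * ((N q * w q) * w (-p - q)) := by
            refine ENNReal.tsum_le_tsum fun q => ?_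
            split_ifs with h
            · calc w p * w q * w (-p - q)
                  = ((N p : ℝ≥0∞)⁻¹ * N p) * (w p * w q * w (-p - q)) := by
                    rw [ENNReal.inv_mul_cancel hN (ENNReal.natCast_ne_top _), one_mul]
                _ ≤ ((N p : ℝ≥0∞)⁻¹ * N q) * (w p * w q * w (-p - q)) := by
                    gcongr
                    exact_mod_cast h.2.1
                _ = _ := by ring
            · exact bot_le
        _ = (N p : ℝ≥0∞)⁻¹ * w p * ∑' q, (N q * w q) * w (-p - q) := ENNReal.tsum_mul_left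
        _ ≤ (N p : ℝ≥0∞)⁻¹ * w p * (e2 (fun k => N k * w k) * e2 (fun q => w (-p - q))) := by
            gcongr
            exact enn_cs _ _
        _ = _ := by rw [e2_refl]
    · rw [indicator_of_notMem hp]
      have : ∀ q : K3, (if p ∈ L ∧ N p ≤ N q ∧ N p ≤ N (-p - q) then
          w p * w q * w (-p - q) else 0) = 0 := fun q => if_neg fun h => hp h.1
      simp_rw [this]
      simp
  refine (ENNReal.tsum_le_tsum h1).trans (le_of_eq ?_)
  rw [ENNReal.tsum_mul_right]
  rw [tsum_subtype L (fun p => (N p : ℝ≥0∞)⁻¹ * w p)]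

end Q186.AM
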