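import Pool.Agent.Q186.AMb

/-!
The enstrophy production and the active triads.
-/

open MeasureTheory Set Filter Topology
open scoped ENNReal

namespace Q186.AM

open H459R3.NS hiding box
open Pool.Agent.Q63.Win

/-- the rotation of a triad -/
def rot : K3 × K3 ≃ K3 × K3 where
  toFun p := (-p.1 - p.2, p.1)
  invFun p := (p.2, -p.1 - p.2)
  left_inv p := by
    ext1
    · rfl
    · show -(-p.1 - p.2) - p.1 = p.2
      abel
  right_inv p := by
    ext1
    · show -p.2 - (-p.1 - p.2) = p.1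
      abel
    · rfl

theorem cross_rot (p q : K3) : crossProduct (-p - q) p = crossProduct p q := by
  rw [map_sub, map_neg, LinearMap.sub_apply, LinearMap.neg_apply, cross_self, neg_zero, zero_sub,
    cross_anticomm]

theorem cross_swap_ne {p q : K3} (h : crossProduct p q ≠ 0) : crossProduct q p ≠ 0 := by
  rw [← cross_anticomm]
  exact neg_ne_zero.2 h

/-- the weight of the mode `k` -/
noncomputable def ww (U : Fin 3 → K3 → ℂ) (k : K3) : ℝ≥0∞ := ENNReal.ofReal (W U k)

theorem ww_zero (U : Fin 3 → K3 → ℂ) : ww U 0 = 0 := by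
  have : W U 0 = 0 := by
    unfold W D
    simp
  unfold ww
  rw [this, ENNReal.ofReal_zero]

open Classical in
theorem T3_sorted {U : Fin 3 → K3 → ℂ} (hU : ∀ i, Rap (U i))
    (hdiv : ∀ k, ∑ i, (k i : ℂ) * U i k = 0) :
    ‖T3 U‖ₑ ≤ 3 * ∑' p : K3, ∑' q : K3,
      (if crossProduct p q ≠ 0 ∧ N p ≤ N q ∧ N p ≤ N (-p - q) then
        ww U p * ww U q * ww U (-p - q) else 0) := by
  set w : K3 → ℝ≥0∞ := ww U with hw
  set F : K3 × K3 → ℝ≥0∞ := fun p =>
    if crossProduct p.1 p.2 ≠ 0 ∧ N p.1 ≤ N p.2 ∧ N p.1 ≤ N (-p.1 - p.2) then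
        w p.1 * w p.2 * w (-p.1 - p.2) else 0 with hF
  have hb : ∀ p : K3 × K3, ‖tt U p‖ₑ ≤ F p + F p.swap + F (rot p) := by
    rintro ⟨p, q⟩
    have h1 : ‖tt U (p, q)‖ₑ ≤ w p * w q * w (-p - q) := by
      rw [hw]
      unfold ww
      rw [← ENNReal.ofReal_mul (W_nonneg _ _), ← ENNReal.ofReal_mul
        (mul_nonneg (W_nonneg _ _) (W_nonneg _ _)), ← ofReal_norm]
      exact ENNReal.ofReal_le_ofReal (norm_tt_le U (p, q))
    by_cases hc : crossProduct p q = 0
    · rw [tt_collinear hdiv hc]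
      simp
    have hc' := cross_swap_ne hc
    have hc2 : crossProduct (-p - q) p ≠ 0 := by
      rw [cross_rot]
      exact hc
    rcases le_total (N p) (N q) with h2 | h2
    · rcases le_total (N p) (N (-p - q)) with h3 | h3
      · refine le_add_right (le_add_right ?_)
        simp only [hF]
        rw [if_pos ⟨hc, h2, h3⟩]
        exact h1
      · refine le_add_left ?_
        have e1 : rot (p, q) = (-p - q, p) := rfl
        rw [e1]
        simp only [hF]
        have e2 : -(-p - q) - p = q := by abel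
        rw [e2, if_pos ⟨hc2, h3, h3.trans h2⟩]
        refine h1.trans (le_of_eq ?_)
        ring
    · rcases le_total (N q) (N (-p - q)) with h3 | h3
      · refine le_add_right (le_add_left ?_)
        simp only [hF, Prod.swap_prod_mk]
        have e2 : -q - p = -p - q := by abel
        rw [e2, if_pos ⟨hc', h2, h3⟩]
        refine h1.trans (le_of_eq ?_)
        ring
      · refine le_add_left ?_
        have e1 : rot (p, q) = (-p - q, p) := rfl
        rw [e1]
        simp only [hF]
        have e2 : -(-p - q) - p = q := by abel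
        rw [e2, if_pos ⟨hc2, h3.trans h2, h3⟩]
        refine h1.trans (le_of_eq ?_)
        ring
  have s1 : ∑' p : K3 × K3, F p = ∑' p : K3, ∑' q : K3,
      (if crossProduct p q ≠ 0 ∧ N p ≤ N q ∧ N p ≤ N (-p - q) then
        w p * w q * w (-p - q) else 0) := by
    rw [ENNReal.tsum_prod']
  have s2 : ∑' p : K3 × K3, F p.swap = ∑' p, F p :=
    (Equiv.prodComm K3 K3).tsum_eq F
  have s3 : ∑' p : K3 × K3, F (rot p) = ∑' p, F p := rot.tsum_eq F
  rw [← (T3_eq hU).tsum_eq]
  have hsm : Summable fun p => ‖tt U p‖ := by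
    have hs3 : ∀ i j m, Summable fun p : K3 × K3 =>
        ‖D m (U i) p.1‖ * ‖D i (U j) p.2‖ * ‖D m (U j) (-p.1 - p.2)‖ := fun i j m =>
      summable_norm_tri ((hU i).D m).summable ((hU j).D i).summable ((hU j).D m).summable
    refine Summable.of_nonneg_of_le (fun p => norm_nonneg _) (fun p => ?_)
      (summable_sum (s := Finset.univ) fun i _ => summable_sum (s := Finset.univ) fun j _ =>
        summable_sum (s := Finset.univ) fun m _ => hs3 i j m)
    unfold tt
    refine (norm_sum_le _ _).trans (Finset.sum_le_sum fun i _ => ?_)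
    refine (norm_sum_le _ _).trans (Finset.sum_le_sum fun j _ => ?_)
    refine (norm_sum_le _ _).trans (Finset.sum_le_sum fun m _ => ?_)
    rw [norm_mul, norm_mul]
  have h2 : ‖∑' p, tt U p‖ₑ ≤ ∑' p, ‖tt U p‖ₑ := by
    rw [← ofReal_norm]
    refine (ENNReal.ofReal_le_ofReal (norm_tsum_le_tsum_norm hsm)).trans (le_of_eq ?_)
    rw [ENNReal.ofReal_tsum_of_nonneg (fun p => norm_nonneg _) hsm]
    exact tsum_congr fun p => ofReal_norm _
  refine h2.trans ((ENNReal.tsum_le_tsum hb).trans (le_of_eq ?_))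
  rw [ENNReal.tsum_add, ENNReal.tsum_add, s2, s3, s1]
  ring

/-- The Fourier coefficients of the components. -/
noncomputable def cf (v : V → V) : Fin 3 → K3 → ℂ := fun i => fr (fun x => v x i)

theorem W_le_of_inactive {a : ℝ} (ha : 0 ≤ a) {v : V → V} {k : K3} (hk : k ≠ 0)
    (h : ¬ Active a v k) : W (cf v) k ≤ 6 * Real.pi * a / N k := by
  have hN : (0 : ℝ) < N k := by exact_mod_cast N_pos hk
  have h1 : ∀ i, ‖cf v i k‖ ≤ a / (N k : ℝ) ^ 2 := by
    intro i
    unfold Active at h
    push Not at h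
    have h2 := h i
    rw [norm_eq_N] at h2
    rw [le_div_iff₀ (by positivity), mul_comm]
    exact h2
  have hpi := Real.pi_pos
  have h2 : ∀ i m, ‖D m (cf v i) k‖ ^ 2 ≤ (2 * Real.pi * a / N k) ^ 2 := by
    intro i m
    refine pow_le_pow_left₀ (norm_nonneg _) ?_ 2
    refine (norm_D_le m (cf v i) k).trans ?_
    calc 2 * Real.pi * (N k * ‖cf v i k‖) ≤ 2 * Real.pi * (N k * (a / (N k : ℝ) ^ 2)) := by
          gcongr
          exact h1 i
      _ = 2 * Real.pi * a / N k := by
          field_simp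
  have h3 : W (cf v) k ^ 2 ≤ (6 * Real.pi * a / N k) ^ 2 := by
    rw [W_sq]
    calc ∑ i, ∑ m, ‖D m (cf v i) k‖ ^ 2
        ≤ ∑ _i : Fin 3, ∑ _m : Fin 3, (2 * Real.pi * a / N k) ^ 2 :=
          Finset.sum_le_sum fun i _ => Finset.sum_le_sum fun m _ => h2 i m
      _ = (6 * Real.pi * a / N k) ^ 2 := by
          simp only [Finset.sum_const, Finset.card_univ, Fintype.card_fin, nsmul_eq_mul]
          ring
  exact (pow_le_pow_iff_left₀ (W_nonneg _ _) (by positivity) (by norm_num)).1 h3

theorem zero_notMem_least {a : ℝ} (ha : 0 ≤ a) (v : V → V) : (0 : K3) ∉ {l | Least a v l} := by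
  rintro ⟨⟨i, h⟩, -⟩
  rw [norm_zero] at h
  simp at h
  linarith

section field

variable {v : V → V} (hv : ∀ i, SP (fun x => v x i)) (hdiv : ∀ x, ∑ i, pd i (fun y => v y i) x = 0)

include hv in
theorem rap_cf (i : Fin 3) : Rap (cf v i) := rap_fr (hv i)

include hv hdiv in
/-- The enstrophy production is controlled by the active triads. -/
theorem enorm_cub_le {a H : ℝ} (ha : 0 ≤ a) (hH0 : 0 ≤ H) (hH : palin v = H ^ 2) :
    ENNReal.ofReal |cub (fun i x => v x i)| ≤ 3 * (ZL {l | Least a v l} (ww (cf v))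
      + ENNReal.ofReal (663 / Real.pi * a * H ^ 2)) := by
  classical
  have hpi := Real.pi_pos
  set U := cf v with hU
  have hrap : ∀ i, Rap (U i) := rap_cf hv
  have hd : ∀ k, ∑ i, (k i : ℂ) * U i k = 0 := fun k => fr_div hv hdiv k
  have e1 : T3 U = ((cub (fun i x => v x i) : ℝ) : ℂ) := T3_fr hv
  have e2 : ENNReal.ofReal |cub (fun i x => v x i)| = ‖T3 U‖ₑ := by
    rw [← ofReal_norm, e1, Complex.norm_real, Real.norm_eq_abs]
  rw [e2]
  refine (T3_sorted hrap hd).trans ?_
  gcongr
  have key := sorted_le (κ := 6 * Real.pi * a) (by positivity) (ww U) (ww_zero U)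
    (Act := {k | Active a v k}) (L := {l | Least a v l}) (C := fun p q => crossProduct p q ≠ 0)
    (fun k hk hka => ENNReal.ofReal_le_ofReal (W_le_of_inactive ha hk hka))
    (fun p q hC hp hq hr h1 h2 => ⟨hp, q, -p - q, hq, hr, by abel, hC, by
      rw [norm_eq_N, norm_eq_N]
      exact_mod_cast h1, by
      rw [norm_eq_N, norm_eq_N]
      exact_mod_cast h2⟩)
  refine le_trans (le_of_eq ?_) (key.trans ?_)
  · refine tsum_congr fun p => tsum_congr fun q => ?_
    congr
  gcongr
  have h3 : PP (ww U) ≤ ENNReal.ofReal ((H / (2 * Real.pi)) ^ 2) := by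
    rw [← PP_eq, ENNReal.ofReal_pow (by positivity)]
    gcongr
    refine e2_NW hrap hH0 ?_
    rw [← hH]
    exact (sum_hess hv).le
  calc ENNReal.ofReal (442 * (6 * Real.pi * a)) * PP (ww U)
      ≤ ENNReal.ofReal (442 * (6 * Real.pi * a)) * ENNReal.ofReal ((H / (2 * Real.pi)) ^ 2) := by
        gcongr
    _ = ENNReal.ofReal (663 / Real.pi * a * H ^ 2) := by
        rw [← ENNReal.ofReal_mul (by positivity)]
        congr 1
        field_simp
        ring

include hv in
theorem e2_ww {G : ℝ} (hG0 : 0 ≤ G) (hG : enstrophy v = G ^ 2) :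
    e2 (ww (cf v)) ≤ ENNReal.ofReal G := by
  refine e2_W (rap_cf hv) hG0 ?_
  rw [← hG]
  exact (sum_grad hv).le

include hv in
theorem e2_Nww {H : ℝ} (hH0 : 0 ≤ H) (hH : palin v = H ^ 2) :
    e2 (fun k => N k * ww (cf v) k) ≤ ENNReal.ofReal (H / (2 * Real.pi)) := by
  refine e2_NW (rap_cf hv) hH0 ?_
  rw [← hH]
  exact (sum_hess hv).le

end field

end Q186.AM
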