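import Pool.Agent.Q186.AMc

/-!
Interpolation and the differential inequality.
-/

open MeasureTheory Set Filter Topology
open scoped ENNReal

namespace Q186.AM

open H459R3.NS hiding box
open Pool.Agent.Q63.Win

theorem tsum_interp (A B : K3 → ℝ≥0∞) {θ : ℝ} (h0 : 0 ≤ θ) (h1 : θ ≤ 1) :
    ∑' k, A k ^ (1 - θ) * B k ^ θ ≤ (∑' k, A k) ^ (1 - θ) * (∑' k, B k) ^ θ := by
  let _ : MeasurableSpace K3 := ⊤
  have h := ENNReal.lintegral_mul_norm_pow_le (μ := (Measure.count : Measure K3)) (f := A) (g := B)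
    measurable_from_top.aemeasurable measurable_from_top.aemeasurable
    (by linarith : 0 ≤ 1 - θ) h0 (by ring)
  simp only [lintegral_count] at h
  exact h

/-- `∑ N(k)^(-2) w(k)²` -/
noncomputable def EE (w : K3 → ℝ≥0∞) : ℝ≥0∞ := ∑' k, ENNReal.ofReal ((N k : ℝ) ^ (-2 : ℝ)) * w k ^ 2

/-- `∑ N(k)^σ w(k)` over `k ∈ L` -/
noncomputable def bet (σ : ℝ) (L : Set K3) (w : K3 → ℝ≥0∞) : ℝ≥0∞ :=
  ∑' p : L, ENNReal.ofReal ((N (p : K3) : ℝ) ^ σ) * w p

theorem bet_sq_le {L : Set K3} (hL : (0 : K3) ∉ L) (w : K3 → ℝ≥0∞) {σ s θ : ℝ} (h0 : 0 ≤ θ)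
    (h1 : θ ≤ 1) (h : 2 * σ + s = -2 + 2 * θ) :
    bet σ L w ^ 2 ≤ wsum s L * (EE w ^ (1 - θ) * (e2 w ^ 2) ^ θ) := by
  have hpos : ∀ p : L, (0 : ℝ) < N (p : K3) := by
    rintro ⟨p, hp⟩
    have : p ≠ 0 := fun h => hL (h ▸ hp)
    exact_mod_cast N_pos this
  set f : L → ℝ≥0∞ := fun p => ENNReal.ofReal ((N (p : K3) : ℝ) ^ (-(s / 2))) with hf
  set g : L → ℝ≥0∞ := fun p => ENNReal.ofReal ((N (p : K3) : ℝ) ^ (σ + s / 2)) * w p with hg
  have e1 : bet σ L w = ∑' p : L, f p * g p := by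
    unfold bet
    refine tsum_congr fun p => ?_
    simp only [hf, hg]
    rw [← mul_assoc, ← ENNReal.ofReal_mul (by positivity), ← Real.rpow_add (hpos p)]
    congr 3
    ring
  have sq1 : ∀ x : ℝ, 0 < x → ∀ e : ℝ, ENNReal.ofReal (x ^ e) ^ 2 = ENNReal.ofReal (x ^ (2 * e)) := by
    intro x hx e
    rw [← ENNReal.ofReal_pow (by positivity), ← Real.rpow_natCast, ← Real.rpow_mul hx.le]
    congr 2
    push_cast
    ring
  have e2' : ∑' p : L, f p ^ 2 = wsum s L := by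
    unfold wsum
    refine tsum_congr fun p => ?_
    simp only [hf]
    rw [sq1 _ (hpos p), norm_eq_N]
    congr 2
    ring
  have e3 : ∑' p : L, g p ^ 2 ≤ EE w ^ (1 - θ) * (e2 w ^ 2) ^ θ := by
    rw [e2_sq]
    unfold EE
    refine le_trans ?_ (tsum_interp _ _ h0 h1)
    have h2 : ∀ p : L, g p ^ 2 = (fun k : K3 => (ENNReal.ofReal ((N k : ℝ) ^ (-2 : ℝ))
        * w k ^ 2) ^ (1 - θ) * (w k ^ 2) ^ θ) p := by
      intro p
      simp only [hg]
      rw [mul_pow, sq1 _ (hpos p), ENNReal.mul_rpow_of_nonneg _ _ (by linarith : 0 ≤ 1 - θ),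
        mul_assoc, ← ENNReal.rpow_add_of_nonneg _ _ (by linarith) h0,
        ENNReal.ofReal_rpow_of_nonneg (by positivity) (by linarith), ← Real.rpow_mul (hpos p).le]
      have e4 : 1 - θ + θ = 1 := by ring
      have e5 : 2 * (σ + s / 2) = -2 * (1 - θ) := by linarith
      rw [e4, e5, ENNReal.rpow_one]
    rw [tsum_congr h2]
    exact ENNReal.tsum_comp_le_tsum_of_injective Subtype.val_injective _
  calc bet σ L w ^ 2 = (∑' p : L, f p * g p) ^ 2 := by rw [e1]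
    _ ≤ ((∑' p : L, f p ^ 2) ^ (1 / 2 : ℝ) * (∑' p : L, g p ^ 2) ^ (1 / 2 : ℝ)) ^ 2 := by
        gcongr
        exact enn_cs f g
    _ = (∑' p : L, f p ^ 2) * ∑' p : L, g p ^ 2 := by
        rw [mul_pow, enn_half_sq, enn_half_sq]
    _ ≤ _ := by
        rw [e2']
        gcongr

theorem bet_zero_eq (L : Set K3) (w : K3 → ℝ≥0∞) : bet 0 L w = ∑' p : L, w p := by
  unfold bet
  refine tsum_congr fun p => ?_
  rw [Real.rpow_zero, ENNReal.ofReal_one, one_mul]

theorem bet_neg_one_eq {L : Set K3} (hL : (0 : K3) ∉ L) (w : K3 → ℝ≥0∞) :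
    bet (-1) L w = ∑' p : L, (N (p : K3) : ℝ≥0∞)⁻¹ * w p := by
  unfold bet
  refine tsum_congr fun p => ?_
  have h : (p : K3) ≠ 0 := fun h => hL (h ▸ p.2)
  have hN : (0 : ℝ) < N (p : K3) := by exact_mod_cast N_pos h
  rw [Real.rpow_neg_one, ENNReal.ofReal_inv_of_pos hN, ENNReal.ofReal_natCast]

section field

variable {v : V → V} (hv : ∀ i, SP (fun x => v x i)) (hdiv : ∀ x, ∑ i, pd i (fun y => v y i) x = 0)

include hv in
theorem energy_eq : ENNReal.ofReal (energy v) = ∑' k, ∑ i, ENNReal.ofReal (‖cf v i k‖ ^ 2) := by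
  have hs : ∀ i, Summable fun k => ‖cf v i k‖ ^ 2 := fun i => summable_sq (rap_cf hv i).summable
  have e1 : energy v = ∑' k, ∑ i, ‖cf v i k‖ ^ 2 := by
    rw [Summable.tsum_finsetSum fun i _ => hs i]
    unfold energy
    refine Finset.sum_congr rfl fun i _ => ?_
    rw [← n2_fr (hv i), n2_sq]
    rfl
  rw [e1, ENNReal.ofReal_tsum_of_nonneg (fun k => by positivity) (summable_sum fun i _ => hs i)]
  refine tsum_congr fun k => ?_
  rw [ENNReal.ofReal_sum_of_nonneg fun i _ => by positivity]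

include hv in
theorem EE_le : EE (ww (cf v)) ≤ ENNReal.ofReal (119 * energy v) := by
  have hpi := Real.pi_pos
  rw [ENNReal.ofReal_mul (by norm_num), energy_eq hv, ← ENNReal.tsum_mul_left]
  unfold EE
  refine ENNReal.tsum_le_tsum fun k => ?_
  rcases eq_or_ne k 0 with rfl | hk
  · rw [ww_zero]
    simp
  have hN : (0 : ℝ) < N k := by exact_mod_cast N_pos hk
  have h1 : W (cf v) k ^ 2 ≤ 119 * (N k : ℝ) ^ 2 * ∑ i, ‖cf v i k‖ ^ 2 := by
    rw [W_sq]
    calc ∑ i, ∑ m, ‖D m (cf v i) k‖ ^ 2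
        ≤ ∑ i, ∑ _m : Fin 3, (2 * Real.pi * (N k * ‖cf v i k‖)) ^ 2 := by
          refine Finset.sum_le_sum fun i _ => Finset.sum_le_sum fun m _ => ?_
          exact pow_le_pow_left₀ (norm_nonneg _) (norm_D_le m (cf v i) k) 2
      _ = (12 * Real.pi ^ 2) * (N k : ℝ) ^ 2 * ∑ i, ‖cf v i k‖ ^ 2 := by
          simp only [Finset.sum_const, Finset.card_univ, Fintype.card_fin, nsmul_eq_mul]
          rw [Finset.mul_sum]
          refine Finset.sum_congr rfl fun i _ => ?_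
          push_cast
          ring
      _ ≤ _ := by
          have h2 : Real.pi ^ 2 ≤ 9.88 := by
            nlinarith [Real.pi_lt_d4, Real.pi_gt_three]
          gcongr
          linarith
  have e1 : ENNReal.ofReal ((N k : ℝ) ^ (-2 : ℝ)) * ww (cf v) k ^ 2
      = ENNReal.ofReal ((N k : ℝ) ^ (-2 : ℝ) * W (cf v) k ^ 2) := by
    unfold ww
    rw [← ENNReal.ofReal_pow (W_nonneg _ _), ← ENNReal.ofReal_mul (by positivity)]
  rw [e1, ← ENNReal.ofReal_sum_of_nonneg fun i _ => by positivity]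
  rw [← ENNReal.ofReal_mul (by norm_num)]
  refine ENNReal.ofReal_le_ofReal ?_
  rw [Real.rpow_neg hN.le, Real.rpow_two, inv_mul_le_iff₀ (by positivity)]
  linarith

/-- A lower bound for the weight. -/
theorem ww_ge (v : V → V) (i : Fin 3) (k : K3) :
    (2 * Real.pi) ^ 2 * ((N k : ℝ) ^ 2 * ‖cf v i k‖ ^ 2) ≤ W (cf v) k ^ 2 := by
  have hpi := Real.pi_pos
  rw [W_sq]
  have h1 : ∑ m, ‖D m (cf v i) k‖ ^ 2 ≤ ∑ i, ∑ m, ‖D m (cf v i) k‖ ^ 2 :=
    Finset.single_le_sum (f := fun i => ∑ m, ‖D m (cf v i) k‖ ^ 2)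
      (fun _ _ => Finset.sum_nonneg fun _ _ => sq_nonneg _) (Finset.mem_univ i)
  refine le_trans ?_ h1
  have e1 : ∀ m, ‖D m (cf v i) k‖ ^ 2 = (2 * Real.pi) ^ 2 * ((k m : ℝ) ^ 2 * ‖cf v i k‖ ^ 2) := by
    intro m
    rw [D, norm_mul, norm_mul, norm_mul, norm_mul, Complex.norm_I, mul_one, Complex.norm_real,
      Real.norm_eq_abs, abs_of_pos hpi, Complex.norm_ofNat, Complex.norm_intCast]
    rw [mul_pow, mul_pow, sq_abs]
    ring
  simp_rw [e1]
  rw [← Finset.mul_sum, ← Finset.sum_mul]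
  gcongr
  exact N_sq_le k

include hv in
/-- The energy inequality controls the active modes. -/
theorem wsum_active_le {a : ℝ} (ha : 0 < a) :
    wsum 2 {k | Active a v k} ≤ ENNReal.ofReal (enstrophy v / ((2 * Real.pi) ^ 2 * a ^ 2)) := by
  have hpi := Real.pi_pos
  set G := Real.sqrt (enstrophy v) with hG
  have hG2 : enstrophy v = G ^ 2 := (Real.sq_sqrt (enstrophy_nonneg _)).symm
  have hG0 : 0 ≤ G := Real.sqrt_nonneg _
  have h1 := e2_ww hv hG0 hG2
  have h2 : ∑' k, ww (cf v) k ^ 2 ≤ ENNReal.ofReal (G ^ 2) := by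
    rw [← e2_sq, ENNReal.ofReal_pow hG0]
    gcongr
  have h3 : ∀ k : {k | Active a v k}, ENNReal.ofReal (‖(k : K3)‖ ^ (-2 : ℝ))
      ≤ ENNReal.ofReal (((2 * Real.pi) ^ 2 * a ^ 2)⁻¹) * ww (cf v) k ^ 2 := by
    rintro ⟨k, i, hk⟩
    simp only
    rw [norm_eq_N] at hk ⊢
    have hN : (0 : ℝ) < N k := by
      rcases Nat.eq_zero_or_pos (N k) with h0 | h0
      · rw [h0] at hk
        simp at hk
        linarith
      · exact_mod_cast h0
    unfold ww
    rw [← ENNReal.ofReal_pow (W_nonneg _ _), ← ENNReal.ofReal_mul (by positivity)]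
    refine ENNReal.ofReal_le_ofReal ?_
    rw [Real.rpow_neg hN.le, Real.rpow_two, ← div_eq_inv_mul, le_div_iff₀ (by positivity)]
    refine le_trans ?_ (ww_ge v i k)
    have h4 : a ^ 2 ≤ ((N k : ℝ) ^ 2 * ‖cf v i k‖) ^ 2 := pow_le_pow_left₀ ha.le hk.le 2
    have e : ((N k : ℝ) ^ 2)⁻¹ * ((2 * Real.pi) ^ 2 * a ^ 2)
        = (2 * Real.pi) ^ 2 * (((N k : ℝ) ^ 2)⁻¹ * a ^ 2) := by ring
    rw [e]
    refine mul_le_mul_of_nonneg_left ?_ (by positivity)
    rw [inv_mul_le_iff₀ (by positivity)]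
    refine h4.trans (le_of_eq ?_)
    ring
  unfold wsum
  calc _ ≤ ∑' k : {k | Active a v k},
        ENNReal.ofReal (((2 * Real.pi) ^ 2 * a ^ 2)⁻¹) * ww (cf v) k ^ 2 :=
        ENNReal.tsum_le_tsum h3
    _ = ENNReal.ofReal (((2 * Real.pi) ^ 2 * a ^ 2)⁻¹)
        * ∑' k : {k | Active a v k}, ww (cf v) k ^ 2 := ENNReal.tsum_mul_left
    _ ≤ ENNReal.ofReal (((2 * Real.pi) ^ 2 * a ^ 2)⁻¹) * ENNReal.ofReal (G ^ 2) := by
        gcongr
        exact (ENNReal.tsum_comp_le_tsum_of_injective Subtype.val_injective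
          (fun k => ww (cf v) k ^ 2)).trans h2
    _ = _ := by
        rw [← ENNReal.ofReal_mul (by positivity), hG2]
        congr 1
        field_simp

include hv in
theorem finite_active {a : ℝ} (ha : 0 < a) : {k | Active a v k}.Finite := by
  have h1 : ∀ i, {k | a < (N k : ℝ) ^ 2 * ‖cf v i k‖}.Finite := by
    intro i
    have h2 := ((rap_cf hv i) 2).tendsto_cofinite_zero
    have h3 : ∀ᶠ k in cofinite, (N k : ℝ) ^ 2 * ‖cf v i k‖ < a := h2.eventually_lt_const ha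
    rw [Filter.eventually_cofinite] at h3
    exact h3.subset fun k hk => not_lt.2 (le_of_lt hk)
  refine (Set.finite_iUnion h1).subset fun k hk => ?_
  obtain ⟨i, hi⟩ := hk
  rw [norm_eq_N] at hi
  exact mem_iUnion.2 ⟨i, hi⟩

theorem least_sub (a : ℝ) (v : V → V) : {l | Least a v l} ⊆ {k | Active a v k} := fun _ h => h.1

theorem wsum_lt_top (s : ℝ) {S : Set K3} (hS : S.Finite) : wsum s S < ⊤ := by
  unfold wsum
  have := hS.fintype
  rw [tsum_fintype]
  exact ENNReal.sum_lt_top.2 fun _ _ => ENNReal.ofReal_lt_top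

theorem wsum_mono (s : ℝ) {S S' : Set K3} (h : S ⊆ S') : wsum s S ≤ wsum s S' := by
  unfold wsum
  exact ENNReal.tsum_comp_le_tsum_of_injective (Set.inclusion_injective h)
    (fun l : S' => ENNReal.ofReal (‖(l : K3)‖ ^ (-s)))

theorem bet_lt_top {σ : ℝ} {L : Set K3} (hL : L.Finite) (U : Fin 3 → K3 → ℂ) :
    bet σ L (ww U) < ⊤ := by
  unfold bet
  have := hL.fintype
  rw [tsum_fintype]
  exact ENNReal.sum_lt_top.2 fun _ _ => ENNReal.mul_lt_top ENNReal.ofReal_lt_top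
    ENNReal.ofReal_lt_top

include hv hdiv in
/-- First form of the estimate. -/
theorem cub_le1 {a G H : ℝ} (ha : 0 < a) (hG0 : 0 ≤ G) (hH0 : 0 ≤ H) (hG : enstrophy v = G ^ 2)
    (hH : palin v = H ^ 2) :
    |cub (fun i x => v x i)| ≤ 3 * ((bet 0 {l | Least a v l} (ww (cf v))).toReal * G ^ 2)
      + 1989 / Real.pi * a * H ^ 2 := by
  have hpi := Real.pi_pos
  set L := {l | Least a v l} with hL
  have hfin : L.Finite := (finite_active hv ha).subset (least_sub a v)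
  set b := bet 0 L (ww (cf v)) with hb
  have hb1 : b = ENNReal.ofReal b.toReal := (ENNReal.ofReal_toReal (bet_lt_top hfin _).ne).symm
  have h1 := enorm_cub_le hv hdiv ha.le hH0 hH
  have h2 : ZL L (ww (cf v)) ≤ ENNReal.ofReal (b.toReal * G ^ 2) := by
    refine (ZL_le1 L (ww (cf v))).trans ?_
    rw [← bet_zero_eq, ← hb, hb1, ENNReal.toReal_ofReal ENNReal.toReal_nonneg,
      ENNReal.ofReal_mul ENNReal.toReal_nonneg, ENNReal.ofReal_pow hG0]
    gcongr
    exact e2_ww hv hG0 hG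
  have h3 : ENNReal.ofReal |cub (fun i x => v x i)| ≤ ENNReal.ofReal
      (3 * (b.toReal * G ^ 2 + 663 / Real.pi * a * H ^ 2)) := by
    rw [ENNReal.ofReal_mul (by norm_num), ENNReal.ofReal_add
      (mul_nonneg ENNReal.toReal_nonneg (sq_nonneg _)) (by positivity)]
    simp only [ENNReal.ofReal_ofNat]
    refine h1.trans ?_
    gcongr
  rw [ENNReal.ofReal_le_ofReal_iff (mul_nonneg (by norm_num) (add_nonneg
    (mul_nonneg ENNReal.toReal_nonneg (sq_nonneg _)) (by positivity)))] at h3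
  refine h3.trans (le_of_eq ?_)
  ring

include hv hdiv in
/-- Second form of the estimate. -/
theorem cub_le2 {a G H : ℝ} (ha : 0 < a) (hG0 : 0 ≤ G) (hH0 : 0 ≤ H) (hG : enstrophy v = G ^ 2)
    (hH : palin v = H ^ 2) :
    |cub (fun i x => v x i)| ≤ 3 * ((bet (-1) {l | Least a v l} (ww (cf v))).toReal
      * (H / (2 * Real.pi) * G)) + 1989 / Real.pi * a * H ^ 2 := by
  have hpi := Real.pi_pos
  set L := {l | Least a v l} with hL
  have hfin : L.Finite := (finite_active hv ha).subset (least_sub a v)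
  have hL0 : (0 : K3) ∉ L := zero_notMem_least ha.le v
  set b := bet (-1) L (ww (cf v)) with hb
  have hb1 : b = ENNReal.ofReal b.toReal := (ENNReal.ofReal_toReal (bet_lt_top hfin _).ne).symm
  have h1 := enorm_cub_le hv hdiv ha.le hH0 hH
  have hHG : 0 ≤ H / (2 * Real.pi) := by positivity
  have h2 : ZL L (ww (cf v)) ≤ ENNReal.ofReal (b.toReal * (H / (2 * Real.pi) * G)) := by
    refine (ZL_le2 hL0 (ww (cf v))).trans ?_
    rw [← bet_neg_one_eq hL0, ← hb, hb1, ENNReal.toReal_ofReal ENNReal.toReal_nonneg,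
      ENNReal.ofReal_mul ENNReal.toReal_nonneg, ENNReal.ofReal_mul hHG]
    gcongr
    · exact e2_Nww hv hH0 hH
    · exact e2_ww hv hG0 hG
  have h3 : ENNReal.ofReal |cub (fun i x => v x i)| ≤ ENNReal.ofReal
      (3 * (b.toReal * (H / (2 * Real.pi) * G) + 663 / Real.pi * a * H ^ 2)) := by
    rw [ENNReal.ofReal_mul (by norm_num), ENNReal.ofReal_add
      (mul_nonneg ENNReal.toReal_nonneg (by positivity)) (by positivity)]
    simp only [ENNReal.ofReal_ofNat]
    refine h1.trans ?_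
    gcongr
  rw [ENNReal.ofReal_le_ofReal_iff (mul_nonneg (by norm_num) (add_nonneg
    (mul_nonneg ENNReal.toReal_nonneg (by positivity)) (by positivity)))] at h3
  refine h3.trans (le_of_eq ?_)
  ring

end field

end Q186.AM
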