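import Pool.Agent.Q186.AMd

/-!
The differential inequality in terms of the sums over the active triads.
-/

open MeasureTheory Set Filter Topology
open scoped ENNReal

namespace Q186.AM

open H459R3.NS hiding box
open Pool.Agent.Q63.Win

theorem young {M y c w1 w2 : ℝ} (hM : 0 ≤ M) (hy : 0 ≤ y) (h1 : 0 < w1) (h2 : 0 ≤ w2)
    (h : w1 + w2 = 1) : M ^ c * y ^ w2 ≤ M ^ (c / w1) + y := by
  have h3 := Real.geom_mean_le_arith_mean2_weighted h1.le h2 (Real.rpow_nonneg hM (c / w1)) hy h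
  have e : (M ^ (c / w1)) ^ w1 = M ^ c := by
    rw [← Real.rpow_mul hM]
    congr 1
    field_simp
  rw [e] at h3
  have h4 : 0 ≤ M ^ (c / w1) := Real.rpow_nonneg hM _
  nlinarith

section field

variable {v : V → V} (hv : ∀ i, SP (fun x => v x i)) (hdiv : ∀ x, ∑ i, pd i (fun y => v y i) x = 0)

include hv in
theorem bet_real {a E0 : ℝ} (ha : 0 < a) (hE : energy v ≤ E0) {σ s θ : ℝ}
    (h0 : 0 ≤ θ) (h1 : θ ≤ 1) (h : 2 * σ + s = -2 + 2 * θ) :
    (bet σ {l | Least a v l} (ww (cf v))).toReal ^ 2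
      ≤ (wsum s {l | Least a v l}).toReal * ((119 * E0) ^ (1 - θ) * enstrophy v ^ θ) := by
  set L := {l | Least a v l} with hL
  have hfin : L.Finite := (finite_active hv ha).subset (least_sub a v)
  have hL0 : (0 : K3) ∉ L := zero_notMem_least ha.le v
  have hE0 : 0 ≤ E0 := (energy_nonneg v).trans hE
  have hy0 := enstrophy_nonneg v
  have k1 := bet_sq_le hL0 (ww (cf v)) h0 h1 h
  have hM : wsum s L = ENNReal.ofReal (wsum s L).toReal :=
    (ENNReal.ofReal_toReal (wsum_lt_top s hfin).ne).symm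
  have hb : bet σ L (ww (cf v)) = ENNReal.ofReal (bet σ L (ww (cf v))).toReal :=
    (ENNReal.ofReal_toReal (bet_lt_top hfin _).ne).symm
  have k2 : EE (ww (cf v)) ≤ ENNReal.ofReal (119 * E0) :=
    (EE_le hv).trans (ENNReal.ofReal_le_ofReal (by linarith))
  have k3 : e2 (ww (cf v)) ^ 2 ≤ ENNReal.ofReal (enstrophy v) := by
    have hG2 : enstrophy v = Real.sqrt (enstrophy v) ^ 2 := (Real.sq_sqrt hy0).symm
    have := e2_ww hv (Real.sqrt_nonneg _) hG2
    calc e2 (ww (cf v)) ^ 2 ≤ ENNReal.ofReal (Real.sqrt (enstrophy v)) ^ 2 := by gcongr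
      _ = ENNReal.ofReal (enstrophy v) := by
        rw [← ENNReal.ofReal_pow (Real.sqrt_nonneg _), Real.sq_sqrt hy0]
  have hQ0 : 0 ≤ (119 * E0) ^ (1 - θ) := Real.rpow_nonneg (by positivity) _
  have hy1 : 0 ≤ enstrophy v ^ θ := Real.rpow_nonneg hy0 _
  have k4 : ENNReal.ofReal ((bet σ L (ww (cf v))).toReal ^ 2)
      ≤ ENNReal.ofReal ((wsum s L).toReal * ((119 * E0) ^ (1 - θ) * enstrophy v ^ θ)) := by
    rw [ENNReal.ofReal_pow ENNReal.toReal_nonneg, ← hb,
      ENNReal.ofReal_mul ENNReal.toReal_nonneg, ← hM, ENNReal.ofReal_mul hQ0,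
      ← ENNReal.ofReal_rpow_of_nonneg (by positivity) (by linarith),
      ← ENNReal.ofReal_rpow_of_nonneg hy0 h0]
    refine k1.trans ?_
    gcongr
  exact (ENNReal.ofReal_le_ofReal_iff (mul_nonneg ENNReal.toReal_nonneg
    (mul_nonneg hQ0 hy1))).1 k4

theorem small_const {ν : ℝ} (hν : 0 < ν) {P : ℝ} (hP : 0 ≤ P) :
    2 * (1989 / Real.pi * (1 / 2000 * ν) * P) ≤ 13 / 20 * ν * P := by
  have hpi := Real.pi_pos
  have h1 : 2 * (1989 / Real.pi * (1 / 2000 * ν) * P) = (1989 / (1000 * Real.pi)) * (ν * P) := by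
    field_simp
    ring
  rw [h1]
  have h2 : 1989 / (1000 * Real.pi) ≤ 13 / 20 := by
    rw [div_le_div_iff₀ (by positivity) (by norm_num)]
    nlinarith [Real.pi_gt_d2]
  have h3 : 0 ≤ ν * P := by positivity
  nlinarith

include hv hdiv in
/-- The estimate without viscosity. -/
theorem prod_le1 {ν : ℝ} (hν : 0 < ν) :
    -(2 * cub (fun i x => v x i)) ≤ 13 / 20 * ν * palin v
      + 6 * (bet 0 {l | Least (1 / 2000 * ν) v l} (ww (cf v))).toReal * enstrophy v := by
  have hG2 : enstrophy v = Real.sqrt (enstrophy v) ^ 2 := (Real.sq_sqrt (enstrophy_nonneg _)).symm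
  have hH2 : palin v = Real.sqrt (palin v) ^ 2 := (Real.sq_sqrt (palin_nonneg _)).symm
  have h1 := cub_le1 hv hdiv (a := 1 / 2000 * ν) (by positivity) (Real.sqrt_nonneg _)
    (Real.sqrt_nonneg _) hG2 hH2
  rw [← hG2, ← hH2] at h1
  have h2 := small_const hν (palin_nonneg v)
  have h3 := (_root_.abs_le.1 h1).1
  linarith

include hv hdiv in
/-- The estimate with viscosity. -/
theorem prod_le2 {ν : ℝ} (hν : 0 < ν) :
    -(2 * cub (fun i x => v x i)) ≤ 7 / 4 * ν * palin v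
      + 1 / (4 * ν) * (bet (-1) {l | Least (1 / 2000 * ν) v l} (ww (cf v))).toReal ^ 2
        * enstrophy v := by
  have hpi := Real.pi_pos
  set G := Real.sqrt (enstrophy v) with hG
  set H := Real.sqrt (palin v) with hH
  have hG2 : enstrophy v = G ^ 2 := (Real.sq_sqrt (enstrophy_nonneg _)).symm
  have hH2 : palin v = H ^ 2 := (Real.sq_sqrt (palin_nonneg _)).symm
  have hG0 : 0 ≤ G := Real.sqrt_nonneg _
  have hH0 : 0 ≤ H := Real.sqrt_nonneg _
  have h1 := cub_le2 hv hdiv (a := 1 / 2000 * ν) (by positivity) hG0 hH0 hG2 hH2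
  have h2 := small_const hν (palin_nonneg v)
  rw [hH2] at h2
  set b := (bet (-1) {l | Least (1 / 2000 * ν) v l} (ww (cf v))).toReal with hb
  have hb0 : 0 ≤ b := ENNReal.toReal_nonneg
  have h3 := (_root_.abs_le.1 h1).1
  have h4 : 2 * (3 * (b * (H / (2 * Real.pi) * G))) ≤ b * H * G := by
    have e : 2 * (3 * (b * (H / (2 * Real.pi) * G))) = 3 / Real.pi * (b * H * G) := by
      field_simp
    rw [e]
    have h5 : 3 / Real.pi ≤ 1 := by
      rw [div_le_one hpi]
      exact Real.pi_gt_three.le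
    have h6 : 0 ≤ b * H * G := by positivity
    nlinarith
  have h5 : b * H * G ≤ ν * H ^ 2 + 1 / (4 * ν) * b ^ 2 * G ^ 2 := by
    have h6 : 0 ≤ 1 / ν * (ν * H - b * G / 2) ^ 2 := by positivity
    have e : 1 / ν * (ν * H - b * G / 2) ^ 2
        = ν * H ^ 2 + 1 / (4 * ν) * b ^ 2 * G ^ 2 - b * H * G := by
      field_simp
      ring
    linarith
  rw [hH2, hG2]
  have h7 : 0 ≤ ν * H ^ 2 := by positivity
  linarith

include hv hdiv in
theorem prod_theta {ν E0 : ℝ} (hν : 0 < ν) (hE : energy v ≤ E0) {θ : ℝ} (h0 : 0 ≤ θ)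
    (h1 : θ ≤ 1) :
    -(2 * cub (fun i x => v x i)) ≤ 7 / 4 * ν * palin v
      + 1 / (4 * ν) * ((wsum (2 * θ) {l | Least (1 / 2000 * ν) v l}).toReal *
        ((119 * E0) ^ (1 - θ) * enstrophy v ^ θ)) * enstrophy v := by
  have h2 := prod_le2 hv hdiv hν
  have h3 := bet_real hv (a := 1 / 2000 * ν) (by positivity) hE (σ := -1) (s := 2 * θ) h0 h1
    (by ring)
  refine h2.trans ?_
  have hy := enstrophy_nonneg v
  gcongr

include hv hdiv in
theorem prod_s {ν E0 : ℝ} (hν : 0 < ν) {s : ℝ} (hs1 : -2 ≤ s) (hs2 : s < 2) (hE0 : 0 ≤ E0)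
    (hE : energy v ≤ E0) :
    -(2 * cub (fun i x => v x i)) ≤ 7 / 4 * ν * palin v
      + (1 / (4 * ν) * (119 * E0) ^ (1 - s / 2) + 6 * (119 * E0) ^ (-(s / 4)))
        * ((wsum s {l | Least (1 / 2000 * ν) v l}).toReal ^ (2 / (2 - s)) + enstrophy v)
        * enstrophy v := by
  have hy := enstrophy_nonneg v
  set M := (wsum s {l | Least (1 / 2000 * ν) v l}).toReal with hM
  have hM0 : 0 ≤ M := ENNReal.toReal_nonneg
  have hQ1 : 0 ≤ (119 * E0) ^ (1 - s / 2) := Real.rpow_nonneg (by positivity) _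
  have hQ2 : 0 ≤ (119 * E0) ^ (-(s / 4)) := Real.rpow_nonneg (by positivity) _
  have hMs : 0 ≤ M ^ (2 / (2 - s)) := Real.rpow_nonneg hM0 _
  have hS : 0 ≤ M ^ (2 / (2 - s)) + enstrophy v := by positivity
  rcases le_or_gt 0 s with h0 | h0
  · have h1 := prod_theta hv hdiv hν hE (θ := s / 2) (by linarith) (by linarith)
    have e1 : 2 * (s / 2) = s := by ring
    rw [e1, ← hM] at h1
    have h2 := young (c := 1) hM0 hy (w1 := 1 - s / 2) (w2 := s / 2) (by linarith) (by linarith)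
      (by ring)
    have e2 : 1 / (1 - s / 2) = 2 / (2 - s) := by
      have : 1 - s / 2 = (2 - s) / 2 := by ring
      rw [this]
      field_simp
    rw [e2, Real.rpow_one] at h2
    refine h1.trans ?_
    have h3 : 1 / (4 * ν) * (M * ((119 * E0) ^ (1 - s / 2) * enstrophy v ^ (s / 2)))
        ≤ 1 / (4 * ν) * (119 * E0) ^ (1 - s / 2) * (M ^ (2 / (2 - s)) + enstrophy v) := by
      calc _ = 1 / (4 * ν) * (119 * E0) ^ (1 - s / 2) * (M * enstrophy v ^ (s / 2)) := by ring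
        _ ≤ _ := by gcongr
    have h4 : 0 ≤ 6 * (119 * E0) ^ (-(s / 4)) * (M ^ (2 / (2 - s)) + enstrophy v) := by positivity
    have h5 : 1 / (4 * ν) * (M * ((119 * E0) ^ (1 - s / 2) * enstrophy v ^ (s / 2)))
        ≤ (1 / (4 * ν) * (119 * E0) ^ (1 - s / 2) + 6 * (119 * E0) ^ (-(s / 4)))
          * (M ^ (2 / (2 - s)) + enstrophy v) := by
      linarith
    have h6 := mul_le_mul_of_nonneg_right h5 hy
    linarith
  · have h1 := prod_le1 hv hdiv hν
    have h2 := bet_real hv (a := 1 / 2000 * ν) (by positivity) hE (σ := 0) (s := s)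
      (θ := 1 + s / 2) (by linarith) (by linarith) (by ring)
    rw [← hM] at h2
    set b := (bet 0 {l | Least (1 / 2000 * ν) v l} (ww (cf v))).toReal with hb
    have hb0 : 0 ≤ b := ENNReal.toReal_nonneg
    have e1 : 1 - (1 + s / 2) = -(s / 2) := by ring
    rw [e1] at h2
    have hE1 : 0 ≤ 119 * E0 := by positivity
    have h3 : b ≤ (119 * E0) ^ (-(s / 4)) * (M ^ (1 / 2 : ℝ) * enstrophy v ^ ((2 + s) / 4)) := by
      have hr : 0 ≤ (119 * E0) ^ (-(s / 4)) * (M ^ (1 / 2 : ℝ) * enstrophy v ^ ((2 + s) / 4)) := by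
        positivity
      refine (pow_le_pow_iff_left₀ hb0 hr (by norm_num : (2 : ℕ) ≠ 0)).1 ?_
      refine h2.trans (le_of_eq ?_)
      rw [mul_pow, mul_pow]
      have sq1 : ∀ x : ℝ, 0 ≤ x → ∀ e : ℝ, (x ^ e) ^ 2 = x ^ (2 * e) := by
        intro x hx e
        rw [← Real.rpow_natCast, ← Real.rpow_mul hx]
        congr 1
        push_cast
        ring
      rw [sq1 _ hE1, sq1 _ hM0, sq1 _ hy]
      have e2 : 2 * -(s / 4) = -(s / 2) := by ring
      have e3 : 2 * (1 / 2 : ℝ) = 1 := by norm_num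
      have e4 : 2 * ((2 + s) / 4) = 1 + s / 2 := by ring
      rw [e2, e3, e4, Real.rpow_one]
      ring
    have h4 := young (c := 1 / 2) hM0 hy (w1 := (2 - s) / 4) (w2 := (2 + s) / 4) (by linarith)
      (by linarith) (by ring)
    have e5 : (1 / 2 : ℝ) / ((2 - s) / 4) = 2 / (2 - s) := by
      have : (2 - s) ≠ 0 := by linarith
      field_simp
      norm_num
    rw [e5] at h4
    have h5 : 6 * b ≤ 6 * (119 * E0) ^ (-(s / 4)) * (M ^ (2 / (2 - s)) + enstrophy v) := by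
      have h6 := mul_le_mul_of_nonneg_left h4 hQ2
      nlinarith
    have h6 : 0 ≤ 1 / (4 * ν) * (119 * E0) ^ (1 - s / 2) * (M ^ (2 / (2 - s)) + enstrophy v) := by
      positivity
    have h7 : 6 * b ≤ (1 / (4 * ν) * (119 * E0) ^ (1 - s / 2) + 6 * (119 * E0) ^ (-(s / 4)))
          * (M ^ (2 / (2 - s)) + enstrophy v) := by
      linarith
    have h8 := mul_le_mul_of_nonneg_right h7 hy
    have h9 : 0 ≤ ν * palin v := mul_nonneg hν.le (palin_nonneg v)
    linarith

end field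

end Q186.AM
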