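import Pool.Agent.Q186.AMe
import Pool.Agent.Q63.Win.FromSol

/-!
Integrability, measurability and Gronwall's inequality.
-/

open MeasureTheory Set Filter Topology
open scoped ENNReal

namespace Q186.AM

open H459R3.NS hiding box
open Pool.Agent.Q63.Win

variable {ν T : ℝ} {u : ℝ → V → V} {p : ℝ → V → ℝ}

theorem int_enst (h : IsSol ν T u p) (hν : 0 < ν) (hT : 0 < T) :
    IntegrableOn (fun t => enstrophy (u t)) (Ioo 0 T) := by
  have h1 : ∀ n : ℕ, T - T / (n + 2) ∈ Ico 0 T := by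
    intro n
    have h2 : (0 : ℝ) < n + 2 := by positivity
    have h3 : 0 < T / (n + 2) := by positivity
    have h4 : T / (n + 2) ≤ T := by
      rw [div_le_iff₀ h2]
      nlinarith [Nat.cast_nonneg (α := ℝ) n]
    constructor <;> linarith
  have hlim : Tendsto (fun n : ℕ => T - T / ((n : ℝ) + 2)) atTop (𝓝 T) := by
    have h2 : Tendsto (fun n : ℕ => T / ((n : ℝ) + 2)) atTop (𝓝 0) := by
      refine Tendsto.div_atTop tendsto_const_nhds ?_
      exact tendsto_atTop_add_const_right _ _ tendsto_natCast_atTop_atTop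
    simpa using tendsto_const_nhds.sub h2
  have key := integrableOn_Ioc_of_intervalIntegral_norm_bounded_right
    (f := fun t => enstrophy (u t)) (a := 0) (b₀ := T) (b := fun n : ℕ => T - T / ((n : ℝ) + 2))
    (l := atTop) (I := energy (u 0) / (2 * ν)) (fun n => ?_) hlim
    (Eventually.of_forall fun n => ?_)
  · exact key.mono_set Ioo_subset_Ioc_self
  · have hc : ContinuousOn (fun s => enstrophy (u s)) (Icc 0 (T - T / ((n : ℝ) + 2))) :=
      h.enstrophy_continuousOn.mono fun s hs => ⟨hs.1, hs.2.trans_lt (h1 n).2⟩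
    exact (hc.integrableOn_Icc).mono_set Ioc_subset_Icc_self
  · have h2 := h.int_enstrophy hν (h1 n)
    rw [intervalIntegral.integral_of_le (h1 n).1] at h2
    refine le_trans (le_of_eq ?_) h2
    congr 1
    funext s
    rw [Real.norm_eq_abs, abs_of_nonneg (enstrophy_nonneg _)]

theorem int_enst_le (h : IsSol ν T u p) (hν : 0 < ν) (hT : 0 < T) :
    ∫ t in Ioo 0 T, enstrophy (u t) ≤ energy (u 0) / (2 * ν) := by
  have hi := int_enst h hν hT
  have hi' : IntegrableOn (fun t => enstrophy (u t)) (Icc 0 T) := by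
    rw [integrableOn_Icc_iff_integrableOn_Ioc, integrableOn_Ioc_iff_integrableOn_Ioo]
    exact hi
  have hc := intervalIntegral.continuousOn_primitive_Icc hi'
  have e : ∫ t in Ioo 0 T, enstrophy (u t) = ∫ t in Icc 0 T, enstrophy (u t) := by
    rw [integral_Icc_eq_integral_Ioc, integral_Ioc_eq_integral_Ioo]
  rw [e]
  have hlim : Tendsto (fun x => ∫ t in Icc 0 x, enstrophy (u t)) (𝓝[<] T)
      (𝓝 (∫ t in Icc 0 T, enstrophy (u t))) := by
    have h1 : ContinuousWithinAt (fun x => ∫ t in Icc 0 x, enstrophy (u t)) (Icc 0 T) T :=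
      hc T ⟨hT.le, le_rfl⟩
    refine Tendsto.mono_left h1 ?_
    rw [← nhdsWithin_Ico_eq_nhdsLT hT]
    exact nhdsWithin_mono _ Ico_subset_Icc_self
  refine le_of_tendsto hlim ?_
  filter_upwards [Ioo_mem_nhdsLT hT] with x hx
  have h2 := h.int_enstrophy hν ⟨hx.1.le, hx.2⟩
  rw [intervalIntegral.integral_of_le hx.1.le] at h2
  rw [integral_Icc_eq_integral_Ioc]
  exact h2

/-- Gronwall's inequality from the time `t₀` on. -/
theorem gron_from (h : IsSol ν T u p) {g : ℝ → ℝ} {B t₀ t : ℝ} (h0 : 0 ≤ t₀) (h1 : t₀ ≤ t)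
    (h2 : t < T) (hg0 : ∀ s ∈ Ioo t₀ t, 0 ≤ g s) (hgi : IntegrableOn g (Icc t₀ t))
    (hgB : ∫ s in t₀..t, g s ≤ B)
    (hd : ∀ s ∈ Ioo t₀ t,
      -(2 * ν * palin (u s)) - 2 * cub (fun i y => u s y i) ≤ g s * enstrophy (u s)) :
    enstrophy (u t) ≤ enstrophy (u t₀) * Real.exp B := by
  set y : ℝ → ℝ := fun s => enstrophy (u s) with hy
  have hy0 : ∀ s, 0 ≤ y s := fun s => enstrophy_nonneg _
  have hyc : ContinuousOn y (Icc t₀ t) :=
    h.enstrophy_continuousOn.mono fun s hs => ⟨h0.trans hs.1, hs.2.trans_lt h2⟩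
  have hlog : ∀ ε : ℝ, 0 < ε → y t + ε ≤ (y t₀ + ε) * Real.exp B := by
    intro ε hε
    have hpos : ∀ s, 0 < y s + ε := fun s => by linarith [hy0 s]
    have hc : ContinuousOn (fun s => Real.log (y s + ε)) (Icc t₀ t) :=
      (hyc.add continuousOn_const).log fun s _ => (hpos s).ne'
    have hd' : ∀ s ∈ Ioo t₀ t, HasDerivWithinAt (fun s => Real.log (y s + ε))
        ((-(2 * ν * palin (u s)) - 2 * cub (fun i y => u s y i)) / (y s + ε)) (Ioi s) s := by
      intro s hs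
      exact (((h.enstrophy_hasDerivAt ⟨h0.trans_lt hs.1, hs.2.trans h2⟩).add_const ε).log
        (hpos s).ne').hasDerivWithinAt
    have hle : ∀ s ∈ Ioo t₀ t,
        (-(2 * ν * palin (u s)) - 2 * cub (fun i y => u s y i)) / (y s + ε) ≤ g s := by
      intro s hs
      rw [div_le_iff₀ (hpos s)]
      refine (hd s hs).trans ?_
      exact mul_le_mul_of_nonneg_left (by linarith) (hg0 s hs)
    have h3 := intervalIntegral.sub_le_integral_of_hasDeriv_right_of_le h1 hc hd' hgi hle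
    have h4 : Real.log (y t + ε) ≤ Real.log (y t₀ + ε) + B := by linarith
    calc y t + ε = Real.exp (Real.log (y t + ε)) := (Real.exp_log (hpos t)).symm
      _ ≤ Real.exp (Real.log (y t₀ + ε) + B) := Real.exp_le_exp.2 h4
      _ = (y t₀ + ε) * Real.exp B := by rw [Real.exp_add, Real.exp_log (hpos t₀)]
  have hlim1 : Tendsto (fun ε : ℝ => y t + ε) (𝓝[>] 0) (𝓝 (y t + 0)) :=
    (tendsto_const_nhds.add tendsto_id).mono_left nhdsWithin_le_nhds
  have hlim2 : Tendsto (fun ε : ℝ => (y t₀ + ε) * Real.exp B) (𝓝[>] 0)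
      (𝓝 ((y t₀ + 0) * Real.exp B)) :=
    ((tendsto_const_nhds.add tendsto_id).mul_const _).mono_left nhdsWithin_le_nhds
  have := le_of_tendsto_of_tendsto hlim1 hlim2 (by
    filter_upwards [self_mem_nhdsWithin] with ε hε
    exact hlog ε hε)
  simpa using this

/-- A bound of the enstrophy from the time `t₀` on gives a bounded velocity. -/
theorem bounded_of_enst_from (h : IsSol ν T u p) (hν : 0 < ν) {t₀ Y : ℝ} (ht₀ : t₀ ∈ Ico 0 T)
    (hY : ∀ t ∈ Ico t₀ T, enstrophy (u t) ≤ Y) : ∃ C, ∀ t ∈ Ico 0 T, ∀ x i, |u t x i| ≤ C := by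
  have hc : ContinuousOn (fun s => enstrophy (u s)) (Icc 0 t₀) :=
    h.enstrophy_continuousOn.mono fun s hs => ⟨hs.1, hs.2.trans_lt ht₀.2⟩
  obtain ⟨Y1, hY1⟩ := isCompact_Icc.bddAbove_image hc
  refine Pool.Agent.W734.NS.bounded_of_enstrophy h hν (Y := max Y Y1) fun t ht => ?_
  rcases le_or_gt t₀ t with h1 | h1
  · exact (hY t ⟨h1, ht.2⟩).trans (le_max_left _ _)
  · exact (hY1 ⟨t, ⟨ht.1, h1.le⟩, rfl⟩).trans (le_max_right _ _)

theorem bounded_from (h : IsSol ν T u p) (hν : 0 < ν) {g : ℝ → ℝ} {t₀ : ℝ} (ht₀ : t₀ ∈ Ico 0 T)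
    (hg0 : ∀ s ∈ Ioo t₀ T, 0 ≤ g s) (hgi : IntegrableOn g (Ioo t₀ T))
    (hd : ∀ s ∈ Ioo t₀ T,
      -(2 * cub (fun i y => u s y i)) ≤ 7 / 4 * ν * palin (u s) + g s * enstrophy (u s)) :
    ∃ C, ∀ t ∈ Ico 0 T, ∀ x i, |u t x i| ≤ C := by
  refine bounded_of_enst_from h hν ht₀
    (Y := enstrophy (u t₀) * Real.exp (∫ s in Ioo t₀ T, g s)) fun t ht => ?_
  refine gron_from h ht₀.1 ht.1 ht.2 (fun s hs => hg0 s ⟨hs.1, hs.2.trans ht.2⟩) ?_ ?_
    (fun s hs => ?_)
  · rw [integrableOn_Icc_iff_integrableOn_Ioc, integrableOn_Ioc_iff_integrableOn_Ioo]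
    exact hgi.mono_set (Ioo_subset_Ioo_right ht.2.le)
  · rw [intervalIntegral.integral_of_le ht.1, integral_Ioc_eq_integral_Ioo]
    refine setIntegral_mono_set hgi ?_ (Ioo_subset_Ioo_right ht.2.le).eventuallyLE
    exact (ae_restrict_iff' measurableSet_Ioo).2 (Eventually.of_forall hg0)
  · have h1 := hd s ⟨hs.1, hs.2.trans ht.2⟩
    have h2 : 0 ≤ ν * palin (u s) := mul_nonneg hν.le (palin_nonneg _)
    linarith

theorem coef_continuousOn (h : IsSol ν T u p) (i : Fin 3) (k : K3) :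
    ContinuousOn (fun t => fr (fun x => u t x i) k) (Ioo 0 T) := fun t ht =>
  (hasDerivAt_frc (F := fun s y => u s y i) (h.smooth_c i) ht k).continuousAt.continuousWithinAt

theorem isOpen_active (h : IsSol ν T u p) (a : ℝ) (k : K3) :
    IsOpen (Ioo 0 T ∩ {t | Active a (u t) k}) := by
  have e : Ioo 0 T ∩ {t | Active a (u t) k}
      = ⋃ i, Ioo 0 T ∩ (fun t => ‖k‖ ^ 2 * ‖fr (fun x => u t x i) k‖) ⁻¹' Ioi a := by
    ext t
    simp only [mem_inter_iff, mem_ofPred_eq, mem_iUnion, mem_preimage, mem_Ioi, Active]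
    tauto
  rw [e]
  refine isOpen_iUnion fun i => ?_
  exact (continuousOn_const.mul (coef_continuousOn h i k).norm).isOpen_inter_preimage isOpen_Ioo
    isOpen_Ioi

theorem isOpen_least (h : IsSol ν T u p) (a : ℝ) (l : K3) :
    IsOpen (Ioo 0 T ∩ {t | Least a (u t) l}) := by
  have e : Ioo 0 T ∩ {t | Least a (u t) l} = (Ioo 0 T ∩ {t | Active a (u t) l}) ∩
      ⋃ m : K3, ⋃ n : K3, ⋃ _ : l + m + n = 0 ∧ crossProduct l m ≠ 0 ∧ ‖l‖ ≤ ‖m‖ ∧ ‖l‖ ≤ ‖n‖,
        (Ioo 0 T ∩ {t | Active a (u t) m}) ∩ (Ioo 0 T ∩ {t | Active a (u t) n}) := by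
    ext t
    simp only [mem_inter_iff, mem_ofPred_eq, mem_iUnion, Least, exists_prop]
    constructor
    · rintro ⟨ht, hl, m, n, hm, hn, h1, h2, h3, h4⟩
      exact ⟨⟨ht, hl⟩, m, n, ⟨h1, h2, h3, h4⟩, ⟨ht, hm⟩, ht, hn⟩
    · rintro ⟨⟨ht, hl⟩, m, n, ⟨h1, h2, h3, h4⟩, ⟨-, hm⟩, -, hn⟩
      exact ⟨ht, hl, m, n, hm, hn, h1, h2, h3, h4⟩
  rw [e]
  refine (isOpen_active h a l).inter ?_
  exact isOpen_iUnion fun m => isOpen_iUnion fun n => isOpen_iUnion fun _ =>
    (isOpen_active h a m).inter (isOpen_active h a n)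

theorem aemeas_wsum (s : ℝ) {S : ℝ → Set K3} (hS : ∀ k, IsOpen (Ioo 0 T ∩ {t | k ∈ S t}))
    {t₀ : ℝ} (h0 : 0 ≤ t₀) :
    AEMeasurable (fun t => wsum s (S t)) (volume.restrict (Ioo t₀ T)) := by
  have h1 : Measurable fun t => ∑' k : K3, (Ioo 0 T ∩ {t | k ∈ S t}).indicator
      (fun _ => ENNReal.ofReal (‖k‖ ^ (-s))) t :=
    Measurable.tsum fun k => measurable_const.indicator (hS k).measurableSet
  refine h1.aemeasurable.congr ?_
  refine (ae_restrict_iff' measurableSet_Ioo).2 (Eventually.of_forall fun t ht => ?_)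
  simp only [wsum]
  rw [tsum_subtype (S t) fun k : K3 => ENNReal.ofReal (‖k‖ ^ (-s))]
  refine tsum_congr fun k => ?_
  by_cases hk : k ∈ S t
  · rw [indicator_of_mem hk, indicator_of_mem]
    exact ⟨⟨h0.trans_lt ht.1, ht.2⟩, hk⟩
  · rw [indicator_of_notMem hk, indicator_of_notMem]
    exact fun h => hk h.2

end Q186.AM
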