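import Pool.Agent.Q186.AMf

/-!
The statements about blow-up: sums.
-/

open MeasureTheory Set Filter Topology
open scoped ENNReal

namespace Q186.AM

open H459R3.NS hiding box
open Pool.Agent.Q63.Win

variable {ν T : ℝ} {u : ℝ → V → V} {p : ℝ → V → ℝ}

/-- The energy bound for the active modes. -/
theorem energy_active (h : IsSol ν T u p) (hν : 0 < ν) :
    ∫⁻ t in Ioo 0 T, wsum 2 {k | Active (1 / 2000 * ν) (u t) k}
      ≤ ENNReal.ofReal (51000 * energy (u 0) / ν ^ 3) := by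
  rcases le_or_gt T 0 with hT | hT
  · rw [Ioo_eq_empty (by linarith)]
    simp
  have hpi := Real.pi_pos
  have ha : 0 < 1 / 2000 * ν := by positivity
  have hi := int_enst h hν hT
  set c : ℝ := ((2 * Real.pi) ^ 2 * (1 / 2000 * ν) ^ 2)⁻¹ with hc
  have hc0 : 0 ≤ c := by positivity
  calc ∫⁻ t in Ioo 0 T, wsum 2 {k | Active (1 / 2000 * ν) (u t) k}
      ≤ ∫⁻ t in Ioo 0 T, ENNReal.ofReal (c * enstrophy (u t)) := by
        refine setLIntegral_mono' measurableSet_Ioo fun t ht => ?_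
        refine (wsum_active_le (fun i => h.sp ⟨ht.1.le, ht.2⟩ i) ha).trans (le_of_eq ?_)
        rw [hc, div_eq_inv_mul]
    _ = ENNReal.ofReal (∫ t in Ioo 0 T, c * enstrophy (u t)) := by
        rw [ofReal_integral_eq_lintegral_ofReal (hi.const_mul c)]
        exact Eventually.of_forall fun t => mul_nonneg hc0 (enstrophy_nonneg _)
    _ ≤ _ := by
        refine ENNReal.ofReal_le_ofReal ?_
        rw [integral_const_mul]
        have h1 := int_enst_le h hν hT
        have hE := energy_nonneg (u 0)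
        calc c * ∫ t in Ioo 0 T, enstrophy (u t) ≤ c * (energy (u 0) / (2 * ν)) := by gcongr
          _ = (500000 / Real.pi ^ 2) * (energy (u 0) / ν ^ 3) := by
            rw [hc]
            field_simp
            ring
          _ ≤ 51000 * (energy (u 0) / ν ^ 3) := by
            gcongr
            rw [div_le_iff₀ (by positivity)]
            nlinarith [Real.pi_gt_d2]
          _ = _ := by ring

theorem least_fin (h : IsSol ν T u p) (hν : 0 < ν) {t : ℝ} (ht : t ∈ Ico 0 T) :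
    {l | Least (1 / 2000 * ν) (u t) l}.Finite :=
  (finite_active (fun i => h.sp ht i) (by positivity)).subset (least_sub _ _)

theorem blow_lintegral (h : IsSol ν T u p) (hν : 0 < ν)
    (hbl : ¬ ∃ C, ∀ t ∈ Ico 0 T, ∀ x i, |u t x i| ≤ C) {t₀ : ℝ} (ht₀ : t₀ ∈ Ico 0 T) {s : ℝ}
    (hs1 : -2 ≤ s) (hs2 : s < 2) :
    ∫⁻ t in Ioo t₀ T, wsum s {l | Least (1 / 2000 * ν) (u t) l} ^ (2 / (2 - s)) = ⊤ := by
  by_contra hne
  apply hbl
  have hT : 0 < T := ht₀.1.trans_lt ht₀.2
  have hE := energy_nonneg (u 0)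
  set K : ℝ := 1 / (4 * ν) * (119 * energy (u 0)) ^ (1 - s / 2)
    + 6 * (119 * energy (u 0)) ^ (-(s / 4)) with hK
  have hK0 : 0 ≤ K := by positivity
  have hm : AEMeasurable (fun t => wsum s {l | Least (1 / 2000 * ν) (u t) l} ^ (2 / (2 - s)))
      (volume.restrict (Ioo t₀ T)) :=
    (aemeas_wsum s (fun k => isOpen_least h (1 / 2000 * ν) k) ht₀.1).pow_const _
  have hi1 : IntegrableOn (fun t => (wsum s {l | Least (1 / 2000 * ν) (u t) l}
      ^ (2 / (2 - s))).toReal) (Ioo t₀ T) := integrable_toReal_of_lintegral_ne_top hm hne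
  have hi2 : IntegrableOn (fun t => enstrophy (u t)) (Ioo t₀ T) :=
    (int_enst h hν hT).mono_set (Ioo_subset_Ioo_left ht₀.1)
  refine bounded_from h hν ht₀ (g := fun t => K * ((wsum s {l | Least (1 / 2000 * ν) (u t) l}
      ^ (2 / (2 - s))).toReal + enstrophy (u t))) (fun t ht => ?_) ((hi1.add hi2).const_mul K)
      (fun t ht => ?_)
  · exact mul_nonneg hK0 (add_nonneg ENNReal.toReal_nonneg (enstrophy_nonneg _))
  · have hI : t ∈ Ico 0 T := ⟨ht₀.1.trans ht.1.le, ht.2⟩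
    have h1 := prod_s (v := u t) (fun i => h.sp hI i) (h.divfree t hI) hν hs1 hs2 hE
      (h.energy_le hν hI)
    rw [ENNReal.toReal_rpow] at h1
    exact h1

theorem blow_sum (h : IsSol ν T u p) (hν : 0 < ν)
    (hbl : ¬ ∃ C, ∀ t ∈ Ico 0 T, ∀ x i, |u t x i| ≤ C) {t₀ : ℝ} (ht₀ : t₀ ∈ Ico 0 T) (B : ℝ) :
    ∃ t ∈ Ioo t₀ T, ENNReal.ofReal B < wsum 2 {l | Least (1 / 2000 * ν) (u t) l} := by
  by_contra hcon
  push Not at hcon
  apply hbl
  have hT : 0 < T := ht₀.1.trans_lt ht₀.2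
  have hi2 : IntegrableOn (fun t => enstrophy (u t)) (Ioo t₀ T) :=
    (int_enst h hν hT).mono_set (Ioo_subset_Ioo_left ht₀.1)
  refine bounded_from h hν ht₀ (g := fun t => 1 / (4 * ν) * max B 0 * enstrophy (u t))
    (fun t ht => ?_) (hi2.const_mul _) (fun t ht => ?_)
  · have := enstrophy_nonneg (u t)
    positivity
  · have hI : t ∈ Ico 0 T := ⟨ht₀.1.trans ht.1.le, ht.2⟩
    have h1 := prod_theta (v := u t) (fun i => h.sp hI i) (h.divfree t hI) hν
      (h.energy_le hν hI) (θ := 1) (by norm_num) le_rfl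
    rw [mul_one, sub_self, Real.rpow_zero, one_mul, Real.rpow_one] at h1
    have h2 : (wsum 2 {l | Least (1 / 2000 * ν) (u t) l}).toReal ≤ max B 0 := by
      refine ENNReal.toReal_le_of_le_ofReal (le_max_right _ _) ((hcon t ht).trans ?_)
      exact ENNReal.ofReal_le_ofReal (le_max_left _ _)
    refine h1.trans ?_
    have hy := enstrophy_nonneg (u t)
    have h3 : 1 / (4 * ν) * ((wsum 2 {l | Least (1 / 2000 * ν) (u t) l}).toReal
        * enstrophy (u t)) * enstrophy (u t)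
        ≤ 1 / (4 * ν) * (max B 0 * enstrophy (u t)) * enstrophy (u t) := by gcongr
    linarith

/-- The enstrophy is positive before a blow-up. -/
theorem enst_pos (h : IsSol ν T u p) (hν : 0 < ν)
    (hbl : ¬ ∃ C, ∀ t ∈ Ico 0 T, ∀ x i, |u t x i| ≤ C) {t₀ : ℝ} (ht₀ : t₀ ∈ Ico 0 T) :
    0 < enstrophy (u t₀) := by
  by_contra hcon
  have hz : enstrophy (u t₀) = 0 := le_antisymm (not_lt.1 hcon) (enstrophy_nonneg _)
  apply hbl
  refine bounded_of_enst_from h hν ht₀ (Y := 0) fun t ht => ?_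
  have hpi := Real.pi_pos
  have ha : 0 < 1 / 2000 * ν := by positivity
  set c : ℝ := 1 / (4 * ν) * ((2 * Real.pi) ^ 2 * (1 / 2000 * ν) ^ 2)⁻¹ with hc
  have hc0 : 0 ≤ c := by positivity
  have hcont : ContinuousOn (fun s => c * enstrophy (u s) ^ 2) (Icc t₀ t) :=
    continuousOn_const.mul ((h.enstrophy_continuousOn.mono fun s hs =>
      ⟨ht₀.1.trans hs.1, hs.2.trans_lt ht.2⟩).pow 2)
  have h1 := gron_from h (g := fun s => c * enstrophy (u s) ^ 2) (B := ∫ s in t₀..t,
    c * enstrophy (u s) ^ 2) ht₀.1 ht.1 ht.2 (fun s hs => by positivity)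
    hcont.integrableOn_Icc le_rfl (fun s hs => by
      have hI : s ∈ Ico 0 T := ⟨ht₀.1.trans hs.1.le, hs.2.trans ht.2⟩
      have h1 := prod_theta (v := u s) (fun i => h.sp hI i) (h.divfree s hI) hν
        (h.energy_le hν hI) (θ := 1) (by norm_num) le_rfl
      rw [mul_one, sub_self, Real.rpow_zero, one_mul, Real.rpow_one] at h1
      have hy := enstrophy_nonneg (u s)
      have h2 : (wsum 2 {l | Least (1 / 2000 * ν) (u s) l}).toReal
          ≤ enstrophy (u s) / ((2 * Real.pi) ^ 2 * (1 / 2000 * ν) ^ 2) := by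
        refine ENNReal.toReal_le_of_le_ofReal (by positivity) ?_
        exact (wsum_mono 2 (least_sub _ _)).trans (wsum_active_le (fun i => h.sp hI i) ha)
      have h3 : 1 / (4 * ν) * ((wsum 2 {l | Least (1 / 2000 * ν) (u s) l}).toReal
          * enstrophy (u s)) * enstrophy (u s)
          ≤ 1 / (4 * ν) * (enstrophy (u s) / ((2 * Real.pi) ^ 2 * (1 / 2000 * ν) ^ 2)
            * enstrophy (u s)) * enstrophy (u s) := by gcongr
      have h4 : 1 / (4 * ν) * (enstrophy (u s) / ((2 * Real.pi) ^ 2 * (1 / 2000 * ν) ^ 2)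
            * enstrophy (u s)) * enstrophy (u s) = c * enstrophy (u s) ^ 2 * enstrophy (u s) := by
        rw [hc]
        field_simp
      have h5 : 0 ≤ ν * palin (u s) := mul_nonneg hν.le (palin_nonneg _)
      linarith)
  rw [hz, zero_mul] at h1
  exact h1

theorem energy_pos (h : IsSol ν T u p) (hν : 0 < ν)
    (hbl : ¬ ∃ C, ∀ t ∈ Ico 0 T, ∀ x i, |u t x i| ≤ C) (hT : 0 < T) : 0 < energy (u 0) := by
  by_contra hcon
  have hz : energy (u 0) = 0 := le_antisymm (not_lt.1 hcon) (energy_nonneg _)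
  apply hbl
  refine bounded_from h hν (t₀ := 0) ⟨le_rfl, hT⟩ (g := fun _ => 0) (fun t ht => le_rfl)
    (by simp [IntegrableOn]) (fun t ht => ?_)
  have hI : t ∈ Ico 0 T := ⟨ht.1.le, ht.2⟩
  have h1 := prod_theta (v := u t) (fun i => h.sp hI i) (h.divfree t hI) hν
    (h.energy_le hν hI) (θ := 0) le_rfl (by norm_num)
  rw [hz, mul_zero, mul_zero, sub_zero, Real.rpow_one, zero_mul, mul_zero, mul_zero, zero_mul] at h1
  simpa using h1

theorem lower_aux (h : IsSol ν T u p) (hν : 0 < ν)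
    (hbl : ¬ ∃ C, ∀ t ∈ Ico 0 T, ∀ x i, |u t x i| ≤ C) {t₀ : ℝ} (ht₀ : t₀ ∈ Ico 0 T)
    {θ κ : ℝ} (hθ : 0 < θ) (hκ : 0 ≤ κ) {m : ℝ → ℝ} (hm0 : ∀ s ∈ Ioo t₀ T, 0 ≤ m s)
    (hm : IntegrableOn m (Ioo t₀ T)) (hd : ∀ s ∈ Ioo t₀ T, -(2 * cub (fun i y => u s y i))
      ≤ 7 / 4 * ν * palin (u s) + κ * m s * enstrophy (u s) ^ θ * enstrophy (u s)) :
    1 ≤ θ * κ * (∫ s in Ioo t₀ T, m s) * enstrophy (u t₀) ^ θ := by
  set y : ℝ → ℝ := fun s => enstrophy (u s) with hy
  have hy0 : ∀ s, 0 ≤ y s := fun s => enstrophy_nonneg _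
  set I := ∫ s in Ioo t₀ T, m s with hI
  have hI0 : 0 ≤ I := setIntegral_nonneg measurableSet_Ioo hm0
  -- the inequality up to the time `t`
  have key : ∀ ε : ℝ, 0 < ε → ∀ t ∈ Ico t₀ T,
      (y t₀ + ε) ^ (-θ) ≤ (y t + ε) ^ (-θ) + θ * κ * I := by
    intro ε hε t ht
    have hpos : ∀ s, 0 < y s + ε := fun s => by linarith [hy0 s]
    have hyc : ContinuousOn y (Icc t₀ t) :=
      h.enstrophy_continuousOn.mono fun s hs => ⟨ht₀.1.trans hs.1, hs.2.trans_lt ht.2⟩
    have hc : ContinuousOn (fun s => -(y s + ε) ^ (-θ)) (Icc t₀ t) :=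
      ((hyc.add continuousOn_const).rpow_const fun s _ => Or.inl (hpos s).ne').neg
    have hd' : ∀ s ∈ Ioo t₀ t, HasDerivWithinAt (fun s => -(y s + ε) ^ (-θ))
        (-((-(2 * ν * palin (u s)) - 2 * cub (fun i y => u s y i)) * (-θ)
          * (y s + ε) ^ (-θ - 1))) (Ioi s) s := by
      intro s hs
      exact (((h.enstrophy_hasDerivAt ⟨ht₀.1.trans_lt hs.1, hs.2.trans ht.2⟩).add_const
        ε).rpow_const (Or.inl (hpos s).ne')).neg.hasDerivWithinAt
    have hmi : IntegrableOn (fun s => θ * κ * m s) (Icc t₀ t) := by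
      rw [integrableOn_Icc_iff_integrableOn_Ioc, integrableOn_Ioc_iff_integrableOn_Ioo]
      exact (hm.mono_set (Ioo_subset_Ioo_right ht.2.le)).const_mul _
    have hle : ∀ s ∈ Ioo t₀ t, -((-(2 * ν * palin (u s)) - 2 * cub (fun i y => u s y i)) * (-θ)
          * (y s + ε) ^ (-θ - 1)) ≤ θ * κ * m s := by
      intro s hs
      have hs' : s ∈ Ioo t₀ T := ⟨hs.1, hs.2.trans ht.2⟩
      have h1 := hd s hs'
      have h2 : 0 ≤ ν * palin (u s) := mul_nonneg hν.le (palin_nonneg _)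
      have h3 : -(2 * ν * palin (u s)) - 2 * cub (fun i y => u s y i)
          ≤ κ * m s * y s ^ θ * y s := by linarith
      have hr0 : 0 ≤ (y s + ε) ^ (-θ - 1) := Real.rpow_nonneg (hpos s).le _
      have h4 : y s ^ θ * y s * (y s + ε) ^ (-θ - 1) ≤ 1 := by
        have h5 : y s ^ θ * y s ≤ (y s + ε) ^ (θ + 1) := by
          rw [Real.rpow_add_one (hpos s).ne']
          exact mul_le_mul (Real.rpow_le_rpow (hy0 s) (by linarith) hθ.le) (by linarith) (hy0 s)
            (Real.rpow_nonneg (hpos s).le _)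
        calc y s ^ θ * y s * (y s + ε) ^ (-θ - 1)
            ≤ (y s + ε) ^ (θ + 1) * (y s + ε) ^ (-θ - 1) := by gcongr
          _ = 1 := by
            rw [← Real.rpow_add (hpos s)]
            have : θ + 1 + (-θ - 1) = 0 := by ring
            rw [this, Real.rpow_zero]
      have hm1 := hm0 s hs'
      calc -((-(2 * ν * palin (u s)) - 2 * cub (fun i y => u s y i)) * (-θ)
            * (y s + ε) ^ (-θ - 1))
          = (-(2 * ν * palin (u s)) - 2 * cub (fun i y => u s y i)) *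
            (θ * (y s + ε) ^ (-θ - 1)) := by ring
        _ ≤ (κ * m s * y s ^ θ * y s) * (θ * (y s + ε) ^ (-θ - 1)) :=
            mul_le_mul_of_nonneg_right h3 (by positivity)
        _ = θ * κ * m s * (y s ^ θ * y s * (y s + ε) ^ (-θ - 1)) := by ring
        _ ≤ θ * κ * m s * 1 := by gcongr
        _ = _ := mul_one _
    have h3 := intervalIntegral.sub_le_integral_of_hasDeriv_right_of_le ht.1 hc hd' hmi hle
    have h4 : ∫ s in t₀..t, θ * κ * m s ≤ θ * κ * I := by
      rw [intervalIntegral.integral_const_mul, intervalIntegral.integral_of_le ht.1,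
        integral_Ioc_eq_integral_Ioo]
      gcongr
      refine setIntegral_mono_set hm ?_ (Ioo_subset_Ioo_right ht.2.le).eventuallyLE
      exact (ae_restrict_iff' measurableSet_Ioo).2 (Eventually.of_forall hm0)
    linarith
  -- the enstrophy is unbounded
  have key2 : ∀ ε : ℝ, 0 < ε → (y t₀ + ε) ^ (-θ) ≤ θ * κ * I := by
    intro ε hε
    refine le_of_forall_pos_le_add fun δ hδ => ?_
    obtain ⟨t, ht, h1⟩ : ∃ t ∈ Ico t₀ T, δ ^ (-(1 / θ)) < y t := by
      by_contra hcon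
      push Not at hcon
      exact hbl (bounded_of_enst_from h hν ht₀ hcon)
    have h2 := key ε hε t ht
    have h3 : (y t + ε) ^ (-θ) ≤ δ := by
      have h4 : δ ^ (-(1 / θ)) ≤ y t + ε := by linarith
      have h5 : 0 < δ ^ (-(1 / θ)) := Real.rpow_pos_of_pos hδ _
      have h6 := Real.rpow_le_rpow_of_nonpos h5 h4 (by linarith : -θ ≤ 0)
      refine h6.trans (le_of_eq ?_)
      rw [← Real.rpow_mul hδ.le]
      have : -(1 / θ) * -θ = 1 := by field_simp
      rw [this, Real.rpow_one]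
    linarith
  have key3 : ∀ ε : ℝ, 0 < ε → 1 ≤ θ * κ * I * (y t₀ + ε) ^ θ := by
    intro ε hε
    have hpos : 0 < y t₀ + ε := by linarith [hy0 t₀]
    have h1 := key2 ε hε
    have h2 : 0 ≤ (y t₀ + ε) ^ θ := Real.rpow_nonneg hpos.le _
    calc (1 : ℝ) = (y t₀ + ε) ^ (-θ) * (y t₀ + ε) ^ θ := by
          rw [← Real.rpow_add hpos]
          simp
      _ ≤ _ := by gcongr
  have hlim : Tendsto (fun ε : ℝ => θ * κ * I * (y t₀ + ε) ^ θ) (𝓝[>] 0)
      (𝓝 (θ * κ * I * (y t₀ + 0) ^ θ)) := by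
    refine Tendsto.mono_left ?_ nhdsWithin_le_nhds
    have hc : Continuous fun ε : ℝ => θ * κ * I * (y t₀ + ε) ^ θ :=
      continuous_const.mul ((continuous_const.add continuous_id).rpow_const fun _ => Or.inr hθ.le)
    exact hc.tendsto 0
  have := ge_of_tendsto hlim (by
    filter_upwards [self_mem_nhdsWithin] with ε hε
    exact key3 ε hε)
  rw [add_zero] at this
  exact this

theorem lower (h : IsSol ν T u p) (hν : 0 < ν)
    (hbl : ¬ ∃ C, ∀ t ∈ Ico 0 T, ∀ x i, |u t x i| ≤ C) {t₀ : ℝ} (ht₀ : t₀ ∈ Ico 0 T) {s : ℝ}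
    (hs1 : 0 < s) (hs2 : s ≤ 2) :
    ENNReal.ofReal (8 * ν / s) ≤ ENNReal.ofReal ((119 * energy (u 0)) ^ (1 - s / 2)
      * enstrophy (u t₀) ^ (s / 2)) * ∫⁻ t in Ioo t₀ T, wsum s {l | Least (1 / 2000 * ν) (u t) l} := by
  have hT : 0 < T := ht₀.1.trans_lt ht₀.2
  have hE := energy_pos h hν hbl hT
  have hy := enst_pos h hν hbl ht₀
  set Q : ℝ := (119 * energy (u 0)) ^ (1 - s / 2) with hQ
  have hQ0 : 0 < Q := Real.rpow_pos_of_pos (by positivity) _
  by_cases hne : ∫⁻ t in Ioo t₀ T, wsum s {l | Least (1 / 2000 * ν) (u t) l} = ⊤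
  · rw [hne, ENNReal.mul_top]
    · exact le_top
    · have : 0 < Q * enstrophy (u t₀) ^ (s / 2) := by positivity
      exact (ENNReal.ofReal_pos.2 this).ne'
  have hm : AEMeasurable (fun t => wsum s {l | Least (1 / 2000 * ν) (u t) l})
      (volume.restrict (Ioo t₀ T)) :=
    aemeas_wsum s (fun k => isOpen_least h (1 / 2000 * ν) k) ht₀.1
  have hi1 : IntegrableOn (fun t => (wsum s {l | Least (1 / 2000 * ν) (u t) l}).toReal)
      (Ioo t₀ T) := integrable_toReal_of_lintegral_ne_top hm hne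
  have h1 := lower_aux h hν hbl ht₀ (θ := s / 2) (κ := Q / (4 * ν)) (by positivity)
    (by positivity) (fun t _ => ENNReal.toReal_nonneg) hi1 (fun t ht => by
      have hI : t ∈ Ico 0 T := ⟨ht₀.1.trans ht.1.le, ht.2⟩
      have h2 := prod_theta (v := u t) (fun i => h.sp hI i) (h.divfree t hI) hν
        (h.energy_le hν hI) (θ := s / 2) (by positivity) (by linarith)
      have e : 2 * (s / 2) = s := by ring
      rw [e] at h2
      refine h2.trans (le_of_eq ?_)
      rw [← hQ]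
      field_simp)
  have h2 : ∫ t in Ioo t₀ T, (wsum s {l | Least (1 / 2000 * ν) (u t) l}).toReal
      = (∫⁻ t in Ioo t₀ T, wsum s {l | Least (1 / 2000 * ν) (u t) l}).toReal := by
    refine integral_toReal hm ?_
    refine (ae_restrict_iff' measurableSet_Ioo).2 (Eventually.of_forall fun t ht => ?_)
    exact wsum_lt_top s (least_fin h hν ⟨ht₀.1.trans ht.1.le, ht.2⟩)
  rw [h2] at h1
  set I := ∫⁻ t in Ioo t₀ T, wsum s {l | Least (1 / 2000 * ν) (u t) l} with hI
  rw [← ENNReal.ofReal_toReal hne, ← ENNReal.ofReal_mul (by positivity)]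
  refine ENNReal.ofReal_le_ofReal ?_
  rw [div_le_iff₀ hs1]
  have e : s / 2 * (Q / (4 * ν)) * I.toReal * enstrophy (u t₀) ^ (s / 2)
      = (Q * enstrophy (u t₀) ^ (s / 2) * I.toReal * s) / (8 * ν) := by
    field_simp
    ring
  rw [e, le_div_iff₀ (by positivity), one_mul] at h1
  exact h1

end Q186.AM
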