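import Pool.Agent.Q186.AMg

/-!
The statement about blow-up: the number of active modes.
-/

open MeasureTheory Set Filter Topology
open scoped ENNReal

namespace Q186.AM

open H459R3.NS hiding box
open Pool.Agent.Q63.Win

theorem tail4_aux {F : Finset K3} {B : ℝ} (hB : 0 ≤ B)
    (hF : ∀ m : ℕ, 1 ≤ m → ((F.filter fun l => N l ≤ m).card : ℝ) ≤ B * (m : ℝ) ^ 2) {R : ℕ}
    (hR : 1 ≤ R) (j : ℕ) :
    ∑ l ∈ F.filter (fun l => R < N l ∧ N l ≤ 2 ^ j * R), ((N l : ℝ) ^ 4)⁻¹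
      ≤ 16 / 3 * (B / (R : ℝ) ^ 2) * (1 - (1 / 4) ^ j) := by
  have hR0 : (0 : ℝ) < R := by exact_mod_cast hR
  induction j with
  | zero =>
    have : F.filter (fun l => R < N l ∧ N l ≤ 2 ^ 0 * R) = ∅ := by
      rw [Finset.filter_eq_empty_iff]
      rintro l _ ⟨h1, h2⟩
      rw [pow_zero, one_mul] at h2
      omega
    rw [this]
    simp
  | succ j ih =>
    have e : F.filter (fun l => R < N l ∧ N l ≤ 2 ^ (j + 1) * R)
        = F.filter (fun l => R < N l ∧ N l ≤ 2 ^ j * R)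
          ∪ F.filter (fun l => 2 ^ j * R < N l ∧ N l ≤ 2 ^ (j + 1) * R) := by
      ext l
      simp only [Finset.mem_filter, Finset.mem_union]
      have h1 : R ≤ 2 ^ j * R := Nat.le_mul_of_pos_left _ (by positivity)
      have h2 : 2 ^ (j + 1) * R = 2 * (2 ^ j * R) := by ring
      constructor
      · rintro ⟨h3, h4, h5⟩
        rcases le_or_gt (N l) (2 ^ j * R) with h6 | h6
        · exact Or.inl ⟨h3, h4, h6⟩
        · exact Or.inr ⟨h3, h6, h5⟩
      · rintro (⟨h3, h4, h5⟩ | ⟨h3, h4, h5⟩)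
        · exact ⟨h3, h4, by omega⟩
        · exact ⟨h3, by omega, h5⟩
    rw [e]
    have hdis : Disjoint (F.filter (fun l => R < N l ∧ N l ≤ 2 ^ j * R))
        (F.filter (fun l => 2 ^ j * R < N l ∧ N l ≤ 2 ^ (j + 1) * R)) := by
      rw [Finset.disjoint_left]
      intro l h1 h2
      simp only [Finset.mem_filter] at h1 h2
      omega
    rw [Finset.sum_union hdis]
    set X : ℝ := 2 ^ j * R with hX
    have hX0 : 0 < X := by positivity
    have h3 : ∑ l ∈ F.filter (fun l => 2 ^ j * R < N l ∧ N l ≤ 2 ^ (j + 1) * R),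
        ((N l : ℝ) ^ 4)⁻¹ ≤ 4 * B * (X ^ 2)⁻¹ := by
      have h4 : ∀ l ∈ F.filter (fun l => 2 ^ j * R < N l ∧ N l ≤ 2 ^ (j + 1) * R),
          ((N l : ℝ) ^ 4)⁻¹ ≤ (X ^ 4)⁻¹ := by
        intro l hl
        rw [Finset.mem_filter] at hl
        have h5 : X ≤ N l := by
          rw [hX]
          exact_mod_cast hl.2.1.le
        gcongr
      refine (Finset.sum_le_card_nsmul _ _ _ h4).trans ?_
      rw [nsmul_eq_mul]
      have h5 : ((F.filter (fun l => 2 ^ j * R < N l ∧ N l ≤ 2 ^ (j + 1) * R)).card : ℝ)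
          ≤ B * (2 * X) ^ 2 := by
        have h6 := hF (2 ^ (j + 1) * R) (by
          have : 0 < 2 ^ (j + 1) * R := by positivity
          omega)
        have h7 : ((F.filter (fun l => 2 ^ j * R < N l ∧ N l ≤ 2 ^ (j + 1) * R)).card : ℝ)
            ≤ ((F.filter fun l => N l ≤ 2 ^ (j + 1) * R).card : ℝ) := by
          have : (F.filter (fun l => 2 ^ j * R < N l ∧ N l ≤ 2 ^ (j + 1) * R)).card
              ≤ (F.filter fun l => N l ≤ 2 ^ (j + 1) * R).card := by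
            refine Finset.card_le_card fun l hl => ?_
            rw [Finset.mem_filter] at hl ⊢
            exact ⟨hl.1, hl.2.2⟩
          exact_mod_cast this
        refine h7.trans (h6.trans (le_of_eq ?_))
        rw [hX]
        push_cast
        ring
      calc _ ≤ B * (2 * X) ^ 2 * (X ^ 4)⁻¹ := by gcongr
        _ = 4 * B * (X ^ 2)⁻¹ := by
          field_simp
          ring
    have h4 : 4 * B * (X ^ 2)⁻¹ = 4 * (B / (R : ℝ) ^ 2) * (1 / 4) ^ j := by
      rw [hX]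
      have : ((2 : ℝ) ^ j * R) ^ 2 = 4 ^ j * (R : ℝ) ^ 2 := by
        rw [mul_pow, ← pow_mul, mul_comm j 2, pow_mul]
        norm_num
      rw [this, one_div, inv_pow]
      field_simp
    rw [h4] at h3
    have h5 : 16 / 3 * (B / (R : ℝ) ^ 2) * (1 - (1 / 4) ^ (j + 1))
        = 16 / 3 * (B / (R : ℝ) ^ 2) * (1 - (1 / 4) ^ j) + 4 * (B / (R : ℝ) ^ 2) * (1 / 4) ^ j := by
      rw [pow_succ]
      ring
    rw [h5]
    exact add_le_add ih h3

theorem tail4 {F : Finset K3} {B : ℝ} (hB : 0 ≤ B)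
    (hF : ∀ m : ℕ, 1 ≤ m → ((F.filter fun l => N l ≤ m).card : ℝ) ≤ B * (m : ℝ) ^ 2) {R : ℕ}
    (hR : 1 ≤ R) :
    ∑ l ∈ F.filter (fun l => R < N l), ((N l : ℝ) ^ 4)⁻¹ ≤ 6 * (B / (R : ℝ) ^ 2) := by
  have hR0 : (0 : ℝ) < R := by exact_mod_cast hR
  set j := F.sup N with hj
  have e : F.filter (fun l => R < N l) = F.filter (fun l => R < N l ∧ N l ≤ 2 ^ j * R) := by
    ext l
    simp only [Finset.mem_filter]
    refine ⟨fun h => ⟨h.1, h.2, ?_⟩, fun h => ⟨h.1, h.2.1⟩⟩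
    have h1 : N l ≤ j := Finset.le_sup (f := N) h.1
    have h2 : j < 2 ^ j := Nat.lt_two_pow_self
    have h3 : 2 ^ j ≤ 2 ^ j * R := Nat.le_mul_of_pos_right _ hR
    omega
  rw [e]
  refine (tail4_aux hB hF hR j).trans ?_
  have h1 : 0 ≤ B / (R : ℝ) ^ 2 := by positivity
  have h2 : (0 : ℝ) ≤ (1 / 4) ^ j := by positivity
  nlinarith

section field

variable {v : V → V} (hv : ∀ i, SP (fun x => v x i)) (hdiv : ∀ x, ∑ i, pd i (fun y => v y i) x = 0)

theorem bet_fin {L : Set K3} (hL : L.Finite) (hL0 : (0 : K3) ∉ L) (U : Fin 3 → K3 → ℂ) :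
    (bet (-1) L (ww U)).toReal = ∑ l ∈ hL.toFinset, (N l : ℝ)⁻¹ * W U l := by
  unfold bet
  have e1 : ∑' p : L, ENNReal.ofReal ((N (p : K3) : ℝ) ^ (-1 : ℝ)) * ww U p
      = ∑ l ∈ hL.toFinset, ENNReal.ofReal ((N l : ℝ)⁻¹ * W U l) := by
    rw [tsum_subtype L (fun p => ENNReal.ofReal ((N p : ℝ) ^ (-1 : ℝ)) * ww U p),
      tsum_eq_sum (s := hL.toFinset)]
    · refine Finset.sum_congr rfl fun l hl => ?_
      rw [indicator_of_mem (hL.mem_toFinset.1 hl), Real.rpow_neg_one,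
        ENNReal.ofReal_mul (by positivity)]
      rfl
    · intro l hl
      exact indicator_of_notMem (fun h => hl (hL.mem_toFinset.2 h)) _
  rw [e1, ← ENNReal.ofReal_sum_of_nonneg fun l _ => mul_nonneg (by positivity) (W_nonneg _ _),
    ENNReal.toReal_ofReal (Finset.sum_nonneg fun l _ => mul_nonneg (by positivity) (W_nonneg _ _))]

include hv in
theorem sum_low (F : Finset K3) :
    ∑ l ∈ F, ((N l : ℝ)⁻¹ * W (cf v) l) ^ 2 ≤ 119 * energy v := by
  have hE := energy_nonneg v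
  have h1 : ENNReal.ofReal (∑ l ∈ F, ((N l : ℝ)⁻¹ * W (cf v) l) ^ 2)
      ≤ ENNReal.ofReal (119 * energy v) := by
    refine le_trans ?_ (EE_le hv)
    rw [ENNReal.ofReal_sum_of_nonneg fun l _ => sq_nonneg _]
    unfold EE
    refine le_trans (Finset.sum_le_sum fun l _ => ?_) (ENNReal.sum_le_tsum F)
    unfold ww
    rw [← ENNReal.ofReal_pow (W_nonneg _ _), ← ENNReal.ofReal_mul (by positivity)]
    refine ENNReal.ofReal_le_ofReal (le_of_eq ?_)
    rw [Real.rpow_neg (Nat.cast_nonneg _), Real.rpow_two, mul_pow, inv_pow]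
  exact (ENNReal.ofReal_le_ofReal_iff (by positivity)).1 h1

include hv in
theorem sum_high (F : Finset K3) {H : ℝ} (hH0 : 0 ≤ H) (hH : palin v = H ^ 2) :
    ∑ l ∈ F, ((N l : ℝ) * W (cf v) l) ^ 2 ≤ (H / (2 * Real.pi)) ^ 2 := by
  have hpi := Real.pi_pos
  have h1 : ENNReal.ofReal (∑ l ∈ F, ((N l : ℝ) * W (cf v) l) ^ 2)
      ≤ ENNReal.ofReal ((H / (2 * Real.pi)) ^ 2) := by
    have h2 : PP (ww (cf v)) ≤ ENNReal.ofReal ((H / (2 * Real.pi)) ^ 2) := by
      rw [← PP_eq, ENNReal.ofReal_pow (by positivity)]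
      gcongr
      exact e2_Nww hv hH0 hH
    refine le_trans ?_ h2
    rw [ENNReal.ofReal_sum_of_nonneg fun l _ => sq_nonneg _]
    unfold PP
    refine le_trans (Finset.sum_le_sum fun l _ => ?_) (ENNReal.sum_le_tsum F)
    unfold ww
    rw [ENNReal.ofReal_pow (mul_nonneg (Nat.cast_nonneg _) (W_nonneg _ _)),
      ENNReal.ofReal_mul (Nat.cast_nonneg _), ENNReal.ofReal_natCast]
  exact (ENNReal.ofReal_le_ofReal_iff (by positivity)).1 h1

include hv in
/-- The sum over a set of modes with a quadratic counting function. -/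
theorem bet_count {L : Set K3} (hL : L.Finite) (hL0 : (0 : K3) ∉ L) {B H E0 : ℝ} (hB : 0 ≤ B)
    (hH0 : 0 ≤ H) (hH : palin v = H ^ 2) (hE : energy v ≤ E0)
    (hc : ∀ m : ℕ, 1 ≤ m → (({l ∈ L | N l ≤ m}).ncard : ℝ) ≤ B * (m : ℝ) ^ 2) {R : ℕ}
    (hR : 1 ≤ R) :
    (bet (-1) L (ww (cf v))).toReal ≤ Real.sqrt B * (R * Real.sqrt (119 * E0)
      + 3 * (H / (2 * Real.pi)) / R) := by
  classical
  have hpi := Real.pi_pos
  have hR0 : (0 : ℝ) < R := by exact_mod_cast hR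
  set F := hL.toFinset with hF
  have hcard : ∀ m : ℕ, 1 ≤ m → ((F.filter fun l => N l ≤ m).card : ℝ) ≤ B * (m : ℝ) ^ 2 := by
    intro m hm
    refine le_trans (le_of_eq ?_) (hc m hm)
    have : ({l ∈ L | N l ≤ m}) = ((F.filter fun l => N l ≤ m : Finset K3) : Set K3) := by
      ext l
      simp [hF]
    rw [this, Set.ncard_coe_finset]
  rw [bet_fin hL hL0, ← hF, ← Finset.sum_filter_add_sum_filter_not F (fun l => N l ≤ R)]
  have h1 : ∑ l ∈ F.filter (fun l => N l ≤ R), (N l : ℝ)⁻¹ * W (cf v) l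
      ≤ Real.sqrt B * (R * Real.sqrt (119 * E0)) := by
    have h2 := Real.sum_mul_le_sqrt_mul_sqrt (F.filter (fun l => N l ≤ R)) (fun _ => (1 : ℝ))
      (fun l => (N l : ℝ)⁻¹ * W (cf v) l)
    simp only [one_mul, one_pow, Finset.sum_const, nsmul_eq_mul, mul_one] at h2
    refine h2.trans ?_
    have h3 : Real.sqrt ((F.filter (fun l => N l ≤ R)).card : ℝ) ≤ Real.sqrt B * R := by
      refine (Real.sqrt_le_sqrt (hcard R hR)).trans (le_of_eq ?_)
      rw [Real.sqrt_mul hB, Real.sqrt_sq hR0.le]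
    have h4 : Real.sqrt (∑ l ∈ F.filter (fun l => N l ≤ R), ((N l : ℝ)⁻¹ * W (cf v) l) ^ 2)
        ≤ Real.sqrt (119 * E0) := by
      refine Real.sqrt_le_sqrt ((sum_low hv _).trans ?_)
      linarith
    calc _ ≤ Real.sqrt B * R * Real.sqrt (119 * E0) := by gcongr
      _ = _ := by ring
  have h5 : ∑ l ∈ F.filter (fun l => ¬ N l ≤ R), (N l : ℝ)⁻¹ * W (cf v) l
      ≤ Real.sqrt B * (3 * (H / (2 * Real.pi)) / R) := by
    have e1 : F.filter (fun l => ¬ N l ≤ R) = F.filter (fun l => R < N l) := by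
      ext l
      simp only [Finset.mem_filter, not_le]
    rw [e1]
    have e2 : ∀ l ∈ F.filter (fun l => R < N l), (N l : ℝ)⁻¹ * W (cf v) l
        = ((N l : ℝ) ^ 2)⁻¹ * ((N l : ℝ) * W (cf v) l) := by
      intro l hl
      rw [Finset.mem_filter] at hl
      have : (0 : ℝ) < N l := by
        have : 0 < N l := by omega
        exact_mod_cast this
      field_simp
    rw [Finset.sum_congr rfl e2]
    refine (Real.sum_mul_le_sqrt_mul_sqrt _ _ _).trans ?_
    have h3 : Real.sqrt (∑ l ∈ F.filter (fun l => R < N l), (((N l : ℝ) ^ 2)⁻¹) ^ 2)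
        ≤ 3 * Real.sqrt B / R := by
      have h6 : ∑ l ∈ F.filter (fun l => R < N l), (((N l : ℝ) ^ 2)⁻¹) ^ 2
          ≤ (3 * Real.sqrt B / R) ^ 2 := by
        have e3 : ∀ l : K3, (((N l : ℝ) ^ 2)⁻¹) ^ 2 = ((N l : ℝ) ^ 4)⁻¹ := by
          intro l
          rw [inv_pow, ← pow_mul]
        simp_rw [e3]
        refine (tail4 hB hcard hR).trans ?_
        rw [div_pow, mul_pow, Real.sq_sqrt hB]
        have : 0 ≤ B / (R : ℝ) ^ 2 := by positivity
        calc 6 * (B / (R : ℝ) ^ 2) ≤ 9 * (B / (R : ℝ) ^ 2) := by linarith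
          _ = _ := by ring
      calc _ ≤ Real.sqrt ((3 * Real.sqrt B / R) ^ 2) := Real.sqrt_le_sqrt h6
        _ = _ := Real.sqrt_sq (by positivity)
    have h4 : Real.sqrt (∑ l ∈ F.filter (fun l => R < N l), ((N l : ℝ) * W (cf v) l) ^ 2)
        ≤ H / (2 * Real.pi) := by
      calc _ ≤ Real.sqrt ((H / (2 * Real.pi)) ^ 2) := Real.sqrt_le_sqrt (sum_high hv _ hH0 hH)
        _ = _ := Real.sqrt_sq (by positivity)
    calc _ ≤ 3 * Real.sqrt B / R * (H / (2 * Real.pi)) := by gcongr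
      _ = _ := by ring
  rw [mul_add]
  exact add_le_add h1 h5

include hv hdiv in
theorem prod_count {ν E0 B : ℝ} (hν : 0 < ν) (hE : energy v ≤ E0) (hB : 0 ≤ B)
    (hc : ∀ m : ℕ, 1 ≤ m →
      (({l ∈ {l | Least (1 / 2000 * ν) v l} | N l ≤ m}).ncard : ℝ) ≤ B * (m : ℝ) ^ 2) :
    -(2 * cub (fun i x => v x i)) ≤ 7 / 4 * ν * palin v
      + 119 * B * E0 / ν * (B / ν ^ 2 * enstrophy v + 4) * enstrophy v := by
  have hpi := Real.pi_pos
  have ha : 0 < 1 / 2000 * ν := by positivity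
  have hE0 : 0 ≤ E0 := (energy_nonneg v).trans hE
  set G := Real.sqrt (enstrophy v) with hG
  set H := Real.sqrt (palin v) with hH
  have hG2 : enstrophy v = G ^ 2 := (Real.sq_sqrt (enstrophy_nonneg _)).symm
  have hH2 : palin v = H ^ 2 := (Real.sq_sqrt (palin_nonneg _)).symm
  have hG0 : 0 ≤ G := Real.sqrt_nonneg _
  have hH0 : 0 ≤ H := Real.sqrt_nonneg _
  have h1 := cub_le2 hv hdiv (a := 1 / 2000 * ν) ha hG0 hH0 hG2 hH2
  have h2 := small_const hν (palin_nonneg v)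
  rw [hH2] at h2
  have hfin : {l | Least (1 / 2000 * ν) v l}.Finite := (finite_active hv ha).subset (least_sub _ _)
  set b := (bet (-1) {l | Least (1 / 2000 * ν) v l} (ww (cf v))).toReal with hb
  have hb0 : 0 ≤ b := ENNReal.toReal_nonneg
  set q := Real.sqrt B with hq
  have hq0 : 0 ≤ q := Real.sqrt_nonneg _
  have hq2 : q ^ 2 = B := Real.sq_sqrt hB
  set R : ℕ := ⌈q * G / ν⌉₊ + 1 with hR
  have hR1 : 1 ≤ R := by omega
  have hRge : q * G / ν ≤ R := by
    have := Nat.le_ceil (q * G / ν)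
    rw [hR]
    push_cast
    linarith
  have hRle : (R : ℝ) ≤ q * G / ν + 2 := by
    have := Nat.ceil_lt_add_one (by positivity : 0 ≤ q * G / ν)
    rw [hR]
    push_cast
    linarith
  have hR0 : (0 : ℝ) < R := by exact_mod_cast hR1
  have h3 := bet_count hv hfin (zero_notMem_least ha.le v) hB hH0 hH2 hE hc hR1
  rw [← hb, ← hq] at h3
  set s := Real.sqrt (119 * E0) with hs
  have hs0 : 0 ≤ s := Real.sqrt_nonneg _
  have hs2 : s ^ 2 = 119 * E0 := Real.sq_sqrt (by positivity)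
  have h4 := (_root_.abs_le.1 h1).1
  -- `2 * 3 * b * H * G / (2 π) ≤ b H G`
  have h5 : 2 * (3 * (b * (H / (2 * Real.pi) * G))) ≤ b * (H * G) := by
    have e : 2 * (3 * (b * (H / (2 * Real.pi) * G))) = 3 / Real.pi * (b * (H * G)) := by
      field_simp
    rw [e]
    have h5 : 3 / Real.pi ≤ 1 := by
      rw [div_le_one hpi]
      exact Real.pi_gt_three.le
    have h6 : 0 ≤ b * (H * G) := by positivity
    nlinarith
  have h6 : b * (H * G) ≤ q * R * s * (H * G) + 3 / (2 * Real.pi) * (q * G / R) * H ^ 2 := by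
    calc b * (H * G) ≤ q * (R * s + 3 * (H / (2 * Real.pi)) / R) * (H * G) := by gcongr
      _ = _ := by
        field_simp
  have h7 : 3 / (2 * Real.pi) * (q * G / R) * H ^ 2 ≤ 1 / 2 * ν * H ^ 2 := by
    have h8 : q * G / R ≤ ν := by
      rw [div_le_iff₀ hR0]
      rw [div_le_iff₀ hν] at hRge
      linarith
    have h9 : 3 / (2 * Real.pi) ≤ 1 / 2 := by
      rw [div_le_div_iff₀ (by positivity) (by norm_num)]
      linarith [Real.pi_gt_three]
    have h10 : 0 ≤ q * G / R := by positivity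
    gcongr
  have h8 : q * R * s * (H * G) ≤ 1 / 2 * ν * H ^ 2 + 1 / (2 * ν) * (q * R * s) ^ 2 * G ^ 2 := by
    have h9 : 0 ≤ 1 / (2 * ν) * (ν * H - q * R * s * G) ^ 2 := by positivity
    have e : 1 / (2 * ν) * (ν * H - q * R * s * G) ^ 2
        = 1 / 2 * ν * H ^ 2 + 1 / (2 * ν) * (q * R * s) ^ 2 * G ^ 2 - q * R * s * (H * G) := by
      field_simp
      ring
    linarith
  have h9 : 1 / (2 * ν) * (q * R * s) ^ 2 * G ^ 2
      ≤ 119 * B * E0 / ν * (B / ν ^ 2 * G ^ 2 + 4) * G ^ 2 := by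
    have h10 : (R : ℝ) ^ 2 ≤ 2 * (B / ν ^ 2 * G ^ 2 + 4) := by
      have h11 : (R : ℝ) ^ 2 ≤ (q * G / ν + 2) ^ 2 := pow_le_pow_left₀ hR0.le hRle 2
      have h12 : (q * G / ν) ^ 2 = B / ν ^ 2 * G ^ 2 := by
        rw [div_pow, mul_pow, hq2]
        ring
      nlinarith [sq_nonneg (q * G / ν - 2)]
    calc 1 / (2 * ν) * (q * R * s) ^ 2 * G ^ 2
        = 119 * B * E0 / ν * ((R : ℝ) ^ 2 / 2) * G ^ 2 := by
          rw [mul_pow, mul_pow, hq2, hs2]
          field_simp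
      _ ≤ _ := by
        gcongr
        linarith
  rw [hH2, hG2]
  have h12 : 0 ≤ ν * H ^ 2 := by positivity
  linarith

end field

variable {ν T : ℝ} {u : ℝ → V → V} {p : ℝ → V → ℝ}

theorem blow_count (h : IsSol ν T u p) (hν : 0 < ν)
    (hbl : ¬ ∃ C, ∀ t ∈ Ico 0 T, ∀ x i, |u t x i| ≤ C) {t₀ : ℝ} (ht₀ : t₀ ∈ Ico 0 T) (B : ℝ) :
    ∃ t ∈ Ioo t₀ T, ∃ R : ℕ, 1 ≤ R ∧ B * (R : ℝ) ^ 2
      < (({l | Least (1 / 2000 * ν) (u t) l ∧ ‖l‖ ≤ R}).ncard : ℝ) := by
  by_contra hcon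
  push Not at hcon
  apply hbl
  have hT : 0 < T := ht₀.1.trans_lt ht₀.2
  have hB : 0 ≤ B := by
    have h1 := hcon ((t₀ + T) / 2) ⟨by linarith [ht₀.2], by linarith [ht₀.2]⟩ 1 le_rfl
    have h2 : (0 : ℝ) ≤ (({l | Least (1 / 2000 * ν) (u ((t₀ + T) / 2)) l
      ∧ ‖l‖ ≤ (1 : ℕ)}).ncard : ℝ) := by positivity
    simp only [Nat.cast_one, one_pow, mul_one] at h1 h2
    linarith
  have hE := energy_nonneg (u 0)
  have hi2 : IntegrableOn (fun t => enstrophy (u t)) (Ioo t₀ T) :=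
    (int_enst h hν hT).mono_set (Ioo_subset_Ioo_left ht₀.1)
  have hi3 : IntegrableOn (fun _ : ℝ => (4 : ℝ)) (Ioo t₀ T) :=
    integrableOn_const (by rw [Real.volume_Ioo]; exact ENNReal.ofReal_ne_top)
  have hi4 : IntegrableOn (fun t => B / ν ^ 2 * enstrophy (u t) + 4) (Ioo t₀ T) :=
    (hi2.const_mul (B / ν ^ 2)).add hi3
  refine bounded_from h hν ht₀ (g := fun t => 119 * B * energy (u 0) / ν *
    (B / ν ^ 2 * enstrophy (u t) + 4)) (fun t ht => ?_) (hi4.const_mul _) (fun t ht => ?_)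
  · have := enstrophy_nonneg (u t)
    positivity
  · have hI : t ∈ Ico 0 T := ⟨ht₀.1.trans ht.1.le, ht.2⟩
    refine prod_count (v := u t) (fun i => h.sp hI i) (h.divfree t hI) hν (h.energy_le hν hI) hB
      fun m hm => ?_
    have h1 := hcon t ht m hm
    have e : ({l ∈ {l | Least (1 / 2000 * ν) (u t) l} | N l ≤ m})
        = {l | Least (1 / 2000 * ν) (u t) l ∧ ‖l‖ ≤ m} := by
      ext l
      simp only [mem_ofPred_eq]
      rw [norm_eq_N]
      simp only [Nat.cast_le]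
    rw [e]
    exact h1

end Q186.AM
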