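import Mathlib

/-!
Winding numbers of closed curves through integrals, and a comparison argument for the oscillations
of a central force problem.
-/

namespace Q186.Ca

open Real Set Function MeasureTheory
open scoped ContDiff

/-- a closed nonvanishing curve has an integral winding number -/
lemma wind_int {ζ ζ' : ℝ → ℂ} {T : ℝ} (hd : ∀ t, HasDerivAt ζ (ζ' t) t) (hc : Continuous ζ')
    (hne : ∀ t, ζ t ≠ 0) (hT : ζ T = ζ 0) :
    ∃ N : ℤ, ∫ t in (0 : ℝ)..T, ζ' t / ζ t = 2 * π * N * Complex.I := by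
  have hζc : Continuous ζ := continuous_iff_continuousAt.2 fun t => (hd t).continuousAt
  have hq : Continuous (fun t => ζ' t / ζ t) := hc.div hζc hne
  set Ef : ℝ → ℂ := fun t => ∫ s in (0 : ℝ)..t, ζ' s / ζ s with hE
  have hdE : ∀ t, HasDerivAt Ef (ζ' t / ζ t) t := fun t =>
    intervalIntegral.integral_hasDerivAt_right (hq.intervalIntegrable 0 t)
      hq.stronglyMeasurable.stronglyMeasurableAtFilter hq.continuousAt
  have hconst : ∀ t, HasDerivAt (fun t => ζ t * Complex.exp (-Ef t)) 0 t := by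
    intro t
    have h1 := (hdE t).neg.cexp
    have h2 := (hd t).mul h1
    refine h2.congr_deriv ?_
    have := hne t
    simp only [Pi.neg_apply]
    field_simp
    ring
  have h0 : ζ T * Complex.exp (-Ef T) = ζ 0 * Complex.exp (-Ef 0) :=
    is_const_of_deriv_eq_zero (fun t => (hconst t).differentiableAt)
      (fun t => (hconst t).deriv) T 0
  have hE0 : Ef 0 = 0 := by simp [hE]
  rw [hE0, neg_zero, Complex.exp_zero, mul_one, hT] at h0
  have h1 : Complex.exp (-Ef T) = 1 := by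
    have := hne 0
    field_simp at h0
    exact h0
  rw [Complex.exp_neg, inv_eq_one, Complex.exp_eq_one_iff] at h1
  obtain ⟨N, hN⟩ := h1
  refine ⟨N, ?_⟩
  rw [show (∫ t in (0 : ℝ)..T, ζ' t / ζ t) = Ef T from rfl, hN]
  ring

/-- two closed curves that never point in opposite directions have the same winding number -/
lemma wind_eq {ζ₁ ζ₁' ζ₂ ζ₂' : ℝ → ℂ} {T : ℝ} (hd₁ : ∀ t, HasDerivAt ζ₁ (ζ₁' t) t)
    (hc₁ : Continuous ζ₁') (hd₂ : ∀ t, HasDerivAt ζ₂ (ζ₂' t) t) (hc₂ : Continuous ζ₂')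
    (hne₁ : ∀ t, ζ₁ t ≠ 0) (hne₂ : ∀ t, ζ₂ t ≠ 0)
    (hs : ∀ t, ζ₂ t / ζ₁ t ∈ Complex.slitPlane) (hT₁ : ζ₁ T = ζ₁ 0) (hT₂ : ζ₂ T = ζ₂ 0) :
    ∫ t in (0 : ℝ)..T, ζ₂' t / ζ₂ t = ∫ t in (0 : ℝ)..T, ζ₁' t / ζ₁ t := by
  have hζ₁ : Continuous ζ₁ := continuous_iff_continuousAt.2 fun t => (hd₁ t).continuousAt
  have hζ₂ : Continuous ζ₂ := continuous_iff_continuousAt.2 fun t => (hd₂ t).continuousAt
  have hq₁ : Continuous (fun t => ζ₁' t / ζ₁ t) := hc₁.div hζ₁ hne₁
  have hq₂ : Continuous (fun t => ζ₂' t / ζ₂ t) := hc₂.div hζ₂ hne₂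
  have hd : ∀ t, HasDerivAt (fun t => Complex.log (ζ₂ t / ζ₁ t)) (ζ₂' t / ζ₂ t - ζ₁' t / ζ₁ t) t := by
    intro t
    have h1 := ((hd₂ t).div (hd₁ t) (hne₁ t)).clog_real (hs t)
    refine h1.congr_deriv ?_
    have a1 := hne₁ t
    have a2 := hne₂ t
    simp only [Pi.div_apply]
    field_simp
  have h := intervalIntegral.integral_eq_sub_of_hasDerivAt (a := 0) (b := T) (fun t _ => hd t)
    ((hq₂.sub hq₁).intervalIntegrable 0 T)
  rw [intervalIntegral.integral_sub (hq₂.intervalIntegrable 0 T) (hq₁.intervalIntegrable 0 T),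
    hT₁, hT₂, sub_self] at h
  exact sub_eq_zero.1 h

/-- Periodic oscillation: `U = 1/r`, `V = dU/dθ`, `w = dθ/dt`. -/
structure Osc (α K T : ℝ) (m : ℕ) (U V w : ℝ → ℝ) : Prop where
  hT : 0 < T
  hK : 0 < K
  Upos : ∀ t, 0 < U t
  wpos : ∀ t, 0 < w t
  wcont : Continuous w
  dU : ∀ t, HasDerivAt U (w t * V t) t
  dV : ∀ t, HasDerivAt V (w t * (-U t + K * U t ^ (-α - 1))) t
  perU : Function.Periodic U T
  perV : Function.Periodic V T
  hm : ∫ t in (0 : ℝ)..T, w t = 2 * π * m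

variable {α K T : ℝ} {m : ℕ} {U V w : ℝ → ℝ}

/-- `u''` -/
noncomputable def acc (α K : ℝ) (U : ℝ → ℝ) (t : ℝ) : ℝ := -U t + K * U t ^ (-α - 1)

/-- potential -/
noncomputable def pot (α K x : ℝ) : ℝ := x ^ 2 / 2 + K / α * x ^ (-α)

lemma Osc.energy (h : Osc α K T m U V w) (hα : α ≠ 0) (s t : ℝ) :
    V s ^ 2 / 2 + pot α K (U s) = V t ^ 2 / 2 + pot α K (U t) := by
  have hd : ∀ t, HasDerivAt (fun t => V t ^ 2 / 2 + pot α K (U t)) 0 t := by
    intro t
    unfold pot
    have h1 := ((h.dV t).pow 2).div_const 2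
    have h2 := ((h.dU t).pow 2).div_const 2
    have h3 := ((h.dU t).rpow_const (p := -α) (Or.inl (h.Upos t).ne')).const_mul (K / α)
    refine (h1.add (h2.add h3)).congr_deriv ?_
    simp only [Nat.cast_ofNat]
    field_simp
    ring
  exact is_const_of_deriv_eq_zero (fun t => (hd t).differentiableAt) (fun t => (hd t).deriv) s t

lemma pot_min (hα : α ≠ 0) (hα2 : -2 < α) {x y : ℝ} (hx : 0 < x) (hy : 0 < y)
    (he : -x + K * x ^ (-α - 1) = 0) : pot α K x ≤ pot α K y := by
  have hd : ∀ z, 0 < z → HasDerivAt (pot α K) (z - K * z ^ (-α - 1)) z := by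
    intro z hz
    unfold pot
    have h1 := ((hasDerivAt_id z).pow 2).div_const 2
    have h2 := ((hasDerivAt_id z).rpow_const (p := -α) (Or.inl hz.ne')).const_mul (K / α)
    refine (h1.add h2).congr_deriv ?_
    simp only [id, Nat.cast_ofNat]
    field_simp
    ring
  have hfac : ∀ z, 0 < z → z - K * z ^ (-α - 1) = z ^ (-α - 1) * (z ^ (α + 2) - x ^ (α + 2)) := by
    intro z hz
    have e1 : z ^ (-α - 1) * z ^ (α + 2) = z := by
      rw [← Real.rpow_add hz]
      ring_nf
      exact Real.rpow_one z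
    have e2 : x ^ (α + 2) = K := by
      have e3 : x ^ (-α - 1) * x ^ (α + 2) = x := by
        rw [← Real.rpow_add hx]
        ring_nf
        exact Real.rpow_one x
      have e4 : 0 < x ^ (-α - 1) := Real.rpow_pos_of_pos hx _
      have e5 : x ^ (-α - 1) * x ^ (α + 2) = x ^ (-α - 1) * K := by
        rw [e3]; linarith
      exact mul_left_cancel₀ e4.ne' e5
    rw [mul_sub, e1, e2]
    ring
  rcases le_total x y with hxy | hxy
  · have hm : MonotoneOn (pot α K) (Icc x y) := by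
      apply monotoneOn_of_deriv_nonneg (convex_Icc x y)
      · exact fun z hz => (hd z (lt_of_lt_of_le hx hz.1)).continuousAt.continuousWithinAt
      · intro z hz
        rw [interior_Icc] at hz
        exact (hd z (lt_trans hx hz.1)).differentiableAt.differentiableWithinAt
      · intro z hz
        rw [interior_Icc] at hz
        have hz0 : 0 < z := lt_trans hx hz.1
        rw [(hd z hz0).deriv, hfac z hz0]
        have : x ^ (α + 2) ≤ z ^ (α + 2) := Real.rpow_le_rpow hx.le hz.1.le (by linarith)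
        have h2 := Real.rpow_pos_of_pos hz0 (-α - 1)
        exact mul_nonneg h2.le (by linarith)
    exact hm (left_mem_Icc.2 hxy) (right_mem_Icc.2 hxy) hxy
  · have hm : AntitoneOn (pot α K) (Icc y x) := by
      apply antitoneOn_of_deriv_nonpos (convex_Icc y x)
      · exact fun z hz => (hd z (lt_of_lt_of_le hy hz.1)).continuousAt.continuousWithinAt
      · intro z hz
        rw [interior_Icc] at hz
        exact (hd z (lt_trans hy hz.1)).differentiableAt.differentiableWithinAt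
      · intro z hz
        rw [interior_Icc] at hz
        have hz0 : 0 < z := lt_trans hy hz.1
        rw [(hd z hz0).deriv, hfac z hz0]
        have : z ^ (α + 2) ≤ x ^ (α + 2) := Real.rpow_le_rpow hz0.le hz.2.le (by linarith)
        have h2 := Real.rpow_pos_of_pos hz0 (-α - 1)
        exact mul_nonpos_of_nonneg_of_nonpos h2.le (by linarith)
    exact hm (left_mem_Icc.2 hxy) (right_mem_Icc.2 hxy) hxy

/-- at no time are both `u'` and `u''` zero, unless the oscillation is trivial -/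
lemma Osc.nontriv (h : Osc α K T m U V w) (hα : α ≠ 0) (hα2 : -2 < α) (hV : ∃ t, V t ≠ 0) (t : ℝ) :
    V t ≠ 0 ∨ acc α K U t ≠ 0 := by
  by_contra hcon
  rw [not_or, not_not, not_not] at hcon
  obtain ⟨h1, h2⟩ := hcon
  obtain ⟨s, hs⟩ := hV
  have he := h.energy hα s t
  have hp := pot_min hα hα2 (h.Upos t) (h.Upos s) h2
  rw [h1] at he
  have : 0 < V s ^ 2 := by positivity
  nlinarith

/-- weight of the comparison function, `Z = U^(s-1) V` -/
noncomputable def Zf (s : ℝ) (U V : ℝ → ℝ) (t : ℝ) : ℝ := U t ^ (s - 1) * V t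

/-- `dZ/dθ` -/
noncomputable def Zd (s α K : ℝ) (U V : ℝ → ℝ) (t : ℝ) : ℝ :=
  U t ^ (s - 1) * acc α K U t + (s - 1) * U t ^ (s - 2) * V t ^ 2

/-- the coefficient in `Z'' = - q Z` -/
noncomputable def qf (s α K : ℝ) (U V : ℝ → ℝ) (t : ℝ) : ℝ :=
  (3 * s - 2) - K * (3 * s - 4 - α) * U t ^ (-α - 2) - (s - 1) * (s - 2) * (V t / U t) ^ 2

lemma Osc.dZ (h : Osc α K T m U V w) (s t : ℝ) :
    HasDerivAt (Zf s U V) (w t * Zd s α K U V t) t := by
  have h1 := ((h.dU t).rpow_const (p := s - 1) (Or.inl (h.Upos t).ne')).mul (h.dV t)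
  refine h1.congr_deriv ?_
  unfold Zd acc
  have e : s - 1 - 1 = s - 2 := by ring
  rw [e]
  ring

lemma Osc.dZd (h : Osc α K T m U V w) (s t : ℝ) :
    HasDerivAt (Zd s α K U V) (w t * (-(qf s α K U V t) * Zf s U V t)) t := by
  have hU := h.Upos t
  have hacc : HasDerivAt (acc α K U)
      (-(w t * V t) + K * (w t * V t * (-α - 1) * U t ^ (-α - 1 - 1))) t := by
    have h1 := ((h.dU t).rpow_const (p := -α - 1) (Or.inl hU.ne')).const_mul K
    exact (h.dU t).neg.add h1
  have h1 := ((h.dU t).rpow_const (p := s - 1) (Or.inl hU.ne')).mul hacc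
  have h2 := (((h.dU t).rpow_const (p := s - 2) (Or.inl hU.ne')).const_mul (s - 1)).mul
    ((h.dV t).pow 2)
  refine (h1.add h2).congr_deriv ?_
  unfold qf Zf acc
  have e1 : U t ^ (s - 1) = U t ^ (s - 2) * U t := by
    nth_rewrite 3 [← Real.rpow_one (U t)]
    rw [← Real.rpow_add hU]; congr 1; ring
  have e2 : U t ^ (s - 1 - 1) = U t ^ (s - 2) := by congr 1; ring
  have e3 : U t ^ (-α - 1) = U t ^ (-α - 2) * U t := by
    nth_rewrite 3 [← Real.rpow_one (U t)]
    rw [← Real.rpow_add hU]; congr 1; ring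
  have e4 : U t ^ (-α - 1 - 1) = U t ^ (-α - 2) := by congr 1; ring
  have e5 : U t ^ (s - 2 - 1) = U t ^ (s - 2) / U t := by
    rw [Real.rpow_sub_one hU.ne']
  simp only [e1, e2, e3, e4, e5, Nat.cast_ofNat, Nat.add_one_sub_one, pow_one, Pi.pow_apply]
  field_simp
  ring

lemma Osc.contU (h : Osc α K T m U V w) : Continuous U :=
  continuous_iff_continuousAt.2 fun t => (h.dU t).continuousAt

lemma Osc.contV (h : Osc α K T m U V w) : Continuous V :=
  continuous_iff_continuousAt.2 fun t => (h.dV t).continuousAt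

lemma Osc.contRpow (h : Osc α K T m U V w) (r : ℝ) : Continuous (fun t => U t ^ r) :=
  h.contU.rpow_const fun t => Or.inl (h.Upos t).ne'

lemma Osc.contZf (h : Osc α K T m U V w) (s : ℝ) : Continuous (Zf s U V) :=
  (h.contRpow (s - 1)).mul h.contV

lemma Osc.contAcc (h : Osc α K T m U V w) : Continuous (acc α K U) :=
  h.contU.neg.add ((h.contRpow (-α - 1)).const_mul K)

lemma Osc.contZd (h : Osc α K T m U V w) (s : ℝ) : Continuous (Zd s α K U V) :=
  ((h.contRpow (s - 1)).mul h.contAcc).add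
    (((h.contRpow (s - 2)).const_mul (s - 1)).mul (h.contV.pow 2))

lemma Osc.contQ (h : Osc α K T m U V w) (s : ℝ) : Continuous (qf s α K U V) := by
  unfold qf
  have h1 := h.contRpow (-α - 2)
  have h2 := h.contV.div h.contU fun t => (h.Upos t).ne'
  exact (continuous_const.sub (h1.const_mul _)).sub ((h2.pow 2).const_mul _)

/-- the defect integrand -/
noncomputable def defect (s ν α K : ℝ) (U V w : ℝ → ℝ) (t : ℝ) : ℝ :=
  w t * ν * ((qf s α K U V t - ν ^ 2) * Zf s U V t ^ 2 /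
    (Zd s α K U V t ^ 2 + ν ^ 2 * Zf s U V t ^ 2))

lemma Osc.den_pos (h : Osc α K T m U V w) (hα : α ≠ 0) (hα2 : -2 < α) (hV : ∃ t, V t ≠ 0)
    (s : ℝ) {ν : ℝ} (hν : 0 < ν) (t : ℝ) :
    0 < Zd s α K U V t ^ 2 + ν ^ 2 * Zf s U V t ^ 2 := by
  have hU := Real.rpow_pos_of_pos (h.Upos t) (s - 1)
  rcases eq_or_ne (V t) 0 with h0 | h0
  · have h1 := (h.nontriv hα hα2 hV t).resolve_left (not_not.2 h0)
    have : Zd s α K U V t ≠ 0 := by
      unfold Zd
      rw [h0]
      simpa using ⟨hU.ne', h1⟩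
    positivity
  · have : Zf s U V t ≠ 0 := mul_ne_zero hU.ne' h0
    positivity

lemma Osc.contDefect (h : Osc α K T m U V w) (hα : α ≠ 0) (hα2 : -2 < α) (hV : ∃ t, V t ≠ 0)
    (s : ℝ) {ν : ℝ} (hν : 0 < ν) : Continuous (defect s ν α K U V w) := by
  unfold defect
  refine (h.wcont.mul continuous_const).mul (Continuous.div ?_ ?_ ?_)
  · exact ((h.contQ s).sub continuous_const).mul ((h.contZf s).pow 2)
  · exact ((h.contZd s).pow 2).add (((h.contZf s).pow 2).const_mul _)
  · exact fun t => (h.den_pos hα hα2 hV s hν t).ne'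

/-- the number of oscillations computed with any of the comparison functions -/
theorem Osc.count (h : Osc α K T m U V w) (hα : α ≠ 0) (hα2 : -2 < α) (hV : ∃ t, V t ≠ 0) :
    ∃ N : ℤ, ∀ s ν : ℝ, 0 < ν →
      2 * π * N = 2 * π * (ν * m) + ∫ t in (0 : ℝ)..T, defect s ν α K U V w t := by
  have hnt := h.nontriv hα hα2 hV
  -- the reference curve
  have hacc : ∀ t, HasDerivAt (acc α K U)
      (-(w t * V t) + K * (w t * V t * (-α - 1) * U t ^ (-α - 1 - 1))) t := by
    intro t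
    have h1 := ((h.dU t).rpow_const (p := -α - 1) (Or.inl (h.Upos t).ne')).const_mul K
    exact (h.dU t).neg.add h1
  set acc' : ℝ → ℝ := fun t => -(w t * V t) + K * (w t * V t * (-α - 1) * U t ^ (-α - 1 - 1))
    with hacc'
  have hacc'c : Continuous acc' := by
    have h1 := h.contRpow (-α - 1 - 1)
    have h2 := h.wcont.mul h.contV
    exact h2.neg.add (((h2.mul continuous_const).mul h1).const_mul K)
  set ζ₀ : ℝ → ℂ := fun t => (acc α K U t : ℂ) + (V t : ℂ) * Complex.I with hζ₀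
  set ζ₀' : ℝ → ℂ := fun t => (acc' t : ℂ) + ((w t * acc α K U t : ℝ) : ℂ) * Complex.I with hζ₀'
  have hd₀ : ∀ t, HasDerivAt ζ₀ (ζ₀' t) t := fun t =>
    (hacc t).ofReal_comp.add ((h.dV t).ofReal_comp.mul_const _)
  have hc₀ : Continuous ζ₀' :=
    (Complex.continuous_ofReal.comp hacc'c).add
      ((Complex.continuous_ofReal.comp (h.wcont.mul h.contAcc)).mul continuous_const)
  have hre₀ : ∀ t, (ζ₀ t).re = acc α K U t := fun t => by simp [hζ₀]
  have him₀ : ∀ t, (ζ₀ t).im = V t := fun t => by simp [hζ₀]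
  have hne₀ : ∀ t, ζ₀ t ≠ 0 := by
    intro t h0
    rcases hnt t with h1 | h1
    · exact h1 (by rw [← him₀, h0]; simp)
    · exact h1 (by rw [← hre₀, h0]; simp)
  have hUT : U T = U 0 := by simpa using h.perU 0
  have hVT : V T = V 0 := by simpa using h.perV 0
  have hT₀ : ζ₀ T = ζ₀ 0 := by
    simp only [hζ₀, acc, hUT, hVT]
  obtain ⟨N, hN⟩ := wind_int hd₀ hc₀ hne₀ hT₀
  refine ⟨N, fun s ν hν => ?_⟩
  -- the comparison curve
  set ζ : ℝ → ℂ := fun t => ((Zd s α K U V t / ν : ℝ) : ℂ) + (Zf s U V t : ℂ) * Complex.I with hζ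
  set ζ' : ℝ → ℂ := fun t => ((w t * (-(qf s α K U V t) * Zf s U V t) / ν : ℝ) : ℂ)
    + ((w t * Zd s α K U V t : ℝ) : ℂ) * Complex.I with hζ'
  have hd : ∀ t, HasDerivAt ζ (ζ' t) t := fun t =>
    ((h.dZd s t).div_const ν).ofReal_comp.add ((h.dZ s t).ofReal_comp.mul_const _)
  have hc : Continuous ζ' := by
    have h1 := ((h.wcont.mul ((h.contQ s).neg.mul (h.contZf s))).div_const ν)
    have h2 := h.wcont.mul (h.contZd s)
    exact (Complex.continuous_ofReal.comp h1).add
      ((Complex.continuous_ofReal.comp h2).mul continuous_const)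
  have hre : ∀ t, (ζ t).re = Zd s α K U V t / ν := fun t => by simp [hζ, -Complex.ofReal_div]
  have him : ∀ t, (ζ t).im = Zf s U V t := fun t => by simp [hζ, -Complex.ofReal_div]
  have hre' : ∀ t, (ζ' t).re = w t * (-(qf s α K U V t) * Zf s U V t) / ν := fun t => by
    simp [hζ', -Complex.ofReal_div, -Complex.ofReal_mul, -Complex.ofReal_neg]
  have him' : ∀ t, (ζ' t).im = w t * Zd s α K U V t := fun t => by
    simp [hζ', -Complex.ofReal_div, -Complex.ofReal_mul, -Complex.ofReal_neg]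
  have hden := h.den_pos hα hα2 hV s hν
  have hns : ∀ t, Complex.normSq (ζ t) = (Zd s α K U V t ^ 2 + ν ^ 2 * Zf s U V t ^ 2) / ν ^ 2 := by
    intro t
    rw [Complex.normSq_apply, hre, him]
    field_simp
  have hne : ∀ t, ζ t ≠ 0 := by
    intro t h0
    have h1 := hns t
    rw [h0, map_zero] at h1
    have h2 := hden t
    have h3 : 0 < (Zd s α K U V t ^ 2 + ν ^ 2 * Zf s U V t ^ 2) / ν ^ 2 := by positivity
    linarith
  have hTζ : ζ T = ζ 0 := by
    simp only [hζ, Zd, Zf, acc, hUT, hVT]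
  have hslit : ∀ t, ζ t / ζ₀ t ∈ Complex.slitPlane := by
    intro t
    rw [Complex.mem_slitPlane_iff]
    by_contra hcon
    rw [not_or, not_lt, not_not] at hcon
    obtain ⟨h1, h2⟩ := hcon
    have hn0 : 0 < Complex.normSq (ζ₀ t) := Complex.normSq_pos.2 (hne₀ t)
    rw [Complex.div_re, ← add_div, hre, him, hre₀, him₀] at h1
    rw [Complex.div_im, ← sub_div, hre, him, hre₀, him₀] at h2
    have hg := Real.rpow_pos_of_pos (h.Upos t) (s - 1)
    have h3 : Zf s U V t * acc α K U t - Zd s α K U V t / ν * V t = 0 := by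
      rcases div_eq_zero_iff.1 h2 with h4 | h4
      · exact h4
      · exact absurd h4 hn0.ne'
    have h4 : Zd s α K U V t / ν * acc α K U t + Zf s U V t * V t ≤ 0 := by
      by_contra h5
      rw [not_le] at h5
      have := div_pos h5 hn0
      linarith
    have h5 : V t * (U t ^ (s - 1) * acc α K U t - Zd s α K U V t / ν) = 0 := by
      rw [← h3]
      unfold Zf
      ring
    rcases mul_eq_zero.1 h5 with h6 | h6
    · have h7 := (hnt t).resolve_left (not_not.2 h6)
      have h8 : Zd s α K U V t / ν * acc α K U t + Zf s U V t * V t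
          = U t ^ (s - 1) / ν * acc α K U t ^ 2 := by
        unfold Zd Zf
        rw [h6]
        ring
      rw [h8] at h4
      have : 0 < U t ^ (s - 1) / ν * acc α K U t ^ 2 := by positivity
      linarith
    · have h7 : Zd s α K U V t / ν = U t ^ (s - 1) * acc α K U t := by linarith
      rw [h7] at h4
      unfold Zf at h4
      have h8 : U t ^ (s - 1) * acc α K U t * acc α K U t + U t ^ (s - 1) * V t * V t
          = U t ^ (s - 1) * (acc α K U t ^ 2 + V t ^ 2) := by ring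
      rw [h8] at h4
      have h9 : 0 < acc α K U t ^ 2 + V t ^ 2 := by
        rcases hnt t with h | h <;> positivity
      have := mul_pos hg h9
      linarith
  have hwind := wind_eq hd₀ hc₀ hd hc hne₀ hne hslit hT₀ hTζ
  rw [hN] at hwind
  have hqc : Continuous (fun t => ζ' t / ζ t) :=
    hc.div (continuous_iff_continuousAt.2 fun t => (hd t).continuousAt) hne
  have him2 : ∀ t, (ζ' t / ζ t).im = w t * ν + defect s ν α K U V w t := by
    intro t
    rw [Complex.div_im, hns, hre, him, hre', him']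
    unfold defect
    have := hden t
    field_simp
    ring
  have hint : ∫ t in (0 : ℝ)..T, (ζ' t / ζ t).im = 2 * π * N := by
    have h1 := Complex.imCLM.intervalIntegral_comp_comm (hqc.intervalIntegrable 0 T)
      (μ := MeasureTheory.volume)
    simp only [Complex.imCLM_apply] at h1
    rw [h1, hwind]
    simp
  rw [← hint]
  simp_rw [him2]
  have hi1 : IntervalIntegrable (fun t => w t * ν) MeasureTheory.volume 0 T :=
    (h.wcont.mul continuous_const).intervalIntegrable 0 T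
  rw [intervalIntegral.integral_add hi1
    ((h.contDefect hα hα2 hV s hν).intervalIntegrable 0 T), intervalIntegral.integral_mul_const,
    h.hm]
  ring

lemma Osc.defect_pos (h : Osc α K T m U V w) (hα : α ≠ 0) (hα2 : -2 < α) (hV : ∃ t, V t ≠ 0)
    {s ν : ℝ} (hν : 0 < ν) (hq : ∀ t, V t ≠ 0 → ν ^ 2 < qf s α K U V t) :
    0 < ∫ t in (0 : ℝ)..T, defect s ν α K U V w t := by
  have hc := h.contDefect hα hα2 hV s hν
  have hpos : ∀ t, V t ≠ 0 → 0 < defect s ν α K U V w t := by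
    intro t ht
    have h1 := hq t ht
    have h2 := h.den_pos hα hα2 hV s hν t
    have h3 : Zf s U V t ≠ 0 := mul_ne_zero (Real.rpow_pos_of_pos (h.Upos t) _).ne' ht
    have h4 := h.wpos t
    unfold defect
    have h5 : 0 < (qf s α K U V t - ν ^ 2) * Zf s U V t ^ 2 :=
      mul_pos (by linarith) (by positivity)
    positivity
  have hnn : ∀ t, 0 ≤ defect s ν α K U V w t := by
    intro t
    rcases eq_or_ne (V t) 0 with h0 | h0
    · unfold defect Zf
      rw [h0]
      simp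
    · exact (hpos t h0).le
  obtain ⟨t₁, ht₁⟩ := hV
  obtain ⟨t₂, ht₂, he⟩ := h.perV.exists_mem_Ico₀ h.hT t₁
  exact intervalIntegral.integral_pos h.hT hc.continuousOn (fun x _ => hnn x)
    ⟨t₂, ⟨ht₂.1, ht₂.2.le⟩, hpos t₂ (by rw [← he]; exact ht₁)⟩

lemma Osc.defect_neg (h : Osc α K T m U V w) (hα : α ≠ 0) (hα2 : -2 < α) (hV : ∃ t, V t ≠ 0)
    {s ν : ℝ} (hν : 0 < ν) (hq : ∀ t, V t ≠ 0 → qf s α K U V t < ν ^ 2) :
    ∫ t in (0 : ℝ)..T, defect s ν α K U V w t < 0 := by
  have hc := (h.contDefect hα hα2 hV s hν).neg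
  have hpos : ∀ t, V t ≠ 0 → 0 < -defect s ν α K U V w t := by
    intro t ht
    have h1 := hq t ht
    have h2 := h.den_pos hα hα2 hV s hν t
    have h3 : Zf s U V t ≠ 0 := mul_ne_zero (Real.rpow_pos_of_pos (h.Upos t) _).ne' ht
    have h4 := h.wpos t
    unfold defect
    have h5 : 0 < (ν ^ 2 - qf s α K U V t) * Zf s U V t ^ 2 :=
      mul_pos (by linarith) (by positivity)
    have h6 : -(w t * ν * ((qf s α K U V t - ν ^ 2) * Zf s U V t ^ 2 /
        (Zd s α K U V t ^ 2 + ν ^ 2 * Zf s U V t ^ 2))) =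
        w t * ν * ((ν ^ 2 - qf s α K U V t) * Zf s U V t ^ 2 /
        (Zd s α K U V t ^ 2 + ν ^ 2 * Zf s U V t ^ 2)) := by ring
    rw [h6]
    positivity
  have hnn : ∀ t, 0 ≤ -defect s ν α K U V w t := by
    intro t
    rcases eq_or_ne (V t) 0 with h0 | h0
    · unfold defect Zf
      rw [h0]
      simp
    · exact (hpos t h0).le
  obtain ⟨t₁, ht₁⟩ := hV
  obtain ⟨t₂, ht₂, he⟩ := h.perV.exists_mem_Ico₀ h.hT t₁
  have h7 : 0 < ∫ t in (0 : ℝ)..T, -defect s ν α K U V w t :=
    intervalIntegral.integral_pos h.hT hc.continuousOn (fun x _ => hnn x)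
    ⟨t₂, ⟨ht₂.1, ht₂.2.le⟩, hpos t₂ (by rw [← he]; exact ht₁)⟩
  rw [intervalIntegral.integral_neg] at h7
  linarith

/-- the energy is negative for attracting powers -/
lemma Osc.energy_neg (h : Osc α K T m U V w) (hα2 : -2 < α) (hα0 : α < 0) (t : ℝ) :
    V t ^ 2 / 2 + pot α K (U t) < 0 := by
  have hVT : V 0 = V T := by simpa using (h.perV 0).symm
  obtain ⟨c, hc, hc2⟩ := exists_hasDerivAt_eq_zero h.hT h.contV.continuousOn hVT
    (fun x _ => h.dV x)
  have hc3 : -U c + K * U c ^ (-α - 1) = 0 := by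
    rcases mul_eq_zero.1 hc2 with h1 | h1
    · exact absurd h1 (h.wpos c).ne'
    · exact h1
  have hUc := h.Upos c
  have e2 : U c ^ (α + 2) = K := by
    have e3 : U c ^ (-α - 1) * U c ^ (α + 2) = U c := by
      rw [← Real.rpow_add hUc]
      ring_nf
      exact Real.rpow_one _
    have e4 : 0 < U c ^ (-α - 1) := Real.rpow_pos_of_pos hUc _
    have e5 : U c ^ (-α - 1) * U c ^ (α + 2) = U c ^ (-α - 1) * K := by
      rw [e3]; linarith
    exact mul_left_cancel₀ e4.ne' e5
  -- a minimum of `U`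
  obtain ⟨t₀, ht₀, hmin⟩ := isCompact_Icc.exists_isMinOn (nonempty_Icc.2 h.hT.le)
    (h.contU.continuousOn (s := Icc 0 T))
  have hmin' : ∀ x, U t₀ ≤ U x := by
    intro x
    obtain ⟨y, hy, he⟩ := h.perU.exists_mem_Ico₀ h.hT x
    rw [he]
    exact hmin ⟨hy.1, hy.2.le⟩
  have hV0 : V t₀ = 0 := by
    have h1 : IsLocalMin U t₀ := Filter.Eventually.of_forall hmin'
    have h2 := h1.hasDerivAt_eq_zero (h.dU t₀)
    rcases mul_eq_zero.1 h2 with h1 | h1
    · exact absurd h1 (h.wpos t₀).ne'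
    · exact h1
  rw [h.energy hα0.ne t t₀, hV0]
  have hU0 := h.Upos t₀
  have h3 : U t₀ ^ (α + 2) ≤ K := by
    rw [← e2]
    exact Real.rpow_le_rpow hU0.le (hmin' c) (by linarith)
  have h4 : U t₀ ^ 2 = U t₀ ^ (-α) * U t₀ ^ (α + 2) := by
    rw [← Real.rpow_add hU0, ← Real.rpow_natCast]
    congr 1
    push_cast
    ring
  have h5 : 0 < U t₀ ^ (-α) := Real.rpow_pos_of_pos hU0 _
  unfold pot
  rw [h4]
  have h6 : (0 : ℝ) ^ 2 / 2 + (U t₀ ^ (-α) * U t₀ ^ (α + 2) / 2 + K / α * U t₀ ^ (-α))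
      = U t₀ ^ (-α) * (U t₀ ^ (α + 2) / 2 + K / α) := by ring
  rw [h6]
  apply mul_neg_of_pos_of_neg h5
  have h7 : U t₀ ^ (α + 2) / 2 + K / α ≤ K / 2 + K / α := by linarith
  have hne : α ≠ 0 := hα0.ne
  have h8 : K / 2 + K / α = K * (α + 2) / (2 * α) := by
    field_simp
  have h9 : K * (α + 2) / (2 * α) < 0 :=
    div_neg_of_pos_of_neg (mul_pos h.hK (by linarith)) (by linarith)
  linarith

/-- **Bounds for the oscillation count.** -/
theorem Osc.between (h : Osc α K T m U V w) (hα : α ≠ 0) (hα2 : -2 < α) (hV : ∃ t, V t ≠ 0) :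
    ∃ N : ℤ, (2 < α → 2 * (m : ℝ) < N ∧ (N : ℝ) < √(α + 2) * m) ∧
      (0 < α → α < 2 → √(α + 2) * m < N ∧ (N : ℝ) < 2 * m) ∧
      (-1 < α → α < 0 → √(α + 2) * m < N ∧ (N : ℝ) < (α + 2) * m) ∧
      (α < -1 → (α + 2) * m < N ∧ (N : ℝ) < √(α + 2) * m) := by
  obtain ⟨N, hN⟩ := h.count hα hα2 hV
  have hκ : 0 < √(α + 2) := Real.sqrt_pos.2 (by linarith)
  have hκ2 : √(α + 2) ^ 2 = α + 2 := Real.sq_sqrt (by linarith)
  have hpi := Real.pi_pos
  have up : ∀ s ν : ℝ, 0 < ν → (∀ t, V t ≠ 0 → ν ^ 2 < qf s α K U V t) → ν * m < N := by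
    intro s ν hν hq
    have h1 := h.defect_pos hα hα2 hV hν hq
    have h2 := hN s ν hν
    have h3 : 2 * π * (ν * m) < 2 * π * N := by linarith
    exact lt_of_mul_lt_mul_left h3 (by positivity)
  have dn : ∀ s ν : ℝ, 0 < ν → (∀ t, V t ≠ 0 → qf s α K U V t < ν ^ 2) → (N : ℝ) < ν * m := by
    intro s ν hν hq
    have h1 := h.defect_neg hα hα2 hV hν hq
    have h2 := hN s ν hν
    have h3 : 2 * π * N < 2 * π * (ν * m) := by linarith
    exact lt_of_mul_lt_mul_left h3 (by positivity)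
  -- the three comparison functions
  have q1 : ∀ t, qf ((α + 4) / 3) α K U V t - √(α + 2) ^ 2
      = -((α + 1) * (α - 2) / 9) * (V t / U t) ^ 2 := by
    intro t
    rw [hκ2]
    unfold qf
    ring
  have q2 : ∀ t, qf 2 α K U V t - 2 ^ 2 = -(K * (2 - α) * U t ^ (-α - 2)) := by
    intro t
    unfold qf
    ring
  have q3 : ∀ t, qf (α + 2) α K U V t - (α + 2) ^ 2
      = -(2 * α * (α + 1)) / U t ^ 2 * (V t ^ 2 / 2 + pot α K (U t)) := by
    intro t
    have hU := h.Upos t
    have e1 : U t ^ (-α - 2) = U t ^ (-α) / U t ^ 2 := by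
      rw [Real.rpow_sub hU]
      norm_num
    unfold qf pot
    rw [e1]
    field_simp
    ring
  have hVU : ∀ t, V t ≠ 0 → 0 < (V t / U t) ^ 2 := by
    intro t ht
    have := h.Upos t
    positivity
  refine ⟨N, fun h1 => ⟨?_, ?_⟩, fun h1 h2 => ⟨?_, ?_⟩, fun h1 h2 => ⟨?_, ?_⟩, fun h1 => ⟨?_, ?_⟩⟩
  · apply up 2 2 two_pos
    intro t _
    have h3 := q2 t
    have h4 : 0 < K * (α - 2) * U t ^ (-α - 2) :=
      mul_pos (mul_pos h.hK (by linarith)) (Real.rpow_pos_of_pos (h.Upos t) _)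
    nlinarith
  · apply dn ((α + 4) / 3) _ hκ
    intro t ht
    have h3 := q1 t
    have h4 : 0 < ((α + 1) * (α - 2) / 9) * (V t / U t) ^ 2 :=
      mul_pos (div_pos (mul_pos (by linarith) (by linarith)) (by norm_num)) (hVU t ht)
    nlinarith
  · apply up ((α + 4) / 3) _ hκ
    intro t ht
    have h3 := q1 t
    have h4 : 0 < ((α + 1) * (2 - α) / 9) * (V t / U t) ^ 2 :=
      mul_pos (div_pos (mul_pos (by linarith) (by linarith)) (by norm_num)) (hVU t ht)
    nlinarith
  · apply dn 2 2 two_pos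
    intro t _
    have h3 := q2 t
    have h4 : 0 < K * (2 - α) * U t ^ (-α - 2) :=
      mul_pos (mul_pos h.hK (by linarith)) (Real.rpow_pos_of_pos (h.Upos t) _)
    nlinarith
  · apply up ((α + 4) / 3) _ hκ
    intro t ht
    have h3 := q1 t
    have h4 : 0 < ((α + 1) * (2 - α) / 9) * (V t / U t) ^ 2 :=
      mul_pos (div_pos (mul_pos (by linarith) (by linarith)) (by norm_num)) (hVU t ht)
    nlinarith
  · apply dn (α + 2) _ (by linarith)
    intro t _
    have h3 := q3 t
    have h5 := h.energy_neg hα2 h2 t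
    have hU := h.Upos t
    have h4 : 0 < -(2 * α * (α + 1)) / U t ^ 2 :=
      div_pos (by nlinarith) (by positivity)
    have h6 := mul_neg_of_pos_of_neg h4 h5
    linarith
  · apply up (α + 2) _ (by linarith)
    intro t _
    have h3 := q3 t
    have h5 := h.energy_neg hα2 (by linarith) t
    have hU := h.Upos t
    have h4 : -(2 * α * (α + 1)) / U t ^ 2 < 0 :=
      div_neg_of_neg_of_pos (by nlinarith) (by positivity)
    have h6 := mul_pos_of_neg_of_neg h4 h5
    linarith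
  · apply dn ((α + 4) / 3) _ hκ
    intro t ht
    have h3 := q1 t
    have h4 : 0 < ((α + 1) * (α - 2) / 9) * (V t / U t) ^ 2 :=
      mul_pos (div_pos (mul_pos_of_neg_of_neg (by linarith) (by linarith)) (by norm_num)) (hVU t ht)
    nlinarith

end Q186.Ca
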