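import Mathlib
import Pool.Agent.Q186.CaA

/-!
Closed centroaffine extremal curves: definitions and reduction to a central force problem.
-/

namespace Q186.Ca

open Real Set Function MeasureTheory
open scoped ContDiff

/-- the area form `[u, v] = det (u, v)` of the plane, the plane being `ℂ` -/
def br (u v : ℂ) : ℝ := u.re * v.im - u.im * v.re

/-- the centroaffine curvature `p = [γ', γ'']` -/
noncomputable def curv (γ : ℝ → ℂ) (t : ℝ) : ℝ := br (deriv γ t) (deriv (deriv γ) t)

/-- A smooth closed curve of period `T` in centroaffine parametrization, of positive centroaffine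
curvature `p`, that satisfies `F'''/2 + 2 p F' + p' F = 0` for `F = p ^ (a - 1)`. -/
structure IsExtremal (a T : ℝ) (γ : ℝ → ℂ) : Prop where
  pos : 0 < T
  smooth : ContDiff ℝ ∞ γ
  closed : ∀ t, γ (t + T) = γ t
  centroaffine : ∀ t, br (γ t) (deriv γ t) = 1
  curv_pos : ∀ t, 0 < curv γ t
  euler : ∀ t, 1 / 2 * deriv (deriv (deriv fun s => curv γ s ^ (a - 1))) t
    + 2 * curv γ t * deriv (fun s => curv γ s ^ (a - 1)) t
    + deriv (curv γ) t * curv γ t ^ (a - 1) = 0

/-- the polar angle of `γ` increases by `2 π m` over the period `T` -/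
def HasRot (T : ℝ) (γ : ℝ → ℂ) (m : ℕ) : Prop :=
  ∃ φ : ℝ → ℝ, Continuous φ ∧ (∀ t, γ t = (‖γ t‖ : ℂ) * Complex.exp ((φ t : ℂ) * Complex.I)) ∧
    φ T - φ 0 = 2 * π * m

/-- ellipses (with any centre) -/
def IsEllipse (S : Set ℂ) : Prop :=
  ∃ (c : ℂ) (A B C : ℝ), 0 < A ∧ 0 < A * C - B ^ 2 ∧
    S = {z | A * (z - c).re ^ 2 + 2 * B * (z - c).re * (z - c).im + C * (z - c).im ^ 2 = 1}

variable {a T : ℝ} {γ : ℝ → ℂ} {m : ℕ}

lemma deriv_periodic {E : Type*} [NormedAddCommGroup E] [NormedSpace ℝ E] {f : ℝ → E} {T : ℝ}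
    (h : ∀ t, f (t + T) = f t) (t : ℝ) : deriv f (t + T) = deriv f t := by
  rw [← deriv_comp_add_const]
  congr 1
  funext x
  exact h x

lemma IsExtremal.d1 (h : IsExtremal a T γ) (t : ℝ) : HasDerivAt γ (deriv γ t) t :=
  ((contDiff_infty_iff_deriv.1 h.smooth).1 t).hasDerivAt

lemma IsExtremal.smooth1 (h : IsExtremal a T γ) : ContDiff ℝ ∞ (deriv γ) :=
  (contDiff_infty_iff_deriv.1 h.smooth).2

lemma IsExtremal.d2 (h : IsExtremal a T γ) (t : ℝ) :
    HasDerivAt (deriv γ) (deriv (deriv γ) t) t :=
  ((contDiff_infty_iff_deriv.1 h.smooth1).1 t).hasDerivAt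

lemma IsExtremal.smooth2 (h : IsExtremal a T γ) : ContDiff ℝ ∞ (deriv (deriv γ)) :=
  (contDiff_infty_iff_deriv.1 h.smooth1).2

lemma hd_re {f : ℝ → ℂ} {f' : ℂ} {t : ℝ} (h : HasDerivAt f f' t) :
    HasDerivAt (fun s => (f s).re) f'.re t :=
  Complex.reCLM.hasFDerivAt.comp_hasDerivAt t h

lemma hd_im {f : ℝ → ℂ} {f' : ℂ} {t : ℝ} (h : HasDerivAt f f' t) :
    HasDerivAt (fun s => (f s).im) f'.im t :=
  Complex.imCLM.hasFDerivAt.comp_hasDerivAt t h

lemma hd_br {f g : ℝ → ℂ} {f' g' : ℂ} {t : ℝ} (hf : HasDerivAt f f' t) (hg : HasDerivAt g g' t) :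
    HasDerivAt (fun s => br (f s) (g s)) (br f' (g t) + br (f t) g') t := by
  unfold br
  refine (((hd_re hf).mul (hd_im hg)).sub ((hd_im hf).mul (hd_re hg))).congr_deriv ?_
  ring

/-- expansion of a vector in the frame `γ, γ'` -/
lemma frame {u v : ℂ} (h : br u v = 1) (g : ℂ) : g = (br g v : ℂ) * u + (br u g : ℂ) * v := by
  unfold br at *
  apply Complex.ext
  · simp only [Complex.add_re, Complex.mul_re, Complex.ofReal_re, Complex.ofReal_im, zero_mul,
      sub_zero]
    linear_combination g.re * (-h)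
  · simp only [Complex.add_im, Complex.mul_im, Complex.ofReal_re, Complex.ofReal_im, zero_mul,
      add_zero]
    linear_combination g.im * (-h)

lemma IsExtremal.ode (h : IsExtremal a T γ) (t : ℝ) :
    deriv (deriv γ) t = -((curv γ t : ℂ) * γ t) := by
  have h1 := hd_br (h.d1 t) (h.d2 t)
  have h2 : (fun s => br (γ s) (deriv γ s)) = fun _ => 1 := funext h.centroaffine
  rw [h2] at h1
  have h3 := h1.unique (hasDerivAt_const t (1 : ℝ))
  have h4 : br (deriv γ t) (deriv γ t) = 0 := by unfold br; ring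
  rw [h4, zero_add] at h3
  have h5 := frame (h.centroaffine t) (deriv (deriv γ) t)
  rw [h3] at h5
  rw [h5]
  have h6 : br (deriv (deriv γ) t) (deriv γ t) = -curv γ t := by unfold curv br; ring
  rw [h6]
  push_cast
  ring

lemma IsExtremal.smooth_curv (h : IsExtremal a T γ) : ContDiff ℝ ∞ (curv γ) := by
  unfold curv br
  have h1 : ContDiff ℝ ∞ (fun t => (deriv γ t).re) := Complex.reCLM.contDiff.comp h.smooth1
  have h2 : ContDiff ℝ ∞ (fun t => (deriv γ t).im) := Complex.imCLM.contDiff.comp h.smooth1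
  have h3 : ContDiff ℝ ∞ (fun t => (deriv (deriv γ) t).re) :=
    Complex.reCLM.contDiff.comp h.smooth2
  have h4 : ContDiff ℝ ∞ (fun t => (deriv (deriv γ) t).im) :=
    Complex.imCLM.contDiff.comp h.smooth2
  exact (h1.mul h4).sub (h2.mul h3)

/-- `F = p ^ (a - 1)` -/
noncomputable def Ff (a : ℝ) (γ : ℝ → ℂ) (t : ℝ) : ℝ := curv γ t ^ (a - 1)

lemma IsExtremal.Fpos (h : IsExtremal a T γ) (t : ℝ) : 0 < Ff a γ t :=
  Real.rpow_pos_of_pos (h.curv_pos t) _

lemma IsExtremal.smoothF (h : IsExtremal a T γ) : ContDiff ℝ ∞ (Ff a γ) :=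
  h.smooth_curv.rpow_const_of_ne fun t => (h.curv_pos t).ne'

lemma IsExtremal.dp (h : IsExtremal a T γ) (t : ℝ) :
    HasDerivAt (curv γ) (deriv (curv γ) t) t :=
  ((contDiff_infty_iff_deriv.1 h.smooth_curv).1 t).hasDerivAt

lemma IsExtremal.dF (h : IsExtremal a T γ) (t : ℝ) :
    HasDerivAt (Ff a γ) (deriv (Ff a γ) t) t :=
  ((contDiff_infty_iff_deriv.1 h.smoothF).1 t).hasDerivAt

lemma IsExtremal.dF1 (h : IsExtremal a T γ) (t : ℝ) :
    HasDerivAt (deriv (Ff a γ)) (deriv (deriv (Ff a γ)) t) t :=
  ((contDiff_infty_iff_deriv.1 (contDiff_infty_iff_deriv.1 h.smoothF).2).1 t).hasDerivAt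

lemma IsExtremal.dF2 (h : IsExtremal a T γ) (t : ℝ) :
    HasDerivAt (deriv (deriv (Ff a γ))) (deriv (deriv (deriv (Ff a γ))) t) t :=
  ((contDiff_infty_iff_deriv.1 (contDiff_infty_iff_deriv.1
    (contDiff_infty_iff_deriv.1 h.smoothF).2).2).1 t).hasDerivAt

lemma IsExtremal.euler' (h : IsExtremal a T γ) (t : ℝ) :
    1 / 2 * deriv (deriv (deriv (Ff a γ))) t + 2 * curv γ t * deriv (Ff a γ) t
      + deriv (curv γ) t * Ff a γ t = 0 := h.euler t

/-- `G = F''/2 + p F` -/
noncomputable def Gf (a : ℝ) (γ : ℝ → ℂ) (t : ℝ) : ℝ :=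
  deriv (deriv (Ff a γ)) t / 2 + curv γ t * Ff a γ t

lemma IsExtremal.dG (h : IsExtremal a T γ) (t : ℝ) :
    HasDerivAt (Gf a γ) (-(curv γ t * deriv (Ff a γ) t)) t := by
  have h1 := ((h.dF2 t).div_const 2).add ((h.dp t).mul (h.dF t))
  refine h1.congr_deriv ?_
  have := h.euler' t
  linarith

/-- `F` is a quadratic form of `γ` -/
lemma IsExtremal.quad (h : IsExtremal a T γ) : ∃ A B C : ℝ,
    (∀ t, Ff a γ t = A * (γ t).re ^ 2 + 2 * B * (γ t).re * (γ t).im + C * (γ t).im ^ 2) ∧
    (∀ t, Ff a γ t * Gf a γ t - deriv (Ff a γ) t ^ 2 / 4 = A * C - B ^ 2) := by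
  set F := Ff a γ with hF
  set F1 := deriv (Ff a γ) with hF1
  set G := Gf a γ with hG
  set x : ℝ → ℝ := fun t => (γ t).re with hx
  set y : ℝ → ℝ := fun t => (γ t).im with hy
  set x' : ℝ → ℝ := fun t => (deriv γ t).re with hx'
  set y' : ℝ → ℝ := fun t => (deriv γ t).im with hy'
  have dx : ∀ t, HasDerivAt x (x' t) t := fun t => hd_re (h.d1 t)
  have dy : ∀ t, HasDerivAt y (y' t) t := fun t => hd_im (h.d1 t)
  have dx' : ∀ t, HasDerivAt x' (-(curv γ t * x t)) t := fun t => by
    have h1 := hd_re (h.d2 t)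
    rw [h.ode t] at h1
    refine h1.congr_deriv ?_
    simp [hx]
  have dy' : ∀ t, HasDerivAt y' (-(curv γ t * y t)) t := fun t => by
    have h1 := hd_im (h.d2 t)
    rw [h.ode t] at h1
    refine h1.congr_deriv ?_
    simp [hy]
  have hbr : ∀ t, x t * y' t - y t * x' t = 1 := h.centroaffine
  have hF2 : ∀ t, deriv (deriv (Ff a γ)) t / 2 = G t - curv γ t * F t := by
    intro t
    rw [hG, hF]
    unfold Gf
    ring
  have hA : ∀ t, HasDerivAt (fun t => y' t ^ 2 * F t - y t * y' t * F1 t + y t ^ 2 * G t) 0 t := by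
    intro t
    have h1 := (((dy' t).pow 2).mul (h.dF t)).sub (((dy t).mul (dy' t)).mul (h.dF1 t))
    have h2 := h1.add (((dy t).pow 2).mul (h.dG t))
    refine h2.congr_deriv ?_
    have h3 := hF2 t
    simp only [Pi.pow_apply, Pi.mul_apply, Nat.cast_ofNat, Nat.add_one_sub_one, pow_one, ← hF,
      ← hG]
    linear_combination (-(2 * y t * y' t)) * h3
  have hC : ∀ t, HasDerivAt (fun t => x' t ^ 2 * F t - x t * x' t * F1 t + x t ^ 2 * G t) 0 t := by
    intro t
    have h1 := (((dx' t).pow 2).mul (h.dF t)).sub (((dx t).mul (dx' t)).mul (h.dF1 t))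
    have h2 := h1.add (((dx t).pow 2).mul (h.dG t))
    refine h2.congr_deriv ?_
    have h3 := hF2 t
    simp only [Pi.pow_apply, Pi.mul_apply, Nat.cast_ofNat, Nat.add_one_sub_one, pow_one, ← hF,
      ← hG]
    linear_combination (-(2 * x t * x' t)) * h3
  have hB : ∀ t, HasDerivAt (fun t => x' t * y' t * F t - (x t * y' t + x' t * y t) * (F1 t / 2)
      + x t * y t * G t) 0 t := by
    intro t
    have h1 := (((dx' t).mul (dy' t)).mul (h.dF t)).sub
      ((((dx t).mul (dy' t)).add ((dx' t).mul (dy t))).mul ((h.dF1 t).div_const 2))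
    have h2 := h1.add (((dx t).mul (dy t)).mul (h.dG t))
    refine h2.congr_deriv ?_
    have h3 := hF2 t
    simp only [Pi.mul_apply, Pi.add_apply, ← hF, ← hG]
    linear_combination (-(x t * y' t + x' t * y t)) * h3
  have cA := fun t => is_const_of_deriv_eq_zero (fun t => (hA t).differentiableAt)
    (fun t => (hA t).deriv) t 0
  have cB := fun t => is_const_of_deriv_eq_zero (fun t => (hB t).differentiableAt)
    (fun t => (hB t).deriv) t 0
  have cC := fun t => is_const_of_deriv_eq_zero (fun t => (hC t).differentiableAt)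
    (fun t => (hC t).deriv) t 0
  refine ⟨y' 0 ^ 2 * F 0 - y 0 * y' 0 * F1 0 + y 0 ^ 2 * G 0,
    -(x' 0 * y' 0 * F 0 - (x 0 * y' 0 + x' 0 * y 0) * (F1 0 / 2) + x 0 * y 0 * G 0),
    x' 0 ^ 2 * F 0 - x 0 * x' 0 * F1 0 + x 0 ^ 2 * G 0, fun t => ?_, fun t => ?_⟩
  · have h1 := hbr t
    have a1 := cA t
    have a2 := cB t
    have a3 := cC t
    rw [← a1, ← a2, ← a3]
    change F t = (y' t ^ 2 * F t - y t * y' t * F1 t + y t ^ 2 * G t) * x t ^ 2
      + 2 * -(x' t * y' t * F t - (x t * y' t + x' t * y t) * (F1 t / 2) + x t * y t * G t)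
        * x t * y t
      + (x' t ^ 2 * F t - x t * x' t * F1 t + x t ^ 2 * G t) * y t ^ 2
    linear_combination (-(F t) * (x t * y' t - y t * x' t + 1)) * h1
  · have h1 := hbr t
    have a1 := cA t
    have a2 := cB t
    have a3 := cC t
    rw [← a1, ← a2, ← a3]
    change F t * G t - F1 t ^ 2 / 4 = _
    linear_combination (-(F t * G t - F1 t ^ 2 / 4) * (x t * y' t - y t * x' t + 1)) * h1

/-- every line through the origin is met -/
lemma IsExtremal.meets (h : IsExtremal a T γ) (u : ℂ) : ∃ t, br u (γ t) = 0 := by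
  have hd : ∀ t, HasDerivAt (fun t => br u (deriv γ t)) (-(curv γ t * br u (γ t))) t := by
    intro t
    have h1 := hd_br (hasDerivAt_const t u) (h.d2 t)
    refine h1.congr_deriv ?_
    rw [h.ode t]
    unfold br
    simp
    ring
  have hper : br u (deriv γ 0) = br u (deriv γ T) := by
    have := deriv_periodic h.closed 0
    rw [zero_add] at this
    rw [this]
  obtain ⟨c, _, hc⟩ := exists_hasDerivAt_eq_zero h.pos
    (fun t _ => (hd t).continuousAt.continuousWithinAt) hper (fun x _ => hd x)
  refine ⟨c, ?_⟩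
  have := h.curv_pos c
  have h2 : curv γ c * br u (γ c) = 0 := by linarith
  exact (mul_eq_zero.1 h2).resolve_left this.ne'

lemma quad_pos (h : IsExtremal a T γ) {A B C : ℝ}
    (hq : ∀ t, Ff a γ t = A * (γ t).re ^ 2 + 2 * B * (γ t).re * (γ t).im + C * (γ t).im ^ 2) :
    0 < A ∧ 0 < A * C - B ^ 2 := by
  have hA : 0 < A := by
    obtain ⟨t, ht⟩ := h.meets 1
    have h0 : (γ t).im = 0 := by simpa [br] using ht
    have h1 := hq t
    rw [h0] at h1
    have h2 := h.Fpos t
    rw [h1] at h2
    have h3 : 0 < A * (γ t).re ^ 2 := by linarith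
    by_contra hcon
    nlinarith [sq_nonneg (γ t).re]
  refine ⟨hA, ?_⟩
  obtain ⟨t, ht⟩ := h.meets ⟨-B, A⟩
  have h0 : A * (γ t).re + B * (γ t).im = 0 := by
    simp only [br] at ht
    linarith
  have h1 := hq t
  have h2 := h.Fpos t
  have h3 : A * Ff a γ t = (A * C - B ^ 2) * (γ t).im ^ 2 := by
    rw [h1]
    linear_combination (A * (γ t).re + B * (γ t).im) * h0
  have h4 : 0 < (A * C - B ^ 2) * (γ t).im ^ 2 := by
    rw [← h3]
    positivity
  by_contra hcon
  nlinarith [sq_nonneg (γ t).im]

/-- the polar angle and the logarithmic integral -/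
lemma rot_int {g g' : ℝ → ℂ} {T : ℝ} {m : ℕ} (hd : ∀ t, HasDerivAt g (g' t) t)
    (hc : Continuous g') (hne : ∀ t, g t ≠ 0) (hT : 0 ≤ T) (hr : HasRot T g m) :
    ∫ t in (0 : ℝ)..T, (g' t / g t).im = 2 * π * m := by
  obtain ⟨φ, hφ, hg, hm⟩ := hr
  have hgc : Continuous g := continuous_iff_continuousAt.2 fun t => (hd t).continuousAt
  have hq : Continuous (fun t => g' t / g t) := hc.div hgc hne
  set Ef : ℝ → ℂ := fun t => ∫ s in (0 : ℝ)..t, g' s / g s with hE
  have hdE : ∀ t, HasDerivAt Ef (g' t / g t) t := fun t =>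
    intervalIntegral.integral_hasDerivAt_right (hq.intervalIntegrable 0 t)
      hq.stronglyMeasurable.stronglyMeasurableAtFilter hq.continuousAt
  have hEc : Continuous Ef := continuous_iff_continuousAt.2 fun t => (hdE t).continuousAt
  have hconst : ∀ t, HasDerivAt (fun t => g t * Complex.exp (-Ef t)) 0 t := by
    intro t
    have h1 := (hdE t).neg.cexp
    have h2 := (hd t).mul h1
    refine h2.congr_deriv ?_
    have := hne t
    simp only [Pi.neg_apply]
    field_simp
    ring
  have hE0 : Ef 0 = 0 := by simp [hE]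
  have h0 : ∀ t, g t * Complex.exp (-Ef t) = g 0 := by
    intro t
    have := is_const_of_deriv_eq_zero (fun t => (hconst t).differentiableAt)
      (fun t => (hconst t).deriv) t 0
    rw [this, hE0, neg_zero, Complex.exp_zero, mul_one]
  have h1 : ∀ t, g t = g 0 * Complex.exp (Ef t) := by
    intro t
    rw [← h0 t, mul_assoc, ← Complex.exp_add, neg_add_cancel, Complex.exp_zero, mul_one]
  set δ : ℝ → ℝ := fun t => φ t - φ 0 - (Ef t).im with hδ
  have hδc : Continuous δ := (hφ.sub continuous_const).sub (Complex.continuous_im.comp hEc)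
  have hδ1 : ∀ t, Complex.exp ((δ t : ℂ) * Complex.I) = 1 := by
    intro t
    have e1 := h1 t
    rw [hg t, hg 0] at e1
    have e3 : ‖g t‖ = ‖g 0‖ * Real.exp (Ef t).re := by
      rw [h1 t, norm_mul, Complex.norm_exp]
    rw [e3] at e1
    have hn0 : (‖g 0‖ : ℂ) ≠ 0 := by
      rw [Ne, Complex.ofReal_eq_zero, norm_eq_zero]
      exact hne 0
    have e4 : Complex.exp (Ef t) = (Real.exp (Ef t).re : ℂ) * Complex.exp (((Ef t).im : ℂ) * Complex.I) := by
      rw [Complex.ofReal_exp, ← Complex.exp_add, Complex.re_add_im]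
    rw [e4] at e1
    have hn1 : ((Real.exp (Ef t).re : ℝ) : ℂ) ≠ 0 := by
      rw [Ne, Complex.ofReal_eq_zero]
      exact (Real.exp_pos _).ne'
    have e5 : Complex.exp ((φ t : ℂ) * Complex.I) = Complex.exp ((φ 0 : ℂ) * Complex.I)
        * Complex.exp (((Ef t).im : ℂ) * Complex.I) := by
      have e6 : ((‖g 0‖ : ℂ) * ((Real.exp (Ef t).re : ℝ) : ℂ)) * Complex.exp ((φ t : ℂ) * Complex.I)
          = ((‖g 0‖ : ℂ) * ((Real.exp (Ef t).re : ℝ) : ℂ)) * (Complex.exp ((φ 0 : ℂ) * Complex.I)
          * Complex.exp (((Ef t).im : ℂ) * Complex.I)) := by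
        push_cast at e1 ⊢
        rw [e1]
        ring
      exact mul_left_cancel₀ (mul_ne_zero hn0 hn1) e6
    have e7 : Complex.exp ((δ t : ℂ) * Complex.I) = Complex.exp ((φ t : ℂ) * Complex.I) /
        (Complex.exp ((φ 0 : ℂ) * Complex.I) * Complex.exp (((Ef t).im : ℂ) * Complex.I)) := by
      rw [← Complex.exp_add, ← Complex.exp_sub]
      congr 1
      simp only [hδ]
      push_cast
      ring
    rw [e7, e5, div_self]
    exact mul_ne_zero (Complex.exp_ne_zero _) (Complex.exp_ne_zero _)
  have hcos : ∀ t, Real.cos (δ t) = 1 := by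
    intro t
    have := congrArg Complex.re (hδ1 t)
    rwa [Complex.exp_ofReal_mul_I_re, Complex.one_re] at this
  have hδ0 : δ 0 = 0 := by simp [hδ, hE0]
  have hδT : δ T = 0 := by
    by_contra hcon
    obtain ⟨n, hn⟩ := (Real.cos_eq_one_iff _).1 (hcos T)
    have hn0 : n ≠ 0 := by
      rintro rfl
      apply hcon
      rw [← hn]
      simp
    have hbig : π ≤ |δ T| := by
      rw [← hn, abs_mul, abs_of_pos Real.two_pi_pos]
      have : (1 : ℝ) ≤ |(n : ℝ)| := by
        rw [← Int.cast_abs]
        exact_mod_cast Int.one_le_abs hn0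
      nlinarith [Real.pi_pos]
    have hiv := intermediate_value_Icc hT (f := fun t => |δ t|) hδc.abs.continuousOn
    have : π ∈ Icc (|δ 0|) (|δ T|) := ⟨by rw [hδ0, abs_zero]; exact Real.pi_pos.le, hbig⟩
    obtain ⟨s, _, hs⟩ := hiv this
    have h3 := hcos s
    have hs' : |δ s| = π := hs
    rw [← Real.cos_abs, hs', Real.cos_pi] at h3
    norm_num at h3
  have him : (Ef T).im = 2 * π * m := by
    have : δ T = φ T - φ 0 - (Ef T).im := rfl
    linarith
  rw [← him]
  have h1 := Complex.imCLM.intervalIntegral_comp_comm (hq.intervalIntegrable 0 T)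
    (μ := MeasureTheory.volume)
  simp only [Complex.imCLM_apply] at h1
  exact h1

lemma IsExtremal.ne (h : IsExtremal a T γ) (t : ℝ) : γ t ≠ 0 := by
  intro h0
  have := h.centroaffine t
  rw [h0] at this
  simp [br] at this

lemma IsExtremal.curv_per (h : IsExtremal a T γ) (t : ℝ) : curv γ (t + T) = curv γ t := by
  unfold curv
  rw [deriv_periodic h.closed, deriv_periodic (deriv_periodic h.closed)]

lemma IsExtremal.F_per (h : IsExtremal a T γ) (t : ℝ) : Ff a γ (t + T) = Ff a γ t := by
  unfold Ff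
  rw [h.curv_per]

/-- for constant curvature the image is an ellipse -/
lemma IsExtremal.ellipse_of_const' (h : IsExtremal a T γ) {A B C : ℝ}
    (hp : ∀ s, curv γ s = curv γ 0)
    (hq : ∀ t, Ff a γ t = A * (γ t).re ^ 2 + 2 * B * (γ t).re * (γ t).im + C * (γ t).im ^ 2)
    (hc : ∀ t, Ff a γ t = Ff a γ 0) : IsEllipse (range γ) := by
  obtain ⟨hA, hD⟩ := quad_pos h hq
  set F0 := Ff a γ 0 with hF0
  have hF0p : 0 < F0 := h.Fpos 0
  refine ⟨0, A / F0, B / F0, C / F0, by positivity, ?_, ?_⟩
  · have : A / F0 * (C / F0) - (B / F0) ^ 2 = (A * C - B ^ 2) / F0 ^ 2 := by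
      field_simp
    rw [this]
    positivity
  ext v
  simp only [mem_range, mem_ofPred_eq, sub_zero]
  constructor
  · rintro ⟨t, rfl⟩
    have h1 := hq t
    rw [hc t] at h1
    field_simp
    linarith
  · intro hv
    have hv' : A * v.re ^ 2 + 2 * B * v.re * v.im + C * v.im ^ 2 = F0 := by
      field_simp at hv
      linarith
    obtain ⟨t, ht⟩ := h.meets v
    have hfr := frame (h.centroaffine t) v
    have hb : br (γ t) v = 0 := by
      unfold br at *
      linarith
    rw [hb, Complex.ofReal_zero, zero_mul, add_zero] at hfr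
    set l := br v (deriv γ t) with hl
    have hre : v.re = l * (γ t).re := by
      have := congrArg Complex.re hfr
      simpa using this
    have him : v.im = l * (γ t).im := by
      have := congrArg Complex.im hfr
      simpa using this
    have hl2 : l ^ 2 = 1 := by
      have h1 := hq t
      rw [hc t] at h1
      rw [hre, him] at hv'
      have h2 : l ^ 2 * F0 = F0 := by
        rw [h1] at hv' ⊢
        linarith
      have h3 : (l ^ 2 - 1) * F0 = 0 := by linarith
      have := (mul_eq_zero.1 h3).resolve_right hF0p.ne'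
      linarith
    set q := √(curv γ 0) with hqd
    have hqp : 0 < q := Real.sqrt_pos.2 (h.curv_pos 0)
    have hq2 : q ^ 2 = curv γ 0 := Real.sq_sqrt (h.curv_pos 0).le
    rcases eq_or_eq_neg_of_sq_eq_sq l 1 (by rw [hl2]; norm_num) with h1 | h1
    · refine ⟨t, ?_⟩
      rw [hfr, h1]
      simp
    · refine ⟨t + π / q, ?_⟩
      -- the two rotating components
      have hode : ∀ s, HasDerivAt (deriv γ) (-(((q ^ 2 : ℝ) : ℂ) * γ s)) s := by
        intro s
        have h2 := h.d2 s
        rw [h.ode s, hp s, ← hq2] at h2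
        exact h2
      have hcP : ∀ σ : ℂ, σ ^ 2 = -1 → ∀ s, HasDerivAt
          (fun s => (deriv γ s + σ * q * γ s) * Complex.exp (-(σ * q * s))) 0 s := by
        intro σ hσ s
        have e1 : HasDerivAt (fun s : ℝ => -(σ * q * (s : ℂ))) (-(σ * q)) s := by
          have := ((hasDerivAt_id s).ofReal_comp.const_mul (σ * (q : ℂ))).neg
          refine this.congr_deriv ?_
          simp
        have e2 := ((hode s).add ((h.d1 s).const_mul (σ * (q : ℂ)))).mul e1.cexp
        refine e2.congr_deriv ?_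
        simp only [Pi.add_apply]
        push_cast
        linear_combination (-(q : ℂ) ^ 2 * γ s * Complex.exp (-(σ * q * s))) * hσ
      have key : ∀ σ : ℂ, σ ^ 2 = -1 → Complex.exp (σ * π) = -1 →
          deriv γ (t + π / q) + σ * q * γ (t + π / q) = -(deriv γ t + σ * q * γ t) := by
        intro σ hσ hσπ
        have e1 := is_const_of_deriv_eq_zero (fun t => (hcP σ hσ t).differentiableAt)
          (fun t => (hcP σ hσ t).deriv) (t + π / q) t
        have e2 : Complex.exp (-(σ * q * ((t + π / q : ℝ) : ℂ)))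
            = -Complex.exp (-(σ * q * t)) := by
          have e3 : -(σ * q * ((t + π / q : ℝ) : ℂ)) = -(σ * q * t) + -(σ * π) := by
            push_cast
            have : (q : ℂ) ≠ 0 := by
              rw [Ne, Complex.ofReal_eq_zero]
              exact hqp.ne'
            field_simp
            ring
          rw [e3, Complex.exp_add, Complex.exp_neg (σ * π), hσπ]
          norm_num
        rw [e2] at e1
        have e4 := Complex.exp_ne_zero (-(σ * q * t))
        have e5 : -(deriv γ (t + π / q) + σ * q * γ (t + π / q)) * Complex.exp (-(σ * q * t))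
            = (deriv γ t + σ * q * γ t) * Complex.exp (-(σ * q * t)) := by
          rw [← e1]
          ring
        have e6 := mul_right_cancel₀ e4 e5
        rw [← e6]
        ring
      have k1 := key Complex.I Complex.I_sq (by rw [mul_comm]; exact Complex.exp_pi_mul_I)
      have k2 := key (-Complex.I) (by rw [neg_sq]; exact Complex.I_sq)
        (by rw [neg_mul, Complex.exp_neg, mul_comm, Complex.exp_pi_mul_I]; norm_num)
      have k3 : (2 * Complex.I * q) * γ (t + π / q) = (2 * Complex.I * q) * (-γ t) := by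
        linear_combination k1 - k2
      have hne : (2 * Complex.I * q : ℂ) ≠ 0 := by
        simp [hqp.ne', Complex.I_ne_zero]
      rw [mul_left_cancel₀ hne k3, hfr, h1]
      simp

lemma IsExtremal.ellipse_of_const (h : IsExtremal a T γ) {A B C : ℝ} (ha : a ≠ 1)
    (hq : ∀ t, Ff a γ t = A * (γ t).re ^ 2 + 2 * B * (γ t).re * (γ t).im + C * (γ t).im ^ 2)
    (hc : ∀ t, Ff a γ t = Ff a γ 0) : IsEllipse (range γ) := by
  refine h.ellipse_of_const' (fun s => ?_) hq hc
  have h1 := hc s
  unfold Ff at h1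
  have ha' : a - 1 ≠ 0 := sub_ne_zero.2 ha
  exact (Real.rpow_left_inj (h.curv_pos s).le (h.curv_pos 0).le ha').1 h1

/-- **Reduction of extremal curves to a central force problem.** -/
theorem IsExtremal.reduce (h : IsExtremal a T γ) (ha : a ≠ 1) (hr : HasRot T γ m)
    (hne : ¬IsEllipse (range γ)) :
    ∃ (K : ℝ) (U V w : ℝ → ℝ), Osc (2 * a / (a - 1)) K T m U V w ∧ ∃ t, V t ≠ 0 := by
  obtain ⟨A, B, C, hq, hdet⟩ := h.quad
  obtain ⟨hA, hD⟩ := quad_pos h hq
  set c := √(A * C - B ^ 2) with hc
  have hcp : 0 < c := Real.sqrt_pos.2 hD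
  have hc2 : c ^ 2 = A * C - B ^ 2 := Real.sq_sqrt hD.le
  set r : ℝ → ℝ := fun t => √(Ff a γ t / c) with hrd
  have hrp : ∀ t, 0 < r t := fun t => Real.sqrt_pos.2 (div_pos (h.Fpos t) hcp)
  have hr2 : ∀ t, r t ^ 2 = Ff a γ t / c := fun t => Real.sq_sqrt (div_pos (h.Fpos t) hcp).le
  set r' : ℝ → ℝ := fun t => deriv (Ff a γ) t / (2 * c * r t) with hr'
  have hdr : ∀ t, HasDerivAt r (r' t) t := by
    intro t
    have h1 := ((h.dF t).div_const c).sqrt (div_pos (h.Fpos t) hcp).ne'
    refine h1.congr_deriv ?_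
    have := hrp t
    simp only [hr', hrd]
    field_simp
  have hdr' : ∀ t, HasDerivAt r' (1 / r t ^ 3 - curv γ t * r t) t := by
    intro t
    have hp := hrp t
    have h1 := (h.dF1 t).div ((hdr t).const_mul (2 * c)) (by positivity)
    refine h1.congr_deriv ?_
    have e1 := hdet t
    have e2 : Ff a γ t = c * r t ^ 2 := by
      rw [hr2]
      field_simp
    have e3 : deriv (deriv (Ff a γ)) t = 2 * (Gf a γ t - curv γ t * Ff a γ t) := by
      unfold Gf
      ring
    rw [← hc2, e2] at e1
    rw [e3, e2]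
    simp only [hr']
    have e4 : Gf a γ t = (c ^ 2 + deriv (Ff a γ) t ^ 2 / 4) / (c * r t ^ 2) := by
      field_simp
      linarith
    rw [e4]
    field_simp
    ring
  set al := 2 * a / (a - 1) with hal
  have ha' : a - 1 ≠ 0 := sub_ne_zero.2 ha
  refine ⟨c ^ (1 / (a - 1)), fun t => 1 / r t, fun t => -r' t, fun t => 1 / r t ^ 2, ?_, ?_⟩
  · refine ⟨h.pos, Real.rpow_pos_of_pos hcp _, fun t => ?_, fun t => ?_, ?_, fun t => ?_,
      fun t => ?_, fun t => ?_, fun t => ?_, ?_⟩
    · have := hrp t
      positivity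
    · have := hrp t
      positivity
    · exact continuous_const.div ((continuous_iff_continuousAt.2 fun t =>
        (hdr t).continuousAt).pow 2) fun t => (pow_pos (hrp t) 2).ne'
    · have h1 := (hdr t).inv (hrp t).ne'
      have h2 : (fun t => 1 / r t) = r⁻¹ := by
        funext s
        simp
      rw [h2]
      refine h1.congr_deriv ?_
      field_simp
    · refine (hdr' t).neg.congr_deriv ?_
      have hp := hrp t
      have e1 : curv γ t = Ff a γ t ^ (1 / (a - 1)) := by
        unfold Ff
        rw [← Real.rpow_mul (h.curv_pos t).le]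
        field_simp
        rw [Real.rpow_one]
      have e2 : Ff a γ t = c * r t ^ 2 := by
        rw [hr2]
        field_simp
      have e3 : c ^ (1 / (a - 1)) * (1 / r t) ^ (-al - 1) = curv γ t * r t ^ 3 := by
        rw [e1, e2, Real.mul_rpow hcp.le (by positivity), mul_assoc]
        congr 1
        rw [one_div, Real.inv_rpow hp.le, ← Real.rpow_neg hp.le, ← Real.rpow_natCast (r t) 2,
          ← Real.rpow_natCast (r t) 3, ← Real.rpow_mul hp.le, ← Real.rpow_add hp]
        congr 1
        rw [hal]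
        push_cast
        field_simp
        ring
      rw [e3]
      field_simp
      ring
    · simp only [hrd]
      rw [h.F_per]
    · simp only [hr', hrd]
      rw [h.F_per, deriv_periodic h.F_per]
    · -- the angular length
      set ζ : ℝ → ℂ := fun t => ((A * (γ t).re + B * (γ t).im : ℝ) : ℂ)
        + ((c * (γ t).im : ℝ) : ℂ) * Complex.I with hζ
      set ζ' : ℝ → ℂ := fun t => ((A * (deriv γ t).re + B * (deriv γ t).im : ℝ) : ℂ)
        + ((c * (deriv γ t).im : ℝ) : ℂ) * Complex.I with hζ'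
      have hzd : ∀ t, HasDerivAt ζ (ζ' t) t := fun t =>
        (((hd_re (h.d1 t)).const_mul A).add ((hd_im (h.d1 t)).const_mul B)).ofReal_comp.add
          (((hd_im (h.d1 t)).const_mul c).ofReal_comp.mul_const _)
      have hg1 : Continuous (deriv γ) := h.smooth1.continuous
      have hzc : Continuous ζ' := by
        have h1 := Complex.continuous_re.comp hg1
        have h2 := Complex.continuous_im.comp hg1
        exact (Complex.continuous_ofReal.comp ((h1.const_mul A).add (h2.const_mul B))).add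
          ((Complex.continuous_ofReal.comp (h2.const_mul c)).mul continuous_const)
      have hre : ∀ t, (ζ t).re = A * (γ t).re + B * (γ t).im := fun t => by simp [hζ]
      have him : ∀ t, (ζ t).im = c * (γ t).im := fun t => by simp [hζ]
      have hre' : ∀ t, (ζ' t).re = A * (deriv γ t).re + B * (deriv γ t).im :=
        fun t => by simp [hζ']
      have him' : ∀ t, (ζ' t).im = c * (deriv γ t).im := fun t => by simp [hζ']
      have hns : ∀ t, Complex.normSq (ζ t) = A * Ff a γ t := by
        intro t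
        rw [Complex.normSq_apply, hre, him, hq t]
        linear_combination (γ t).im ^ 2 * hc2
      have hzne : ∀ t, ζ t ≠ 0 := by
        intro t h0
        have h1 := hns t
        rw [h0, map_zero] at h1
        have := mul_pos hA (h.Fpos t)
        linarith
      have hs : ∀ t, ζ t / γ t ∈ Complex.slitPlane := by
        intro t
        rw [Complex.mem_slitPlane_iff]
        by_contra hcon
        rw [not_or, not_lt, not_not] at hcon
        obtain ⟨h1, h2⟩ := hcon
        have hn0 : 0 < Complex.normSq (γ t) := Complex.normSq_pos.2 (h.ne t)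
        have hn1 := hn0
        rw [Complex.normSq_apply] at hn1
        rw [Complex.div_re, ← add_div, hre, him] at h1
        rw [Complex.div_im, ← sub_div, hre, him] at h2
        have h3 := (div_eq_zero_iff.1 h2).resolve_right hn0.ne'
        have h4 : (A * (γ t).re + B * (γ t).im) * (γ t).re + c * (γ t).im * (γ t).im ≤ 0 := by
          by_contra h5
          rw [not_le] at h5
          have := div_pos h5 hn0
          linarith
        have h5 : (γ t).im * (c * (γ t).re - (A * (γ t).re + B * (γ t).im)) = 0 := by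
          linarith
        rcases mul_eq_zero.1 h5 with h6 | h6
        · rw [h6] at h4 hn1
          nlinarith
        · have h7 : A * (γ t).re + B * (γ t).im = c * (γ t).re := by linarith
          rw [h7] at h4
          nlinarith
      have hT1 : γ T = γ 0 := by
        have := h.closed 0
        rwa [zero_add] at this
      have hT2 : ζ T = ζ 0 := by
        simp only [hζ, hT1]
      have hw := wind_eq h.d1 hg1 hzd hzc h.ne hzne hs hT1 hT2
      have hrot := rot_int h.d1 hg1 h.ne h.pos.le hr
      have hgc : Continuous γ := h.smooth.continuous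
      have hq1 : Continuous (fun t => deriv γ t / γ t) := hg1.div hgc h.ne
      have hq2 : Continuous (fun t => ζ' t / ζ t) :=
        hzc.div (continuous_iff_continuousAt.2 fun t => (hzd t).continuousAt) hzne
      have e1 := Complex.imCLM.intervalIntegral_comp_comm (hq1.intervalIntegrable 0 T)
        (μ := MeasureTheory.volume)
      have e2 := Complex.imCLM.intervalIntegral_comp_comm (hq2.intervalIntegrable 0 T)
        (μ := MeasureTheory.volume)
      simp only [Complex.imCLM_apply] at e1 e2
      rw [hrot] at e1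
      rw [hw, ← e1] at e2
      rw [← e2]
      congr 1
      funext t
      rw [Complex.div_im, hns, hre, him, hre', him', hr2]
      have hF := h.Fpos t
      have hb := h.centroaffine t
      unfold br at hb
      field_simp
      linear_combination (-A) * hb
  · by_contra hcon
    simp only [not_exists, not_not, neg_eq_zero] at hcon
    apply hne
    have hconst : ∀ t, r t = r 0 := fun t =>
      is_const_of_deriv_eq_zero (fun t => (hdr t).differentiableAt)
        (fun t => by rw [(hdr t).deriv]; exact hcon t) t 0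
    apply h.ellipse_of_const ha hq
    intro t
    have e1 := hr2 t
    rw [hconst t, hr2 0] at e1
    field_simp at e1
    exact e1.symm

end Q186.Ca
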