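import Mathlib

/-!
Truncated planar system used for the contact-angle soliton problem (n = 1).
-/

namespace Q186.Cap

open Real Set

/-- right-hand side of the truncated radius-of-curvature equation -/
noncomputable def rho (β δ k s x y : ℝ) : ℝ :=
  (1 + k * cos s) ^ β * (max (x * sin s + y * cos s) δ) ^ (-β)

/-- the planar system in the coordinates of the curve itself -/
structure Sol (β δ a k : ℝ) (x y : ℝ → ℝ) : Prop where
  x0 : x 0 = 0
  y0 : y 0 = a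
  dx : ∀ s ∈ Ioo (-π) π, HasDerivAt x (rho β δ k s (x s) (y s) * cos s) s
  dy : ∀ s ∈ Ioo (-π) π, HasDerivAt y (-(rho β δ k s (x s) (y s) * sin s)) s

/-- the vector field -/
noncomputable def fld (β δ k s : ℝ) (z : ℝ × ℝ) : ℝ × ℝ :=
  (rho β δ k s z.1 z.2 * cos s, -(rho β δ k s z.1 z.2 * sin s))

lemma phi_lip {β δ : ℝ} (hβ : 0 ≤ β) (hδ : 0 < δ) :
    LipschitzWith (Real.toNNReal (β * δ ^ (-β - 1))) (fun u : ℝ => (max u δ) ^ (-β)) := by
  have h1 : LipschitzOnWith (Real.toNNReal (β * δ ^ (-β - 1))) (fun t : ℝ => t ^ (-β)) (Ici δ) := by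
    apply Convex.lipschitzOnWith_of_nnnorm_hasDerivWithin_le (f' := fun t => (-β) * t ^ (-β - 1))
      (convex_Ici δ)
    · intro t ht
      have ht' : 0 < t := lt_of_lt_of_le hδ ht
      exact (Real.hasDerivAt_rpow_const (Or.inl ht'.ne')).hasDerivWithinAt
    · intro t ht
      have ht' : 0 < t := lt_of_lt_of_le hδ ht
      rw [← NNReal.coe_le_coe, coe_nnnorm, Real.coe_toNNReal _ (by positivity), Real.norm_eq_abs,
        abs_mul, abs_neg, abs_of_nonneg hβ, abs_of_nonneg (by positivity)]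
      apply mul_le_mul_of_nonneg_left _ hβ
      exact Real.rpow_le_rpow_of_nonpos hδ ht (by linarith)
  have h2 : LipschitzWith 1 (fun u : ℝ => max u δ) := LipschitzWith.id.max_const δ
  have h3 := h1.comp (h2.lipschitzOnWith (s := univ)) (fun u _ => le_max_right u δ)
  rw [lipschitzOnWith_univ, mul_one] at h3
  exact h3

lemma phi_bounds {β δ u : ℝ} (hβ : 0 ≤ β) (hδ : 0 < δ) :
    0 < (max u δ) ^ (-β) ∧ (max u δ) ^ (-β) ≤ δ ^ (-β) := by
  have h : 0 < max u δ := lt_of_lt_of_le hδ (le_max_right _ _)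
  exact ⟨Real.rpow_pos_of_pos h _, Real.rpow_le_rpow_of_nonpos hδ (le_max_right _ _) (by linarith)⟩

lemma L_bounds {k s : ℝ} (hk0 : 0 ≤ k) (hk1 : k ≤ 1 / 2) :
    1 / 2 ≤ 1 + k * cos s ∧ 1 + k * cos s ≤ 3 / 2 := by
  have h1 := Real.neg_one_le_cos s
  have h2 := Real.cos_le_one s
  constructor <;> nlinarith

lemma Lb_bounds {β k s : ℝ} (hβ : 0 ≤ β) (hβ2 : β ≤ 2) (hk0 : 0 ≤ k) (hk1 : k ≤ 1 / 2) :
    1 / 4 ≤ (1 + k * cos s) ^ β ∧ (1 + k * cos s) ^ β ≤ 9 / 4 := by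
  obtain ⟨h1, h2⟩ := L_bounds (s := s) hk0 hk1
  constructor
  · calc (1 / 4 : ℝ) = (1 / 2 : ℝ) ^ (2 : ℝ) := by norm_num
      _ ≤ (1 / 2 : ℝ) ^ β := Real.rpow_le_rpow_of_exponent_ge (by norm_num) (by norm_num) hβ2
      _ ≤ _ := Real.rpow_le_rpow (by norm_num) h1 hβ
  · calc (1 + k * cos s) ^ β ≤ (3 / 2 : ℝ) ^ β := Real.rpow_le_rpow (by linarith) h2 hβ
      _ ≤ (3 / 2 : ℝ) ^ (2 : ℝ) := Real.rpow_le_rpow_of_exponent_le (by norm_num) hβ2
      _ = 9 / 4 := by norm_num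

lemma rho_pos {β δ k s x y : ℝ} (hβ : 0 ≤ β) (hδ : 0 < δ) (hk0 : 0 ≤ k) (hk1 : k ≤ 1 / 2) :
    0 < rho β δ k s x y := by
  unfold rho
  obtain ⟨h1, h2⟩ := L_bounds (s := s) hk0 hk1
  exact mul_pos (Real.rpow_pos_of_pos (by linarith) _) (phi_bounds hβ hδ).1

lemma rho_le {β δ k s x y : ℝ} (hβ : 0 ≤ β) (hβ2 : β ≤ 2) (hδ : 0 < δ) (hk0 : 0 ≤ k)
    (hk1 : k ≤ 1 / 2) :
    rho β δ k s x y ≤ 9 / 4 * δ ^ (-β) := by
  unfold rho
  obtain ⟨h1, h2⟩ := Lb_bounds (s := s) hβ hβ2 hk0 hk1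
  obtain ⟨h3, h4⟩ := phi_bounds (u := x * sin s + y * cos s) hβ hδ
  exact mul_le_mul h2 h4 h3.le (by norm_num)

lemma rho_lip {β δ k s : ℝ} (hβ : 0 ≤ β) (hβ2 : β ≤ 2) (hδ : 0 < δ) (hk0 : 0 ≤ k)
    (hk1 : k ≤ 1 / 2) (z w : ℝ × ℝ) :
    |rho β δ k s z.1 z.2 - rho β δ k s w.1 w.2| ≤ 9 / 2 * (β * δ ^ (-β - 1)) * ‖z - w‖ := by
  unfold rho
  obtain ⟨h1, h2⟩ := Lb_bounds (s := s) hβ hβ2 hk0 hk1
  have h3 := (phi_lip hβ hδ).dist_le_mul (z.1 * sin s + z.2 * cos s) (w.1 * sin s + w.2 * cos s)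
  have hC : 0 ≤ β * δ ^ (-β - 1) := by positivity
  rw [Real.coe_toNNReal _ hC, Real.dist_eq, Real.dist_eq] at h3
  rw [← mul_sub, abs_mul, abs_of_nonneg (by linarith)]
  have h4 : |z.1 * sin s + z.2 * cos s - (w.1 * sin s + w.2 * cos s)| ≤ 2 * ‖z - w‖ := by
    have e : z.1 * sin s + z.2 * cos s - (w.1 * sin s + w.2 * cos s)
        = (z - w).1 * sin s + (z - w).2 * cos s := by simp; ring
    rw [e]
    have a1 : |(z - w).1| ≤ ‖z - w‖ := norm_fst_le (z - w)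
    have a2 : |(z - w).2| ≤ ‖z - w‖ := norm_snd_le (z - w)
    calc |(z - w).1 * sin s + (z - w).2 * cos s|
        ≤ |(z - w).1 * sin s| + |(z - w).2 * cos s| := abs_add_le _ _
      _ = |(z - w).1| * |sin s| + |(z - w).2| * |cos s| := by rw [abs_mul, abs_mul]
      _ ≤ ‖z - w‖ * 1 + ‖z - w‖ * 1 := by
          apply add_le_add
          · exact mul_le_mul a1 (Real.abs_sin_le_one s) (abs_nonneg _) (norm_nonneg _)
          · exact mul_le_mul a2 (Real.abs_cos_le_one s) (abs_nonneg _) (norm_nonneg _)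
      _ = 2 * ‖z - w‖ := by ring
  calc (1 + k * cos s) ^ β * |max (z.1 * sin s + z.2 * cos s) δ ^ (-β)
          - max (w.1 * sin s + w.2 * cos s) δ ^ (-β)|
      ≤ 9 / 4 * (β * δ ^ (-β - 1) * (2 * ‖z - w‖)) := by
        apply mul_le_mul h2 _ (abs_nonneg _) (by norm_num)
        exact h3.trans (mul_le_mul_of_nonneg_left h4 hC)
    _ = _ := by ring

/-- Lipschitz constant of the field -/
noncomputable def KL (β δ : ℝ) : NNReal := Real.toNNReal (9 / 2 * (β * δ ^ (-β - 1)))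

lemma fld_lip {β δ k s : ℝ} (hβ : 0 ≤ β) (hβ2 : β ≤ 2) (hδ : 0 < δ) (hk0 : 0 ≤ k)
    (hk1 : k ≤ 1 / 2) : LipschitzWith (KL β δ) (fld β δ k s) := by
  apply LipschitzWith.of_dist_le_mul
  intro z w
  have hC : 0 ≤ 9 / 2 * (β * δ ^ (-β - 1)) := by positivity
  rw [KL, Real.coe_toNNReal _ hC]
  have h := rho_lip (s := s) hβ hβ2 hδ hk0 hk1 z w
  rw [dist_eq_norm z w, Prod.dist_eq, fld, fld]
  simp only [Real.dist_eq]
  apply max_le
  · rw [← sub_mul, abs_mul]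
    calc _ ≤ |rho β δ k s z.1 z.2 - rho β δ k s w.1 w.2| * 1 :=
          mul_le_mul_of_nonneg_left (Real.abs_cos_le_one s) (abs_nonneg _)
      _ ≤ _ := by rw [mul_one]; exact h
  · have e : -(rho β δ k s z.1 z.2 * sin s) - -(rho β δ k s w.1 w.2 * sin s)
        = -((rho β δ k s z.1 z.2 - rho β δ k s w.1 w.2) * sin s) := by ring
    rw [e, abs_neg, abs_mul]
    calc _ ≤ |rho β δ k s z.1 z.2 - rho β δ k s w.1 w.2| * 1 :=
          mul_le_mul_of_nonneg_left (Real.abs_sin_le_one s) (abs_nonneg _)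
      _ ≤ _ := by rw [mul_one]; exact h

lemma fld_norm_le {β δ k s : ℝ} (hβ : 0 ≤ β) (hβ2 : β ≤ 2) (hδ : 0 < δ) (hk0 : 0 ≤ k)
    (hk1 : k ≤ 1 / 2) (z : ℝ × ℝ) : ‖fld β δ k s z‖ ≤ 9 / 4 * δ ^ (-β) := by
  have h := rho_le (s := s) (x := z.1) (y := z.2) hβ hβ2 hδ hk0 hk1
  have h0 := rho_pos (s := s) (x := z.1) (y := z.2) hβ hδ hk0 hk1
  rw [fld, Prod.norm_def]
  apply max_le
  · simp only [norm_mul, Real.norm_eq_abs, abs_of_pos h0]
    calc _ ≤ rho β δ k s z.1 z.2 * 1 :=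
          mul_le_mul_of_nonneg_left (Real.abs_cos_le_one s) h0.le
      _ ≤ _ := by rw [mul_one]; exact h
  · simp only [norm_neg, norm_mul, Real.norm_eq_abs, abs_of_pos h0]
    calc _ ≤ rho β δ k s z.1 z.2 * 1 :=
          mul_le_mul_of_nonneg_left (Real.abs_sin_le_one s) h0.le
      _ ≤ _ := by rw [mul_one]; exact h

lemma rho_continuous {β δ k : ℝ} (hδ : 0 < δ) (hk0 : 0 ≤ k)
    (hk1 : k ≤ 1 / 2) : Continuous (fun p : ℝ × ℝ × ℝ => rho β δ k p.1 p.2.1 p.2.2) := by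
  unfold rho
  apply Continuous.mul
  · apply Continuous.rpow_const
    · fun_prop
    · intro p
      left
      have := (L_bounds (s := p.1) hk0 hk1).1
      linarith
  · apply Continuous.rpow_const
    · fun_prop
    · intro p
      left
      exact (lt_of_lt_of_le hδ (le_max_right _ _)).ne'

lemma fld_continuous {β δ k : ℝ} (hδ : 0 < δ) (hk0 : 0 ≤ k)
    (hk1 : k ≤ 1 / 2) (z : ℝ × ℝ) : Continuous (fun t => fld β δ k t z) := by
  have hc := rho_continuous (β := β) hδ hk0 hk1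
  have h2 : Continuous (fun t : ℝ => ((t, z.1, z.2) : ℝ × ℝ × ℝ)) := by fun_prop
  have h1 : Continuous (fun t : ℝ => rho β δ k t z.1 z.2) := by
    have := hc.comp h2
    simpa only [Function.comp_def] using this
  have h3 : Continuous (fun t : ℝ => rho β δ k t z.1 z.2 * cos t) := h1.mul Real.continuous_cos
  have h4 : Continuous (fun t : ℝ => -(rho β δ k t z.1 z.2 * sin t)) :=
    (h1.mul Real.continuous_sin).neg
  exact h3.prodMk h4

lemma exists_sol {β δ a k : ℝ} (hβ : 0 ≤ β) (hβ2 : β ≤ 2) (hδ : 0 < δ) (hk0 : 0 ≤ k)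
    (hk1 : k ≤ 1 / 2) : ∃ x y : ℝ → ℝ, Sol β δ a k x y := by
  have hB : 0 ≤ 9 / 4 * δ ^ (-β) := by positivity
  have hpi := Real.pi_pos
  let t₀ : Icc (-π) π := ⟨0, by constructor <;> linarith⟩
  have hPL : IsPicardLindelof (fld β δ k) t₀ ((0, a) : ℝ × ℝ)
      (Real.toNNReal (9 / 4 * δ ^ (-β) * π)) 0 (Real.toNNReal (9 / 4 * δ ^ (-β))) (KL β δ) := by
    constructor
    · intro t _
      exact (fld_lip hβ hβ2 hδ hk0 hk1).lipschitzOnWith
    · intro z _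
      exact (fld_continuous hδ hk0 hk1 z).continuousOn
    · intro t _ z _
      rw [Real.coe_toNNReal _ hB]
      exact fld_norm_le hβ hβ2 hδ hk0 hk1 z
    · rw [Real.coe_toNNReal _ hB, Real.coe_toNNReal _ (by positivity)]
      simp [t₀]
  obtain ⟨z, hz0, hz⟩ := hPL.exists_eq_forall_mem_Icc_hasDerivWithinAt₀
  have hz0' : z 0 = (0, a) := hz0
  refine ⟨fun s => (z s).1, fun s => (z s).2, ?_, ?_, ?_, ?_⟩
  · simp [hz0']
  · simp [hz0']
  · intro s hs
    have h := (hz s (Ioo_subset_Icc_self hs)).hasDerivAt (Icc_mem_nhds hs.1 hs.2)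
    exact h.fst
  · intro s hs
    have h := (hz s (Ioo_subset_Icc_self hs)).hasDerivAt (Icc_mem_nhds hs.1 hs.2)
    exact h.snd

lemma Sol.pair {β δ a k : ℝ} {x y : ℝ → ℝ} (h : Sol β δ a k x y) :
    ∀ s ∈ Ioo (-π) π, HasDerivAt (fun s => (x s, y s)) (fld β δ k s (x s, y s)) s := by
  intro s hs
  exact (h.dx s hs).prodMk (h.dy s hs)

lemma Sol.symm {β δ a k : ℝ} {x y : ℝ → ℝ} (hβ : 0 ≤ β) (hβ2 : β ≤ 2) (hδ : 0 < δ) (hk0 : 0 ≤ k)
    (hk1 : k ≤ 1 / 2) (h : Sol β δ a k x y) :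
    ∀ s ∈ Ioo (-π) π, x (-s) = -x s ∧ y (-s) = y s := by
  have hpi := Real.pi_pos
  have h2 : Sol β δ a k (fun s => -x (-s)) (fun s => y (-s)) := by
    refine ⟨by simp [h.x0], by simp [h.y0], ?_, ?_⟩
    · intro s hs
      have hs' : -s ∈ Ioo (-π) π := ⟨by linarith [hs.2], by linarith [hs.1]⟩
      have h3 : HasDerivAt (fun s => x (-s))
          ((rho β δ k (-s) (x (-s)) (y (-s)) * cos (-s)) * (-1)) s :=
        (h.dx (-s) hs').comp s (hasDerivAt_neg s)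
      refine h3.neg.congr_deriv ?_
      simp only [rho, Real.sin_neg, Real.cos_neg, mul_neg, mul_one, neg_neg]
      ring_nf
    · intro s hs
      have hs' : -s ∈ Ioo (-π) π := ⟨by linarith [hs.2], by linarith [hs.1]⟩
      have h3 : HasDerivAt (fun s => y (-s))
          (-(rho β δ k (-s) (x (-s)) (y (-s)) * sin (-s)) * (-1)) s :=
        (h.dy (-s) hs').comp s (hasDerivAt_neg s)
      refine h3.congr_deriv ?_
      simp only [rho, Real.sin_neg, Real.cos_neg, mul_neg, mul_one, neg_neg]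
      ring_nf
  have key := ODE_solution_unique_of_mem_Ioo (v := fld β δ k) (s := fun _ => univ) (K := KL β δ)
    (f := fun s => (x s, y s)) (g := fun s => (-x (-s), y (-s))) (t₀ := 0) (a := -π) (b := π)
    (fun t _ => (fld_lip hβ hβ2 hδ hk0 hk1).lipschitzOnWith) ⟨by linarith, hpi⟩
    (fun t ht => ⟨h.pair t ht, mem_univ _⟩) (fun t ht => ⟨h2.pair t ht, mem_univ _⟩)
    (by simp [h.x0])
  intro s hs
  have := key hs
  simp only [Prod.mk.injEq] at this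
  constructor
  · linarith [this.1]
  · exact this.2.symm

lemma rpow_lip {β u v : ℝ} (hβ : 1 ≤ β) (hβ2 : β ≤ 2) (hu : u ∈ Icc (1 / 2 : ℝ) (3 / 2))
    (hv : v ∈ Icc (1 / 2 : ℝ) (3 / 2)) : |u ^ β - v ^ β| ≤ 3 * |u - v| := by
  have h := Convex.norm_image_sub_le_of_norm_hasDerivWithin_le (f := fun t : ℝ => t ^ β)
    (f' := fun t => β * t ^ (β - 1)) (s := Icc (1 / 2 : ℝ) (3 / 2)) (C := 3) (x := v) (y := u)
    (fun t ht => (Real.hasDerivAt_rpow_const (Or.inr hβ)).hasDerivWithinAt)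
    (fun t ht => ?_) (convex_Icc _ _) hv hu
  · simpa [Real.norm_eq_abs] using h
  · have ht0 : 0 < t := by linarith [ht.1]
    rw [Real.norm_eq_abs, abs_of_nonneg (by positivity)]
    have h1 : t ^ (β - 1) ≤ 3 / 2 := by
      calc t ^ (β - 1) ≤ (3 / 2 : ℝ) ^ (β - 1) := Real.rpow_le_rpow ht0.le ht.2 (by linarith)
        _ ≤ (3 / 2 : ℝ) ^ (1 : ℝ) :=
          Real.rpow_le_rpow_of_exponent_le (by norm_num) (by linarith)
        _ = 3 / 2 := by norm_num
    have h2 : 0 < t ^ (β - 1) := Real.rpow_pos_of_pos ht0 _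
    nlinarith

lemma rho_k {β δ k k' s x y : ℝ} (hβ : 1 ≤ β) (hβ2 : β ≤ 2) (hδ : 0 < δ) (hk0 : 0 ≤ k)
    (hk1 : k ≤ 1 / 2) (hk0' : 0 ≤ k') (hk1' : k' ≤ 1 / 2) :
    |rho β δ k s x y - rho β δ k' s x y| ≤ 3 * δ ^ (-β) * |k - k'| := by
  unfold rho
  obtain ⟨h3, h4⟩ := phi_bounds (β := β) (u := x * sin s + y * cos s) (by linarith) hδ
  have h := rpow_lip hβ hβ2 (L_bounds (s := s) hk0 hk1) (L_bounds (s := s) hk0' hk1')
  rw [← sub_mul, abs_mul, abs_of_pos h3]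
  have h5 : |1 + k * cos s - (1 + k' * cos s)| ≤ |k - k'| := by
    have e : 1 + k * cos s - (1 + k' * cos s) = (k - k') * cos s := by ring
    rw [e, abs_mul]
    calc _ ≤ |k - k'| * 1 := mul_le_mul_of_nonneg_left (Real.abs_cos_le_one s) (abs_nonneg _)
      _ = _ := mul_one _
  calc _ ≤ (3 * |k - k'|) * δ ^ (-β) := by
        apply mul_le_mul _ h4 h3.le (by positivity)
        linarith
    _ = _ := by ring

lemma fld_k {β δ k k' s : ℝ} (hβ : 1 ≤ β) (hβ2 : β ≤ 2) (hδ : 0 < δ) (hk0 : 0 ≤ k)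
    (hk1 : k ≤ 1 / 2) (hk0' : 0 ≤ k') (hk1' : k' ≤ 1 / 2) (z : ℝ × ℝ) :
    dist (fld β δ k s z) (fld β δ k' s z) ≤ 3 * δ ^ (-β) * |k - k'| := by
  have h := rho_k (s := s) (x := z.1) (y := z.2) hβ hβ2 hδ hk0 hk1 hk0' hk1'
  rw [Prod.dist_eq, fld, fld]
  simp only [Real.dist_eq]
  apply max_le
  · rw [← sub_mul, abs_mul]
    calc _ ≤ |rho β δ k s z.1 z.2 - rho β δ k' s z.1 z.2| * 1 :=
          mul_le_mul_of_nonneg_left (Real.abs_cos_le_one s) (abs_nonneg _)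
      _ ≤ _ := by rw [mul_one]; exact h
  · have e : -(rho β δ k s z.1 z.2 * sin s) - -(rho β δ k' s z.1 z.2 * sin s)
        = -((rho β δ k s z.1 z.2 - rho β δ k' s z.1 z.2) * sin s) := by ring
    rw [e, abs_neg, abs_mul]
    calc _ ≤ |rho β δ k s z.1 z.2 - rho β δ k' s z.1 z.2| * 1 :=
          mul_le_mul_of_nonneg_left (Real.abs_sin_le_one s) (abs_nonneg _)
      _ ≤ _ := by rw [mul_one]; exact h

lemma sol_dist {β δ a k k' b : ℝ} {x y x' y' : ℝ → ℝ} (hβ : 1 ≤ β) (hβ2 : β ≤ 2) (hδ : 0 < δ)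
    (hk0 : 0 ≤ k) (hk1 : k ≤ 1 / 2) (hk0' : 0 ≤ k') (hk1' : k' ≤ 1 / 2) (hb : b < π)
    (h : Sol β δ a k x y) (h' : Sol β δ a k' x' y') :
    ∀ s ∈ Icc 0 b, |y s - y' s| ≤ gronwallBound 0 (KL β δ) (3 * δ ^ (-β) * |k - k'|) b := by
  have hpi := Real.pi_pos
  intro s hs
  have hI : ∀ t ∈ Icc 0 b, t ∈ Ioo (-π) π := fun t ht => ⟨by linarith [ht.1], by linarith [ht.2]⟩
  have key := dist_le_of_approx_trajectories_ODE (v := fld β δ k) (K := KL β δ)
    (f := fun s => (x s, y s)) (g := fun s => (x' s, y' s)) (a := 0) (b := b)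
    (f' := fun s => fld β δ k s (x s, y s)) (g' := fun s => fld β δ k' s (x' s, y' s))
    (εf := 0) (εg := 3 * δ ^ (-β) * |k - k'|) (δ := 0)
    (fun t => fld_lip (by linarith) hβ2 hδ hk0 hk1)
    (fun t ht => (h.pair t (hI t ht)).continuousAt.continuousWithinAt)
    (fun t ht => (h.pair t (hI t (Ico_subset_Icc_self ht))).hasDerivWithinAt)
    (fun t ht => by simp)
    (fun t ht => (h'.pair t (hI t ht)).continuousAt.continuousWithinAt)
    (fun t ht => (h'.pair t (hI t (Ico_subset_Icc_self ht))).hasDerivWithinAt)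
    (fun t ht => by
      have := fld_k (s := t) hβ hβ2 hδ hk0' hk1' hk0 hk1 (x' t, y' t)
      rwa [abs_sub_comm] at this)
    (by simp [h.x0, h'.x0, h.y0, h'.y0]) s hs
  rw [zero_add, sub_zero] at key
  have h1 : |y s - y' s| ≤ dist (x s, y s) (x' s, y' s) := by
    rw [Prod.dist_eq]
    exact le_max_right _ _
  have h2 : gronwallBound 0 (KL β δ) (3 * δ ^ (-β) * |k - k'|) s
      ≤ gronwallBound 0 (KL β δ) (3 * δ ^ (-β) * |k - k'|) b :=
    gronwallBound_mono le_rfl (by positivity) (KL β δ).coe_nonneg hs.2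
  exact h1.trans (key.trans h2)

/-- the height of the end point of the curve depends continuously on the parameter -/
lemma cont_end {β δ a : ℝ} (hβ : 1 ≤ β) (hβ2 : β ≤ 2) (hδ : 0 < δ) {X Y : ℝ → ℝ → ℝ}
    (hS : ∀ k ∈ Icc (0 : ℝ) (1 / 2), Sol β δ a k (X k) (Y k)) :
    ContinuousOn (fun k => Y k (Real.arccos (-k))) (Icc 0 (1 / 2)) := by
  have hpi := Real.pi_pos
  set b := Real.arccos (-(1 / 2)) with hb
  have hbpi : b < π := by
    rw [hb, Real.arccos_neg]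
    have : 0 < Real.arccos (1 / 2) := Real.arccos_pos.2 (by norm_num)
    linarith
  have hmem : ∀ k ∈ Icc (0 : ℝ) (1 / 2), Real.arccos (-k) ∈ Icc 0 b := by
    intro k hk
    refine ⟨Real.arccos_nonneg _, ?_⟩
    exact Real.arccos_le_arccos (by linarith [hk.2])
  intro k0 hk0
  have h1 : Filter.Tendsto (fun k => gronwallBound 0 (KL β δ) (3 * δ ^ (-β) * |k - k0|) b
      + |Y k0 (Real.arccos (-k)) - Y k0 (Real.arccos (-k0))|) (nhdsWithin k0 (Icc 0 (1 / 2)))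
      (nhds 0) := by
    have c1 : Continuous (fun k : ℝ => gronwallBound 0 (KL β δ) (3 * δ ^ (-β) * |k - k0|) b) :=
      (gronwallBound_continuous_ε 0 _ b).comp (by fun_prop)
    have c2 : ContinuousAt (fun k => |Y k0 (Real.arccos (-k)) - Y k0 (Real.arccos (-k0))|) k0 := by
      have hc : ContinuousAt (Y k0) (Real.arccos (-k0)) := by
        have hm := hmem k0 hk0
        exact ((hS k0 hk0).dy _ ⟨by linarith [hm.1], by linarith [hm.2]⟩).continuousAt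
      have hc2 : ContinuousAt (fun k => Y k0 (Real.arccos (-k))) k0 := by
        apply ContinuousAt.comp (g := Y k0) (f := fun k => Real.arccos (-k)) hc
        exact (Real.continuous_arccos.comp continuous_neg).continuousAt
      exact (hc2.sub continuousAt_const).abs
    have c3 := (c1.continuousAt (x := k0)).add c2
    have c4 : Filter.Tendsto (fun k => gronwallBound 0 (KL β δ) (3 * δ ^ (-β) * |k - k0|) b
      + |Y k0 (Real.arccos (-k)) - Y k0 (Real.arccos (-k0))|) (nhds k0) (nhds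
      (gronwallBound 0 (KL β δ) (3 * δ ^ (-β) * |k0 - k0|) b
      + |Y k0 (Real.arccos (-k0)) - Y k0 (Real.arccos (-k0))|)) := c3
    have e : gronwallBound 0 (KL β δ) (3 * δ ^ (-β) * |k0 - k0|) b
      + |Y k0 (Real.arccos (-k0)) - Y k0 (Real.arccos (-k0))| = 0 := by
      simp [gronwallBound_ε0_δ0]
    rw [e] at c4
    exact c4.mono_left nhdsWithin_le_nhds
  rw [ContinuousWithinAt, tendsto_iff_dist_tendsto_zero]
  apply squeeze_zero' (Filter.Eventually.of_forall (fun _ => dist_nonneg)) _ h1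
  filter_upwards [self_mem_nhdsWithin] with k hk
  rw [Real.dist_eq]
  calc |Y k (Real.arccos (-k)) - Y k0 (Real.arccos (-k0))|
      ≤ |Y k (Real.arccos (-k)) - Y k0 (Real.arccos (-k))|
        + |Y k0 (Real.arccos (-k)) - Y k0 (Real.arccos (-k0))| := abs_sub_le _ _ _
    _ ≤ _ := by
        gcongr
        exact sol_dist hβ hβ2 hδ hk.1 hk.2 hk0.1 hk0.2 hbpi (hS k hk) (hS k0 hk0) _ (hmem k hk)

end Q186.Cap
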