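import Mathlib
import Pool.Agent.Q186.CapOde

/-!
Global solutions of a bounded Lipschitz ODE; the truncated oscillator
`w'' = -w + (max w δ) ^ (-(β + 1))`.
-/

namespace Q186.Ca

open Real Set Function

/-- global existence for a bounded field, Lipschitz in space and continuous in time -/
lemma exists_global {E : Type*} [NormedAddCommGroup E] [NormedSpace ℝ E] [CompleteSpace E]
    (f : ℝ → E → E) (K : NNReal) (B : ℝ) (hB : 0 ≤ B) (hL : ∀ t, LipschitzWith K (f t))
    (hb : ∀ t z, ‖f t z‖ ≤ B) (hc : ∀ z, Continuous (fun t => f t z)) (z₀ : E) :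
    ∃ z : ℝ → E, z 0 = z₀ ∧ ∀ t, HasDerivAt z (f t (z t)) t := by
  have hloc : ∀ n : ℕ, ∃ z : ℝ → E, z 0 = z₀ ∧
      ∀ t ∈ Ioo (-((n : ℝ) + 1)) ((n : ℝ) + 1), HasDerivAt z (f t (z t)) t := by
    intro n
    have hn : (0 : ℝ) < (n : ℝ) + 1 := by positivity
    let t₀ : Icc (-((n : ℝ) + 1)) ((n : ℝ) + 1) := ⟨0, by constructor <;> linarith⟩
    have hPL : IsPicardLindelof f t₀ z₀
        (Real.toNNReal (B * ((n : ℝ) + 1))) 0 (Real.toNNReal B) K := by
      constructor
      · intro t _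
        exact (hL t).lipschitzOnWith
      · intro z _
        exact (hc z).continuousOn
      · intro t _ z _
        rw [Real.coe_toNNReal _ hB]
        exact hb t z
      · rw [Real.coe_toNNReal _ hB, Real.coe_toNNReal _ (by positivity)]
        simp [t₀]
    obtain ⟨z, hz0, hz⟩ := hPL.exists_eq_forall_mem_Icc_hasDerivWithinAt₀
    refine ⟨z, hz0, fun t ht => ?_⟩
    exact (hz t (Ioo_subset_Icc_self ht)).hasDerivAt (Icc_mem_nhds ht.1 ht.2)
  choose z hz0 hz using hloc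
  have huniq : ∀ (n k : ℕ) (t : ℝ), |t| < (n : ℝ) + 1 → |t| < (k : ℝ) + 1 → z n t = z k t := by
    intro n k t hn hk
    have hlt : |t| < min ((n : ℝ) + 1) ((k : ℝ) + 1) := lt_min hn hk
    have h0 : (0 : ℝ) < min ((n : ℝ) + 1) ((k : ℝ) + 1) := lt_of_le_of_lt (abs_nonneg t) hlt
    have key := ODE_solution_unique_of_mem_Ioo (v := f) (s := fun _ => univ) (K := K)
      (f := z n) (g := z k) (t₀ := 0) (a := -min ((n : ℝ) + 1) ((k : ℝ) + 1))
      (b := min ((n : ℝ) + 1) ((k : ℝ) + 1))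
      (fun t _ => (hL t).lipschitzOnWith) ⟨by linarith, h0⟩
      (fun t ht => ⟨hz n t ⟨by linarith [ht.1, min_le_left ((n : ℝ) + 1) ((k : ℝ) + 1)],
        by linarith [ht.2, min_le_left ((n : ℝ) + 1) ((k : ℝ) + 1)]⟩, mem_univ _⟩)
      (fun t ht => ⟨hz k t ⟨by linarith [ht.1, min_le_right ((n : ℝ) + 1) ((k : ℝ) + 1)],
        by linarith [ht.2, min_le_right ((n : ℝ) + 1) ((k : ℝ) + 1)]⟩, mem_univ _⟩)
      (by rw [hz0, hz0])
    exact key (abs_lt.1 hlt)
  have hceil : ∀ t : ℝ, |t| < ((⌈|t|⌉₊ : ℕ) : ℝ) + 1 := fun t => by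
    have := Nat.le_ceil |t|
    linarith
  refine ⟨fun t => z ⌈|t|⌉₊ t, by simp [hz0], fun t => ?_⟩
  set n := ⌈|t|⌉₊ with hn
  have h1 : HasDerivAt (z n) (f t (z n t)) t := hz n t (abs_lt.1 (hceil t))
  refine h1.congr_of_eventuallyEq ?_
  have h2 : Iio (((n : ℕ) : ℝ) + 1) ∈ nhds |t| := Iio_mem_nhds (hceil t)
  have h3 : ∀ᶠ s in nhds t, |s| < ((n : ℕ) : ℝ) + 1 := continuous_abs.continuousAt h2
  filter_upwards [h3] with s hs
  exact huniq _ _ _ (hceil s) hs

/-- the truncated force -/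
noncomputable def gt (β δ u : ℝ) : ℝ := (max u δ) ^ (-(β + 1))

lemma gt_lip {β δ : ℝ} (hβ : 0 ≤ β) (hδ : 0 < δ) :
    LipschitzWith (Real.toNNReal ((β + 1) * δ ^ (-(β + 1) - 1))) (gt β δ) :=
  Q186.Cap.phi_lip (β := β + 1) (by linarith) hδ

lemma gt_pos {β δ u : ℝ} (hβ : 0 ≤ β) (hδ : 0 < δ) : 0 < gt β δ u :=
  (Q186.Cap.phi_bounds (β := β + 1) (by linarith) hδ).1

lemma gt_le {β δ u : ℝ} (hβ : 0 ≤ β) (hδ : 0 < δ) : gt β δ u ≤ δ ^ (-(β + 1)) :=
  (Q186.Cap.phi_bounds (β := β + 1) (by linarith) hδ).2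

/-- solutions of the truncated oscillator -/
structure TSol (β δ a : ℝ) (w v : ℝ → ℝ) : Prop where
  w0 : w 0 = a
  v0 : v 0 = 0
  dw : ∀ s, HasDerivAt w (v s) s
  dv : ∀ s, HasDerivAt v (-w s + gt β δ (w s)) s

lemma exists_tsol {β δ : ℝ} (hβ : 0 ≤ β) (hδ : 0 < δ) (a : ℝ) : ∃ w v, TSol β δ a w v := by
  set L := (β + 1) * δ ^ (-(β + 1) - 1) with hL
  have hL0 : 0 ≤ L := by positivity
  set f : ℝ → ℝ × ℝ → ℝ × ℝ := fun t z =>
    (-sin t * gt β δ (z.1 * cos t + z.2 * sin t), cos t * gt β δ (z.1 * cos t + z.2 * sin t))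
    with hf
  have hlip : ∀ t, LipschitzWith (Real.toNNReal (2 * L)) (f t) := by
    intro t
    apply LipschitzWith.of_dist_le_mul
    intro z w
    rw [Real.coe_toNNReal _ (by positivity)]
    have h1 := (gt_lip hβ hδ).dist_le_mul (z.1 * cos t + z.2 * sin t) (w.1 * cos t + w.2 * sin t)
    rw [← hL, Real.coe_toNNReal _ hL0, Real.dist_eq, Real.dist_eq] at h1
    have h2 : |z.1 * cos t + z.2 * sin t - (w.1 * cos t + w.2 * sin t)| ≤ 2 * dist z w := by
      have e : z.1 * cos t + z.2 * sin t - (w.1 * cos t + w.2 * sin t)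
          = (z - w).1 * cos t + (z - w).2 * sin t := by simp; ring
      rw [e, dist_eq_norm]
      have a1 : |(z - w).1| ≤ ‖z - w‖ := norm_fst_le (z - w)
      have a2 : |(z - w).2| ≤ ‖z - w‖ := norm_snd_le (z - w)
      calc |(z - w).1 * cos t + (z - w).2 * sin t|
          ≤ |(z - w).1 * cos t| + |(z - w).2 * sin t| := abs_add_le _ _
        _ = |(z - w).1| * |cos t| + |(z - w).2| * |sin t| := by rw [abs_mul, abs_mul]
        _ ≤ ‖z - w‖ * 1 + ‖z - w‖ * 1 := by
            apply add_le_add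
            · exact mul_le_mul a1 (Real.abs_cos_le_one t) (abs_nonneg _) (norm_nonneg _)
            · exact mul_le_mul a2 (Real.abs_sin_le_one t) (abs_nonneg _) (norm_nonneg _)
        _ = 2 * ‖z - w‖ := by ring
    have h3 : |gt β δ (z.1 * cos t + z.2 * sin t) - gt β δ (w.1 * cos t + w.2 * sin t)|
        ≤ 2 * L * dist z w :=
      h1.trans ((mul_le_mul_of_nonneg_left h2 hL0).trans (le_of_eq (by ring)))
    rw [Prod.dist_eq]
    simp only [hf, Real.dist_eq]
    apply max_le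
    · rw [← mul_sub, abs_mul, abs_neg]
      calc _ ≤ 1 * |gt β δ (z.1 * cos t + z.2 * sin t) - gt β δ (w.1 * cos t + w.2 * sin t)| :=
            mul_le_mul_of_nonneg_right (Real.abs_sin_le_one t) (abs_nonneg _)
        _ ≤ _ := by rw [one_mul]; exact h3
    · rw [← mul_sub, abs_mul]
      calc _ ≤ 1 * |gt β δ (z.1 * cos t + z.2 * sin t) - gt β δ (w.1 * cos t + w.2 * sin t)| :=
            mul_le_mul_of_nonneg_right (Real.abs_cos_le_one t) (abs_nonneg _)
        _ ≤ _ := by rw [one_mul]; exact h3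
  have hbd : ∀ t z, ‖f t z‖ ≤ δ ^ (-(β + 1)) := by
    intro t z
    have h0 := gt_pos (u := z.1 * cos t + z.2 * sin t) hβ hδ
    have h1 := gt_le (u := z.1 * cos t + z.2 * sin t) hβ hδ
    rw [Prod.norm_def]
    apply max_le
    · simp only [hf, norm_mul, Real.norm_eq_abs, abs_of_pos h0, abs_neg]
      calc _ ≤ 1 * gt β δ (z.1 * cos t + z.2 * sin t) :=
            mul_le_mul_of_nonneg_right (Real.abs_sin_le_one t) h0.le
        _ ≤ _ := by rw [one_mul]; exact h1
    · simp only [hf, norm_mul, Real.norm_eq_abs, abs_of_pos h0]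
      calc _ ≤ 1 * gt β δ (z.1 * cos t + z.2 * sin t) :=
            mul_le_mul_of_nonneg_right (Real.abs_cos_le_one t) h0.le
        _ ≤ _ := by rw [one_mul]; exact h1
  have hcont : ∀ z, Continuous (fun t => f t z) := by
    intro z
    have h1 : Continuous (gt β δ) := (gt_lip hβ hδ).continuous
    have h2 : Continuous (fun t => gt β δ (z.1 * cos t + z.2 * sin t)) := h1.comp (by fun_prop)
    exact (Real.continuous_sin.neg.mul h2).prodMk (Real.continuous_cos.mul h2)
  obtain ⟨z, hz0, hz⟩ := exists_global f _ (δ ^ (-(β + 1))) (by positivity) hlip hbd hcont (a, 0)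
  refine ⟨fun s => (z s).1 * cos s + (z s).2 * sin s, fun s => -(z s).1 * sin s + (z s).2 * cos s,
    by simp [hz0], by simp [hz0], fun s => ?_, fun s => ?_⟩
  · have h1 : HasDerivAt (fun s => (z s).1) (f s (z s)).1 s := (hz s).fst
    have h2 : HasDerivAt (fun s => (z s).2) (f s (z s)).2 s := (hz s).snd
    refine ((h1.mul (Real.hasDerivAt_cos s)).add (h2.mul (Real.hasDerivAt_sin s))).congr_deriv ?_
    simp only [hf]
    ring
  · have h1 : HasDerivAt (fun s => (z s).1) (f s (z s)).1 s := (hz s).fst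
    have h2 : HasDerivAt (fun s => (z s).2) (f s (z s)).2 s := (hz s).snd
    refine ((h1.neg.mul (Real.hasDerivAt_sin s)).add
      (h2.mul (Real.hasDerivAt_cos s))).congr_deriv ?_
    simp only [hf, Pi.neg_apply]
    linear_combination gt β δ ((z s).1 * cos s + (z s).2 * sin s) * Real.sin_sq_add_cos_sq s

/-- the autonomous field -/
noncomputable def afld (β δ : ℝ) (z : ℝ × ℝ) : ℝ × ℝ := (z.2, -z.1 + gt β δ z.1)

/-- its Lipschitz constant -/
noncomputable def aK (β δ : ℝ) : NNReal := Real.toNNReal (1 + (β + 1) * δ ^ (-(β + 1) - 1))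

lemma afld_lip {β δ : ℝ} (hβ : 0 ≤ β) (hδ : 0 < δ) : LipschitzWith (aK β δ) (afld β δ) := by
  apply LipschitzWith.of_dist_le_mul
  intro z w
  set L := (β + 1) * δ ^ (-(β + 1) - 1) with hL
  have hL0 : 0 ≤ L := by positivity
  rw [aK, Real.coe_toNNReal _ (by positivity)]
  have h1 := (gt_lip hβ hδ).dist_le_mul z.1 w.1
  rw [← hL, Real.coe_toNNReal _ hL0, Real.dist_eq, Real.dist_eq] at h1
  have a1 : |z.1 - w.1| ≤ dist z w := by
    rw [Prod.dist_eq]
    exact le_max_left _ _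
  have a2 : |z.2 - w.2| ≤ dist z w := by
    rw [Prod.dist_eq]
    exact le_max_right _ _
  have hd : 0 ≤ dist z w := dist_nonneg
  rw [show dist (afld β δ z) (afld β δ w) = max (dist (afld β δ z).1 (afld β δ w).1)
    (dist (afld β δ z).2 (afld β δ w).2) from Prod.dist_eq]
  simp only [afld, Real.dist_eq]
  apply max_le
  · nlinarith
  · have e : -z.1 + gt β δ z.1 - (-w.1 + gt β δ w.1)
        = -(z.1 - w.1) + (gt β δ z.1 - gt β δ w.1) := by ring
    rw [e]
    calc _ ≤ |-(z.1 - w.1)| + |gt β δ z.1 - gt β δ w.1| := abs_add_le _ _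
      _ ≤ dist z w + L * dist z w := by
          rw [abs_neg]
          exact add_le_add a1 (h1.trans (mul_le_mul_of_nonneg_left a1 hL0))
      _ = _ := by ring

/-- a solution without initial condition -/
structure TS (β δ : ℝ) (w v : ℝ → ℝ) : Prop where
  dw : ∀ s, HasDerivAt w (v s) s
  dv : ∀ s, HasDerivAt v (-w s + gt β δ (w s)) s

lemma TSol.ts {β δ a : ℝ} {w v : ℝ → ℝ} (h : TSol β δ a w v) : TS β δ w v := ⟨h.dw, h.dv⟩

lemma TS.pair {β δ : ℝ} {w v : ℝ → ℝ} (h : TS β δ w v) (s : ℝ) :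
    HasDerivAt (fun s => (w s, v s)) (afld β δ (w s, v s)) s :=
  (h.dw s).prodMk (h.dv s)

lemma TS.unique {β δ : ℝ} {w v w' v' : ℝ → ℝ} (hβ : 0 ≤ β) (hδ : 0 < δ) (h : TS β δ w v)
    (h' : TS β δ w' v') {s₀ : ℝ} (h1 : w s₀ = w' s₀) (h2 : v s₀ = v' s₀) : w = w' ∧ v = v' := by
  have key := ODE_solution_unique_univ (v := fun _ => afld β δ) (s := fun _ => univ)
    (K := aK β δ) (f := fun s => (w s, v s)) (g := fun s => (w' s, v' s)) (t₀ := s₀)
    (fun t => (afld_lip hβ hδ).lipschitzOnWith) (fun t => ⟨h.pair t, mem_univ _⟩)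
    (fun t => ⟨h'.pair t, mem_univ _⟩) (by simp [h1, h2])
  constructor
  · funext s
    exact congrArg Prod.fst (congrFun key s)
  · funext s
    exact congrArg Prod.snd (congrFun key s)

lemma TS.reflect {β δ : ℝ} {w v : ℝ → ℝ} (h : TS β δ w v) (c : ℝ) :
    TS β δ (fun s => w (c - s)) (fun s => -v (c - s)) := by
  constructor
  · intro s
    have h1 : HasDerivAt (fun s => c - s) (-1) s := by
      simpa using (hasDerivAt_id s).const_sub c
    exact ((h.dw (c - s)).comp s h1).congr_deriv (by ring)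
  · intro s
    have h1 : HasDerivAt (fun s => c - s) (-1) s := by
      simpa using (hasDerivAt_id s).const_sub c
    exact ((h.dv (c - s)).comp s h1).neg.congr_deriv (by ring)

/-- two consecutive rest points give a periodic solution -/
lemma TSol.periodic {β δ a : ℝ} {w v : ℝ → ℝ} (hβ : 0 ≤ β) (hδ : 0 < δ) (h : TSol β δ a w v)
    {Θ : ℝ} (hΘ : v Θ = 0) (s : ℝ) : w (s + 2 * Θ) = w s ∧ v (s + 2 * Θ) = v s := by
  have e1 := (h.ts.reflect 0).unique hβ hδ h.ts (s₀ := 0) (by simp) (by simp [h.v0])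
  have e2 := (h.ts.reflect (2 * Θ)).unique hβ hδ h.ts (s₀ := Θ)
    (by ring_nf) (by rw [show 2 * Θ - Θ = Θ by ring, hΘ, neg_zero])
  have a1 := congrFun e1.1 s
  have a2 := congrFun e1.2 s
  have b1 := congrFun e2.1 (s + 2 * Θ)
  have b2 := congrFun e2.2 (s + 2 * Θ)
  simp only [zero_sub] at a1 a2
  simp only [show 2 * Θ - (s + 2 * Θ) = -s by ring] at b1 b2
  exact ⟨by rw [← b1, a1], by rw [← b2, a2]⟩

/-- Lipschitz dependence on the initial value -/
lemma TSol.dist_le {β δ a a' : ℝ} {w v w' v' : ℝ → ℝ} (hβ : 0 ≤ β) (hδ : 0 < δ)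
    (h : TSol β δ a w v) (h' : TSol β δ a' w' v') {s : ℝ} (hs : 0 ≤ s) :
    |w s - w' s| ≤ |a - a'| * Real.exp (aK β δ * s) ∧
    |v s - v' s| ≤ |a - a'| * Real.exp (aK β δ * s) := by
  have key := dist_le_of_trajectories_ODE (v := fun _ => afld β δ) (K := aK β δ)
    (f := fun s => (w s, v s)) (g := fun s => (w' s, v' s)) (a := 0) (b := s) (δ := |a - a'|)
    (fun _ => afld_lip hβ hδ)
    (fun t _ => (h.ts.pair t).continuousAt.continuousWithinAt)
    (fun t _ => (h.ts.pair t).hasDerivWithinAt)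
    (fun t _ => (h'.ts.pair t).continuousAt.continuousWithinAt)
    (fun t _ => (h'.ts.pair t).hasDerivWithinAt)
    (by
      rw [Prod.dist_eq]
      simp [h.w0, h.v0, h'.w0, h'.v0, Real.dist_eq]) s ⟨hs, le_rfl⟩
  rw [sub_zero, Prod.dist_eq] at key
  exact ⟨(le_max_left _ _).trans key, (le_max_right _ _).trans key⟩

end Q186.Ca
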