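import Mathlib
import Pool.Agent.Q186.CaC

/-!
The oscillator `w'' = -w + w ^ (-(β + 1))`, `β > 0`: shooting for periodic solutions.
-/

namespace Q186.Ca

open Real Set Function

/-- monotonicity on an interval from a nonnegative derivative -/
lemma mono_of_hd {f f' : ℝ → ℝ} {x y : ℝ} (hxy : x ≤ y) (hd : ∀ s, HasDerivAt f (f' s) s)
    (hn : ∀ s ∈ Ioo x y, 0 ≤ f' s) : f x ≤ f y := by
  have hm : MonotoneOn f (Icc x y) := by
    apply monotoneOn_of_deriv_nonneg (convex_Icc x y)
    · exact fun z _ => (hd z).continuousAt.continuousWithinAt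
    · exact fun z _ => (hd z).differentiableAt.differentiableWithinAt
    · intro z hz
      rw [interior_Icc] at hz
      rw [(hd z).deriv]
      exact hn z hz
  exact hm (left_mem_Icc.2 hxy) (right_mem_Icc.2 hxy) hxy

/-- a lower bound for the increment -/
lemma incr_of_hd {f f' : ℝ → ℝ} {x y c : ℝ} (hxy : x ≤ y) (hd : ∀ s, HasDerivAt f (f' s) s)
    (hn : ∀ s ∈ Ioo x y, c ≤ f' s) : f x + c * (y - x) ≤ f y := by
  have h := mono_of_hd (f := fun s => f s - c * s) (f' := fun s => f' s - c) hxy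
    (fun s => by
      refine ((hd s).sub ((hasDerivAt_id s).const_mul c)).congr_deriv ?_
      simp)
    (fun s hs => by
      have := hn s hs
      linarith)
  linarith

lemma abs_incr_of_hd {f f' : ℝ → ℝ} {x y c : ℝ} (hxy : x ≤ y) (hd : ∀ s, HasDerivAt f (f' s) s)
    (hn : ∀ s ∈ Ioo x y, |f' s| ≤ c) : |f y - f x| ≤ c * (y - x) := by
  rw [abs_le]
  constructor
  · have := incr_of_hd (c := -c) hxy hd (fun s hs => (abs_le.1 (hn s hs)).1)
    linarith
  · have := incr_of_hd (c := -c) (f := fun s => -f s) (f' := fun s => -f' s) hxy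
      (fun s => (hd s).neg) (fun s hs => by linarith [(abs_le.1 (hn s hs)).2])
    linarith

/-- positive solutions of the oscillator -/
structure PSol (β a : ℝ) (w v : ℝ → ℝ) : Prop where
  w0 : w 0 = a
  v0 : v 0 = 0
  wpos : ∀ s, 0 < w s
  dw : ∀ s, HasDerivAt w (v s) s
  dv : ∀ s, HasDerivAt v (-w s + w s ^ (-(β + 1))) s

lemma PSol.energy {β a : ℝ} {w v : ℝ → ℝ} (hβ : 0 < β) (h : PSol β a w v) (s : ℝ) :
    v s ^ 2 + w s ^ 2 + 2 / β * w s ^ (-β) = a ^ 2 + 2 / β * a ^ (-β) := by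
  have hd : ∀ s, HasDerivAt (fun s => v s ^ 2 + w s ^ 2 + 2 / β * w s ^ (-β)) 0 s := by
    intro s
    have h1 := (h.dv s).pow 2
    have h2 := (h.dw s).pow 2
    have h3 := ((h.dw s).rpow_const (p := -β) (Or.inl (h.wpos s).ne')).const_mul (2 / β)
    refine ((h1.add h2).add h3).congr_deriv ?_
    have e : -β - 1 = -(β + 1) := by ring
    rw [e]
    simp only [Nat.cast_ofNat]
    field_simp
    ring
  have := is_const_of_deriv_eq_zero (fun s => (hd s).differentiableAt) (fun s => (hd s).deriv) s 0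
  rw [this, h.w0, h.v0]
  ring

/-- the truncated solution does not see the truncation -/
lemma TSol.trap {β δ a : ℝ} {w v : ℝ → ℝ} (hβ : 0 < β) (hδ : 0 < δ) (ha : 0 < a)
    (h : TSol β δ a w v) (hE : a ^ (-β) + β * a ^ 2 / 2 ≤ δ ^ (-β)) (s : ℝ) : δ ≤ w s := by
  have hgc : Continuous (gt β δ) := (gt_lip hβ.le hδ).continuous
  set Φ : ℝ → ℝ := fun x => -∫ y in δ..x, gt β δ y with hΦ
  have hdΦ : ∀ x, HasDerivAt Φ (-gt β δ x) x := fun x =>
    (intervalIntegral.integral_hasDerivAt_right (hgc.intervalIntegrable δ x)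
      hgc.stronglyMeasurable.stronglyMeasurableAtFilter hgc.continuousAt).neg
  have hΦδ : Φ δ = 0 := by simp [hΦ]
  have haδ : δ ≤ a := by
    by_contra hcon
    rw [not_le] at hcon
    have h1 := Real.rpow_lt_rpow_of_neg ha hcon (neg_lt_zero.2 hβ)
    have : 0 < β * a ^ 2 / 2 := by positivity
    linarith
  have hΦa : Φ a = (a ^ (-β) - δ ^ (-β)) / β := by
    simp only [hΦ]
    have e1 : ∫ y in δ..a, gt β δ y = ∫ y in δ..a, y ^ (-(β + 1)) := by
      apply intervalIntegral.integral_congr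
      intro y hy
      rw [uIcc_of_le haδ] at hy
      simp only [gt, max_eq_left hy.1]
    rw [e1, integral_rpow]
    · have e2 : -(β + 1) + 1 = -β := by ring
      rw [e2]
      field_simp
    · right
      refine ⟨by linarith, ?_⟩
      rw [uIcc_of_le haδ]
      intro h0
      linarith [h0.1]
  have hen : ∀ s, HasDerivAt (fun s => v s ^ 2 / 2 + w s ^ 2 / 2 + Φ (w s)) 0 s := by
    intro s
    have h1 := ((h.dv s).pow 2).div_const 2
    have h2 := ((h.dw s).pow 2).div_const 2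
    have h3 := (hdΦ (w s)).comp s (h.dw s)
    refine ((h1.add h2).add h3).congr_deriv ?_
    simp only [Nat.cast_ofNat]
    ring
  have hc := is_const_of_deriv_eq_zero (fun s => (hen s).differentiableAt)
    (fun s => (hen s).deriv) s 0
  rw [h.w0, h.v0, hΦa] at hc
  by_contra hcon
  rw [not_le] at hcon
  have hanti : StrictAnti Φ := strictAnti_of_deriv_neg fun x => by
    rw [(hdΦ x).deriv]
    linarith [gt_pos (u := x) hβ.le hδ]
  have h1 : 0 < Φ (w s) := by
    rw [← hΦδ]
    exact hanti hcon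
  have h2 : (a ^ (-β) - δ ^ (-β)) / β ≤ -(a ^ 2 / 2) := by
    rw [div_le_iff₀ hβ]
    linarith
  nlinarith [sq_nonneg (v s), sq_nonneg (w s)]

lemma TSol.psol {β δ a : ℝ} {w v : ℝ → ℝ} (hβ : 0 < β) (hδ : 0 < δ) (ha : 0 < a)
    (h : TSol β δ a w v) (hE : a ^ (-β) + β * a ^ 2 / 2 ≤ δ ^ (-β)) : PSol β a w v := by
  have ht := h.trap hβ hδ ha hE
  refine ⟨h.w0, h.v0, fun s => lt_of_lt_of_le hδ (ht s), h.dw, fun s => ?_⟩
  have h1 := h.dv s
  rwa [gt, max_eq_left (ht s)] at h1

/-- behaviour for small initial value: a fast bounce followed by a sine arc -/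
lemma near_zero {β Θ : ℝ} (hβ : 0 < β) (hΘ0 : 0 < Θ) (hΘπ : Θ < π) (hcos : cos Θ ≠ 0) :
    ∃ a₁, 0 < a₁ ∧ a₁ < 1 ∧ ∀ a, 0 < a → a < a₁ → ∀ w v, PSol β a w v → 0 < cos Θ * v Θ := by
  have hsin : 0 < sin Θ := Real.sin_pos_of_pos_of_lt_pi hΘ0 hΘπ
  have hcabs : 0 < |cos Θ| := abs_pos.2 hcos
  set η := min (Θ / 2) (|cos Θ| / 2) with hη
  have hη0 : 0 < η := lt_min (by linarith) (by linarith)
  have hη1 : η ≤ Θ / 2 := min_le_left _ _
  have hη2 : η ≤ |cos Θ| / 2 := min_le_right _ _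
  set Vs := 1 + 2 / sin Θ + 10 / |cos Θ| with hVs
  have hVs1 : 1 ≤ Vs := by
    have : 0 < 2 / sin Θ := by positivity
    have : 0 < 10 / |cos Θ| := by positivity
    linarith
  -- smallness conditions
  have hT1 : Filter.Tendsto (fun a : ℝ => a ^ (-β)) (nhdsWithin 0 (Ioi 0)) Filter.atTop :=
    tendsto_rpow_neg_nhdsGT_zero (by linarith)
  have hT2 : Filter.Tendsto (fun a : ℝ => a ^ (-(β + 1))) (nhdsWithin 0 (Ioi 0)) Filter.atTop :=
    tendsto_rpow_neg_nhdsGT_zero (by linarith)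
  set q := (2 : ℝ) ^ (-β) with hq
  have hq1 : q < 1 := Real.rpow_lt_one_of_one_lt_of_neg (by norm_num) (by linarith)
  set p := (2 : ℝ) ^ (-(β + 1)) with hp
  have hp0 : 0 < p := Real.rpow_pos_of_pos (by norm_num) _
  have hev : ∀ᶠ a : ℝ in nhdsWithin 0 (Ioi 0),
      (8 / η ^ 2 + 1) / p ≤ a ^ (-(β + 1)) ∧
      (β / 2) * (5 / η ^ 2 + 1) / (1 - q) ≤ a ^ (-β) ∧
      (β / 2) * (Vs ^ 2 + 1 + 2 / β) ≤ a ^ (-β) :=
    (hT2.eventually_ge_atTop _).and ((hT1.eventually_ge_atTop _).and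
      (hT1.eventually_ge_atTop _))
  rw [eventually_nhdsWithin_iff, Metric.eventually_nhds_iff] at hev
  obtain ⟨ε, hε, hev⟩ := hev
  refine ⟨min ε (1 / 2), lt_min hε (by norm_num), lt_of_le_of_lt (min_le_right _ _) (by norm_num),
    ?_⟩
  intro a ha0 ha1 w v h
  have haε : a < ε := lt_of_lt_of_le ha1 (min_le_left _ _)
  have ha12 : a < 1 / 2 := lt_of_lt_of_le ha1 (min_le_right _ _)
  obtain ⟨s1, s2, s3⟩ := hev (y := a) (by rwa [Real.dist_eq, sub_zero, abs_of_pos ha0]) ha0
  have hwc : Continuous w := continuous_iff_continuousAt.2 fun t => (h.dw t).continuousAt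
  have hen := h.energy hβ
  -- while `w < 1` the velocity increases
  have hacc : ∀ x, w x < 1 → 0 < -w x + w x ^ (-(β + 1)) := by
    intro x hx
    have h1 : 1 < w x ^ (-(β + 1)) :=
      Real.one_lt_rpow_of_pos_of_lt_one_of_neg (h.wpos x) hx (by linarith)
    linarith
  -- Claim A
  have claimA : ∃ x ∈ Icc 0 η, 1 ≤ w x := by
    by_contra hcon
    push Not at hcon
    have hv0 : ∀ x ∈ Icc 0 η, 0 ≤ v x := by
      intro x hx
      have := mono_of_hd hx.1 h.dv (fun s hs =>
        (hacc s (hcon s ⟨hs.1.le, hs.2.le.trans hx.2⟩)).le)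
      rwa [h.v0] at this
    have hwm : ∀ x y, 0 ≤ x → x ≤ y → y ≤ η → w x ≤ w y := by
      intro x y hx hxy hy
      exact mono_of_hd hxy h.dw (fun s hs => hv0 s ⟨by linarith [hs.1], by linarith [hs.2]⟩)
    have hwa : ∀ x ∈ Icc 0 η, a ≤ w x := by
      intro x hx
      have := hwm 0 x le_rfl hx.1 hx.2
      rwa [h.w0] at this
    rcases lt_or_ge (w (η / 2)) (2 * a) with hc | hc
    · -- strong initial acceleration
      have h1 : ∀ s ∈ Ioo 0 (η / 2), 8 / η ^ 2 ≤ -w s + w s ^ (-(β + 1)) := by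
        intro s hs
        have hs1 : w s < 1 := hcon s ⟨hs.1.le, by linarith [hs.2]⟩
        have hs2 : w s ≤ 2 * a := (hwm s (η / 2) hs.1.le hs.2.le (by linarith)).trans hc.le
        have h2 : (2 * a) ^ (-(β + 1)) ≤ w s ^ (-(β + 1)) :=
          Real.rpow_le_rpow_of_nonpos (h.wpos s) hs2 (by linarith)
        rw [Real.mul_rpow (by norm_num) ha0.le, ← hp] at h2
        have h3 : 8 / η ^ 2 + 1 ≤ p * a ^ (-(β + 1)) := by
          rw [div_le_iff₀ hp0] at s1
          linarith
        linarith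
      have h2 : ∀ s ∈ Icc 0 (η / 2), 8 / η ^ 2 * s ≤ v s := by
        intro s hs
        have := incr_of_hd (c := 8 / η ^ 2) hs.1 h.dv
          (fun x hx => h1 x ⟨hx.1, lt_of_lt_of_le hx.2 hs.2⟩)
        rw [h.v0] at this
        linarith
      have h3 := mono_of_hd (f := fun s => w s - 4 / η ^ 2 * s ^ 2)
        (f' := fun s => v s - 8 / η ^ 2 * s) (x := 0) (y := η / 2) (by linarith)
        (fun s => by
          have e := ((hasDerivAt_id s).pow 2).const_mul (4 / η ^ 2)
          refine ((h.dw s).sub e).congr_deriv ?_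
          simp
          ring)
        (fun s hs => by
          have := h2 s ⟨hs.1.le, hs.2.le⟩
          linarith)
      simp only [h.w0] at h3
      have h4 : 4 / η ^ 2 * (η / 2) ^ 2 = 1 := by
        field_simp
        norm_num
      have h5 := hcon (η / 2) ⟨by linarith, by linarith⟩
      nlinarith
    · -- the velocity is already large
      have h1 : w (η / 2) ^ (-β) ≤ q * a ^ (-β) := by
        have := Real.rpow_le_rpow_of_nonpos (by linarith) hc (neg_nonpos.2 hβ.le)
        rwa [Real.mul_rpow (by norm_num) ha0.le, ← hq] at this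
      have hw1 : w (η / 2) < 1 := hcon (η / 2) ⟨by linarith, by linarith⟩
      have h2 := hen (η / 2)
      have h3 : 5 / η ^ 2 ≤ v (η / 2) ^ 2 := by
        have e1 : β / 2 * (5 / η ^ 2 + 1) ≤ (1 - q) * a ^ (-β) := by
          rw [div_le_iff₀ (by linarith)] at s2
          linarith
        have e2 : 2 / β * w (η / 2) ^ (-β) ≤ 2 / β * (q * a ^ (-β)) :=
          mul_le_mul_of_nonneg_left h1 (by positivity)
        have e3 : 5 / η ^ 2 + 1 ≤ 2 / β * ((1 - q) * a ^ (-β)) := by
          have := mul_le_mul_of_nonneg_left e1 (show 0 ≤ 2 / β by positivity)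
          have e4 : 2 / β * (β / 2 * (5 / η ^ 2 + 1)) = 5 / η ^ 2 + 1 := by
            field_simp
          linarith
        have hwp := h.wpos (η / 2)
        nlinarith
      have h4 : 2 / η ≤ v (η / 2) := by
        have hv := hv0 (η / 2) ⟨by linarith, by linarith⟩
        by_contra hlt
        rw [not_le] at hlt
        have : v (η / 2) ^ 2 < (2 / η) ^ 2 := by
          apply pow_lt_pow_left₀ hlt hv (by norm_num)
        have e : (2 / η) ^ 2 = 4 / η ^ 2 := by ring
        rw [e] at this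
        have e2 : 4 / η ^ 2 ≤ 5 / η ^ 2 := by gcongr; norm_num
        linarith
      have h5 := incr_of_hd (c := 2 / η) (x := η / 2) (y := η) (by linarith) h.dw
        (fun s hs => by
          have := mono_of_hd hs.1.le h.dv (fun x hx =>
            (hacc x (hcon x ⟨by linarith [hx.1], by linarith [hx.2, hs.2]⟩)).le)
          linarith)
      have h6 : 2 / η * (η - η / 2) = 1 := by
        field_simp
        ring
      have h7 := hcon η ⟨hη0.le, le_rfl⟩
      have h8 := h.wpos (η / 2)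
      linarith
  -- Claim B: first arrival at height one
  obtain ⟨x₀, hx₀, hx₀1⟩ := claimA
  have hcomp : IsCompact (Icc 0 η ∩ w ⁻¹' (Ici 1)) :=
    isCompact_Icc.inter_right (isClosed_Ici.preimage hwc)
  obtain ⟨s₁, hs₁⟩ := hcomp.exists_isLeast ⟨x₀, hx₀, hx₀1⟩
  have hs₁m := hs₁.1
  have hs₁0 : 0 ≤ s₁ := hs₁m.1.1
  have hs₁η : s₁ ≤ η := hs₁m.1.2
  have hs₁w : 1 ≤ w s₁ := hs₁m.2
  have hlt : ∀ s, 0 ≤ s → s < s₁ → w s < 1 := by
    intro s h0 hs
    by_contra hcon
    rw [not_lt] at hcon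
    have := hs₁.2 ⟨⟨h0, by linarith⟩, hcon⟩
    linarith
  have hs₁pos : 0 < s₁ := by
    rcases hs₁0.eq_or_lt with h0 | h0
    · rw [← h0, h.w0] at hs₁w
      linarith
    · exact h0
  have hw1 : w s₁ = 1 := by
    apply le_antisymm _ hs₁w
    by_contra hcon
    rw [not_le] at hcon
    have hiv := intermediate_value_Icc hs₁0 hwc.continuousOn
    obtain ⟨s, hs, hs2⟩ := hiv ⟨by rw [h.w0]; linarith, hcon.le⟩
    have hs3 : s ≠ s₁ := by
      rintro rfl
      linarith
    have := hlt s hs.1 (lt_of_le_of_ne hs.2 hs3)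
    linarith
  have hv1 : 0 ≤ v s₁ := by
    have := mono_of_hd hs₁0 h.dv (fun s hs => (hacc s (hlt s hs.1.le hs.2)).le)
    rwa [h.v0] at this
  have hv2 : Vs ≤ v s₁ := by
    have h1 := hen s₁
    rw [hw1, Real.one_rpow] at h1
    have h2 : Vs ^ 2 + 1 + 2 / β ≤ 2 / β * a ^ (-β) := by
      have := mul_le_mul_of_nonneg_left s3 (show 0 ≤ 2 / β by positivity)
      have e : 2 / β * (β / 2 * (Vs ^ 2 + 1 + 2 / β)) = Vs ^ 2 + 1 + 2 / β := by
        field_simp
      linarith
    have h3 : Vs ^ 2 ≤ v s₁ ^ 2 := by nlinarith [sq_nonneg a]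
    exact (pow_le_pow_iff_left₀ (by linarith) hv1 (by norm_num)).1 h3
  have hs₁Θ : s₁ < Θ := by linarith
  -- Claim C: afterwards `w ≥ 1`
  have claimC : ∀ θ, s₁ ≤ θ → θ ≤ Θ → 1 ≤ w θ := by
    intro θ hθ1 hθ2
    have hJ := mono_of_hd (f := fun s => w s * cos (θ - s) + v s * sin (θ - s))
      (f' := fun s => w s ^ (-(β + 1)) * sin (θ - s)) hθ1
      (fun s => by
        have e0 : HasDerivAt (fun s => θ - s) (-1) s := by
          simpa using (hasDerivAt_id s).const_sub θ
        have e1 := e0.cos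
        have e2 := e0.sin
        refine (((h.dw s).mul e1).add ((h.dv s).mul e2)).congr_deriv ?_
        ring)
      (fun s hs => by
        have h1 := Real.rpow_pos_of_pos (h.wpos s) (-(β + 1))
        have h2 : 0 ≤ sin (θ - s) :=
          Real.sin_nonneg_of_nonneg_of_le_pi (by linarith [hs.2]) (by linarith [hs.1])
        positivity)
    simp only [sub_self, Real.cos_zero, Real.sin_zero, mul_one, mul_zero, add_zero, hw1,
      one_mul] at hJ
    refine le_trans ?_ hJ
    set σ := θ - s₁ with hσ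
    have hσ0 : 0 ≤ σ := by linarith
    have hσΘ : σ ≤ Θ := by linarith
    have hsσ : 0 ≤ sin σ := Real.sin_nonneg_of_nonneg_of_le_pi hσ0 (by linarith)
    rcases le_total σ (π / 2) with hσ2 | hσ2
    · have hcσ : 0 ≤ cos σ := Real.cos_nonneg_of_neg_pi_div_two_le_of_le (by linarith) hσ2
      have h1 := Real.sin_sq_add_cos_sq σ
      have h2 := Real.sin_le_one σ
      have h3 := Real.cos_le_one σ
      have h4 : sin σ ≤ v s₁ * sin σ := by
        have : 1 ≤ v s₁ := by linarith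
        nlinarith
      nlinarith
    · have h1 : sin Θ ≤ sin σ := by
        have e1 : sin σ = sin (π - σ) := (Real.sin_pi_sub σ).symm
        have e2 : sin Θ = sin (π - Θ) := (Real.sin_pi_sub Θ).symm
        rw [e1, e2]
        apply Real.sin_le_sin_of_le_of_le_pi_div_two <;> linarith
      have h2 := Real.neg_one_le_cos σ
      have h3 : 2 ≤ v s₁ * sin Θ := by
        have e1 : 2 / sin Θ ≤ v s₁ := by
          have : 0 < 10 / |cos Θ| := by positivity
          linarith
        rw [div_le_iff₀ hsin] at e1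
        exact e1
      have h4 : v s₁ * sin Θ ≤ v s₁ * sin σ := mul_le_mul_of_nonneg_left h1 hv1
      linarith
  -- Claim D
  have hJ2 := abs_incr_of_hd (f := fun s => -(w s * sin (Θ - s)) + v s * cos (Θ - s))
    (f' := fun s => w s ^ (-(β + 1)) * cos (Θ - s)) (c := 1)
    hs₁Θ.le
    (fun s => by
      have e0 : HasDerivAt (fun s => Θ - s) (-1) s := by
        simpa using (hasDerivAt_id s).const_sub Θ
      have e1 := e0.cos
      have e2 := e0.sin
      refine (((h.dw s).mul e2).neg.add ((h.dv s).mul e1)).congr_deriv ?_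
      ring)
    (fun s hs => by
      have h1 := Real.rpow_pos_of_pos (h.wpos s) (-(β + 1))
      have h2 : w s ^ (-(β + 1)) ≤ 1 :=
        Real.rpow_le_one_of_one_le_of_nonpos (claimC s hs.1.le hs.2.le) (by linarith)
      rw [abs_mul, abs_of_pos h1]
      calc _ ≤ 1 * 1 := mul_le_mul h2 (Real.abs_cos_le_one _) (abs_nonneg _) (by norm_num)
        _ = 1 := one_mul 1)
  simp only [sub_self, Real.cos_zero, Real.sin_zero, mul_zero, neg_zero, zero_add, mul_one, hw1,
    one_mul] at hJ2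
  have hpi := Real.pi_lt_four
  have hsl := Real.sin_le_one (Θ - s₁)
  have hsn : 0 ≤ sin (Θ - s₁) :=
    Real.sin_nonneg_of_nonneg_of_le_pi (by linarith) (by linarith)
  have hcc : |cos (Θ - s₁) - cos Θ| ≤ s₁ := by
    have := abs_incr_of_hd (f := fun s => cos (Θ - s)) (f' := fun s => sin (Θ - s)) (c := 1)
      hs₁0 (fun s => by
        have e0 : HasDerivAt (fun s => Θ - s) (-1) s := by
          simpa using (hasDerivAt_id s).const_sub Θ
        refine e0.cos.congr_deriv ?_
        ring) (fun s _ => Real.abs_sin_le_one _)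
    simpa using this
  have hc2 : cos Θ * cos (Θ - s₁) ≥ cos Θ ^ 2 / 2 := by
    have h1 : cos Θ * (cos (Θ - s₁) - cos Θ) ≥ -(|cos Θ| * s₁) := by
      have h2 : |cos Θ * (cos (Θ - s₁) - cos Θ)| ≤ |cos Θ| * s₁ := by
        rw [abs_mul]
        exact mul_le_mul_of_nonneg_left hcc (abs_nonneg _)
      have := neg_abs_le (cos Θ * (cos (Θ - s₁) - cos Θ))
      linarith
    have h3 : |cos Θ| * s₁ ≤ |cos Θ| * (|cos Θ| / 2) :=
      mul_le_mul_of_nonneg_left (by linarith) (abs_nonneg _)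
    have h4 : |cos Θ| * |cos Θ| = cos Θ ^ 2 := by
      rw [← sq, sq_abs]
    nlinarith
  have hfin : |v Θ - v s₁ * cos (Θ - s₁)| ≤ 5 := by
    have h1 : v Θ - v s₁ * cos (Θ - s₁) = (v Θ - (-sin (Θ - s₁) + v s₁ * cos (Θ - s₁)))
        - sin (Θ - s₁) := by ring
    rw [h1]
    calc _ ≤ |v Θ - (-sin (Θ - s₁) + v s₁ * cos (Θ - s₁))| + |sin (Θ - s₁)| := abs_sub _ _
      _ ≤ (Θ - s₁) + 1 := add_le_add (by linarith) (by rw [abs_of_nonneg hsn]; exact hsl)
      _ ≤ 5 := by linarith
  have h5 : cos Θ * (v Θ - v s₁ * cos (Θ - s₁)) ≥ -(|cos Θ| * 5) := by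
    have h2 : |cos Θ * (v Θ - v s₁ * cos (Θ - s₁))| ≤ |cos Θ| * 5 := by
      rw [abs_mul]
      exact mul_le_mul_of_nonneg_left hfin (abs_nonneg _)
    have := neg_abs_le (cos Θ * (v Θ - v s₁ * cos (Θ - s₁)))
    linarith
  have h6 : v s₁ * (cos Θ ^ 2 / 2) > |cos Θ| * 5 := by
    have h7 : 10 / |cos Θ| < v s₁ := by
      have : 0 < 2 / sin Θ := by positivity
      linarith
    rw [div_lt_iff₀ hcabs] at h7
    rw [← sq_abs (cos Θ)]
    nlinarith
  have h8 : v s₁ * (cos Θ * cos (Θ - s₁)) ≥ v s₁ * (cos Θ ^ 2 / 2) :=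
    mul_le_mul_of_nonneg_left hc2 hv1
  nlinarith

end Q186.Ca
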