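import Mathlib
import Pool.Agent.Q186.CaD

/-!
The oscillator `w'' = -w + w ^ (-(β + 1))`, `β > 0`: small oscillations and existence of periodic
solutions by shooting.
-/

namespace Q186.Ca

open Real Set Function

/-- remainder of the linearization at the rest point -/
lemma rem_bound {β : ℝ} (hβ : 0 < β) : ∃ C, 0 ≤ C ∧ ∀ x ∈ Icc (1 / 2 : ℝ) (3 / 2),
    |-x + x ^ (-(β + 1)) + (β + 2) * (x - 1)| ≤ C * (x - 1) ^ 2 := by
  set C := (β + 1) * (β + 2) * (1 / 2 : ℝ) ^ (-(β + 1) - 2) with hC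
  have hC0 : 0 ≤ C := by positivity
  refine ⟨C, hC0, ?_⟩
  set h : ℝ → ℝ := fun x => -x + x ^ (-(β + 1)) + (β + 2) * (x - 1) with hh
  set h1 : ℝ → ℝ := fun x => -1 + (-(β + 1)) * x ^ (-(β + 1) - 1) + (β + 2) with hh1
  set h2 : ℝ → ℝ := fun x => (-(β + 1)) * ((-(β + 1) - 1) * x ^ (-(β + 1) - 1 - 1)) with hh2
  have d0 : ∀ x, 0 < x → HasDerivAt h (h1 x) x := by
    intro x hx
    have e1 := Real.hasDerivAt_rpow_const (x := x) (p := -(β + 1)) (Or.inl hx.ne')
    refine (((hasDerivAt_id x).neg.add e1).add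
      (((hasDerivAt_id x).sub_const 1).const_mul (β + 2))).congr_deriv ?_
    simp only [hh1]
    ring
  have d1 : ∀ x, 0 < x → HasDerivAt h1 (h2 x) x := by
    intro x hx
    have e1 := Real.hasDerivAt_rpow_const (x := x) (p := -(β + 1) - 1) (Or.inl hx.ne')
    refine (((e1.const_mul (-(β + 1))).const_add (-1)).add_const (β + 2)).congr_deriv ?_
    simp only [hh2]
  have hb2 : ∀ x ∈ Icc (1 / 2 : ℝ) (3 / 2), |h2 x| ≤ C := by
    intro x hx
    have hx0 : 0 < x := by linarith [hx.1]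
    have e1 : x ^ (-(β + 1) - 1 - 1) ≤ (1 / 2 : ℝ) ^ (-(β + 1) - 2) := by
      rw [show -(β + 1) - 1 - 1 = -(β + 1) - 2 by ring]
      exact Real.rpow_le_rpow_of_nonpos (by norm_num) hx.1 (by linarith)
    have e2 : h2 x = (β + 1) * (β + 2) * x ^ (-(β + 1) - 1 - 1) := by
      simp only [hh2]
      ring
    rw [e2, abs_of_nonneg (by positivity)]
    exact mul_le_mul_of_nonneg_left e1 (by positivity)
  have m1 : (1 : ℝ) ∈ Icc (1 / 2 : ℝ) (3 / 2) := by constructor <;> norm_num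
  have z1 : h1 1 = 0 := by
    simp only [hh1, Real.one_rpow]
    ring
  have z0 : h 1 = 0 := by
    simp only [hh, Real.one_rpow]
    ring
  have b1 : ∀ x ∈ Icc (1 / 2 : ℝ) (3 / 2), |h1 x| ≤ C * |x - 1| := by
    intro x hx
    have := Convex.norm_image_sub_le_of_norm_hasDerivWithin_le (f := h1) (f' := h2)
      (s := Icc (1 / 2 : ℝ) (3 / 2)) (C := C) (x := 1) (y := x)
      (fun y hy => (d1 y (by linarith [hy.1])).hasDerivWithinAt)
      (fun y hy => by rw [Real.norm_eq_abs]; exact hb2 y hy) (convex_Icc _ _) m1 hx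
    rwa [z1, sub_zero, Real.norm_eq_abs, Real.norm_eq_abs] at this
  intro x hx
  have hsub : uIcc 1 x ⊆ Icc (1 / 2 : ℝ) (3 / 2) := by
    rw [← segment_eq_uIcc]
    exact (convex_Icc _ _).segment_subset m1 hx
  have := Convex.norm_image_sub_le_of_norm_hasDerivWithin_le (f := h) (f' := h1)
    (s := uIcc 1 x) (C := C * |x - 1|) (x := 1) (y := x)
    (fun y hy => (d0 y (by linarith [(hsub hy).1])).hasDerivWithinAt)
    (fun y hy => by
      rw [Real.norm_eq_abs]
      refine (b1 y (hsub hy)).trans (mul_le_mul_of_nonneg_left ?_ hC0)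
      rw [mem_uIcc] at hy
      rcases hy with hy | hy
      · rw [abs_of_nonneg (by linarith [hy.1]), abs_of_nonneg (by linarith [hy.1, hy.2])]
        linarith [hy.2]
      · rw [abs_of_nonpos (by linarith [hy.2]), abs_of_nonpos (by linarith [hy.1, hy.2])]
        linarith [hy.1])
    (convex_uIcc _ _) left_mem_uIcc right_mem_uIcc
  rw [z0, sub_zero, Real.norm_eq_abs, Real.norm_eq_abs] at this
  calc _ ≤ C * |x - 1| * |x - 1| := this
    _ = C * (x - 1) ^ 2 := by rw [mul_assoc, ← sq, sq_abs]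

/-- small oscillations -/
lemma near_one {β δ Θ : ℝ} (hβ : 0 < β) (hδ : 0 < δ) (hδ1 : δ ≤ 1) (hΘ0 : 0 < Θ)
    (hsin : sin (√(β + 2) * Θ) ≠ 0) :
    ∃ ε, 0 < ε ∧ ∀ a, 1 - ε < a → a < 1 → ∀ w v, TSol β δ a w v → (∀ s, δ ≤ w s) →
      0 < sin (√(β + 2) * Θ) * v Θ := by
  obtain ⟨C, hC0, hC⟩ := rem_bound hβ
  set κ := √(β + 2) with hκ
  have hκ0 : 0 < κ := Real.sqrt_pos.2 (by linarith)
  have hκ2 : κ ^ 2 = β + 2 := Real.sq_sqrt (by linarith)
  set M := Real.exp (aK β δ * Θ) with hM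
  have hM0 : 0 < M := Real.exp_pos _
  have hone : TSol β δ 1 (fun _ => 1) (fun _ => 0) := by
    refine ⟨rfl, rfl, fun s => hasDerivAt_const s (1 : ℝ), fun s => ?_⟩
    have : -1 + gt β δ 1 = 0 := by
      rw [gt, max_eq_left hδ1, Real.one_rpow]
      norm_num
    rw [this]
    exact hasDerivAt_const s (0 : ℝ)
  set S := sin (κ * Θ) with hS
  have hSabs : 0 < |S| := abs_pos.2 hsin
  refine ⟨min (1 / (2 * M)) (κ * |S| / (2 * (C * M ^ 2 * Θ + 1))), lt_min (by positivity)
    (by positivity), ?_⟩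
  intro a ha1 ha2 w v h htr
  set ε := 1 - a with hε
  have hε0 : 0 < ε := by linarith
  have hε1 : ε < 1 / (2 * M) := by
    have := min_le_left (1 / (2 * M)) (κ * |S| / (2 * (C * M ^ 2 * Θ + 1)))
    linarith
  have hε2 : ε < κ * |S| / (2 * (C * M ^ 2 * Θ + 1)) := by
    have := min_le_right (1 / (2 * M)) (κ * |S| / (2 * (C * M ^ 2 * Θ + 1)))
    linarith
  have hclose : ∀ s ∈ Icc 0 Θ, |w s - 1| ≤ ε * M := by
    intro s hs
    have h1 := (h.dist_le hβ.le hδ hone hs.1).1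
    have h2 : |a - 1| = ε := by
      rw [abs_of_neg (by linarith)]
      ring
    rw [h2] at h1
    refine h1.trans (mul_le_mul_of_nonneg_left ?_ hε0.le)
    apply Real.exp_le_exp.2
    exact mul_le_mul_of_nonneg_left hs.2 (aK β δ).coe_nonneg
  have hεM : ε * M ≤ 1 / 2 := by
    rw [lt_div_iff₀ (by positivity)] at hε1
    linarith
  have hdv : ∀ s, HasDerivAt v (-w s + w s ^ (-(β + 1))) s := by
    intro s
    have h1 := h.dv s
    rwa [gt, max_eq_left (htr s)] at h1
  have hJ := abs_incr_of_hd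
    (f := fun s => cos (κ * (Θ - s)) * v s - κ * sin (κ * (Θ - s)) * (w s - 1))
    (f' := fun s => cos (κ * (Θ - s)) * (-w s + w s ^ (-(β + 1)) + (β + 2) * (w s - 1)))
    (c := C * (ε * M) ^ 2) hΘ0.le
    (fun s => by
      have e0 : HasDerivAt (fun s => κ * (Θ - s)) (-κ) s := by
        simpa using ((hasDerivAt_id s).const_sub Θ).const_mul κ
      have e1 := e0.cos
      have e2 := e0.sin
      refine ((e1.mul (hdv s)).sub ((e2.const_mul κ).mul ((h.dw s).sub_const 1))).congr_deriv ?_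
      linear_combination cos (κ * (Θ - s)) * (w s - 1) * hκ2)
    (fun s hs => by
      have h1 := hclose s ⟨hs.1.le, hs.2.le⟩
      have h2 : w s ∈ Icc (1 / 2 : ℝ) (3 / 2) := by
        have h3 := abs_le.1 (h1.trans hεM)
        constructor <;> linarith [h3.1, h3.2]
      have h3 := hC _ h2
      rw [abs_mul]
      calc _ ≤ 1 * (C * (w s - 1) ^ 2) :=
            mul_le_mul (Real.abs_cos_le_one _) h3 (abs_nonneg _) (by norm_num)
        _ ≤ C * (ε * M) ^ 2 := by
            rw [one_mul]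
            apply mul_le_mul_of_nonneg_left _ hC0
            rw [← sq_abs]
            exact pow_le_pow_left₀ (abs_nonneg _) h1 2)
  simp only [sub_self, mul_zero, Real.cos_zero, Real.sin_zero, zero_mul, sub_zero, one_mul, h.w0,
    h.v0, zero_sub] at hJ
  have h1 : |v Θ - κ * S * ε| ≤ C * (ε * M) ^ 2 * Θ := by
    have e : v Θ - κ * S * ε = v Θ - -(κ * sin (κ * Θ) * (a - 1)) := by
      rw [hε, hS]
      ring
    rw [e]
    exact hJ
  have h2 : S * (v Θ - κ * S * ε) ≥ -(|S| * (C * (ε * M) ^ 2 * Θ)) := by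
    have h3 : |S * (v Θ - κ * S * ε)| ≤ |S| * (C * (ε * M) ^ 2 * Θ) := by
      rw [abs_mul]
      exact mul_le_mul_of_nonneg_left h1 (abs_nonneg _)
    have := neg_abs_le (S * (v Θ - κ * S * ε))
    linarith
  have h3 : C * (ε * M) ^ 2 * Θ < κ * |S| * ε := by
    rw [lt_div_iff₀ (by positivity)] at hε2
    have h4 : ε * (C * M ^ 2 * Θ) < κ * |S| := by
      have : 0 ≤ C * M ^ 2 * Θ := by positivity
      nlinarith
    calc C * (ε * M) ^ 2 * Θ = ε * (ε * (C * M ^ 2 * Θ)) := by ring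
      _ < ε * (κ * |S|) := mul_lt_mul_of_pos_left h4 hε0
      _ = κ * |S| * ε := by ring
  have h4 : S * (κ * S * ε) = |S| * (κ * |S| * ε) := by
    have : |S| * |S| = S * S := abs_mul_abs_self S
    linear_combination (-(κ * ε)) * this
  have h5 : |S| * (C * (ε * M) ^ 2 * Θ) < |S| * (κ * |S| * ε) :=
    mul_lt_mul_of_pos_left h3 hSabs
  nlinarith

/-- **Existence of periodic solutions with prescribed half-period.** -/
theorem exists_periodic {β Θ : ℝ} (hβ : 0 < β) (hΘ0 : 0 < Θ) (hΘπ : Θ < π)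
    (hsign : cos Θ * sin (√(β + 2) * Θ) < 0) :
    ∃ (a : ℝ) (w v : ℝ → ℝ), 0 < a ∧ a < 1 ∧ PSol β a w v ∧
      ∀ s, w (s + 2 * Θ) = w s ∧ v (s + 2 * Θ) = v s := by
  have hcos : cos Θ ≠ 0 := by
    intro h0
    rw [h0, zero_mul] at hsign
    exact lt_irrefl _ hsign
  have hsin : sin (√(β + 2) * Θ) ≠ 0 := by
    intro h0
    rw [h0, mul_zero] at hsign
    exact lt_irrefl _ hsign
  obtain ⟨a₁, ha₁0, ha₁1, hz⟩ := near_zero hβ hΘ0 hΘπ hcos
  set a₀ := a₁ / 2 with ha₀
  have ha₀0 : 0 < a₀ := by positivity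
  have ha₀1 : a₀ < 1 := by linarith
  set D := a₀ ^ (-β) + β / 2 with hD
  have ha₀D : 1 ≤ a₀ ^ (-β) := Real.one_le_rpow_of_pos_of_le_one_of_nonpos ha₀0 ha₀1.le
    (by linarith)
  have hD0 : 0 < D := by positivity
  set δ := D ^ (-(1 / β)) with hδ
  have hδ0 : 0 < δ := Real.rpow_pos_of_pos hD0 _
  have hδβ : δ ^ (-β) = D := by
    rw [hδ, ← Real.rpow_mul hD0.le]
    have : -(1 / β) * -β = 1 := by
      field_simp
    rw [this, Real.rpow_one]
  have hδ1 : δ ≤ 1 := by
    apply Real.rpow_le_one_of_one_le_of_nonpos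
    · linarith
    · rw [neg_nonpos]
      positivity
  have hE : ∀ a, a₀ ≤ a → a ≤ 1 → a ^ (-β) + β * a ^ 2 / 2 ≤ δ ^ (-β) := by
    intro a h1 h2
    rw [hδβ, hD]
    have e1 : a ^ (-β) ≤ a₀ ^ (-β) := Real.rpow_le_rpow_of_nonpos ha₀0 h1 (by linarith)
    have e2 : a ^ 2 ≤ 1 := pow_le_one₀ (by linarith) h2
    nlinarith
  choose W V hWV using fun a => exists_tsol hβ.le hδ0 a
  obtain ⟨ε, hε, ho⟩ := near_one hβ hδ0 hδ1 hΘ0 hsin
  -- the end velocity is a continuous function of the initial value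
  set G : ℝ → ℝ := fun a => V a Θ with hG
  have hGc : Continuous G := by
    have : LipschitzWith (Real.toNNReal (Real.exp (aK β δ * Θ))) G := by
      apply LipschitzWith.of_dist_le_mul
      intro x y
      rw [Real.coe_toNNReal _ (Real.exp_pos _).le, Real.dist_eq, Real.dist_eq, mul_comm]
      exact ((hWV x).dist_le hβ.le hδ0 (hWV y) hΘ0.le).2
    exact this.continuous
  set b := max ((1 + a₀) / 2) (1 - ε / 2) with hb
  have hb1 : b < 1 := max_lt (by linarith) (by linarith)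
  have hb2 : a₀ < b := lt_of_lt_of_le (by linarith) (le_max_left _ _)
  have hb3 : 1 - ε < b := lt_of_lt_of_le (by linarith) (le_max_right _ _)
  have g0 : 0 < cos Θ * G a₀ :=
    hz a₀ ha₀0 (by linarith) _ _ ((hWV a₀).psol hβ hδ0 ha₀0 (hE a₀ le_rfl ha₀1.le))
  have g1 : 0 < sin (√(β + 2) * Θ) * G b :=
    ho b hb3 hb1 _ _ (hWV b) ((hWV b).trap hβ hδ0 (by linarith) (hE b hb2.le hb1.le))
  have hroot : ∃ a ∈ Icc a₀ b, G a = 0 := by
    have hiv := intermediate_value_uIcc (f := G) (a := a₀) (b := b) hGc.continuousOn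
    have h0 : (0 : ℝ) ∈ uIcc (G a₀) (G b) := by
      rw [mem_uIcc]
      rcases lt_or_gt_of_ne hcos with hc | hc
      · have hs : 0 < sin (√(β + 2) * Θ) := by
          by_contra hcon
          nlinarith
        left
        constructor
        · by_contra hcon
          nlinarith
        · by_contra hcon
          nlinarith
      · have hs : sin (√(β + 2) * Θ) < 0 := by
          by_contra hcon
          nlinarith
        right
        constructor
        · by_contra hcon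
          nlinarith
        · by_contra hcon
          nlinarith
    obtain ⟨x, hx, hx0⟩ := hiv h0
    rw [uIcc_of_le hb2.le] at hx
    exact ⟨x, hx, hx0⟩
  obtain ⟨a, ha, ha0⟩ := hroot
  exact ⟨a, W a, V a, by linarith [ha.1], by linarith [ha.2],
    (hWV a).psol hβ hδ0 (by linarith [ha.1]) (hE a ha.1 (by linarith [ha.2])),
    (hWV a).periodic hβ.le hδ0 ha0⟩

end Q186.Ca
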