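import Mathlib
import Pool.Agent.Q186.CaB
import Pool.Agent.Q186.CaE

/-!
Closed extremal curves from periodic solutions of the oscillator.
-/

namespace Q186.Ca

open Real Set Function
open scoped ContDiff

/-- positive periodic solutions of `u'' = -u + K u ^ (-α - 1)` -/
structure USol (α K P : ℝ) (u u' : ℝ → ℝ) : Prop where
  Kpos : 0 < K
  upos : ∀ s, 0 < u s
  du : ∀ s, HasDerivAt u (u' s) s
  du' : ∀ s, HasDerivAt u' (-u s + K * u s ^ (-α - 1)) s
  per : ∀ s, u (s + P) = u s
  per' : ∀ s, u' (s + P) = u' s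
  nc : ∃ s, u' s ≠ 0

lemma PSol.nc {β a : ℝ} {w v : ℝ → ℝ} (hβ : 0 < β) (ha0 : 0 < a) (ha1 : a < 1)
    (h : PSol β a w v) : ∃ s, v s ≠ 0 := by
  by_contra hcon
  push Not at hcon
  have h1 : v = fun _ => 0 := funext hcon
  have h2 := h.dv 0
  rw [h1] at h2
  have h3 := h2.unique (hasDerivAt_const (0 : ℝ) (0 : ℝ))
  rw [h.w0] at h3
  have h4 : 1 < a ^ (-(β + 1)) := Real.one_lt_rpow_of_pos_of_lt_one_of_neg ha0 ha1 (by linarith)
  linarith

/-- positive exponent -/
lemma USol.of_pos {α a Θ : ℝ} {w v : ℝ → ℝ} (hα : 0 < α) (ha0 : 0 < a) (ha1 : a < 1)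
    (h : PSol α a w v) (hp : ∀ s, w (s + 2 * Θ) = w s ∧ v (s + 2 * Θ) = v s) :
    USol α 1 (2 * Θ) w v := by
  refine ⟨one_pos, h.wpos, h.dw, fun s => ?_, fun s => (hp s).1, fun s => (hp s).2,
    h.nc hα ha0 ha1⟩
  have := h.dv s
  rw [one_mul]
  rwa [show -α - 1 = -(α + 1) by ring]

/-- negative exponent: the dual oscillator -/
lemma USol.of_neg {α a Θ : ℝ} {w v : ℝ → ℝ} (hα : α < 0) (hα2 : -2 < α) (ha0 : 0 < a)
    (ha1 : a < 1) (h : PSol (-2 * α / (α + 2)) a w v)
    (hp : ∀ s, w (s + 2 * Θ) = w s ∧ v (s + 2 * Θ) = v s) :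
    ∃ K u u', USol α K (2 * Θ / ((α + 2) / 2)) u u' := by
  set β := -2 * α / (α + 2) with hβd
  set σ := (α + 2) / 2 with hσ
  have hσ0 : 0 < σ := by
    rw [hσ]
    linarith
  have hα2' : 0 < α + 2 := by linarith
  have hβ : 0 < β := div_pos (by linarith) hα2'
  have hβσ : β = -α / σ := by
    rw [hβd, hσ]
    field_simp
  set E := a ^ 2 + 2 / β * a ^ (-β) with hE
  have hE0 : 0 < E := by positivity
  have hen := h.energy hβ
  refine ⟨(1 - σ) * E, fun s => w (σ * s) ^ (1 / σ), fun s => w (σ * s) ^ (1 / σ - 1) * v (σ * s),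
    ?_, ?_, ?_, ?_, ?_, ?_, ?_⟩
  · apply mul_pos _ hE0
    rw [hσ]
    linarith
  · exact fun s => Real.rpow_pos_of_pos (h.wpos _) _
  · intro s
    have e0 : HasDerivAt (fun s => σ * s) σ s := by
      simpa using (hasDerivAt_id s).const_mul σ
    have e1 := ((h.dw (σ * s)).comp s e0).rpow_const (p := 1 / σ) (Or.inl (h.wpos _).ne')
    refine e1.congr_deriv ?_
    simp only [comp_apply]
    field_simp
  · intro s
    have hw := h.wpos (σ * s)
    have e0 : HasDerivAt (fun s => σ * s) σ s := by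
      simpa using (hasDerivAt_id s).const_mul σ
    have e1 := ((h.dw (σ * s)).comp s e0).rpow_const (p := 1 / σ - 1) (Or.inl hw.ne')
    have e2 := (h.dv (σ * s)).comp s e0
    refine (e1.mul e2).congr_deriv ?_
    simp only [comp_apply]
    set x := w (σ * s) with hx
    set y := v (σ * s) with hy
    have h1 := hen (σ * s)
    rw [← hx, ← hy, ← hE] at h1
    set Q := x ^ (1 / σ - 1 - 1) with hQ
    have r1 : x ^ (1 / σ - 1) = Q * x := by
      rw [hQ, ← Real.rpow_add_one hw.ne']
      congr 1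
      ring
    have r2 : x ^ (1 / σ) = Q * x ^ 2 := by
      rw [hQ, ← Real.rpow_natCast, ← Real.rpow_add hw]
      congr 1
      push_cast
      ring
    have r3 : (x ^ (1 / σ)) ^ (-α - 1) = Q := by
      rw [hQ, ← Real.rpow_mul hw.le]
      congr 1
      have : α = 2 * σ - 2 := by rw [hσ]; ring
      rw [this]
      field_simp
      ring
    have r4 : x * x ^ (-(β + 1)) = x ^ (-β) := by
      rw [mul_comm, ← Real.rpow_add_one hw.ne']
      congr 1
      ring
    rw [r3, r2, r1]
    have r5 : (1 - σ) * (2 / β) = σ := by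
      have e1 : β * σ = -α := by
        rw [hβσ]
        field_simp
      have e2 : α = 2 * σ - 2 := by rw [hσ]; ring
      rw [← mul_div_assoc, div_eq_iff hβ.ne']
      linarith
    have r6 : (1 - σ) * E = (1 - σ) * (y ^ 2 + x ^ 2) + σ * x ^ (-β) := by
      rw [← h1]
      linear_combination x ^ (-β) * r5
    rw [r6]
    field_simp
    linear_combination (Q * σ) * r4
  · intro s
    have e : σ * (s + 2 * Θ / σ) = σ * s + 2 * Θ := by
      field_simp
    simp only [e, (hp (σ * s)).1]
  · intro s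
    have e : σ * (s + 2 * Θ / σ) = σ * s + 2 * Θ := by
      field_simp
    simp only [e, (hp (σ * s)).1, (hp (σ * s)).2]
  · obtain ⟨s, hs⟩ := h.nc hβ ha0 ha1
    refine ⟨s / σ, ?_⟩
    have e : σ * (s / σ) = s := by field_simp
    simp only [e]
    exact mul_ne_zero (Real.rpow_pos_of_pos (h.wpos _) _).ne' hs

variable {α K P : ℝ} {u u' : ℝ → ℝ}

lemma USol.per_mul (h : USol α K P u u') (n : ℕ) : USol α K ((n : ℝ) * P) u u' := by
  have h1 : Function.Periodic u P := h.per
  have h2 : Function.Periodic u' P := h.per'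
  exact ⟨h.Kpos, h.upos, h.du, h.du', h1.nat_mul n, h2.nat_mul n, h.nc⟩

lemma USol.cont (h : USol α K P u u') : Continuous u :=
  continuous_iff_continuousAt.2 fun t => (h.du t).continuousAt

lemma USol.cont' (h : USol α K P u u') : Continuous u' :=
  continuous_iff_continuousAt.2 fun t => (h.du' t).continuousAt

lemma USol.smooth_nat (h : USol α K P u u') (n : ℕ) : ContDiff ℝ n u ∧ ContDiff ℝ n u' := by
  induction n with
  | zero =>
    simp only [Nat.cast_zero, contDiff_zero]
    exact ⟨h.cont, h.cont'⟩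
  | succ n ih =>
    have e1 : deriv u = u' := funext fun s => (h.du s).deriv
    have e2 : deriv u' = fun s => -u s + K * u s ^ (-α - 1) := funext fun s => (h.du' s).deriv
    have hn : ((n : ℕ) : WithTop ℕ∞) ≠ (⊤ : WithTop ℕ∞) := by
      exact_mod_cast WithTop.coe_ne_top
    constructor
    · push_cast
      rw [contDiff_succ_iff_deriv, e1]
      exact ⟨fun s => (h.du s).differentiableAt, fun h0 => absurd h0 hn, ih.2⟩
    · push_cast
      rw [contDiff_succ_iff_deriv, e2]
      refine ⟨fun s => (h.du' s).differentiableAt, fun h0 => absurd h0 hn, ?_⟩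
      exact ih.1.neg.add (contDiff_const.mul
        (ih.1.rpow_const_of_ne fun s => (h.upos s).ne'))

lemma USol.smooth (h : USol α K P u u') : ContDiff ℝ ∞ u :=
  contDiff_infty.2 fun n => (h.smooth_nat n).1

/-- polar angle as a function of the centroaffine parameter -/
lemma USol.angle (h : USol α K P u u') (hP : 0 < P) : ∃ (φ : ℝ → ℝ) (T : ℝ), 0 < T ∧ φ 0 = 0 ∧
    (∀ t, HasDerivAt φ (u (φ t) ^ 2) t) ∧ (∀ t, φ (t + T) = φ t + P) ∧
    Function.Surjective φ ∧ ContDiff ℝ ∞ φ := by
  have hper : Function.Periodic u P := h.per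
  have hper' : Function.Periodic u' P := h.per'
  -- bounds
  obtain ⟨x₁, _, hx₁⟩ := isCompact_Icc.exists_isMaxOn (nonempty_Icc.2 hP.le)
    (h.cont.continuousOn (s := Icc 0 P))
  obtain ⟨x₂, _, hx₂⟩ := isCompact_Icc.exists_isMinOn (nonempty_Icc.2 hP.le)
    (h.cont.continuousOn (s := Icc 0 P))
  obtain ⟨x₃, _, hx₃⟩ := isCompact_Icc.exists_isMaxOn (nonempty_Icc.2 hP.le)
    (h.cont'.abs.continuousOn (s := Icc 0 P))
  set M := u x₁ with hM
  set c := u x₂ with hc
  set M' := |u' x₃| with hM'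
  have hM0 : 0 < M := h.upos _
  have hc0 : 0 < c := h.upos _
  have hM'0 : 0 ≤ M' := abs_nonneg _
  have bM : ∀ s, u s ≤ M := by
    intro s
    obtain ⟨y, hy, he⟩ := hper.exists_mem_Ico₀ hP s
    rw [he]
    exact hx₁ ⟨hy.1, hy.2.le⟩
  have bc : ∀ s, c ≤ u s := by
    intro s
    obtain ⟨y, hy, he⟩ := hper.exists_mem_Ico₀ hP s
    rw [he]
    exact hx₂ ⟨hy.1, hy.2.le⟩
  have bM' : ∀ s, |u' s| ≤ M' := by
    intro s
    obtain ⟨y, hy, he⟩ := hper'.exists_mem_Ico₀ hP s
    rw [he]
    exact hx₃ ⟨hy.1, hy.2.le⟩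
  set f : ℝ → ℝ → ℝ := fun _ s => u s ^ 2 with hf
  have hlip : ∀ t, LipschitzWith (Real.toNNReal (2 * M * M')) (f t) := by
    intro t
    apply lipschitzWith_of_nnnorm_deriv_le
    · exact fun s => ((h.du s).pow 2).differentiableAt
    · intro s
      have e1 : deriv (f t) s = 2 * u s * u' s := by
        rw [show f t = u ^ 2 from rfl, ((h.du s).pow 2).deriv]
        simp
      rw [← NNReal.coe_le_coe, coe_nnnorm, e1, Real.coe_toNNReal _ (by positivity),
        Real.norm_eq_abs, abs_mul, abs_mul, abs_of_pos (h.upos s), abs_two]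
      have := bM s
      have := bM' s
      have := h.upos s
      gcongr
  have hbd : ∀ t s, ‖f t s‖ ≤ M ^ 2 := by
    intro t s
    simp only [hf, norm_pow, Real.norm_eq_abs, abs_of_pos (h.upos s)]
    exact pow_le_pow_left₀ (h.upos s).le (bM s) 2
  obtain ⟨φ, hφ0, hφ⟩ := exists_global f _ (M ^ 2) (by positivity) hlip hbd
    (fun z => continuous_const) 0
  have hφd : ∀ t, HasDerivAt φ (u (φ t) ^ 2) t := hφ
  have hφc : Continuous φ := continuous_iff_continuousAt.2 fun t => (hφd t).continuousAt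
  have hlow : ∀ s, c ^ 2 ≤ u (φ s) ^ 2 := fun s => pow_le_pow_left₀ hc0.le (bc _) 2
  have hup : ∀ t, 0 ≤ t → c ^ 2 * t ≤ φ t := by
    intro t ht
    have := incr_of_hd (c := c ^ 2) ht hφd (fun s _ => hlow s)
    rw [hφ0] at this
    linarith
  have hdn : ∀ t, t ≤ 0 → φ t ≤ c ^ 2 * t := by
    intro t ht
    have := incr_of_hd (c := c ^ 2) ht hφd (fun s _ => hlow s)
    rw [hφ0] at this
    linarith
  have hc2 : 0 < c ^ 2 := by positivity
  obtain ⟨T, hT, hTP⟩ : ∃ T ∈ Icc 0 (P / c ^ 2), φ T = P := by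
    have hiv := intermediate_value_Icc (show 0 ≤ P / c ^ 2 by positivity) hφc.continuousOn
    apply hiv
    refine ⟨by rw [hφ0]; exact hP.le, ?_⟩
    have := hup (P / c ^ 2) (by positivity)
    have e : c ^ 2 * (P / c ^ 2) = P := by field_simp
    linarith
  have hT0 : 0 < T := by
    rcases hT.1.eq_or_lt with h0 | h0
    · rw [← h0, hφ0] at hTP
      linarith
    · exact h0
  refine ⟨φ, T, hT0, hφ0, hφd, ?_, ?_, ?_⟩
  · have key := ODE_solution_unique_univ (v := f) (s := fun _ => univ)
      (K := Real.toNNReal (2 * M * M')) (f := fun t => φ (t + T)) (g := fun t => φ t + P) (t₀ := 0)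
      (fun t => (hlip t).lipschitzOnWith)
      (fun t => ⟨(hφd (t + T)).comp_add_const t T, mem_univ _⟩)
      (fun t => ⟨by
        refine ((hφd t).add_const P).congr_deriv ?_
        simp only [hf]
        rw [h.per], mem_univ _⟩)
      (by
        rw [zero_add, hTP, hφ0, zero_add])
    exact fun t => congrFun key t
  · apply hφc.surjective
    · apply Filter.tendsto_atTop_mono' _ _
        (Filter.Tendsto.const_mul_atTop hc2 Filter.tendsto_id)
      filter_upwards [Filter.eventually_ge_atTop (0 : ℝ)] with t ht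
      exact hup t ht
    · apply Filter.tendsto_atBot_mono' _ _
        (Filter.Tendsto.const_mul_atBot hc2 Filter.tendsto_id)
      filter_upwards [Filter.eventually_le_atBot (0 : ℝ)] with t ht
      exact hdn t ht
  · have hn : ∀ n : ℕ, ContDiff ℝ n φ := by
      intro n
      induction n with
      | zero =>
        simp only [Nat.cast_zero, contDiff_zero]
        exact hφc
      | succ n ih =>
        have e1 : deriv φ = fun t => u (φ t) ^ 2 := funext fun s => (hφd s).deriv
        have hn : ((n : ℕ) : WithTop ℕ∞) ≠ (⊤ : WithTop ℕ∞) := by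
          exact_mod_cast WithTop.coe_ne_top
        push_cast
        rw [contDiff_succ_iff_deriv, e1]
        refine ⟨fun s => (hφd s).differentiableAt, fun h0 => absurd h0 hn, ?_⟩
        exact (((h.smooth_nat n).1).comp ih).pow 2
    exact contDiff_infty.2 hn

end Q186.Ca
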