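import Mathlib
import Pool.Agent.Q186.CaF

/-!
The closed extremal curve of a periodic solution of the oscillator; it is not an ellipse.
-/

namespace Q186.Ca

open Real Set Function
open scoped ContDiff

lemma br_mul (z w e : ℂ) : br (z * e) (w * e) = Complex.normSq e * br z w := by
  unfold br
  rw [Complex.normSq_apply]
  simp only [Complex.mul_re, Complex.mul_im]
  ring

variable {α K P : ℝ} {u u' : ℝ → ℝ}

/-- **The closed curve.** -/
theorem USol.curve {m : ℕ} (h : USol α K (2 * π * m) u u') (hm : 0 < m) {a : ℝ} (ha : a ≠ 1)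
    (hα : α = 2 * a / (a - 1)) : ∃ (T : ℝ) (γ : ℝ → ℂ), IsExtremal a T γ ∧ HasRot T γ m ∧
      ∀ ψ : ℝ, Complex.exp ((ψ : ℂ) * Complex.I) / (u ψ : ℂ) ∈ range γ := by
  have hm' : (0 : ℝ) < m := Nat.cast_pos.2 hm
  have hP : 0 < 2 * π * m := by positivity
  have ha' : a - 1 ≠ 0 := sub_ne_zero.2 ha
  obtain ⟨φ, T, hT, hφ0, hφ, hφT, hφs, hφc⟩ := h.angle hP
  set U : ℝ → ℝ := fun t => u (φ t) with hU
  set V : ℝ → ℝ := fun t => u' (φ t) with hV
  have hUp : ∀ t, 0 < U t := fun t => h.upos _
  have dU : ∀ t, HasDerivAt U (U t ^ 2 * V t) t := fun t =>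
    ((h.du (φ t)).comp t (hφ t)).congr_deriv (by simp only [hU, hV]; ring)
  have dV : ∀ t, HasDerivAt V (U t ^ 2 * (-U t + K * U t ^ (-α - 1))) t := fun t =>
    ((h.du' (φ t)).comp t (hφ t)).congr_deriv (by simp only [hU]; ring)
  set e : ℝ → ℂ := fun t => Complex.exp ((φ t : ℂ) * Complex.I) with he
  have de : ∀ t, HasDerivAt e (e t * (((U t ^ 2 : ℝ) : ℂ) * Complex.I)) t := fun t =>
    ((hφ t).ofReal_comp.mul_const Complex.I).cexp
  have hen : ∀ t, Complex.normSq (e t) = 1 := by
    intro t
    rw [Complex.normSq_eq_norm_sq, he]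
    simp only [Complex.norm_exp_ofReal_mul_I, one_pow]
  set γ : ℝ → ℂ := fun t => e t / (U t : ℂ) with hγ
  have hUc : ∀ t, (U t : ℂ) ≠ 0 := fun t => Complex.ofReal_ne_zero.2 (hUp t).ne'
  have dγ : ∀ t, HasDerivAt γ (((U t : ℂ) * Complex.I - (V t : ℂ)) * e t) t := by
    intro t
    have h1 := (de t).div (dU t).ofReal_comp (hUc t)
    refine h1.congr_deriv ?_
    have := hUc t
    push_cast
    field_simp
  have eγ : deriv γ = fun t => ((U t : ℂ) * Complex.I - (V t : ℂ)) * e t :=
    funext fun t => (dγ t).deriv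
  have hrp : ∀ t, U t ^ (2 - α) = U t ^ (-α - 1) * U t ^ 3 := by
    intro t
    rw [← Real.rpow_natCast, ← Real.rpow_add (hUp t)]
    congr 1
    push_cast
    ring
  have dγ2 : ∀ t, HasDerivAt (deriv γ) (-((K * U t ^ (2 - α) : ℝ) : ℂ) * γ t) t := by
    intro t
    rw [eγ]
    have h1 := ((((dU t).ofReal_comp.mul_const Complex.I).sub (dV t).ofReal_comp).mul (de t))
    refine h1.congr_deriv ?_
    have h2 := hUc t
    simp only [hγ, Pi.sub_apply]
    rw [hrp t]
    push_cast
    field_simp
    linear_combination ((U t : ℂ) * e t) * Complex.I_sq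
  have eγ2 : deriv (deriv γ) = fun t => -((K * U t ^ (2 - α) : ℝ) : ℂ) * γ t :=
    funext fun t => (dγ2 t).deriv
  have hγe : ∀ t, γ t = ((1 / U t : ℝ) : ℂ) * e t := by
    intro t
    simp only [hγ]
    push_cast
    field_simp
  have hbr : ∀ t, br (γ t) (deriv γ t) = 1 := by
    intro t
    rw [eγ, hγe]
    simp only
    rw [br_mul, hen, one_mul]
    have := hUp t
    unfold br
    simp only [Complex.ofReal_re, Complex.ofReal_im, Complex.sub_re, Complex.sub_im,
      Complex.mul_re, Complex.mul_im, Complex.I_re, Complex.I_im]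
    field_simp
    ring
  have hcurv : curv γ = fun t => K * U t ^ (2 - α) := by
    funext t
    unfold curv
    rw [eγ2]
    have h1 : br (deriv γ t) (-((K * U t ^ (2 - α) : ℝ) : ℂ) * γ t)
        = K * U t ^ (2 - α) * br (γ t) (deriv γ t) := by
      unfold br
      simp only [← Complex.ofReal_neg, Complex.re_ofReal_mul, Complex.im_ofReal_mul]
      ring
    simp only
    rw [h1, hbr, mul_one]
  have hFe : (fun s => curv γ s ^ (a - 1)) = fun s => K ^ (a - 1) / U s ^ 2 := by
    funext s
    rw [hcurv]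
    simp only
    rw [Real.mul_rpow h.Kpos.le (Real.rpow_nonneg (hUp s).le _), ← Real.rpow_mul (hUp s).le]
    have e1 : (2 - α) * (a - 1) = -((2 : ℕ) : ℝ) := by
      rw [hα]
      push_cast
      field_simp
      ring
    rw [e1, Real.rpow_neg (hUp s).le, Real.rpow_natCast]
    rfl
  set c := K ^ (a - 1) with hc
  have r2 : ∀ t, U t ^ (-α) = U t ^ (-α - 1) * U t := by
    intro t
    rw [← Real.rpow_add_one (hUp t).ne']
    congr 1
    ring
  have r3 : ∀ t, U t ^ (1 - α) = U t ^ (-α - 1) * U t ^ 2 := by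
    intro t
    rw [← Real.rpow_natCast, ← Real.rpow_add (hUp t)]
    congr 1
    push_cast
    ring
  have dF : ∀ t, HasDerivAt (fun s => c / U s ^ 2) (-2 * c * (V t / U t)) t := by
    intro t
    have h1 := (hasDerivAt_const t c).div ((dU t).pow 2) (pow_ne_zero 2 (hUp t).ne')
    refine h1.congr_deriv ?_
    have := hUp t
    simp only [Nat.cast_ofNat, Nat.add_one_sub_one, pow_one, Pi.pow_apply]
    field_simp
    ring
  have eF : deriv (fun s => c / U s ^ 2) = fun t => -2 * c * (V t / U t) :=
    funext fun t => (dF t).deriv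
  have dF1 : ∀ t, HasDerivAt (fun t => -2 * c * (V t / U t))
      (2 * c * (U t ^ 2 - K * U t ^ (-α) + V t ^ 2)) t := by
    intro t
    have h1 := ((dV t).div (dU t) (hUp t).ne').const_mul (-2 * c)
    refine h1.congr_deriv ?_
    have := hUp t
    rw [r2 t]
    field_simp
    ring
  have eF1 : deriv (fun t => -2 * c * (V t / U t))
      = fun t => 2 * c * (U t ^ 2 - K * U t ^ (-α) + V t ^ 2) :=
    funext fun t => (dF1 t).deriv
  have dF2 : ∀ t, HasDerivAt (fun t => 2 * c * (U t ^ 2 - K * U t ^ (-α) + V t ^ 2))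
      (2 * c * (α + 2) * K * (U t ^ (1 - α) * V t)) t := by
    intro t
    have h0 := (dU t).rpow_const (p := -α) (Or.inl (hUp t).ne')
    have h1 := ((((dU t).pow 2).sub (h0.const_mul K)).add ((dV t).pow 2)).const_mul (2 * c)
    refine h1.congr_deriv ?_
    rw [r3 t]
    simp only [Nat.cast_ofNat, Nat.add_one_sub_one, pow_one]
    ring
  have dp : ∀ t, HasDerivAt (fun t => K * U t ^ (2 - α))
      (K * ((2 - α) * (U t ^ (1 - α) * (U t ^ 2 * V t)))) t := by
    intro t
    have h0 := ((dU t).rpow_const (p := 2 - α) (Or.inl (hUp t).ne')).const_mul K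
    refine h0.congr_deriv ?_
    rw [show 2 - α - 1 = 1 - α by ring]
    ring
  -- smoothness
  have hUs : ContDiff ℝ ∞ U := h.smooth.comp hφc
  have hes : ContDiff ℝ ∞ e :=
    ((Complex.ofRealCLM.contDiff.comp hφc).mul contDiff_const).cexp
  have hγs : ContDiff ℝ ∞ γ := by
    rw [show γ = fun t => ((1 / U t : ℝ) : ℂ) * e t from funext hγe]
    have h1 : ContDiff ℝ ∞ (fun t => 1 / U t) := contDiff_const.div hUs fun t => (hUp t).ne'
    exact (Complex.ofRealCLM.contDiff.comp h1).mul hes
  refine ⟨T, γ, ⟨hT, hγs, fun t => ?_, hbr, fun t => ?_, fun t => ?_⟩, ⟨φ, hφc.continuous,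
    fun t => ?_, ?_⟩, fun ψ => ?_⟩
  · simp only [hγ, he, hU]
    rw [hφT, h.per]
    congr 1
    push_cast
    rw [add_mul, Complex.exp_add, show (2 * (π : ℂ) * m) * Complex.I = m * (2 * π * Complex.I) by
      ring, Complex.exp_nat_mul_two_pi_mul_I, mul_one]
  · rw [hcurv]
    have := h.Kpos
    have := Real.rpow_pos_of_pos (hUp t) (2 - α)
    positivity
  · rw [hFe, eF, eF1, (dF2 t).deriv]
    have e1 : curv γ t ^ (a - 1) = c / U t ^ 2 := congrFun hFe t
    rw [e1, hcurv, (dp t).deriv]
    have := hUp t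
    beta_reduce
    rw [hrp t, r3 t]
    field_simp
    ring
  · rw [hγe t]
    simp only [norm_mul, Complex.norm_real, Real.norm_eq_abs, he, Complex.norm_exp_ofReal_mul_I,
      mul_one]
    rw [abs_of_pos (by have := hUp t; positivity)]
  · have := hφT 0
    rw [zero_add] at this
    rw [this]
    ring
  · obtain ⟨t, ht⟩ := hφs ψ
    refine ⟨t, ?_⟩
    simp only [hγ, he, hU, ht]

/-- the curve is not contained in an ellipse -/
theorem USol.not_ellipse (h : USol α K P u u') (hα1 : α ≠ -1) (hα2 : α ≠ 2) {S : Set ℂ}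
    (hS : ∀ ψ : ℝ, Complex.exp ((ψ : ℂ) * Complex.I) / (u ψ : ℂ) ∈ S) : ¬IsEllipse S := by
  rintro ⟨z, A, B, C, hA, hdet, rfl⟩
  set l1 := A * z.re + B * z.im with hl1
  set l2 := B * z.re + C * z.im with hl2
  set D := 1 - (A * z.re ^ 2 + 2 * B * z.re * z.im + C * z.im ^ 2) with hD
  set ℓ : ℝ → ℝ := fun x => l1 * cos x + l2 * sin x with hℓ
  set q : ℝ → ℝ := fun x => A * cos x ^ 2 + 2 * B * cos x * sin x + C * sin x ^ 2 with hq
  have hup := h.upos
  have heq : ∀ x, q x = D * u x ^ 2 + 2 * ℓ x * u x := by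
    intro x
    have h1 := hS x
    have h2 : Complex.exp ((x : ℂ) * Complex.I) / (u x : ℂ) = ((cos x / u x : ℝ) : ℂ)
        + ((sin x / u x : ℝ) : ℂ) * Complex.I := by
      rw [Complex.exp_mul_I]
      push_cast
      ring
    rw [h2] at h1
    simp only [mem_ofPred_eq, Complex.sub_re, Complex.add_re, Complex.ofReal_re, Complex.mul_re,
      Complex.ofReal_im, Complex.I_re, Complex.I_im, mul_zero, mul_one, sub_zero, add_zero,
      Complex.sub_im, Complex.add_im, Complex.mul_im, zero_add] at h1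
    have hu := hup x
    have h3 : A * (cos x - z.re * u x) ^ 2 + 2 * B * (cos x - z.re * u x) * (sin x - z.im * u x)
        + C * (sin x - z.im * u x) ^ 2 = u x ^ 2 := by
      have e1 : cos x / u x - z.re = (cos x - z.re * u x) / u x := by field_simp
      have e2 : sin x / u x - z.im = (sin x - z.im * u x) / u x := by field_simp
      rw [e1, e2] at h1
      field_simp at h1
      linarith
    simp only [hq, hD, hℓ, hl1, hl2]
    linear_combination h3
  have hqpos : ∀ x, 0 < q x := by
    intro x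
    have h1 : A * q x = (A * cos x + B * sin x) ^ 2 + (A * C - B ^ 2) * sin x ^ 2 := by
      simp only [hq]
      ring
    have h2 : 0 < A * q x := by
      rw [h1]
      rcases eq_or_ne (sin x) 0 with hs | hs
      · have hc : cos x ≠ 0 := by
          intro hc
          have := Real.sin_sq_add_cos_sq x
          rw [hs, hc] at this
          norm_num at this
        rw [hs]
        have : A * cos x ≠ 0 := mul_ne_zero hA.ne' hc
        have : 0 < (A * cos x) ^ 2 := by positivity
        linarith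
      · have : 0 < (A * C - B ^ 2) * sin x ^ 2 := by positivity
        have := sq_nonneg (A * cos x + B * sin x)
        linarith
    exact (mul_pos_iff_of_pos_left hA).1 h2
  have hℓπ : ∀ x, ℓ (x + π) = -ℓ x := by
    intro x
    simp only [hℓ, Real.cos_add_pi, Real.sin_add_pi]
    ring
  have hqπ : ∀ x, q (x + π) = q x := by
    intro x
    simp only [hq, Real.cos_add_pi, Real.sin_add_pi]
    ring
  have hDpos : 0 < D := by
    by_contra hcon
    rw [not_lt] at hcon
    have h1 : ∀ x, 0 < ℓ x := by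
      intro x
      have e1 := heq x
      have e2 := hqpos x
      have e3 := hup x
      by_contra h0
      rw [not_lt] at h0
      nlinarith [mul_pos e3 e3]
    have h2 := h1 0
    have h3 := h1 (0 + π)
    rw [hℓπ] at h3
    linarith
  set g : ℝ → ℝ := fun x => D * u x + ℓ x with hg
  have hgpos : ∀ x, 0 < g x := by
    intro x
    have e1 := heq x
    have e2 := hqpos x
    have e3 := hup x
    have e4 : 0 < u x * (D * u x + 2 * ℓ x) := by
      rw [e1] at e2
      linarith
    have e5 := (mul_pos_iff_of_pos_left e3).1 e4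
    have e6 := mul_pos hDpos e3
    simp only [hg]
    linarith
  have hgsq : ∀ x, g x ^ 2 = D * q x + ℓ x ^ 2 := by
    intro x
    rw [heq x]
    simp only [hg]
    ring
  have hgπ : ∀ x, g (x + π) = g x := by
    intro x
    have e1 := hgsq (x + π)
    rw [hqπ, hℓπ, neg_sq, ← hgsq x] at e1
    exact (pow_left_inj₀ (hgpos _).le (hgpos _).le two_ne_zero).1 e1
  have dℓ : ∀ x, HasDerivAt ℓ (-l1 * sin x + l2 * cos x) x := by
    intro x
    refine (((Real.hasDerivAt_cos x).const_mul l1).add
      ((Real.hasDerivAt_sin x).const_mul l2)).congr_deriv ?_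
    ring
  have dℓ' : ∀ x, HasDerivAt (fun x => -l1 * sin x + l2 * cos x) (-ℓ x) x := by
    intro x
    refine (((Real.hasDerivAt_sin x).const_mul (-l1)).add
      ((Real.hasDerivAt_cos x).const_mul l2)).congr_deriv ?_
    simp only [hℓ]
    ring
  set g' : ℝ → ℝ := fun x => D * u' x + (-l1 * sin x + l2 * cos x) with hg'
  have dg : ∀ x, HasDerivAt g (g' x) x := fun x => ((h.du x).const_mul D).add (dℓ x)
  have dg' : ∀ x, HasDerivAt g' (D * (-u x + K * u x ^ (-α - 1)) + -ℓ x) x := fun x =>
    ((h.du' x).const_mul D).add (dℓ' x)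
  have hg'π : ∀ x, g' (x + π) = g' x := by
    intro x
    have e1 := (dg (x + π)).comp_add_const x π
    have e2 : (fun x => g (x + π)) = g := funext hgπ
    rw [e2] at e1
    exact e1.unique (dg x)
  have hg''π : ∀ x, D * (-u (x + π) + K * u (x + π) ^ (-α - 1)) + -ℓ (x + π)
      = D * (-u x + K * u x ^ (-α - 1)) + -ℓ x := by
    intro x
    have e1 := (dg' (x + π)).comp_add_const x π
    have e2 : (fun x => g' (x + π)) = g' := funext hg'π
    rw [e2] at e1
    exact e1.unique (dg' x)
  have huπ : ∀ x, u (x + π) = u x := by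
    intro x
    have e1 := hg''π x
    have e2 := hgπ x
    simp only [hg] at e2
    have e3 : D * K * u (x + π) ^ (-α - 1) = D * K * u x ^ (-α - 1) := by linarith
    have e4 := mul_left_cancel₀ (mul_pos hDpos h.Kpos).ne' e3
    have hne : -α - 1 ≠ 0 := by
      intro h0
      apply hα1
      linarith
    exact (Real.rpow_left_inj (hup _).le (hup _).le hne).1 e4
  have hℓ0 : ∀ x, ℓ x = 0 := by
    intro x
    have e1 := hgπ x
    simp only [hg] at e1
    rw [huπ, hℓπ] at e1
    linarith
  have hqu : ∀ x, q x = D * u x ^ 2 := by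
    intro x
    have := heq x
    rw [hℓ0 x] at this
    linarith
  -- first and second derivatives of `q`
  have dq : ∀ x, HasDerivAt q (2 * (C - A) * (cos x * sin x) + 2 * B * (cos x ^ 2 - sin x ^ 2))
      x := by
    intro x
    have c1 := Real.hasDerivAt_cos x
    have s1 := Real.hasDerivAt_sin x
    refine ((((c1.pow 2).const_mul A).add ((c1.const_mul (2 * B)).mul s1)).add
      ((s1.pow 2).const_mul C)).congr_deriv ?_
    simp only [Nat.cast_ofNat, Nat.add_one_sub_one, pow_one]
    ring
  have dq' : ∀ x, HasDerivAt (fun x => 2 * (C - A) * (cos x * sin x)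
      + 2 * B * (cos x ^ 2 - sin x ^ 2))
      (2 * (C - A) * (cos x ^ 2 - sin x ^ 2) - 8 * B * (cos x * sin x)) x := by
    intro x
    have c1 := Real.hasDerivAt_cos x
    have s1 := Real.hasDerivAt_sin x
    refine (((c1.mul s1).const_mul (2 * (C - A))).add
      (((c1.pow 2).sub (s1.pow 2)).const_mul (2 * B))).congr_deriv ?_
    simp only [Nat.cast_ofNat, Nat.add_one_sub_one, pow_one]
    ring
  have hquf : q = fun x => D * u x ^ 2 := funext hqu
  have dq2 : ∀ x, HasDerivAt q (2 * D * (u x * u' x)) x := by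
    intro x
    rw [hquf]
    refine (((h.du x).pow 2).const_mul D).congr_deriv ?_
    simp only [Nat.cast_ofNat, Nat.add_one_sub_one, pow_one]
    ring
  have hq1 : (fun x => 2 * (C - A) * (cos x * sin x) + 2 * B * (cos x ^ 2 - sin x ^ 2))
      = fun x => 2 * D * (u x * u' x) := funext fun x => (dq x).unique (dq2 x)
  have dq2' : ∀ x, HasDerivAt (fun x => 2 * D * (u x * u' x))
      (2 * D * (u' x ^ 2 + u x * (-u x + K * u x ^ (-α - 1)))) x := by
    intro x
    refine (((h.du x).mul (h.du' x)).const_mul (2 * D)).congr_deriv ?_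
    ring
  have hconst : ∀ x, u x ^ (2 - α) = (A * C - B ^ 2) / (D ^ 2 * K) := by
    intro x
    have hu := hup x
    have hK := h.Kpos
    have e0 := hqu x
    have e1 : 2 * (C - A) * (cos x * sin x) + 2 * B * (cos x ^ 2 - sin x ^ 2)
        = 2 * D * (u x * u' x) := congrFun hq1 x
    have e2 : 2 * (C - A) * (cos x ^ 2 - sin x ^ 2) - 8 * B * (cos x * sin x)
        = 2 * D * (u' x ^ 2 + u x * (-u x + K * u x ^ (-α - 1))) := by
      have e3 := dq' x
      rw [hq1] at e3
      exact e3.unique (dq2' x)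
    have e4 : 2 * q x * (2 * (C - A) * (cos x ^ 2 - sin x ^ 2) - 8 * B * (cos x * sin x))
        - (2 * (C - A) * (cos x * sin x) + 2 * B * (cos x ^ 2 - sin x ^ 2)) ^ 2
        + 4 * q x ^ 2 = 4 * (A * C - B ^ 2) := by
      have hcs := Real.sin_sq_add_cos_sq x
      have : (sin x ^ 2 + cos x ^ 2) ^ 2 = 1 := by rw [hcs]; norm_num
      simp only [hq]
      linear_combination (4 * (A * C - B ^ 2)) * this
    rw [e2, e1, e0] at e4
    have e5 : u x ^ (2 - α) = u x ^ (-α - 1) * u x ^ 3 := by
      rw [← Real.rpow_natCast, ← Real.rpow_add hu]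
      congr 1
      push_cast
      ring
    rw [e5, eq_div_iff (by positivity)]
    linear_combination e4 / 4
  have hne : 2 - α ≠ 0 := by
    intro h0
    apply hα2
    linarith
  have hu0 : ∀ x, u x = u 0 := by
    intro x
    have e1 := hconst x
    rw [← hconst 0] at e1
    exact (Real.rpow_left_inj (hup _).le (hup _).le hne).1 e1
  obtain ⟨s, hs⟩ := h.nc
  apply hs
  have e1 := h.du s
  have e2 : u = fun _ => u 0 := funext hu0
  rw [e2] at e1
  exact e1.unique (hasDerivAt_const s _)

end Q186.Ca
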