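import Mathlib
import Pool.Agent.Q186.CaG

/-!
The least rotation number of a nontrivial extremal curve.
-/

namespace Q186.Ca

open Real Set Function
open scoped ContDiff

/-- the least rotation number of a closed extremal curve whose image is not an ellipse,
`⊤` if there is none -/
noncomputable def minRot (a : ℝ) : ℕ∞ :=
  sInf {n : ℕ∞ | ∃ (m : ℕ) (T : ℝ) (γ : ℝ → ℂ),
    n = m ∧ IsExtremal a T γ ∧ HasRot T γ m ∧ ¬IsEllipse (range γ)}

lemma minRot_eq {a : ℝ} {M : ℕ}
    (hlow : ∀ (m : ℕ) (T : ℝ) (γ : ℝ → ℂ), IsExtremal a T γ → HasRot T γ m →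
      ¬IsEllipse (range γ) → M ≤ m)
    (hex : ∃ (T : ℝ) (γ : ℝ → ℂ), IsExtremal a T γ ∧ HasRot T γ M ∧ ¬IsEllipse (range γ)) :
    minRot a = M := by
  apply le_antisymm
  · obtain ⟨T, γ, h1, h2, h3⟩ := hex
    exact sInf_le ⟨M, T, γ, rfl, h1, h2, h3⟩
  · apply le_sInf
    rintro n ⟨m, T, γ, rfl, h1, h2, h3⟩
    exact_mod_cast hlow m T γ h1 h2 h3

/-- existence, from the oscillation count -/
theorem exists_extremal {a α : ℝ} (ha : a ≠ 1) (hα : α = 2 * a / (a - 1)) (hα0 : α ≠ 0)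
    (hα2 : -2 < α) {m N : ℕ} (hm : 0 < m) (hN : 0 < N)
    (hh : (2 < α ∧ 2 * (m : ℝ) < N ∧ (N : ℝ) < √(α + 2) * m ∧ √(α + 2) * m < 2 * N) ∨
      (0 < α ∧ α < 2 ∧ √(α + 2) * m < N ∧ (N : ℝ) < 2 * m) ∨
      (-1 < α ∧ α < 0 ∧ √(α + 2) * m < N ∧ (N : ℝ) < (α + 2) * m) ∨
      (α < -1 ∧ (α + 2) * m < N ∧ (N : ℝ) < √(α + 2) * m ∧ √(α + 2) * m < 2 * N)) :
    ∃ (T : ℝ) (γ : ℝ → ℂ), IsExtremal a T γ ∧ HasRot T γ m ∧ ¬IsEllipse (range γ) := by
  have hm' : (0 : ℝ) < m := Nat.cast_pos.2 hm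
  have hN' : (0 : ℝ) < N := Nat.cast_pos.2 hN
  have hpi := Real.pi_pos
  set κ := √(α + 2) with hκ
  have hκ0 : 0 < κ := Real.sqrt_pos.2 (by linarith)
  have hκ2 : κ ^ 2 = α + 2 := Real.sq_sqrt (by linarith)
  have ha' : a - 1 ≠ 0 := sub_ne_zero.2 ha
  have hne2 : α ≠ 2 := by
    intro h0
    rw [h0, eq_div_iff ha'] at hα
    linarith
  -- it suffices to find a periodic solution
  suffices hs : ∃ K u u', USol α K (2 * π * m / N) u u' by
    obtain ⟨K, u, u', hu⟩ := hs
    have hu2 := hu.per_mul N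
    have e : (N : ℝ) * (2 * π * m / N) = 2 * π * m := by field_simp
    rw [e] at hu2
    obtain ⟨T, γ, h1, h2, h3⟩ := hu2.curve hm ha hα
    refine ⟨T, γ, h1, h2, hu2.not_ellipse ?_ hne2 h3⟩
    rcases hh with h | h | h | h
    · intro h0; linarith [h.1]
    · intro h0; linarith [h.1]
    · intro h0; linarith [h.1]
    · intro h0; linarith [h.1]
  -- signs of the trigonometric functions
  have hneg1 : ∀ x, π / 2 < x → x < π → cos x < 0 := fun x h1 h2 =>
    Real.cos_neg_of_pi_div_two_lt_of_lt h1 (by linarith)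
  have hneg2 : ∀ x, π < x → x < 2 * π → sin x < 0 := by
    intro x h1 h2
    have h3 : 0 < sin (x - π) := Real.sin_pos_of_pos_of_lt_pi (by linarith) (by linarith)
    rw [Real.sin_sub_pi] at h3
    linarith
  rcases lt_or_gt_of_ne hα0 with hneg | hpos
  · -- negative exponent
    set β := -2 * α / (α + 2) with hβ
    have hβ0 : 0 < β := div_pos (by linarith) (by linarith)
    have hβ2 : √(β + 2) = 2 / κ := by
      rw [Real.sqrt_eq_iff_mul_self_eq (by linarith) (by positivity)]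
      rw [hβ]
      have : α + 2 ≠ 0 := by linarith
      have h4 : 2 / κ * (2 / κ) = 4 / (α + 2) := by
        rw [← hκ2]
        field_simp
        norm_num
      rw [h4]
      field_simp
      ring
    set Θ := κ ^ 2 * π * m / (2 * N) with hΘ
    have hΘ0 : 0 < Θ := by positivity
    have hκΘ : √(β + 2) * Θ = κ * π * m / N := by
      rw [hβ2, hΘ]
      field_simp
    have key : ∀ (hΘπ : Θ < π) (hsg : cos Θ * sin (√(β + 2) * Θ) < 0),
        ∃ K u u', USol α K (2 * π * m / N) u u' := by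
      intro hΘπ hsg
      obtain ⟨x, w, v, hx0, hx1, hp, hper⟩ := exists_periodic hβ0 hΘ0 hΘπ hsg
      obtain ⟨K, u, u', hu⟩ := USol.of_neg hneg hα2 hx0 hx1 hp hper
      have e : 2 * Θ / ((α + 2) / 2) = 2 * π * m / N := by
        rw [hΘ, ← hκ2]
        field_simp
      rw [e] at hu
      exact ⟨K, u, u', hu⟩
    rcases hh with h | h | h | h
    · linarith [h.1]
    · linarith [h.1]
    · obtain ⟨h1, h2, h3, h4⟩ := h
      rw [← hκ2] at h4
      have hκ1 : 1 < κ := by
        by_contra hcon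
        nlinarith
      have hκs : κ < 2 := by
        by_contra hcon
        nlinarith
      have t1 : π / 2 < Θ := by
        rw [hΘ, lt_div_iff₀ (by positivity)]
        nlinarith
      have t2 : Θ < π := by
        rw [hΘ, div_lt_iff₀ (by positivity)]
        have : κ ^ 2 * m < 2 * N := by nlinarith
        nlinarith
      have t3 : 0 < √(β + 2) * Θ := by
        rw [hκΘ]
        positivity
      have t4 : √(β + 2) * Θ < π := by
        rw [hκΘ, div_lt_iff₀ hN']
        nlinarith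
      exact key t2 (mul_neg_of_neg_of_pos (hneg1 _ t1 t2) (Real.sin_pos_of_pos_of_lt_pi t3 t4))
    · obtain ⟨h1, h2, h3, h4⟩ := h
      rw [← hκ2] at h2
      have t1 : Θ < π / 2 := by
        rw [hΘ, div_lt_iff₀ (by positivity)]
        nlinarith
      have t3 : π < √(β + 2) * Θ := by
        rw [hκΘ, lt_div_iff₀ hN']
        nlinarith
      have t4 : √(β + 2) * Θ < 2 * π := by
        rw [hκΘ, div_lt_iff₀ hN']
        nlinarith
      exact key (by linarith) (mul_neg_of_pos_of_neg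
        (Real.cos_pos_of_mem_Ioo ⟨by linarith, t1⟩) (hneg2 _ t3 t4))
  · -- positive exponent
    set Θ := π * m / N with hΘ
    have hΘ0 : 0 < Θ := by positivity
    have key : ∀ (hΘπ : Θ < π) (hsg : cos Θ * sin (κ * Θ) < 0),
        ∃ K u u', USol α K (2 * π * m / N) u u' := by
      intro hΘπ hsg
      obtain ⟨x, w, v, hx0, hx1, hp, hper⟩ := exists_periodic hpos hΘ0 hΘπ hsg
      have hu := USol.of_pos hpos hx0 hx1 hp hper
      have e : 2 * Θ = 2 * π * m / N := by
        rw [hΘ]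
        ring
      rw [e] at hu
      exact ⟨1, w, v, hu⟩
    have hκΘ : κ * Θ = κ * m * π / N := by
      rw [hΘ]
      ring
    rcases hh with h | h | h | h
    · obtain ⟨h1, h2, h3, h4⟩ := h
      have t1 : Θ < π / 2 := by
        rw [hΘ, div_lt_iff₀ hN']
        nlinarith
      have t3 : π < κ * Θ := by
        rw [hκΘ, lt_div_iff₀ hN']
        nlinarith
      have t4 : κ * Θ < 2 * π := by
        rw [hκΘ, div_lt_iff₀ hN']
        nlinarith
      exact key (by linarith) (mul_neg_of_pos_of_neg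
        (Real.cos_pos_of_mem_Ioo ⟨by linarith, t1⟩) (hneg2 _ t3 t4))
    · obtain ⟨h1, h2, h3, h4⟩ := h
      have hκ1 : 1 < κ := by
        by_contra hcon
        nlinarith
      have t1 : π / 2 < Θ := by
        rw [hΘ, lt_div_iff₀ hN']
        nlinarith
      have t2 : Θ < π := by
        rw [hΘ, div_lt_iff₀ hN']
        have : (m : ℝ) < N := by nlinarith
        nlinarith
      have t3 : 0 < κ * Θ := by positivity
      have t4 : κ * Θ < π := by
        rw [hκΘ, div_lt_iff₀ hN']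
        nlinarith
      exact key t2 (mul_neg_of_neg_of_pos (hneg1 _ t1 t2) (Real.sin_pos_of_pos_of_lt_pi t3 t4))
    · linarith [h.2.1]
    · linarith [h.1]

/-- necessary condition -/
theorem count_extremal {a α T : ℝ} {γ : ℝ → ℂ} {m : ℕ} (ha : a ≠ 1) (hα : α = 2 * a / (a - 1))
    (hα0 : α ≠ 0) (hα2 : -2 < α) (h : IsExtremal a T γ) (hr : HasRot T γ m)
    (hne : ¬IsEllipse (range γ)) :
    ∃ N : ℤ, (2 < α → 2 * (m : ℝ) < N ∧ (N : ℝ) < √(α + 2) * m) ∧
      (0 < α → α < 2 → √(α + 2) * m < N ∧ (N : ℝ) < 2 * m) ∧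
      (-1 < α → α < 0 → √(α + 2) * m < N ∧ (N : ℝ) < (α + 2) * m) ∧
      (α < -1 → (α + 2) * m < N ∧ (N : ℝ) < √(α + 2) * m) := by
  obtain ⟨K, U, V, w, ho, hV⟩ := h.reduce ha hr hne
  rw [← hα] at ho
  exact ho.between hα0 hα2 hV

/-- the parameter of the oscillator -/
lemma alpha_eq {a : ℝ} (ha : a ≠ 1) : 2 * a / (a - 1) + 2 = (4 * a - 2) / (a - 1) := by
  have ha' : a - 1 ≠ 0 := sub_ne_zero.2 ha
  field_simp
  ring

/-- **exponents larger than one** -/
theorem minRot_gt_one {a : ℝ} (ha : 1 < a) :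
    minRot a = ((⌊1 / (√((4 * a - 2) / (a - 1)) - 2)⌋₊ + 1 : ℕ) : ℕ∞) := by
  have ha1 : a ≠ 1 := ha.ne'
  have ha' : 0 < a - 1 := by linarith
  set α := 2 * a / (a - 1) with hα
  have hα2 : α + 2 = (4 * a - 2) / (a - 1) := alpha_eq ha1
  rw [← hα2]
  have hαgt : 2 < α := by
    rw [hα, lt_div_iff₀ ha']
    linarith
  set κ := √(α + 2) with hκ
  have hκ2 : κ ^ 2 = α + 2 := Real.sq_sqrt (by linarith)
  have hκ0 : 0 < κ := Real.sqrt_pos.2 (by linarith)
  have hκgt : 2 < κ := by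
    by_contra hcon
    nlinarith
  set M := ⌊1 / (κ - 2)⌋₊ + 1 with hM
  have hMgt : 1 / (κ - 2) < M := by
    rw [hM]
    push_cast
    exact Nat.lt_floor_add_one _
  have hMκ : 2 * (M : ℝ) + 1 < κ * M := by
    rw [div_lt_iff₀ (by linarith)] at hMgt
    linarith
  apply minRot_eq
  · intro m T γ h1 h2 h3
    obtain ⟨N, hN, -⟩ := count_extremal ha1 hα (by linarith) (by linarith) h1 h2 h3
    obtain ⟨h4, h5⟩ := hN hαgt
    have h6 : 2 * (m : ℤ) + 1 ≤ N := by
      have : 2 * (m : ℤ) < N := by exact_mod_cast h4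
      linarith
    have h7 : 2 * (m : ℝ) + 1 ≤ N := by exact_mod_cast h6
    have h8 : 1 / (κ - 2) < m := by
      rw [div_lt_iff₀ (by linarith)]
      nlinarith
    have h9 : ⌊1 / (κ - 2)⌋₊ < m := (Nat.floor_lt (by
      have : 0 < κ - 2 := by linarith
      positivity)).2 h8
    omega
  · set N := ⌈κ * M⌉₊ - 1 with hN
    have hM1 : 1 ≤ M := by omega
    have hM1' : (1 : ℝ) ≤ M := by exact_mod_cast hM1
    have hc1 : κ * M ≤ (⌈κ * M⌉₊ : ℝ) := Nat.le_ceil _
    have hc2 : (⌈κ * M⌉₊ : ℝ) < κ * M + 1 := Nat.ceil_lt_add_one (by positivity)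
    have hc3 : 2 * M + 1 < ⌈κ * M⌉₊ := by
      have : 2 * (M : ℝ) + 1 < (⌈κ * M⌉₊ : ℝ) := by linarith
      exact_mod_cast this
    have hNc : (N : ℝ) = (⌈κ * M⌉₊ : ℝ) - 1 := by
      rw [hN, Nat.cast_sub (by omega)]
      simp
    apply exists_extremal ha1 hα (by linarith) (by linarith) (m := M) (N := N) (by omega)
      (by omega)
    left
    have h4 : 2 * M < N := by omega
    refine ⟨hαgt, by exact_mod_cast h4, by linarith, ?_⟩
    rw [hNc]
    nlinarith

/-- **negative exponents** -/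
theorem minRot_neg {a : ℝ} (ha : a < 0) :
    minRot a = ((⌊1 / (2 - √((4 * a - 2) / (a - 1)))⌋₊ + 1 : ℕ) : ℕ∞) := by
  have ha1 : a ≠ 1 := by linarith
  have ha' : a - 1 < 0 := by linarith
  set α := 2 * a / (a - 1) with hα
  have hα2 : α + 2 = (4 * a - 2) / (a - 1) := alpha_eq ha1
  rw [← hα2]
  have hαpos : 0 < α := div_pos_of_neg_of_neg (by linarith) ha'
  have hαlt : α < 2 := by
    rw [hα, div_lt_iff_of_neg ha']
    linarith
  set κ := √(α + 2) with hκ
  have hκ2 : κ ^ 2 = α + 2 := Real.sq_sqrt (by linarith)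
  have hκ0 : 0 < κ := Real.sqrt_pos.2 (by linarith)
  have hκlt : κ < 2 := by
    by_contra hcon
    nlinarith
  set M := ⌊1 / (2 - κ)⌋₊ + 1 with hM
  have hMgt : 1 / (2 - κ) < M := by
    rw [hM]
    push_cast
    exact Nat.lt_floor_add_one _
  have hMκ : κ * M < 2 * (M : ℝ) - 1 := by
    rw [div_lt_iff₀ (by linarith)] at hMgt
    linarith
  apply minRot_eq
  · intro m T γ h1 h2 h3
    obtain ⟨N, -, hN, -⟩ := count_extremal ha1 hα (by linarith) (by linarith) h1 h2 h3
    obtain ⟨h4, h5⟩ := hN hαpos hαlt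
    have h6 : N ≤ 2 * (m : ℤ) - 1 := by
      have : N < 2 * (m : ℤ) := by exact_mod_cast h5
      linarith
    have h7 : (N : ℝ) ≤ 2 * (m : ℝ) - 1 := by exact_mod_cast h6
    have h8 : 1 / (2 - κ) < m := by
      rw [div_lt_iff₀ (by linarith)]
      nlinarith
    have h9 : ⌊1 / (2 - κ)⌋₊ < m := (Nat.floor_lt (by
      have : 0 < 2 - κ := by linarith
      positivity)).2 h8
    omega
  · have hM1 : 1 ≤ M := by omega
    have hNc : ((2 * M - 1 : ℕ) : ℝ) = 2 * (M : ℝ) - 1 := by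
      rw [Nat.cast_sub (by omega)]
      push_cast
      ring
    apply exists_extremal ha1 hα (by linarith) (by linarith) (m := M) (N := 2 * M - 1) (by omega)
      (by omega)
    right; left
    rw [hNc]
    exact ⟨hαpos, hαlt, hMκ, by linarith⟩

/-- **exponents between zero and one third** -/
theorem minRot_small {a : ℝ} (ha0 : 0 < a) (ha3 : a < 1 / 3) :
    minRot a = ((⌊(1 - a) / (1 - 3 * a)⌋₊ + 1 : ℕ) : ℕ∞) := by
  have ha1 : a ≠ 1 := by linarith
  have ha' : a - 1 < 0 := by linarith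
  have ha'' : 0 < 1 - 3 * a := by linarith
  set α := 2 * a / (a - 1) with hα
  have hα2 : α + 2 = (4 * a - 2) / (a - 1) := alpha_eq ha1
  have hαneg : α < 0 := div_neg_of_pos_of_neg (by linarith) ha'
  have hαgt : -1 < α := by
    rw [hα, lt_div_iff_of_neg ha']
    linarith
  have hinv : (1 - a) / (1 - 3 * a) = 1 / (α + 1) := by
    have h1 : α + 1 = (1 - 3 * a) / (1 - a) := by
      have : a - 1 ≠ 0 := ha'.ne
      have : 1 - a ≠ 0 := by linarith
      rw [hα]
      field_simp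
      ring
    rw [h1, one_div_div]
  rw [hinv]
  set κ := √(α + 2) with hκ
  have hκ2 : κ ^ 2 = α + 2 := Real.sq_sqrt (by linarith)
  have hκ0 : 0 < κ := Real.sqrt_pos.2 (by linarith)
  have hκ1 : 1 < κ := by
    by_contra hcon
    nlinarith
  have hα1 : 0 < α + 1 := by linarith
  set M := ⌊1 / (α + 1)⌋₊ + 1 with hM
  have hMgt : 1 / (α + 1) < M := by
    rw [hM]
    push_cast
    exact Nat.lt_floor_add_one _
  have hMle : (M : ℝ) ≤ 1 / (α + 1) + 1 := by
    rw [hM]
    push_cast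
    have := Nat.floor_le (show 0 ≤ 1 / (α + 1) by positivity)
    linarith
  rw [div_lt_iff₀ hα1] at hMgt
  apply minRot_eq
  · intro m T γ h1 h2 h3
    obtain ⟨N, -, -, hN, -⟩ := count_extremal ha1 hα (by linarith) (by linarith) h1 h2 h3
    obtain ⟨h4, h5⟩ := hN hαgt hαneg
    rw [← hκ] at h4
    have hm0 : (0 : ℝ) ≤ m := Nat.cast_nonneg m
    have h6 : (m : ℤ) + 1 ≤ N := by
      have : (m : ℤ) < N := by
        have : (m : ℝ) < N := by nlinarith
        exact_mod_cast this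
      linarith
    have h7 : (m : ℝ) + 1 ≤ N := by exact_mod_cast h6
    have h8 : 1 / (α + 1) < m := by
      rw [div_lt_iff₀ hα1]
      linarith
    have h9 : ⌊1 / (α + 1)⌋₊ < m := (Nat.floor_lt (by positivity)).2 h8
    omega
  · have hM1 : 1 ≤ M := by omega
    apply exists_extremal ha1 hα (by linarith) (by linarith) (m := M) (N := M + 1) (by omega)
      (by omega)
    right; right; left
    push_cast
    refine ⟨hαgt, hαneg, ?_, by linarith⟩
    -- `κ M < M + 1`
    have h1 : (M : ℝ) * (α + 1) ≤ 1 + (α + 1) := by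
      have := mul_le_mul_of_nonneg_right hMle hα1.le
      have e : (1 / (α + 1) + 1) * (α + 1) = 1 + (α + 1) := by field_simp
      linarith
    have e1 : α + 1 = (κ - 1) * (κ + 1) := by
      linear_combination (-1) * hκ2
    have h2 : (M : ℝ) * (κ - 1) * (κ + 1) ≤ 1 + (κ - 1) * (κ + 1) := by
      rw [e1] at h1
      linarith
    have h3 : 1 + (κ - 1) * (κ + 1) < κ + 1 := by nlinarith
    have h4 : (M : ℝ) * (κ - 1) < 1 := by
      by_contra hcon
      rw [not_lt] at hcon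
      nlinarith
    linarith

/-- **exponents between one third and one half** -/
theorem minRot_mid {a : ℝ} (ha3 : 1 / 3 < a) (ha2 : a < 1 / 2) :
    minRot a = ((max ⌊(1 - a) / (3 * a - 1)⌋₊ ⌊√((1 - a) / (2 - 4 * a))⌋₊ + 1 : ℕ) : ℕ∞) := by
  have ha1 : a ≠ 1 := by linarith
  have ha' : a - 1 < 0 := by linarith
  have hb1 : 0 < 3 * a - 1 := by linarith
  have hb2 : 0 < 2 - 4 * a := by linarith
  have hb3 : 0 < 1 - a := by linarith
  set α := 2 * a / (a - 1) with hα
  have hα2 : α + 2 = (4 * a - 2) / (a - 1) := alpha_eq ha1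
  have hαlt : α < -1 := by
    rw [hα, div_lt_iff_of_neg ha']
    linarith
  have hαgt : -2 < α := by
    rw [hα, lt_div_iff_of_neg ha']
    linarith
  have hane : a - 1 ≠ 0 := ha'.ne
  have hinv : (1 - a) / (3 * a - 1) = 1 / (-(α + 1)) := by
    have h1 : -(α + 1) = (3 * a - 1) / (1 - a) := by
      rw [hα]
      field_simp
      ring
    rw [h1, one_div_div]
  set κ := √(α + 2) with hκ
  have hκ2 : κ ^ 2 = α + 2 := Real.sq_sqrt (by linarith)
  have hκ0 : 0 < κ := Real.sqrt_pos.2 (by linarith)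
  have hκ1 : κ < 1 := by
    by_contra hcon
    nlinarith
  have hinv2 : √((1 - a) / (2 - 4 * a)) = 1 / κ := by
    have h1 : (1 - a) / (2 - 4 * a) = (α + 2)⁻¹ := by
      rw [hα2, inv_div, ← neg_sub a 1, ← neg_sub (4 * a) 2, neg_div_neg_eq]
    rw [h1, Real.sqrt_inv, one_div]
  rw [hinv, hinv2]
  have e1 : -(α + 1) = 1 - κ ^ 2 := by rw [hκ2]; ring
  rw [e1]
  have hk2 : 0 < 1 - κ ^ 2 := by nlinarith
  set M := max ⌊1 / (1 - κ ^ 2)⌋₊ ⌊1 / κ⌋₊ + 1 with hM
  have hMgt1 : 1 < (1 - κ ^ 2) * M := by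
    have h1 : 1 / (1 - κ ^ 2) < (⌊1 / (1 - κ ^ 2)⌋₊ : ℝ) + 1 := Nat.lt_floor_add_one _
    have h2 : (⌊1 / (1 - κ ^ 2)⌋₊ : ℝ) + 1 ≤ M := by
      rw [hM]
      push_cast
      have := le_max_left (⌊1 / (1 - κ ^ 2)⌋₊ : ℝ) (⌊1 / κ⌋₊ : ℝ)
      linarith
    have h3 : 1 / (1 - κ ^ 2) < M := by linarith
    rw [div_lt_iff₀ hk2] at h3
    linarith
  have hMgt2 : 1 < κ * M := by
    have h1 : 1 / κ < (⌊1 / κ⌋₊ : ℝ) + 1 := Nat.lt_floor_add_one _
    have h2 : (⌊1 / κ⌋₊ : ℝ) + 1 ≤ M := by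
      rw [hM]
      push_cast
      have := le_max_right (⌊1 / (1 - κ ^ 2)⌋₊ : ℝ) (⌊1 / κ⌋₊ : ℝ)
      linarith
    have h3 : 1 / κ < M := by linarith
    rw [div_lt_iff₀ hκ0] at h3
    linarith
  apply minRot_eq
  · intro m T γ h1 h2 h3
    obtain ⟨N, -, -, -, hN⟩ := count_extremal ha1 hα (by linarith) hαgt h1 h2 h3
    obtain ⟨h4, h5⟩ := hN hαlt
    rw [← hκ] at h5
    rw [← hκ2] at h4
    have hm0 : (0 : ℝ) ≤ m := Nat.cast_nonneg m
    have h6 : (1 : ℤ) ≤ N := by
      have : (0 : ℝ) < N := by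
        refine lt_of_le_of_lt ?_ h4
        positivity
      exact_mod_cast this
    have h6' : (1 : ℝ) ≤ N := by exact_mod_cast h6
    have h7 : N ≤ (m : ℤ) - 1 := by
      have : N < (m : ℤ) := by
        have hlt : (N : ℝ) < m := by nlinarith
        exact_mod_cast hlt
      linarith
    have h7' : (N : ℝ) ≤ (m : ℝ) - 1 := by exact_mod_cast h7
    have h8 : 1 / κ < m := by
      rw [div_lt_iff₀ hκ0]
      nlinarith
    have h9 : 1 / (1 - κ ^ 2) < m := by
      rw [div_lt_iff₀ hk2]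
      nlinarith
    have h10 : ⌊1 / κ⌋₊ < m := (Nat.floor_lt (by positivity)).2 h8
    have h11 : ⌊1 / (1 - κ ^ 2)⌋₊ < m := (Nat.floor_lt (by positivity)).2 h9
    have := max_lt h11 h10
    omega
  · have hfin : ∃ N : ℕ, 0 < N ∧ κ ^ 2 * M < N ∧ (N : ℝ) < κ * M ∧ κ * M < 2 * N := by
      rcases lt_or_ge 1 (κ ^ 2 + κ) with hc | hc
      · -- `N = M - 1`
        have hfl : ⌊1 / κ⌋₊ ≤ ⌊1 / (1 - κ ^ 2)⌋₊ := by
          have h1 : ⌊1 / κ⌋₊ < 2 := by
            rw [Nat.floor_lt (by positivity), div_lt_iff₀ hκ0]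
            push_cast
            nlinarith
          have h2 : 1 ≤ ⌊1 / (1 - κ ^ 2)⌋₊ := by
            rw [Nat.one_le_floor_iff, le_div_iff₀ hk2]
            nlinarith
          omega
        have hMe : M = ⌊1 / (1 - κ ^ 2)⌋₊ + 1 := by
          rw [hM, max_eq_left hfl]
        have hf1 : 1 ≤ ⌊1 / (1 - κ ^ 2)⌋₊ := by
          rw [Nat.one_le_floor_iff, le_div_iff₀ hk2]
          nlinarith
        have hM2 : (2 : ℝ) ≤ M := by
          have : 2 ≤ M := by omega
          exact_mod_cast this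
        have hMle : (M : ℝ) ≤ 1 / (1 - κ ^ 2) + 1 := by
          rw [hMe]
          push_cast
          have := Nat.floor_le (show 0 ≤ 1 / (1 - κ ^ 2) by positivity)
          linarith
        have h1 : (M : ℝ) * (1 - κ ^ 2) ≤ 1 + (1 - κ ^ 2) := by
          have := mul_le_mul_of_nonneg_right hMle hk2.le
          have e : (1 / (1 - κ ^ 2) + 1) * (1 - κ ^ 2) = 1 + (1 - κ ^ 2) := by field_simp
          linarith
        have hNc : ((M - 1 : ℕ) : ℝ) = (M : ℝ) - 1 := by
          rw [Nat.cast_sub (by omega)]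
          simp
        have h2 : (M : ℝ) * (1 - κ) < 1 := by
          by_contra hcon
          rw [not_lt] at hcon
          nlinarith
        refine ⟨M - 1, by omega, ?_, ?_, ?_⟩
        · rw [hNc]
          linarith
        · rw [hNc]
          linarith
        · rw [hNc]
          nlinarith
      · -- `N = 1`
        have hle : 1 / (1 - κ ^ 2) ≤ 1 / κ := by
          apply one_div_le_one_div_of_le hκ0
          linarith
        have hMe : M = ⌊1 / κ⌋₊ + 1 := by
          rw [hM, max_eq_right (Nat.floor_le_floor hle)]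
        set k := ⌊1 / κ⌋₊ with hk
        have hkle : (k : ℝ) ≤ 1 / κ := Nat.floor_le (by positivity)
        have hkκ : (k : ℝ) * κ ≤ 1 := by
          rwa [le_div_iff₀ hκ0] at hkle
        have hMc : (M : ℝ) = k + 1 := by
          rw [hMe]
          push_cast
          ring
        have hk0 : (0 : ℝ) ≤ k := Nat.cast_nonneg k
        refine ⟨1, one_pos, ?_, ?_, ?_⟩
        · push_cast
          rw [hMc]
          by_contra hcon
          rw [not_lt] at hcon
          have e2 : κ ^ 2 * (k + 1) = κ * (k * κ) + κ ^ 2 := by ring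
          have e3 : κ * (k * κ) ≤ κ * 1 := mul_le_mul_of_nonneg_left hkκ hκ0.le
          have e4 : κ ^ 2 + κ = 1 := by linarith
          have e5 : κ * (k * κ) = κ * 1 := by linarith
          have e6 : (k : ℝ) * κ = 1 := mul_left_cancel₀ hκ0.ne' e5
          have e7 : (k : ℝ) ^ 2 = k + 1 := by
            have : (k : ℝ) ^ 2 * (κ ^ 2 + κ) = (k : ℝ) ^ 2 := by rw [e4, mul_one]
            have e8 : (k : ℝ) ^ 2 * (κ ^ 2 + κ) = (k * κ) ^ 2 + k * (k * κ) := by ring
            rw [e8, e6] at this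
            linarith
          have e8 : k ^ 2 = k + 1 := by exact_mod_cast e7
          rcases lt_or_ge k 2 with h | h
          · interval_cases k <;> omega
          · nlinarith
        · push_cast
          exact hMgt2
        · push_cast
          rw [hMc]
          nlinarith
    obtain ⟨N, hN0, hN1, hN2, hN3⟩ := hfin
    apply exists_extremal ha1 hα (by linarith) hαgt (m := M) (N := N) (by omega) hN0
    right; right; right
    exact ⟨hαlt, by rw [← hκ2]; exact hN1, hN2, hN3⟩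

/-- the least rotation number tends to infinity -/
theorem minRot_large (n : ℕ) (a : ℝ) (ha : (n : ℝ) + 1 < a) : (n : ℕ∞) < minRot a := by
  have hn : (0 : ℝ) ≤ n := Nat.cast_nonneg n
  have ha1 : 1 < a := by linarith
  rw [minRot_gt_one ha1]
  have ha' : 0 < a - 1 := by linarith
  have hx : (4 * a - 2) / (a - 1) = 4 + 2 / (a - 1) := by
    field_simp
    ring
  rw [hx]
  set κ := √(4 + 2 / (a - 1)) with hκ
  have h0 : 0 < 2 / (a - 1) := by positivity
  have hκ2 : κ ^ 2 = 4 + 2 / (a - 1) := Real.sq_sqrt (by positivity)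
  have hκ0 : 0 < κ := Real.sqrt_pos.2 (by positivity)
  have hκgt : 2 < κ := by
    by_contra hcon
    nlinarith
  have h1 : (κ - 2) * (a - 1) * (κ + 2) = 2 := by
    have : (κ ^ 2 - 4) * (a - 1) = 2 := by
      rw [hκ2]
      field_simp
      ring
    linarith
  have h2 : (n : ℝ) ≤ 1 / (κ - 2) := by
    rw [le_div_iff₀ (by linarith)]
    have h4 : 0 ≤ (κ - 2) * (a - 1) := mul_nonneg (by linarith) ha'.le
    have h3 : (κ - 2) * (a - 1) * 4 ≤ (κ - 2) * (a - 1) * (κ + 2) :=
      mul_le_mul_of_nonneg_left (by linarith) h4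
    nlinarith
  have h3 : n ≤ ⌊1 / (κ - 2)⌋₊ := Nat.le_floor h2
  exact_mod_cast Nat.lt_succ_of_le h3

end Q186.Ca
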