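import Mathlib
import Pool.Agent.Q186.CaH

/-!
The exponents without nontrivial closed extremal curves.
-/

namespace Q186.Ca

open Real Set Function
open scoped ContDiff

/-- for `α ≤ -2` the oscillation is trivial -/
lemma Osc.trivial {α K T : ℝ} {m : ℕ} {U V w : ℝ → ℝ} (h : Osc α K T m U V w) (hα : α ≤ -2)
    (t : ℝ) : V t = 0 := by
  by_contra hcon
  have hVT : V 0 = V T := by simpa using (h.perV 0).symm
  have hUT : U 0 = U T := by simpa using (h.perU 0).symm
  obtain ⟨c, _, hc2⟩ := exists_hasDerivAt_eq_zero h.hT h.contV.continuousOn hVT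
    (fun x _ => h.dV x)
  have hc3 : -U c + K * U c ^ (-α - 1) = 0 :=
    (mul_eq_zero.1 hc2).resolve_left (h.wpos c).ne'
  have hrp : ∀ x : ℝ, 0 < x → x ^ (-α - 1) = x ^ (-α - 2) * x := by
    intro x hx
    rw [← Real.rpow_add_one hx.ne']
    congr 1
    ring
  have hUc := h.Upos c
  have hKc : K * U c ^ (-α - 2) = 1 := by
    rw [hrp _ hUc] at hc3
    have : U c * (K * U c ^ (-α - 2)) = U c * 1 := by linarith
    exact mul_left_cancel₀ hUc.ne' this
  have hsign : ∀ s, 0 ≤ (U s - U c) * (-U s + K * U s ^ (-α - 1)) := by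
    intro s
    have hU := h.Upos s
    have e1 : (U s - U c) * (-U s + K * U s ^ (-α - 1))
        = U s * K * ((U s - U c) * (U s ^ (-α - 2) - U c ^ (-α - 2))) := by
      rw [hrp _ hU]
      linear_combination (U s * (U s - U c)) * hKc
    rw [e1]
    have hK := h.hK
    have e2 : 0 ≤ (U s - U c) * (U s ^ (-α - 2) - U c ^ (-α - 2)) := by
      rcases le_total (U s) (U c) with h1 | h1
      · have := Real.rpow_le_rpow hU.le h1 (show 0 ≤ -α - 2 by linarith)
        exact mul_nonneg_of_nonpos_of_nonpos (by linarith) (by linarith)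
      · have := Real.rpow_le_rpow hUc.le h1 (show 0 ≤ -α - 2 by linarith)
        exact mul_nonneg (by linarith) (by linarith)
    positivity
  set H' : ℝ → ℝ := fun s => w s * V s ^ 2
    + w s * ((U s - U c) * (-U s + K * U s ^ (-α - 1))) with hH'
  have hd : ∀ s, HasDerivAt (fun s => (U s - U c) * V s) (H' s) s := by
    intro s
    refine (((h.dU s).sub_const (U c)).mul (h.dV s)).congr_deriv ?_
    simp only [hH']
    ring
  have hH'c : Continuous H' := by
    have h1 := h.contRpow (-α - 1)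
    exact (h.wcont.mul (h.contV.pow 2)).add
      (h.wcont.mul ((h.contU.sub continuous_const).mul (h.contU.neg.add (h1.const_mul K))))
  have hnn : ∀ s, 0 ≤ H' s := by
    intro s
    have h1 := h.wpos s
    have h2 := hsign s
    simp only [hH']
    positivity
  have hint := intervalIntegral.integral_eq_sub_of_hasDerivAt (a := 0) (b := T)
    (fun s _ => hd s) (hH'c.intervalIntegrable 0 T)
  obtain ⟨t₂, ht₂, he⟩ := h.perV.exists_mem_Ico₀ h.hT t
  have hpos : 0 < ∫ s in (0 : ℝ)..T, H' s :=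
    intervalIntegral.integral_pos h.hT hH'c.continuousOn (fun x _ => hnn x)
      ⟨t₂, ⟨ht₂.1, ht₂.2.le⟩, by
        have h1 := h.wpos t₂
        have h2 := hsign t₂
        have h3 : V t₂ ≠ 0 := by rw [← he]; exact hcon
        simp only [hH']
        positivity⟩
  rw [hint, ← hUT, ← hVT] at hpos
  linarith

lemma minRot_top {a : ℝ} (hno : ∀ (m : ℕ) (T : ℝ) (γ : ℝ → ℂ), IsExtremal a T γ →
    HasRot T γ m → IsEllipse (range γ)) : minRot a = ⊤ := by
  rw [minRot, sInf_eq_top]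
  rintro n ⟨m, T, γ, _, h1, h2, h3⟩
  exact absurd (hno m T γ h1 h2) h3

theorem minRot_half {a : ℝ} (h1 : 1 / 2 ≤ a) (h2 : a ≤ 1) : minRot a = ⊤ := by
  apply minRot_top
  intro m T γ h hr
  rcases h2.eq_or_lt with h3 | h3
  · -- exponent one
    subst h3
    have hF : ∀ t, Ff 1 γ t = 1 := by
      intro t
      unfold Ff
      rw [sub_self, Real.rpow_zero]
    have hF' : Ff 1 γ = fun _ => 1 := funext hF
    have hp : ∀ t, deriv (curv γ) t = 0 := by
      intro t
      have e1 := h.euler' t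
      rw [hF'] at e1
      simp only [deriv_const', mul_zero, mul_one, zero_add] at e1
      exact e1
    have hp' : ∀ t, curv γ t = curv γ 0 := fun t =>
      is_const_of_deriv_eq_zero (fun t => (h.dp t).differentiableAt) hp t 0
    obtain ⟨A, B, C, hq, -⟩ := h.quad
    exact h.ellipse_of_const' hp' hq (fun t => by rw [hF, hF])
  · by_contra hne
    obtain ⟨K, U, V, w, ho, t, ht⟩ := h.reduce h3.ne hr hne
    apply ht
    apply ho.trivial
    have ha' : a - 1 < 0 := by linarith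
    rw [div_le_iff_of_neg ha']
    linarith

/-- every direction is attained -/
lemma IsExtremal.attains {a T : ℝ} {γ : ℝ → ℂ} {m : ℕ} (h : IsExtremal a T γ)
    (hr : HasRot T γ m) {v : ℂ} (hv : v ≠ 0) : ∃ t, ∃ ρ : ℝ, 0 < ρ ∧ γ t = (ρ : ℂ) * v := by
  have hg1 : Continuous (deriv γ) := h.smooth1.continuous
  have hgc : Continuous γ := h.smooth.continuous
  have hrot := rot_int h.d1 hg1 h.ne h.pos.le hr
  have hq1 : Continuous (fun t => (deriv γ t / γ t).im) :=
    Complex.continuous_im.comp (hg1.div hgc h.ne)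
  have hpos : ∀ t, 0 < (deriv γ t / γ t).im := by
    intro t
    have hn := Complex.normSq_pos.2 (h.ne t)
    have hb := h.centroaffine t
    unfold br at hb
    rw [Complex.div_im, ← sub_div]
    apply div_pos _ hn
    linarith
  have hint : 0 < ∫ t in (0 : ℝ)..T, (deriv γ t / γ t).im :=
    intervalIntegral.integral_pos h.pos hq1.continuousOn (fun x _ => (hpos x).le)
      ⟨0, ⟨le_rfl, h.pos.le⟩, hpos 0⟩
  rw [hrot] at hint
  have hm : (1 : ℝ) ≤ m := by
    have h1 : m ≠ 0 := by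
      rintro rfl
      simp at hint
    exact_mod_cast Nat.one_le_iff_ne_zero.2 h1
  obtain ⟨φ, hφ, hg, hmφ⟩ := hr
  have hpi := Real.pi_pos
  obtain ⟨n, hn, -⟩ := existsUnique_add_zsmul_mem_Ico Real.two_pi_pos (Complex.arg v) (φ 0)
  simp only [zsmul_eq_mul] at hn
  have hiv := intermediate_value_Icc h.pos.le hφ.continuousOn
  obtain ⟨t, _, ht⟩ := hiv (show Complex.arg v + n * (2 * π) ∈ Icc (φ 0) (φ T) from
    ⟨hn.1, by nlinarith [hn.2]⟩)
  have hgt : 0 < ‖γ t‖ := norm_pos_iff.2 (h.ne t)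
  have hvn : 0 < ‖v‖ := norm_pos_iff.2 hv
  refine ⟨t, ‖γ t‖ / ‖v‖, by positivity, ?_⟩
  have e1 := hg t
  have e2 := Complex.norm_mul_exp_arg_mul_I v
  rw [ht] at e1
  have e3 : Complex.exp (((Complex.arg v + n * (2 * π) : ℝ) : ℂ) * Complex.I)
      = Complex.exp ((Complex.arg v : ℂ) * Complex.I) := by
    push_cast
    rw [add_mul, Complex.exp_add, show ((n : ℂ) * (2 * π)) * Complex.I
      = n * (2 * π * Complex.I) by ring, Complex.exp_int_mul_two_pi_mul_I, mul_one]
  rw [e3] at e1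
  have hvc : (‖v‖ : ℂ) ≠ 0 := by
    rw [Ne, Complex.ofReal_eq_zero]
    exact hvn.ne'
  have e4 : Complex.exp ((Complex.arg v : ℂ) * Complex.I) = v / (‖v‖ : ℂ) := by
    rw [eq_div_iff hvc, mul_comm]
    exact e2
  calc γ t = (‖γ t‖ : ℂ) * Complex.exp ((Complex.arg v : ℂ) * Complex.I) := e1
    _ = (‖γ t‖ : ℂ) * (v / (‖v‖ : ℂ)) := by rw [e4]
    _ = ((‖γ t‖ / ‖v‖ : ℝ) : ℂ) * v := by
      push_cast
      ring

/-- the affine radius function -/
lemma IsExtremal.radial {a T : ℝ} {γ : ℝ → ℂ} (h : IsExtremal a T γ) :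
    ∃ (A B C c : ℝ) (r r' : ℝ → ℝ), 0 < c ∧
      (∀ t, Ff a γ t = A * (γ t).re ^ 2 + 2 * B * (γ t).re * (γ t).im + C * (γ t).im ^ 2) ∧
      (∀ t, 0 < r t) ∧ (∀ t, Ff a γ t = c * r t ^ 2) ∧ (∀ t, HasDerivAt r (r' t) t) ∧
      ∀ t, HasDerivAt r' (1 / r t ^ 3 - curv γ t * r t) t := by
  obtain ⟨A, B, C, hq, hdet⟩ := h.quad
  obtain ⟨hA, hD⟩ := quad_pos h hq
  set c := √(A * C - B ^ 2) with hc
  have hcp : 0 < c := Real.sqrt_pos.2 hD
  have hc2 : c ^ 2 = A * C - B ^ 2 := Real.sq_sqrt hD.le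
  set r : ℝ → ℝ := fun t => √(Ff a γ t / c) with hrd
  have hrp : ∀ t, 0 < r t := fun t => Real.sqrt_pos.2 (div_pos (h.Fpos t) hcp)
  have hr2 : ∀ t, r t ^ 2 = Ff a γ t / c := fun t => Real.sq_sqrt (div_pos (h.Fpos t) hcp).le
  set r' : ℝ → ℝ := fun t => deriv (Ff a γ) t / (2 * c * r t) with hr'
  have hdr : ∀ t, HasDerivAt r (r' t) t := by
    intro t
    have h1 := ((h.dF t).div_const c).sqrt (div_pos (h.Fpos t) hcp).ne'
    refine h1.congr_deriv ?_
    have := hrp t
    simp only [hr', hrd]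
    field_simp
  refine ⟨A, B, C, c, r, r', hcp, hq, hrp, fun t => ?_, hdr, fun t => ?_⟩
  · rw [hr2]
    field_simp
  · have hp := hrp t
    have h1 := (h.dF1 t).div ((hdr t).const_mul (2 * c)) (by positivity)
    refine h1.congr_deriv ?_
    have e1 := hdet t
    have e2 : Ff a γ t = c * r t ^ 2 := by
      rw [hr2]
      field_simp
    have e3 : deriv (deriv (Ff a γ)) t = 2 * (Gf a γ t - curv γ t * Ff a γ t) := by
      unfold Gf
      ring
    rw [← hc2, e2] at e1
    rw [e3, e2]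
    simp only [hr']
    have e4 : Gf a γ t = (c ^ 2 + deriv (Ff a γ) t ^ 2 / 4) / (c * r t ^ 2) := by
      field_simp
      linarith
    rw [e4]
    field_simp
    ring

/-- for the exponent one third the affine radius is an affine function of the position -/
lemma IsExtremal.kepler {T : ℝ} {γ : ℝ → ℂ} (h : IsExtremal (1 / 3) T γ) :
    ∃ A B C c K l1 l2 : ℝ, 0 < c ∧ 0 < K ∧
      (∀ t, 0 < 1 / K + (l1 * (γ t).re + l2 * (γ t).im)) ∧
      (∀ t, c * (1 / K + (l1 * (γ t).re + l2 * (γ t).im)) ^ 2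
        = A * (γ t).re ^ 2 + 2 * B * (γ t).re * (γ t).im + C * (γ t).im ^ 2) := by
  obtain ⟨A, B, C, c, r, r', hcp, hq, hrp, hr2, hdr, hdr'⟩ := h.radial
  -- Kepler's force law
  obtain ⟨K, hK, hKp⟩ : ∃ K, 0 < K ∧ ∀ t, curv γ t * r t ^ 3 = K := by
    refine ⟨c ^ (-(3 / 2 : ℝ)), Real.rpow_pos_of_pos hcp _, fun t => ?_⟩
    have hp := hrp t
    have e1 : curv γ t = Ff (1 / 3) γ t ^ (-(3 / 2 : ℝ)) := by
      unfold Ff
      rw [← Real.rpow_mul (h.curv_pos t).le]
      norm_num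
    rw [e1, hr2 t, Real.mul_rpow hcp.le (by positivity), mul_assoc, ← Real.rpow_natCast (r t) 2,
      ← Real.rpow_natCast (r t) 3, ← Real.rpow_mul hp.le, ← Real.rpow_add hp]
    norm_num
  have dx : ∀ t, HasDerivAt (fun t => (γ t).re) (deriv γ t).re t := fun t => hd_re (h.d1 t)
  have dy : ∀ t, HasDerivAt (fun t => (γ t).im) (deriv γ t).im t := fun t => hd_im (h.d1 t)
  have dx' : ∀ t, HasDerivAt (fun t => (deriv γ t).re) (-(curv γ t * (γ t).re)) t := fun t => by
    have h1 := hd_re (h.d2 t)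
    rw [h.ode t] at h1
    refine h1.congr_deriv ?_
    simp
  have dy' : ∀ t, HasDerivAt (fun t => (deriv γ t).im) (-(curv γ t * (γ t).im)) t := fun t => by
    have h1 := hd_im (h.d2 t)
    rw [h.ode t] at h1
    refine h1.congr_deriv ?_
    simp
  have hbr : ∀ t, (γ t).re * (deriv γ t).im - (γ t).im * (deriv γ t).re = 1 := h.centroaffine
  have hpK : ∀ t, 1 / r t ^ 3 - curv γ t * r t = -(curv γ t * (r t - 1 / K)) := by
    intro t
    have hp := hrp t
    have e1 := hKp t
    have e2 : curv γ t * (1 / K) = 1 / r t ^ 3 := by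
      rw [← e1]
      have := h.curv_pos t
      field_simp
    linarith
  have hL1 : ∀ t, HasDerivAt (fun t => (r t - 1 / K) * (deriv γ t).im - r' t * (γ t).im) 0 t := by
    intro t
    refine ((((hdr t).sub_const (1 / K)).mul (dy' t)).sub ((hdr' t).mul (dy t))).congr_deriv ?_
    rw [hpK t]
    ring
  have hL2 : ∀ t, HasDerivAt (fun t => (γ t).re * r' t - (deriv γ t).re * (r t - 1 / K)) 0 t := by
    intro t
    refine (((dx t).mul (hdr' t)).sub ((dx' t).mul ((hdr t).sub_const (1 / K)))).congr_deriv ?_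
    rw [hpK t]
    ring
  have c1 := fun t => is_const_of_deriv_eq_zero (fun t => (hL1 t).differentiableAt)
    (fun t => (hL1 t).deriv) t 0
  have c2 := fun t => is_const_of_deriv_eq_zero (fun t => (hL2 t).differentiableAt)
    (fun t => (hL2 t).deriv) t 0
  have hlin : ∀ t, r t = 1 / K + (((r 0 - 1 / K) * (deriv γ 0).im - r' 0 * (γ 0).im) * (γ t).re
      + ((γ 0).re * r' 0 - (deriv γ 0).re * (r 0 - 1 / K)) * (γ t).im) := by
    intro t
    have a1 := c1 t
    have a2 := c2 t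
    rw [← a1, ← a2]
    linear_combination (-(r t - 1 / K)) * hbr t
  refine ⟨A, B, C, c, K, (r 0 - 1 / K) * (deriv γ 0).im - r' 0 * (γ 0).im,
    (γ 0).re * r' 0 - (deriv γ 0).re * (r 0 - 1 / K), hcp, hK, fun t => ?_, fun t => ?_⟩
  · rw [← hlin t]
    exact hrp t
  · rw [← hlin t, ← hr2 t, hq t]

/-- positivity of the reduced form -/
lemma kepler_form {T : ℝ} {γ : ℝ → ℂ} {m : ℕ} (h : IsExtremal (1 / 3) T γ) (hr : HasRot T γ m)
    {A B C c K l1 l2 : ℝ} (hcp : 0 < c) (hK : 0 < K)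
    (hpos : ∀ t, 0 < 1 / K + (l1 * (γ t).re + l2 * (γ t).im))
    (hqr : ∀ t, c * (1 / K + (l1 * (γ t).re + l2 * (γ t).im)) ^ 2
        = A * (γ t).re ^ 2 + 2 * B * (γ t).re * (γ t).im + C * (γ t).im ^ 2)
    (p q : ℝ) (hpq : ¬(p = 0 ∧ q = 0)) :
    0 < (A * p ^ 2 + 2 * B * p * q + C * q ^ 2) / c - (l1 * p + l2 * q) ^ 2 := by
  have hone : ∀ ε : ℝ, ε ^ 2 = 1 → ∃ ρ, 0 < ρ ∧
      ρ ^ 2 * ((A * p ^ 2 + 2 * B * p * q + C * q ^ 2) / c) =
        (1 / K + ρ * (ε * (l1 * p + l2 * q))) ^ 2 ∧ 0 < 1 / K + ρ * (ε * (l1 * p + l2 * q)) := by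
    intro ε hε
    have hv : ((⟨ε * p, ε * q⟩ : ℂ)) ≠ 0 := by
      intro h0
      have h1 := congrArg Complex.re h0
      have h2 := congrArg Complex.im h0
      simp only [Complex.zero_re, Complex.zero_im] at h1 h2
      have hε0 : ε ≠ 0 := by
        rintro rfl
        norm_num at hε
      exact hpq ⟨(mul_eq_zero.1 h1).resolve_left hε0, (mul_eq_zero.1 h2).resolve_left hε0⟩
    obtain ⟨t, ρ, hρ, ht⟩ := h.attains hr hv
    have hxt : (γ t).re = ρ * (ε * p) := by
      have := congrArg Complex.re ht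
      simpa using this
    have hyt : (γ t).im = ρ * (ε * q) := by
      have := congrArg Complex.im ht
      simpa using this
    have e1 := hqr t
    have e2 := hpos t
    rw [hxt, hyt] at e1 e2
    have e3 : 1 / K + (l1 * (ρ * (ε * p)) + l2 * (ρ * (ε * q)))
        = 1 / K + ρ * (ε * (l1 * p + l2 * q)) := by ring
    rw [e3] at e1 e2
    refine ⟨ρ, hρ, ?_, e2⟩
    have e5 : A * (ρ * (ε * p)) ^ 2 + 2 * B * (ρ * (ε * p)) * (ρ * (ε * q))
        + C * (ρ * (ε * q)) ^ 2
        = ε ^ 2 * (ρ ^ 2 * (A * p ^ 2 + 2 * B * p * q + C * q ^ 2)) := by ring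
    rw [e5, hε, one_mul] at e1
    rw [← mul_div_assoc, ← e1]
    field_simp
  have hKi : 0 < 1 / K := by positivity
  have hfin : ∀ L : ℝ, 0 ≤ L → ∀ ρ : ℝ, 0 < ρ →
      ρ ^ 2 * ((A * p ^ 2 + 2 * B * p * q + C * q ^ 2) / c) = (1 / K + ρ * L) ^ 2 →
      L ^ 2 < (A * p ^ 2 + 2 * B * p * q + C * q ^ 2) / c := by
    intro L hL ρ hρ e1
    have e3 : (ρ * L) ^ 2 < (1 / K + ρ * L) ^ 2 := by
      have h1 : 0 ≤ ρ * L := by positivity
      exact pow_lt_pow_left₀ (by linarith) h1 two_ne_zero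
    rw [← e1, mul_pow] at e3
    exact lt_of_mul_lt_mul_left e3 (by positivity)
  rcases le_total 0 (l1 * p + l2 * q) with hs | hs
  · obtain ⟨ρ, hρ, e1, -⟩ := hone 1 (by norm_num)
    rw [one_mul] at e1
    have := hfin _ hs ρ hρ e1
    linarith
  · obtain ⟨ρ, hρ, e1, -⟩ := hone (-1) (by norm_num)
    have := hfin (-1 * (l1 * p + l2 * q)) (by linarith) ρ hρ e1
    have e : (-1 * (l1 * p + l2 * q)) ^ 2 = (l1 * p + l2 * q) ^ 2 := by ring
    linarith

/-- the exponent one third: all closed extremal curves are ellipses, possibly translated -/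
theorem minRot_third : minRot (1 / 3) = ⊤ := by
  apply minRot_top
  intro m T γ h hr
  obtain ⟨A, B, C, c, K, l1, l2, hcp, hK, hrpos, hqr⟩ := h.kepler
  have hform := kepler_form h hr hcp hK hrpos hqr
  set A' := A / c - l1 ^ 2 with hA'
  set B' := B / c - l1 * l2 with hB'
  set C' := C / c - l2 ^ 2 with hC'
  have hform' : ∀ p q : ℝ, ¬(p = 0 ∧ q = 0) →
      0 < A' * p ^ 2 + 2 * B' * p * q + C' * q ^ 2 := by
    intro p q hpq
    have := hform p q hpq
    have e : (A * p ^ 2 + 2 * B * p * q + C * q ^ 2) / c - (l1 * p + l2 * q) ^ 2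
        = A' * p ^ 2 + 2 * B' * p * q + C' * q ^ 2 := by
      rw [hA', hB', hC']
      field_simp
      ring
    rwa [e] at this
  have hA'p : 0 < A' := by
    have := hform' 1 0 (by norm_num)
    linarith
  have hDp : 0 < A' * C' - B' ^ 2 := by
    have h1 := hform' (-B') A' (fun h0 => hA'p.ne' h0.2)
    have h2 : A' * (-B') ^ 2 + 2 * B' * (-B') * A' + C' * A' ^ 2
        = A' * (A' * C' - B' ^ 2) := by ring
    rw [h2] at h1
    exact (mul_pos_iff_of_pos_left hA'p).1 h1
  set Δ := A' * C' - B' ^ 2 with hΔ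
  set d1 := (C' * l1 - B' * l2) / (K * Δ) with hd1
  set d2 := (A' * l2 - B' * l1) / (K * Δ) with hd2
  have hcen1 : A' * d1 + B' * d2 = l1 / K := by
    rw [hd1, hd2]
    field_simp
    rw [hΔ]
    ring
  have hcen2 : B' * d1 + C' * d2 = l2 / K := by
    rw [hd1, hd2]
    field_simp
    rw [hΔ]
    ring
  set R := 1 / K ^ 2 + (A' * d1 ^ 2 + 2 * B' * d1 * d2 + C' * d2 ^ 2) with hR
  have hRp : 0 < R := by
    have h1 : 0 ≤ A' * d1 ^ 2 + 2 * B' * d1 * d2 + C' * d2 ^ 2 := by
      by_cases h0 : d1 = 0 ∧ d2 = 0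
      · rw [h0.1, h0.2]
        norm_num
      · exact (hform' d1 d2 h0).le
    positivity
  -- the conic equation
  have hconic : ∀ p q : ℝ, A' / R * (p - d1) ^ 2 + 2 * (B' / R) * (p - d1) * (q - d2)
      + C' / R * (q - d2) ^ 2 = 1 ↔
      (A * p ^ 2 + 2 * B * p * q + C * q ^ 2) / c = (1 / K + (l1 * p + l2 * q)) ^ 2 := by
    intro p q
    have e1 : A' / R * (p - d1) ^ 2 + 2 * (B' / R) * (p - d1) * (q - d2)
      + C' / R * (q - d2) ^ 2 = (A' * (p - d1) ^ 2 + 2 * B' * (p - d1) * (q - d2)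
      + C' * (q - d2) ^ 2) / R := by ring
    rw [e1, div_eq_iff hRp.ne', one_mul]
    have e2 : A' * (p - d1) ^ 2 + 2 * B' * (p - d1) * (q - d2) + C' * (q - d2) ^ 2 - R
        = (A * p ^ 2 + 2 * B * p * q + C * q ^ 2) / c - (1 / K + (l1 * p + l2 * q)) ^ 2 := by
      have e3 : A' * (p - d1) ^ 2 + 2 * B' * (p - d1) * (q - d2) + C' * (q - d2) ^ 2 - R
          = A' * p ^ 2 + 2 * B' * p * q + C' * q ^ 2 - 2 * (p * (A' * d1 + B' * d2)
            + q * (B' * d1 + C' * d2)) - 1 / K ^ 2 := by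
        rw [hR]
        ring
      rw [e3, hcen1, hcen2, hA', hB', hC']
      field_simp
      ring
    constructor
    · intro h0
      rw [h0] at e2
      linarith
    · intro h0
      rw [h0] at e2
      linarith
  refine ⟨⟨d1, d2⟩, A' / R, B' / R, C' / R, by positivity, ?_, ?_⟩
  · have : A' / R * (C' / R) - (B' / R) ^ 2 = Δ / R ^ 2 := by
      rw [hΔ]
      field_simp
    rw [this]
    positivity
  ext v
  simp only [mem_range, mem_ofPred_eq, Complex.sub_re, Complex.sub_im]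
  rw [hconic]
  constructor
  · rintro ⟨t, rfl⟩
    rw [← hqr t]
    field_simp
  · intro hv
    have hv0 : v ≠ 0 := by
      rintro rfl
      simp only [Complex.zero_re, Complex.zero_im] at hv
      have : 0 < (1 / K + (l1 * 0 + l2 * 0)) ^ 2 := by
        rw [mul_zero, mul_zero, add_zero, add_zero]
        positivity
      rw [← hv] at this
      norm_num at this
    obtain ⟨t, ρ, hρ, ht⟩ := h.attains hr hv0
    have hxt : (γ t).re = ρ * v.re := by
      have := congrArg Complex.re ht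
      simpa using this
    have hyt : (γ t).im = ρ * v.im := by
      have := congrArg Complex.im ht
      simpa using this
    have e1 := hqr t
    have e3 := hrpos t
    rw [hxt, hyt] at e1 e3
    have hKi : 0 < 1 / K := by positivity
    have e6 := hform v.re v.im (fun h0 => hv0 (Complex.ext h0.1 h0.2))
    rw [hv] at e6
    have e4 : (1 / K + (l1 * (ρ * v.re) + l2 * (ρ * v.im))) ^ 2
        = (ρ * (1 / K + (l1 * v.re + l2 * v.im))) ^ 2 := by
      rw [mul_pow, ← hv]
      have e5 : (1 / K + (l1 * (ρ * v.re) + l2 * (ρ * v.im))) ^ 2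
          = (A * (ρ * v.re) ^ 2 + 2 * B * (ρ * v.re) * (ρ * v.im) + C * (ρ * v.im) ^ 2) / c := by
        rw [← e1]
        field_simp
      rw [e5]
      ring
    obtain ⟨L, hL⟩ : ∃ L, L = l1 * v.re + l2 * v.im := ⟨_, rfl⟩
    rw [← hL] at e4 e6
    have e7 : 1 / K + (l1 * (ρ * v.re) + l2 * (ρ * v.im)) = 1 / K + ρ * L := by
      rw [hL]
      ring
    rw [e7] at e3 e4
    have hρ1 : ρ = 1 := by
      rcases eq_or_eq_neg_of_sq_eq_sq _ _ e4 with h8 | h8
      · have h9 : (1 / K) * (ρ - 1) = 0 := by linarith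
        have := (mul_eq_zero.1 h9).resolve_left hKi.ne'
        linarith
      · exfalso
        have h9 : 1 / K + L < 0 := by
          by_contra h10
          rw [not_lt] at h10
          have := mul_nonneg hρ.le h10
          linarith
        have h10 : 0 < (1 / K) * (2 * L + 1 / K) := by
          have : (1 / K + L) ^ 2 - L ^ 2 = (1 / K) * (2 * L + 1 / K) := by ring
          linarith
        have h11 := (mul_pos_iff_of_pos_left hKi).1 h10
        linarith
    refine ⟨t, ?_⟩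
    rw [ht, hρ1]
    simp

end Q186.Ca
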