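import Pool.Agent.Q127.DJ.Stm

/-!
# Job DJ-MAR (helper127): products of `1 + c t * g t` have integral one
-/

set_option autoImplicit false

namespace Pool.Agent.Q186.DJ_MAR

open MeasureTheory Filter Topology
open Pool.Agent.Q127.DJ

/-- a function of the name of length `t` is a function of the name of length `t + 1` -/
theorem dep_succ {m : ℕ} (f : ℕ → Fin m) (t : ℕ) (ψ : (ℕ → ℕ) → ℝ) (h : Dep f t ψ) : Dep f (t + 1) ψ := by
  intro x y hxy
  apply h
  funext i
  have := congrFun hxy (Fin.castSucc i)
  simpa [nm] using this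

/-- the product is bounded, measurable and a function of the name of length `U` -/
theorem prodBM (h2 : S_inn) (μ : Measure (ℕ → ℕ)) [IsProbabilityMeasure μ] (m : ℕ) (f : ℕ → Fin m) (a : Fin m)
    (c : ℕ → ℝ) (T : ℕ) (hc : ∀ t, |c t| ≤ 1) (U : ℕ) :
    ∃ C : ℝ, BM C (fun x => ∏ t ∈ Finset.Ico T U, (1 + c t * g μ f a t x)) ∧
      Dep f U (fun x => ∏ t ∈ Finset.Ico T U, (1 + c t * g μ f a t x)) := by
  induction U with
  | zero =>
    refine ⟨1, ⟨?_, ?_⟩, ?_⟩
    · simp
    · intro x; simp
    · intro x y _; simp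
  | succ U ih =>
    rcases Nat.lt_or_ge U T with hUT | hUT
    · refine ⟨1, ⟨?_, ?_⟩, ?_⟩
      · rw [Finset.Ico_eq_empty (by omega)]; simp
      · intro x; rw [Finset.Ico_eq_empty (by omega)]; simp
      · intro x y _; rw [Finset.Ico_eq_empty (by omega)]; simp
    · obtain ⟨C, ⟨hm, hb⟩, hd⟩ := ih
      obtain ⟨hgd, ⟨hgm, hgb⟩, -, -⟩ := h2 μ m f a U
      refine ⟨C * 2, ⟨?_, ?_⟩, ?_⟩
      · simp only [Finset.prod_Ico_succ_top hUT]
        exact hm.mul (measurable_const.add (measurable_const.mul hgm))
      · intro x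
        simp only [Finset.prod_Ico_succ_top hUT]
        rw [abs_mul]
        have h1 : |1 + c U * g μ f a U x| ≤ 2 := by
          have h3 : |c U * g μ f a U x| ≤ 1 := by
            rw [abs_mul]
            calc |c U| * |g μ f a U x| ≤ 1 * 1 :=
                  mul_le_mul (hc U) (hgb x) (abs_nonneg _) zero_le_one
              _ = 1 := one_mul 1
          calc |1 + c U * g μ f a U x| ≤ |(1 : ℝ)| + |c U * g μ f a U x| := abs_add_le _ _
            _ ≤ 1 + 1 := by rw [abs_one]; linarith
            _ = 2 := by norm_num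
        exact mul_le_mul (hb x) h1 (abs_nonneg _) ((abs_nonneg _).trans (hb x))
      · intro x y hxy
        have e1 := dep_succ f U _ hd x y hxy
        have e2 := hgd x y hxy
        simp only [Finset.prod_Ico_succ_top hUT]
        rw [e1, e2]

/-- **MAR.** -/
theorem mar (_h1 : S_ce1) (h2 : S_inn) : S_mar := by
  intro μ _ m f a c T U hc
  induction U with
  | zero => simp
  | succ U ih =>
    rcases Nat.lt_or_ge U T with hUT | hUT
    · rw [Finset.Ico_eq_empty (by omega)]; simp
    · simp only [Finset.prod_Ico_succ_top hUT]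
      obtain ⟨C, hbm, hd⟩ := prodBM h2 μ m f a c T hc U
      obtain ⟨hgd, ⟨hgm, hgb⟩, ho, -⟩ := h2 μ m f a U
      have h0 := ho C _ hbm hd
      obtain ⟨hm, hb⟩ := hbm
      have hi1 : Integrable (fun x => ∏ t ∈ Finset.Ico T U, (1 + c t * g μ f a t x)) μ :=
        Integrable.of_bound hm.aestronglyMeasurable C (Eventually.of_forall fun x => by
          rw [Real.norm_eq_abs]; exact hb x)
      have hi2 : Integrable (fun x => (∏ t ∈ Finset.Ico T U, (1 + c t * g μ f a t x)) * g μ f a U x) μ :=
        Integrable.of_bound (hm.mul hgm).aestronglyMeasurable (C * 1) (Eventually.of_forall fun x => by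
          rw [Real.norm_eq_abs, abs_mul]
          exact mul_le_mul (hb x) (hgb x) (abs_nonneg _) ((abs_nonneg _).trans (hb x)))
      have e : (fun x => (∏ t ∈ Finset.Ico T U, (1 + c t * g μ f a t x)) * (1 + c U * g μ f a U x)) =
          fun x => (∏ t ∈ Finset.Ico T U, (1 + c t * g μ f a t x)) +
            c U * ((∏ t ∈ Finset.Ico T U, (1 + c t * g μ f a t x)) * g μ f a U x) := by
        funext x; ring
      rw [e, integral_add hi1 (hi2.const_mul _), integral_const_mul, h0, ih]
      ring

end Pool.Agent.Q186.DJ_MAR
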