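import Pool.Agent.Q61.MH.Stm

set_option autoImplicit false

namespace Pool.Agent.Q186.MH

open Real Filter Topology Pool.Agent.Q61.MH

theorem momf : S_mom := by
  intro q r hq hr
  constructor
  · have hf : ∀ n : ℕ, ENNReal.ofReal (q (-((n : ℤ) + 1)) * |((-((n : ℤ) + 1) : ℤ) : ℝ)| ^ r) =
        ENNReal.ofReal (q ((n : ℤ) + 1) * ((n : ℝ) + 1) ^ r) := by
      intro n
      rw [hq.symm]
      congr 3
      push_cast
      rw [abs_neg, abs_of_nonneg (by positivity)]
    have hg : ∀ n : ℕ, ENNReal.ofReal (q (((n + 1 : ℕ) : ℤ)) * |((((n + 1 : ℕ) : ℤ)) : ℝ)| ^ r) =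
        ENNReal.ofReal (q ((n : ℤ) + 1) * ((n : ℝ) + 1) ^ r) := by
      intro n
      push_cast
      rw [abs_of_nonneg (by positivity)]
    unfold mom Mo
    rw [tsum_of_nat_of_neg_add_one ENNReal.summable ENNReal.summable,
      tsum_eq_zero_add' ENNReal.summable, tsum_congr hf, tsum_congr hg]
    have h0 : ENNReal.ofReal (q (((0 : ℕ) : ℤ)) * |((((0 : ℕ) : ℤ)) : ℝ)| ^ r) = 0 := by
      rw [Nat.cast_zero, Int.cast_zero, abs_zero, Real.zero_rpow hr.ne', mul_zero,
        ENNReal.ofReal_zero]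
    rw [h0, zero_add, two_mul]
  · have h1 : 0 < q 1 := by
      by_contra hcon
      have hq1 : q 1 = 0 := le_antisymm (not_lt.1 hcon) (hq.nonneg 1)
      have hz : ∀ x : ℤ, x ≠ 0 → q x = 0 := by
        intro x hx
        refine le_antisymm ?_ (hq.nonneg x)
        rw [← hq1]
        refine hq.unimodal 1 x ?_
        rw [abs_one]
        exact Int.one_le_abs hx
      have hs : q 0 = 1 := (hasSum_single 0 fun b hb => hz b hb).unique hq.hasSum
      apply hq.nondegenerate
      funext x
      by_cases hx : x = 0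
      · rw [if_pos hx, hx, hs]
      · rw [if_neg hx, hz x hx]
    unfold Mo
    rw [Ne, ENNReal.tsum_eq_zero]
    intro h
    have h2 := h 0
    rw [Nat.cast_zero, Nat.cast_zero, zero_add, zero_add, Real.one_rpow, mul_one,
      ENNReal.ofReal_eq_zero] at h2
    linarith

end Pool.Agent.Q186.MH
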