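import Mathlib

/-!
Nondegenerate closed curves in `ℝ^n`: perturbations of the unit circle traversed once.
-/

namespace Q186.Nd

open Real Set Function
open scoped ContDiff InnerProductSpace

/-- Euclidean space `ℝ^n` -/
abbrev E (n : ℕ) := EuclideanSpace ℝ (Fin n)

/-- smooth closed nondegenerate curve in `ℝ^n`, as a `2π`-periodic map -/
structure NondegClosed (n : ℕ) (γ : ℝ → E n) : Prop where
  smooth : ContDiff ℝ ∞ γ
  periodic : Function.Periodic γ (2 * π)
  nondeg : ∀ t, LinearIndependent ℝ (fun i : Fin n => iteratedDeriv (i + 1) γ t)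

/-- the plane unit circle traversed `m` times -/
noncomputable def circ (n m : ℕ) (t : ℝ) : E n :=
  WithLp.toLp 2 (fun i : Fin n =>
    if (i : ℕ) = 0 then cos (m * t) else if (i : ℕ) = 1 then sin (m * t) else 0)

/-- every `C^∞`-neighbourhood of `c_m` contains a nondegenerate closed curve -/
def Perturbable (n m : ℕ) : Prop :=
  ∀ N : ℕ, ∀ ε : ℝ, 0 < ε → ∃ γ : ℝ → E n, NondegClosed n γ ∧
    ∀ k ≤ N, ∀ t, ‖iteratedDeriv k γ t - iteratedDeriv k (circ n m) t‖ < ε

/-! ### dual form of nondegeneracy -/

lemma linInd_iff_dual {n : ℕ} (v : Fin n → E n) :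
    LinearIndependent ℝ v ↔ ∀ w : E n, (∀ i, ⟪v i, w⟫_ℝ = 0) → w = 0 := by
  constructor
  · intro h w hw
    have hs : Submodule.span ℝ (range v) = ⊤ := by
      apply h.span_eq_top_of_card_eq_finrank'
      simp
    have hw2 : w ∈ (Submodule.span ℝ (range v))ᗮ := by
      rw [Submodule.mem_orthogonal]
      intro u hu
      induction hu using Submodule.span_induction with
      | mem x hx => obtain ⟨i, rfl⟩ := hx; exact hw i
      | zero => simp
      | add x y _ _ hx hy => rw [inner_add_left, hx, hy, add_zero]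
      | smul a x _ hx => rw [inner_smul_left, hx, mul_zero]
    rw [hs, Submodule.top_orthogonal_eq_bot, Submodule.mem_bot] at hw2
    exact hw2
  · intro h
    apply linearIndependent_of_top_le_span_of_card_eq_finrank
    · rw [top_le_iff, ← Submodule.orthogonal_eq_bot_iff]
      rw [Submodule.eq_bot_iff]
      intro w hw
      apply h w
      intro i
      exact (Submodule.mem_orthogonal _ _).1 hw _ (Submodule.subset_span (mem_range_self i))
    · simp

lemma hasDerivAt_iter {F : Type*} [NormedAddCommGroup F] [NormedSpace ℝ F] {f : ℝ → F}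
    (hf : ContDiff ℝ ∞ f) (j : ℕ) (t : ℝ) :
    HasDerivAt (iteratedDeriv j f) (iteratedDeriv (j + 1) f t) t := by
  rw [iteratedDeriv_succ]
  apply DifferentiableAt.hasDerivAt
  exact (hf.differentiable_iteratedDeriv j (by exact_mod_cast ENat.natCast_lt_top j)).differentiableAt

lemma inner_iter {n : ℕ} {γ : ℝ → E n} (hγ : ContDiff ℝ ∞ γ) (w : E n) (j : ℕ) (t : ℝ) :
    ⟪iteratedDeriv j γ t, w⟫_ℝ = iteratedDeriv j (fun s => ⟪γ s, w⟫_ℝ) t := by
  induction j generalizing t with
  | zero => simp
  | succ j ih =>
    have h1 := (hasDerivAt_iter hγ j t).inner ℝ (hasDerivAt_const t w)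
    have e : (fun s => ⟪iteratedDeriv j γ s, w⟫_ℝ) = iteratedDeriv j (fun s => ⟪γ s, w⟫_ℝ) :=
      funext ih
    have e2 : iteratedDeriv (j + 1) (fun s => ⟪γ s, w⟫_ℝ) t
        = deriv (fun s => ⟪iteratedDeriv j γ s, w⟫_ℝ) t := by rw [e, iteratedDeriv_succ]
    rw [e2, h1.deriv]
    simp

/-! ### solving `F'' + F = B` -/

section ode

variable {n : ℕ}

/-- primitive -/
noncomputable def prim (B : ℝ → E n) (t : ℝ) : E n := ∫ u in (0 : ℝ)..t, B u

lemma prim_deriv {B : ℝ → E n} (hB : Continuous B) (t : ℝ) : HasDerivAt (prim B) (B t) t :=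
  intervalIntegral.integral_hasDerivAt_right (hB.intervalIntegrable 0 t)
    hB.stronglyMeasurable.stronglyMeasurableAtFilter hB.continuousAt

lemma prim_smooth {B : ℝ → E n} (hB : ContDiff ℝ ∞ B) : ContDiff ℝ ∞ (prim B) := by
  rw [contDiff_infty_iff_deriv]
  refine ⟨fun t => (prim_deriv hB.continuous t).differentiableAt, ?_⟩
  have : deriv (prim B) = B := funext fun t => (prim_deriv hB.continuous t).deriv
  rw [this]
  exact hB

/-- a solution of `F'' + F = B` -/
noncomputable def sol (B : ℝ → E n) (t : ℝ) : E n :=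
  sin t • prim (fun u => cos u • B u) t - cos t • prim (fun u => sin u • B u) t

lemma sol_smooth {B : ℝ → E n} (hB : ContDiff ℝ ∞ B) : ContDiff ℝ ∞ (sol B) := by
  unfold sol
  exact (Real.contDiff_sin.smul (prim_smooth (Real.contDiff_cos.smul hB))).sub
    (Real.contDiff_cos.smul (prim_smooth (Real.contDiff_sin.smul hB)))

lemma sol_deriv {B : ℝ → E n} (hB : Continuous B) (t : ℝ) :
    HasDerivAt (sol B)
      (cos t • prim (fun u => cos u • B u) t + sin t • prim (fun u => sin u • B u) t) t := by
  have h1 : HasDerivAt (prim (fun u => cos u • B u)) (cos t • B t) t :=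
    prim_deriv (Real.continuous_cos.smul hB) t
  have h2 : HasDerivAt (prim (fun u => sin u • B u)) (sin t • B t) t :=
    prim_deriv (Real.continuous_sin.smul hB) t
  have h := ((Real.hasDerivAt_sin t).smul h1).sub ((Real.hasDerivAt_cos t).smul h2)
  refine h.congr_deriv ?_
  simp only [smul_smul, neg_smul]
  rw [mul_comm (sin t) (cos t)]
  abel

lemma sol_deriv2 {B : ℝ → E n} (hB : Continuous B) (t : ℝ) :
    HasDerivAt (fun t => cos t • prim (fun u => cos u • B u) t
      + sin t • prim (fun u => sin u • B u) t) (B t - sol B t) t := by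
  have h1 : HasDerivAt (prim (fun u => cos u • B u)) (cos t • B t) t :=
    prim_deriv (Real.continuous_cos.smul hB) t
  have h2 : HasDerivAt (prim (fun u => sin u • B u)) (sin t • B t) t :=
    prim_deriv (Real.continuous_sin.smul hB) t
  have h := ((Real.hasDerivAt_cos t).smul h1).add ((Real.hasDerivAt_sin t).smul h2)
  refine h.congr_deriv ?_
  have e : B t = (cos t * cos t) • B t + (sin t * sin t) • B t := by
    rw [← add_smul]
    have : cos t * cos t + sin t * sin t = 1 := by nlinarith [Real.sin_sq_add_cos_sq t]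
    rw [this, one_smul]
  simp only [smul_smul, neg_smul, sol]
  nth_rewrite 3 [e]
  abel

lemma sol_eq {B : ℝ → E n} (hB : ContDiff ℝ ∞ B) :
    iteratedDeriv 2 (sol B) = fun t => B t - sol B t := by
  have h1 : deriv (sol B) = fun t => cos t • prim (fun u => cos u • B u) t
      + sin t • prim (fun u => sin u • B u) t :=
    funext fun t => (sol_deriv hB.continuous t).deriv
  rw [iteratedDeriv_succ, iteratedDeriv_one, h1]
  exact funext fun t => (sol_deriv2 hB.continuous t).deriv

/-- the primitive of an antiperiodic function is periodic with twice the antiperiod -/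
lemma prim_periodic {C : ℝ → E n} (hC : Continuous C) (h : ∀ t, C (t + π) = -C t) :
    Function.Periodic (prim C) (2 * π) := by
  have hp : ∀ t, HasDerivAt (fun t => prim C (t + π) + prim C t) 0 t := by
    intro t
    have h1 := (prim_deriv hC (t + π)).comp_add_const t π
    have h2 := h1.add (prim_deriv hC t)
    refine h2.congr_deriv ?_
    rw [h t]
    simp
  have hconst : ∀ s t, prim C (s + π) + prim C s = prim C (t + π) + prim C t := by
    intro s t
    exact is_const_of_deriv_eq_zero (fun u => (hp u).differentiableAt)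
      (fun u => (hp u).deriv) s t
  intro t
  have h1 := hconst (t + π) t
  have e : t + 2 * π = t + π + π := by ring
  rw [e]
  have h2 : prim C (t + π + π) = prim C t := by
    have : prim C (t + π + π) + prim C (t + π) = prim C t + prim C (t + π) := by
      rw [h1, add_comm]
    exact add_right_cancel this
  exact h2

lemma sol_periodic {B : ℝ → E n} (hB : Continuous B) (h : ∀ t, B (t + π) = B t) :
    Function.Periodic (sol B) (2 * π) := by
  have h1 := prim_periodic (C := fun u => cos u • B u) (Real.continuous_cos.smul hB)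
    (fun t => by rw [Real.cos_add_pi, h t, neg_smul])
  have h2 := prim_periodic (C := fun u => sin u • B u) (Real.continuous_sin.smul hB)
    (fun t => by rw [Real.sin_add_pi, h t, neg_smul])
  intro t
  unfold sol
  rw [h1 t, h2 t, Real.cos_add_two_pi, Real.sin_add_two_pi]

end ode

/-- iterated derivatives of a periodic smooth function are bounded -/
lemma bounded_iter {n : ℕ} {f : ℝ → E n} (hf : ContDiff ℝ ∞ f) (hp : Function.Periodic f (2 * π))
    (k : ℕ) : ∃ C, ∀ t, ‖iteratedDeriv k f t‖ ≤ C := by
  have hper : Function.Periodic (iteratedDeriv k f) (2 * π) := by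
    intro t
    have e : (fun z => f (z + 2 * π)) = f := funext hp
    have := iteratedDeriv_comp_add_const k f (2 * π)
    rw [e] at this
    exact (congrFun this t).symm
  have hc : Continuous (iteratedDeriv k f) :=
    hf.continuous_iteratedDeriv k (by exact_mod_cast le_top)
  have hb := hper.isBounded_of_continuous (by positivity) hc
  obtain ⟨C, hC⟩ := hb.exists_norm_le
  exact ⟨C, fun t => hC _ (mem_range_self t)⟩

/-! ### raising the dimension by two -/

/-- embed `ℝ^n` in the last `n` coordinates of `ℝ^(n+2)` -/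
noncomputable def lift2 {n : ℕ} (v : E n) : E (n + 2) :=
  WithLp.toLp 2 (Fin.cons 0 (Fin.cons 0 v) : Fin (n + 2) → ℝ)

/-- last coordinates -/
noncomputable def tail2 {n : ℕ} (w : E (n + 2)) : E n := WithLp.toLp 2 (fun i => w i.succ.succ)

lemma lift2_smooth {n : ℕ} {f : ℝ → E n} (hf : ContDiff ℝ ∞ f) :
    ContDiff ℝ ∞ (fun t => lift2 (f t)) := by
  rw [contDiff_euclidean]
  intro i
  refine Fin.cases ?_ (fun j => Fin.cases ?_ (fun l => ?_) j) i
  · simpa [lift2] using contDiff_const
  · simpa [lift2] using contDiff_const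
  · have := (contDiff_euclidean.1 hf) l
    simpa [lift2] using this

lemma circ_smooth (n m : ℕ) : ContDiff ℝ ∞ (circ n m) := by
  rw [contDiff_euclidean]
  intro i
  by_cases h0 : (i : ℕ) = 0
  · simp only [circ, h0, if_true]
    exact Real.contDiff_cos.comp (contDiff_const.mul contDiff_id)
  · by_cases h1 : (i : ℕ) = 1
    · simp only [circ, h1, if_true, one_ne_zero, if_false]
      exact Real.contDiff_sin.comp (contDiff_const.mul contDiff_id)
    · simp only [circ, h0, h1, if_false]
      exact contDiff_const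

lemma inner_lift2 {n : ℕ} (v : E n) (w : E (n + 2)) : ⟪lift2 v, w⟫_ℝ = ⟪v, tail2 w⟫_ℝ := by
  simp [PiLp.inner_apply, lift2, tail2, Fin.sum_univ_succ]

lemma inner_circ {n : ℕ} (t : ℝ) (w : E (n + 2)) :
    ⟪circ (n + 2) 1 t, w⟫_ℝ = w 0 * cos t + w 1 * sin t := by
  simp only [PiLp.inner_apply, circ, Fin.sum_univ_succ]
  simp

end Q186.Nd
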