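import Mathlib
import Pool.Agent.Q186.NdA

/-!
Nondegenerate closed curves near the unit circle in `ℝ^(k+2)`, from one in `ℝ^k`.
-/

namespace Q186.Nd

open Real Set Function
open scoped ContDiff InnerProductSpace

variable {k : ℕ}

lemma tail2_eq_zero {w : E (k + 2)} (h : tail2 w = 0) (h0 : w 0 = 0) (h1 : w 1 = 0) : w = 0 := by
  ext i
  refine Fin.cases ?_ (fun j => Fin.cases ?_ (fun l => ?_) j) i
  · simpa using h0
  · simpa using h1
  · have := congrArg (fun v : E k => v l) h
    simpa [tail2] using this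

/-- the perturbed circle -/
noncomputable def pert (b : ℝ → E k) (δ t : ℝ) : E (k + 2) :=
  circ (k + 2) 1 t + δ • lift2 (sol (fun s => b (2 * s)) t)

lemma pert_smooth {b : ℝ → E k} (hb : ContDiff ℝ ∞ b) (δ : ℝ) : ContDiff ℝ ∞ (pert b δ) := by
  have hB : ContDiff ℝ ∞ (fun s => b (2 * s)) := hb.comp (contDiff_const.mul contDiff_id)
  exact (circ_smooth _ _).add ((lift2_smooth (sol_smooth hB)).const_smul δ)

lemma circ_periodic (n : ℕ) : Function.Periodic (circ n 1) (2 * π) := by
  intro t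
  simp [circ, Real.cos_add_two_pi, Real.sin_add_two_pi]

lemma lift_periodic {b : ℝ → E k} (hb : ContDiff ℝ ∞ b) (hp : Function.Periodic b (2 * π)) :
    Function.Periodic (fun t => lift2 (sol (fun s => b (2 * s)) t)) (2 * π) := by
  have hB : ContDiff ℝ ∞ (fun s => b (2 * s)) := hb.comp (contDiff_const.mul contDiff_id)
  have h := sol_periodic (B := fun s => b (2 * s)) hB.continuous (fun t => by
    have e : 2 * (t + π) = 2 * t + 2 * π := by ring
    rw [e, hp])
  intro t
  simp only
  rw [h t]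

lemma pert_nondeg {b : ℝ → E k} (hb : NondegClosed k b) {δ : ℝ} (hδ : δ ≠ 0) (t : ℝ) :
    LinearIndependent ℝ (fun i : Fin (k + 2) => iteratedDeriv (i + 1) (pert b δ) t) := by
  rw [linInd_iff_dual]
  intro w hw
  have hB : ContDiff ℝ ∞ (fun s => b (2 * s)) := hb.smooth.comp (contDiff_const.mul contDiff_id)
  set F := sol (fun s => b (2 * s)) with hF
  set F1 : ℝ → E k := fun t => cos t • prim (fun u => cos u • b (2 * u)) t
    + sin t • prim (fun u => sin u • b (2 * u)) t with hF1
  set w' := tail2 w with hw'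
  have hφ : (fun s => ⟪pert b δ s, w⟫_ℝ)
      = fun s => w 0 * cos s + w 1 * sin s + δ * ⟪F s, w'⟫_ℝ := by
    funext s
    rw [pert, inner_add_left, inner_circ, real_inner_smul_left, inner_lift2]
  have d1 : ∀ s, HasDerivAt (fun s => w 0 * cos s + w 1 * sin s + δ * ⟪F s, w'⟫_ℝ)
      (-(w 0 * sin s) + w 1 * cos s + δ * ⟪F1 s, w'⟫_ℝ) s := by
    intro s
    have h1 := ((Real.hasDerivAt_cos s).const_mul (w 0)).add
      ((Real.hasDerivAt_sin s).const_mul (w 1))
    have h2 := ((sol_deriv hB.continuous s).inner ℝ (hasDerivAt_const s w')).const_mul δ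
    refine (h1.add h2).congr_deriv ?_
    simp only [inner_zero_right, zero_add, hF1]
    ring
  have d2 : ∀ s, HasDerivAt (fun s => -(w 0 * sin s) + w 1 * cos s + δ * ⟪F1 s, w'⟫_ℝ)
      (δ * ⟪b (2 * s), w'⟫_ℝ - (w 0 * cos s + w 1 * sin s + δ * ⟪F s, w'⟫_ℝ)) s := by
    intro s
    have h1 := ((Real.hasDerivAt_sin s).const_mul (w 0)).neg.add
      ((Real.hasDerivAt_cos s).const_mul (w 1))
    have h2 := ((sol_deriv2 hB.continuous s).inner ℝ (hasDerivAt_const s w')).const_mul δ
    refine (h1.add h2).congr_deriv ?_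
    simp only [inner_zero_right, zero_add, inner_sub_left]
    ring
  have e1 : deriv (fun s => w 0 * cos s + w 1 * sin s + δ * ⟪F s, w'⟫_ℝ)
      = fun s => -(w 0 * sin s) + w 1 * cos s + δ * ⟪F1 s, w'⟫_ℝ :=
    funext fun s => (d1 s).deriv
  have e2 : deriv (fun s => -(w 0 * sin s) + w 1 * cos s + δ * ⟪F1 s, w'⟫_ℝ)
      = fun s => δ * ⟪b (2 * s), w'⟫_ℝ - (w 0 * cos s + w 1 * sin s + δ * ⟪F s, w'⟫_ℝ) :=
    funext fun s => (d2 s).deriv
  have hz : ∀ j, 1 ≤ j → j ≤ k + 2 →
      iteratedDeriv j (fun s => w 0 * cos s + w 1 * sin s + δ * ⟪F s, w'⟫_ℝ) t = 0 := by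
    intro j hj1 hj2
    rw [← hφ, ← inner_iter (pert_smooth hb.smooth δ)]
    have := hw ⟨j - 1, by omega⟩
    simp only at this
    rwa [Nat.sub_add_cancel hj1] at this
  have hsm : ContDiff ℝ ∞ (fun s => w 0 * cos s + w 1 * sin s + δ * ⟪F s, w'⟫_ℝ) := by
    rw [← hφ]
    exact (pert_smooth hb.smooth δ).inner ℝ contDiff_const
  have hsm2 : ContDiff ℝ ∞ (fun s => ⟪b (2 * s), w'⟫_ℝ) := hB.inner ℝ contDiff_const
  have hw0 : w' = 0 := by
    apply (linInd_iff_dual _).1 (hb.nondeg (2 * t)) w'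
    intro i
    have hj := hz (i + 1) (by omega) (by omega)
    have hj2 := hz (i + 1 + 2) (by omega) (by omega)
    rw [show (i : ℕ) + 1 + 2 = (i + 1 + 1) + 1 by ring, iteratedDeriv_succ', iteratedDeriv_succ',
      e1, e2] at hj2
    have hsub := iteratedDeriv_sub (𝕜 := ℝ) (n := i + 1) (x := t)
      (f := fun s => δ * ⟪b (2 * s), w'⟫_ℝ)
      (g := fun s => w 0 * cos s + w 1 * sin s + δ * ⟪F s, w'⟫_ℝ)
      ((contDiff_const.mul hsm2).contDiffAt.of_le (by exact_mod_cast le_top))
      (hsm.contDiffAt.of_le (by exact_mod_cast le_top))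
    have hj3 : iteratedDeriv (i + 1) (fun s => δ * ⟪b (2 * s), w'⟫_ℝ) t
        - iteratedDeriv (i + 1) (fun s => w 0 * cos s + w 1 * sin s + δ * ⟪F s, w'⟫_ℝ) t = 0 := by
      rw [← hsub]
      exact hj2
    rw [hj, sub_zero, iteratedDeriv_const_mul_field, ← inner_iter hB] at hj3
    have hcomp := congrFun (iteratedDeriv_comp_const_smul (n := i + 1) (f := b)
      (hb.smooth.of_le (by exact_mod_cast le_top)) 2) t
    rw [hcomp, real_inner_smul_left] at hj3
    have h2 : (2 : ℝ) ^ ((i : ℕ) + 1) ≠ 0 := by positivity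
    rcases mul_eq_zero.1 hj3 with h | h
    · exact absurd h hδ
    · rcases mul_eq_zero.1 h with h | h
      · exact absurd h h2
      · exact h
  have ha := hz 1 le_rfl (by omega)
  have hb2 := hz 2 (by omega) (by omega)
  rw [iteratedDeriv_one, e1] at ha
  rw [iteratedDeriv_succ', iteratedDeriv_one, e1, e2] at hb2
  simp only [hw0, inner_zero_right, mul_zero, add_zero, zero_sub] at ha hb2
  have hsc := Real.sin_sq_add_cos_sq t
  have h0 : w 0 = 0 := by
    linear_combination (-sin t) * ha - cos t * hb2 - w 0 * hsc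
  have h1 : w 1 = 0 := by
    linear_combination (cos t) * ha - sin t * hb2 - w 1 * hsc
  exact tail2_eq_zero hw0 h0 h1

/-- a nondegenerate closed curve in `ℝ^k` gives nondegenerate closed curves in `ℝ^(k+2)`
arbitrarily close to the plane unit circle traversed once -/
theorem perturbable_of {b : ℝ → E k} (hb : NondegClosed k b) : Perturbable (k + 2) 1 := by
  intro N ε hε
  have hB : ContDiff ℝ ∞ (fun s => b (2 * s)) := hb.smooth.comp (contDiff_const.mul contDiff_id)
  have hH : ContDiff ℝ ∞ (fun t => lift2 (sol (fun s => b (2 * s)) t)) :=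
    lift2_smooth (sol_smooth hB)
  choose C hC using fun j => bounded_iter hH (lift_periodic hb.smooth hb.periodic) j
  have hC0 : ∀ j, 0 ≤ C j := fun j => (norm_nonneg _).trans (hC j 0)
  set S := ∑ j ∈ Finset.range (N + 1), C j with hS
  have hS0 : 0 ≤ S := Finset.sum_nonneg fun j _ => hC0 j
  set δ := ε / (S + 1) with hδ
  have hδ0 : 0 < δ := by positivity
  refine ⟨pert b δ, ⟨pert_smooth hb.smooth δ, ?_, pert_nondeg hb hδ0.ne'⟩, ?_⟩
  · intro t
    have h1 := lift_periodic hb.smooth hb.periodic t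
    simp only at h1
    unfold pert
    rw [circ_periodic, h1]
  · intro j hj t
    have e : pert b δ = circ (k + 2) 1 + δ • (fun t => lift2 (sol (fun s => b (2 * s)) t)) := by
      funext t
      rfl
    have hg : ContDiff ℝ ∞ (δ • (fun t => lift2 (sol (fun s => b (2 * s)) t))) := hH.const_smul δ
    rw [e, iteratedDeriv_add ((circ_smooth _ _).contDiffAt.of_le (by exact_mod_cast le_top))
      (hg.contDiffAt.of_le (by exact_mod_cast le_top)), add_sub_cancel_left,
      iteratedDeriv_const_smul_field, norm_smul, Real.norm_eq_abs, abs_of_pos hδ0]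
    have hCj : C j ≤ S := Finset.single_le_sum (fun i _ => hC0 i)
      (Finset.mem_range.2 (Nat.lt_succ_of_le hj))
    calc δ * ‖iteratedDeriv j (fun t => lift2 (sol (fun s => b (2 * s)) t)) t‖
        ≤ δ * S := mul_le_mul_of_nonneg_left ((hC j t).trans hCj) hδ0.le
      _ < δ * (S + 1) := by nlinarith
      _ = ε := by rw [hδ]; field_simp

/-! ### base curves -/

lemma nondegClosed_zero : NondegClosed 0 (fun _ => (0 : E 0)) :=
  ⟨contDiff_const, fun _ => rfl, fun _ => linearIndependent_empty_type⟩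

/-- a closed curve in `ℝ³` without points of zero torsion -/
noncomputable def tor (t : ℝ) : E 3 :=
  !₂[9 * cos t + cos (3 * t), 7 * sin t + sin (3 * t), 2 * sin (2 * t)]

lemma hasDerivAt_cos_mul (c t : ℝ) : HasDerivAt (fun t => cos (c * t)) (-(c * sin (c * t))) t := by
  have h := (Real.hasDerivAt_cos (c * t)).comp t ((hasDerivAt_id t).const_mul c)
  refine h.congr_deriv ?_
  ring

lemma hasDerivAt_sin_mul (c t : ℝ) : HasDerivAt (fun t => sin (c * t)) (c * cos (c * t)) t := by
  have h := (Real.hasDerivAt_sin (c * t)).comp t ((hasDerivAt_id t).const_mul c)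
  refine h.congr_deriv ?_
  ring

lemma inner_tor (t : ℝ) (w : E 3) : ⟪tor t, w⟫_ℝ = w 0 * (9 * cos t + cos (3 * t))
    + w 1 * (7 * sin t + sin (3 * t)) + w 2 * (2 * sin (2 * t)) := by
  simp [PiLp.inner_apply, tor, Fin.sum_univ_succ]
  ring

lemma tor_smooth : ContDiff ℝ ∞ tor := by
  rw [contDiff_euclidean]
  intro i
  fin_cases i
  · simp only [tor, Fin.zero_eta, PiLp.toLp_apply, Matrix.cons_val_zero]
    fun_prop
  · simp only [tor, Fin.mk_one, PiLp.toLp_apply, Matrix.cons_val_one, Matrix.cons_val_zero]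
    fun_prop
  · simp only [tor, Fin.reduceFinMk, PiLp.toLp_apply, Matrix.cons_val]
    fun_prop

lemma tor_det (t : ℝ) :
    (-9 * sin t - 3 * sin (3 * t)) * ((-7 * sin t - 9 * sin (3 * t)) * (-16 * cos (2 * t))
        - (-8 * sin (2 * t)) * (-7 * cos t - 27 * cos (3 * t)))
      - (7 * cos t + 3 * cos (3 * t)) * ((-9 * cos t - 9 * cos (3 * t)) * (-16 * cos (2 * t))
        - (-8 * sin (2 * t)) * (9 * sin t + 27 * sin (3 * t)))
      + (4 * cos (2 * t)) * ((-9 * cos t - 9 * cos (3 * t)) * (-7 * cos t - 27 * cos (3 * t))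
        - (-7 * sin t - 9 * sin (3 * t)) * (9 * sin t + 27 * sin (3 * t)))
    = -8 * (192 - 144 * cos (2 * t) ^ 2 + 6 * cos (2 * t) ^ 3) := by
  rw [Real.cos_three_mul, Real.sin_three_mul, Real.sin_two_mul, Real.cos_two_mul]
  have h := Real.sin_sq_add_cos_sq t
  linear_combination ((-336) + (-480) * cos t ^ 2 + (-18624) * cos t ^ 4 + 17280 * cos t ^ 6
    + 2112 * sin t ^ 2 + 15168 * sin t ^ 2 * cos t ^ 2 - 17280 * sin t ^ 2 * cos t ^ 4
    - 8640 * sin t ^ 4 + 17280 * sin t ^ 4 * cos t ^ 2) * h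

lemma tor_det_ne (t : ℝ) : -8 * (192 - 144 * cos (2 * t) ^ 2 + 6 * cos (2 * t) ^ 3) < 0 := by
  have h1 := Real.neg_one_le_cos (2 * t)
  have h2 := Real.cos_le_one (2 * t)
  set c := cos (2 * t)
  have h3 : c ^ 2 ≤ 1 := by nlinarith
  have h4 : -1 ≤ c ^ 3 := by nlinarith [sq_nonneg c]
  nlinarith

lemma nondegClosed_tor : NondegClosed 3 tor := by
  refine ⟨tor_smooth, ?_, ?_⟩
  · intro t
    have e3 : 3 * (t + 2 * π) = 3 * t + 3 * (2 * π) := by ring
    have e2 : 2 * (t + 2 * π) = 2 * t + 2 * (2 * π) := by ring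
    have c3 : cos (3 * t + 3 * (2 * π)) = cos (3 * t) := by
      simpa using Real.cos_add_nat_mul_two_pi (3 * t) 3
    have s3 : sin (3 * t + 3 * (2 * π)) = sin (3 * t) := by
      simpa using Real.sin_add_nat_mul_two_pi (3 * t) 3
    have s2 : sin (2 * t + 2 * (2 * π)) = sin (2 * t) := by
      simpa using Real.sin_add_nat_mul_two_pi (2 * t) 2
    unfold tor
    rw [e3, e2, c3, s3, s2, Real.cos_add_two_pi, Real.sin_add_two_pi]
  · intro t
    rw [linInd_iff_dual]
    intro w hw
    have d1 : deriv (fun s => w 0 * (9 * cos s + cos (3 * s))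
        + w 1 * (7 * sin s + sin (3 * s)) + w 2 * (2 * sin (2 * s)))
        = fun s => w 0 * (-9 * sin s - 3 * sin (3 * s))
        + w 1 * (7 * cos s + 3 * cos (3 * s)) + w 2 * (4 * cos (2 * s)) := by
      funext s
      have h0 := (((Real.hasDerivAt_cos s).const_mul 9).add (hasDerivAt_cos_mul 3 s)).const_mul
        (w 0)
      have h1 := (((Real.hasDerivAt_sin s).const_mul 7).add (hasDerivAt_sin_mul 3 s)).const_mul
        (w 1)
      have h2 := ((hasDerivAt_sin_mul 2 s).const_mul 2).const_mul (w 2)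
      refine (((h0.add h1).add h2).congr_deriv ?_).deriv
      ring
    have d2 : deriv (fun s => w 0 * (-9 * sin s - 3 * sin (3 * s))
        + w 1 * (7 * cos s + 3 * cos (3 * s)) + w 2 * (4 * cos (2 * s)))
        = fun s => w 0 * (-9 * cos s - 9 * cos (3 * s))
        + w 1 * (-7 * sin s - 9 * sin (3 * s)) + w 2 * (-8 * sin (2 * s)) := by
      funext s
      have h0 := (((Real.hasDerivAt_sin s).const_mul (-9)).sub
        ((hasDerivAt_sin_mul 3 s).const_mul 3)).const_mul (w 0)
      have h1 := (((Real.hasDerivAt_cos s).const_mul 7).add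
        ((hasDerivAt_cos_mul 3 s).const_mul 3)).const_mul (w 1)
      have h2 := ((hasDerivAt_cos_mul 2 s).const_mul 4).const_mul (w 2)
      refine (((h0.add h1).add h2).congr_deriv ?_).deriv
      ring
    have d3 : deriv (fun s => w 0 * (-9 * cos s - 9 * cos (3 * s))
        + w 1 * (-7 * sin s - 9 * sin (3 * s)) + w 2 * (-8 * sin (2 * s)))
        = fun s => w 0 * (9 * sin s + 27 * sin (3 * s))
        + w 1 * (-7 * cos s - 27 * cos (3 * s)) + w 2 * (-16 * cos (2 * s)) := by
      funext s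
      have h0 := (((Real.hasDerivAt_cos s).const_mul (-9)).sub
        ((hasDerivAt_cos_mul 3 s).const_mul 9)).const_mul (w 0)
      have h1 := (((Real.hasDerivAt_sin s).const_mul (-7)).sub
        ((hasDerivAt_sin_mul 3 s).const_mul 9)).const_mul (w 1)
      have h2 := ((hasDerivAt_sin_mul 2 s).const_mul (-8)).const_mul (w 2)
      refine (((h0.add h1).add h2).congr_deriv ?_).deriv
      ring
    have hφ : (fun s => ⟪tor s, w⟫_ℝ) = fun s => w 0 * (9 * cos s + cos (3 * s))
        + w 1 * (7 * sin s + sin (3 * s)) + w 2 * (2 * sin (2 * s)) :=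
      funext fun s => inner_tor s w
    have q1 := hw 0
    have q2 := hw 1
    have q3 := hw 2
    rw [inner_iter tor_smooth, hφ] at q1 q2 q3
    simp only [Fin.val_zero, Fin.val_one, Fin.val_two, zero_add, Nat.reduceAdd,
      iteratedDeriv_succ', iteratedDeriv_zero, d1, d2, d3] at q1 q2 q3
    have hdet := tor_det t
    have hne := (tor_det_ne t).ne
    rw [← hdet] at hne
    have k0 : w 0 = 0 := by
      refine (mul_eq_zero.1 ?_).resolve_left hne
      linear_combination
        ((-7 * sin t - 9 * sin (3 * t)) * (-16 * cos (2 * t))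
          - (-8 * sin (2 * t)) * (-7 * cos t - 27 * cos (3 * t))) * q1
        - ((7 * cos t + 3 * cos (3 * t)) * (-16 * cos (2 * t))
          - (4 * cos (2 * t)) * (-7 * cos t - 27 * cos (3 * t))) * q2
        + ((7 * cos t + 3 * cos (3 * t)) * (-8 * sin (2 * t))
          - (4 * cos (2 * t)) * (-7 * sin t - 9 * sin (3 * t))) * q3
    have k1 : w 1 = 0 := by
      refine (mul_eq_zero.1 ?_).resolve_left hne
      linear_combination
        -((-9 * cos t - 9 * cos (3 * t)) * (-16 * cos (2 * t))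
          - (-8 * sin (2 * t)) * (9 * sin t + 27 * sin (3 * t))) * q1
        + ((-9 * sin t - 3 * sin (3 * t)) * (-16 * cos (2 * t))
          - (4 * cos (2 * t)) * (9 * sin t + 27 * sin (3 * t))) * q2
        - ((-9 * sin t - 3 * sin (3 * t)) * (-8 * sin (2 * t))
          - (4 * cos (2 * t)) * (-9 * cos t - 9 * cos (3 * t))) * q3
    have k2 : w 2 = 0 := by
      refine (mul_eq_zero.1 ?_).resolve_left hne
      linear_combination
        ((-9 * cos t - 9 * cos (3 * t)) * (-7 * cos t - 27 * cos (3 * t))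
          - (-7 * sin t - 9 * sin (3 * t)) * (9 * sin t + 27 * sin (3 * t))) * q1
        - ((-9 * sin t - 3 * sin (3 * t)) * (-7 * cos t - 27 * cos (3 * t))
          - (7 * cos t + 3 * cos (3 * t)) * (9 * sin t + 27 * sin (3 * t))) * q2
        + ((-9 * sin t - 3 * sin (3 * t)) * (-7 * sin t - 9 * sin (3 * t))
          - (7 * cos t + 3 * cos (3 * t)) * (-9 * cos t - 9 * cos (3 * t))) * q3
    ext i
    fin_cases i
    · exact k0
    · exact k1
    · exact k2

/-- nondegenerate closed curves exist in `ℝ^n`, `n ≥ 2` -/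
theorem exists_nondegClosed (n : ℕ) : ∃ b : ℝ → E (n + 2), NondegClosed (n + 2) b := by
  induction n using Nat.strong_induction_on with
  | _ n ih =>
    match n with
    | 0 =>
      obtain ⟨γ, h, _⟩ := perturbable_of nondegClosed_zero 0 1 one_pos
      exact ⟨γ, h⟩
    | 1 => exact ⟨tor, nondegClosed_tor⟩
    | (m + 2) =>
      obtain ⟨b, hb⟩ := ih m (by omega)
      obtain ⟨γ, h, _⟩ := perturbable_of hb 0 1 one_pos
      exact ⟨γ, h⟩

/-- in dimension `≥ 4` the unit circle traversed once can be perturbed into a nondegenerate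
closed curve -/
theorem perturbable_one {n : ℕ} (hn : 4 ≤ n) : Perturbable n 1 := by
  obtain ⟨m, rfl⟩ := Nat.exists_eq_add_of_le hn
  obtain ⟨b, hb⟩ := exists_nondegClosed m
  have := perturbable_of hb
  have e : m + 2 + 2 = 4 + m := by omega
  rwa [e] at this

end Q186.Nd
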