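import Mathlib
import Pool.Agent.Q186.NdA

/-!
Fenchel's inequality for unit tangent fields.
-/

namespace Q186.Nd

open Real Set Function
open scoped ContDiff InnerProductSpace

lemma compare {f g f' g' : ℝ → ℝ} {a b : ℝ} (hab : a ≤ b)
    (hf' : ∀ t, HasDerivAt f (f' t) t)
    (hg' : ∀ t, HasDerivAt g (g' t) t) (h : ∀ t ∈ Ioo a b, f' t ≤ g' t) :
    f b - f a ≤ g b - g a := by
  have hm : MonotoneOn (g - f) (Icc a b) := by
    apply monotoneOn_of_deriv_nonneg (convex_Icc a b)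
    · exact fun t _ => ((hg' t).sub (hf' t)).continuousAt.continuousWithinAt
    · exact fun t _ => ((hg' t).sub (hf' t)).differentiableAt.differentiableWithinAt
    · intro t ht
      rw [interior_Icc] at ht
      rw [((hg' t).sub (hf' t)).deriv]
      linarith [h t ht]
  have := hm (left_mem_Icc.2 hab) (right_mem_Icc.2 hab) hab
  simp only [Pi.sub_apply] at this
  linarith

variable {n : ℕ}

/-- spherical distance is bounded by length -/
lemma arccos_lip {T T' : ℝ → E n} {A : ℝ → ℝ} (hT : ∀ t, HasDerivAt T (T' t) t)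
    (hT1 : ∀ t, ‖T t‖ = 1) (hA : ∀ t, HasDerivAt A ‖T' t‖ t) {p : E n} (hp : ‖p‖ = 1)
    {s t : ℝ} (hst : s ≤ t) :
    |Real.arccos ⟪T t, p⟫_ℝ - Real.arccos ⟪T s, p⟫_ℝ| ≤ A t - A s := by
  -- orthogonality
  have horth : ∀ u, ⟪T' u, T u⟫_ℝ = 0 := by
    intro u
    have h1 := (hT u).inner ℝ (hT u)
    have h2 : (fun t => ⟪T t, T t⟫_ℝ) = fun _ => 1 := by
      funext t
      rw [real_inner_self_eq_norm_sq, hT1 t]
      norm_num
    rw [h2] at h1
    have h3 := h1.unique (hasDerivAt_const u (1 : ℝ))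
    rw [real_inner_comm] at h3
    linarith
  have hbound : ∀ u, |⟪T' u, p⟫_ℝ| ≤ ‖T' u‖ * Real.sqrt (1 - ⟪T u, p⟫_ℝ ^ 2) := by
    intro u
    set c := ⟪T u, p⟫_ℝ with hc
    have e1 : ⟪T' u, p⟫_ℝ = ⟪T' u, p - c • T u⟫_ℝ := by
      rw [inner_sub_right, inner_smul_right, horth u]
      simp
    have e2 : ‖p - c • T u‖ ^ 2 = 1 - c ^ 2 := by
      rw [@norm_sub_sq_real, hp, norm_smul, hT1 u, inner_smul_right, real_inner_comm, ← hc,
        Real.norm_eq_abs, mul_one, sq_abs]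
      ring
    rw [e1]
    refine (abs_real_inner_le_norm _ _).trans ?_
    rw [← e2, Real.sqrt_sq (norm_nonneg _)]
  have hle : ∀ u, |⟪T u, p⟫_ℝ| ≤ 1 := by
    intro u
    refine (abs_real_inner_le_norm _ _).trans ?_
    rw [hT1, hp, one_mul]
  -- regularised statement
  have key : ∀ r ∈ Ioo (0 : ℝ) 1,
      |Real.arccos (r * ⟪T t, p⟫_ℝ) - Real.arccos (r * ⟪T s, p⟫_ℝ)| ≤ A t - A s := by
    intro r hr
    have habs : ∀ u, |r * ⟪T u, p⟫_ℝ| < 1 := by
      intro u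
      rw [abs_mul, abs_of_pos hr.1]
      nlinarith [hle u, abs_nonneg ⟪T u, p⟫_ℝ, hr.1, hr.2]
    have hsq : ∀ u, 0 < 1 - (r * ⟪T u, p⟫_ℝ) ^ 2 := by
      intro u
      have := (sq_lt_one_iff_abs_lt_one _).2 (habs u)
      linarith
    have hd : ∀ u, HasDerivAt (fun u => Real.arccos (r * ⟪T u, p⟫_ℝ))
        (-(1 / Real.sqrt (1 - (r * ⟪T u, p⟫_ℝ) ^ 2)) * (r * ⟪T' u, p⟫_ℝ)) u := by
      intro u
      have h1 : HasDerivAt (fun u => r * ⟪T u, p⟫_ℝ) (r * ⟪T' u, p⟫_ℝ) u := by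
        have := ((hT u).inner ℝ (hasDerivAt_const u p)).const_mul r
        refine this.congr_deriv ?_
        simp
      have h2 := Real.hasDerivAt_arccos (x := r * ⟪T u, p⟫_ℝ)
        (fun h => by have := habs u; rw [h] at this; norm_num at this)
        (fun h => by have := habs u; rw [h] at this; norm_num at this)
      exact HasDerivAt.comp (h₂ := Real.arccos) (h := fun u => r * ⟪T u, p⟫_ℝ) u h2 h1
    have hdb : ∀ u, |-(1 / Real.sqrt (1 - (r * ⟪T u, p⟫_ℝ) ^ 2)) * (r * ⟪T' u, p⟫_ℝ)|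
        ≤ ‖T' u‖ := by
      intro u
      have hs := Real.sqrt_pos.2 (hsq u)
      rw [neg_mul, abs_neg, abs_mul, abs_mul, abs_of_pos hr.1, abs_of_pos (by positivity),
        one_div, inv_mul_le_iff₀ hs]
      have h3 : Real.sqrt (1 - ⟪T u, p⟫_ℝ ^ 2) ≤ Real.sqrt (1 - (r * ⟪T u, p⟫_ℝ) ^ 2) := by
        apply Real.sqrt_le_sqrt
        have hr2 : r ^ 2 ≤ 1 := by nlinarith [hr.1, hr.2]
        have hx : (r * ⟪T u, p⟫_ℝ) ^ 2 ≤ 1 * ⟪T u, p⟫_ℝ ^ 2 := by
          rw [mul_pow]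
          exact mul_le_mul_of_nonneg_right hr2 (sq_nonneg _)
        linarith
      calc r * |⟪T' u, p⟫_ℝ| ≤ 1 * |⟪T' u, p⟫_ℝ| :=
            mul_le_mul_of_nonneg_right hr.2.le (abs_nonneg _)
        _ = |⟪T' u, p⟫_ℝ| := one_mul _
        _ ≤ ‖T' u‖ * Real.sqrt (1 - ⟪T u, p⟫_ℝ ^ 2) := hbound u
        _ ≤ ‖T' u‖ * Real.sqrt (1 - (r * ⟪T u, p⟫_ℝ) ^ 2) :=
            mul_le_mul_of_nonneg_left h3 (norm_nonneg _)
        _ = _ := mul_comm _ _
    rw [abs_le]
    constructor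
    · have := compare hst (fun u => (hd u).neg) hA (fun u _ => by
        have := hdb u
        rw [abs_le] at this
        linarith [this.1])
      simp only [Pi.neg_apply] at this
      linarith
    · exact compare hst hd hA (fun u _ => (le_abs_self _).trans (hdb u))
  -- limit
  have hlim : Filter.Tendsto (fun r : ℝ => |Real.arccos (r * ⟪T t, p⟫_ℝ)
      - Real.arccos (r * ⟪T s, p⟫_ℝ)|) (nhdsWithin 1 (Iio 1))
      (nhds |Real.arccos (1 * ⟪T t, p⟫_ℝ) - Real.arccos (1 * ⟪T s, p⟫_ℝ)|) := by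
    have hc : Continuous (fun r : ℝ => |Real.arccos (r * ⟪T t, p⟫_ℝ)
      - Real.arccos (r * ⟪T s, p⟫_ℝ)|) := by
      have c1 : Continuous (fun r : ℝ => Real.arccos (r * ⟪T t, p⟫_ℝ)) :=
        Real.continuous_arccos.comp (continuous_id.mul continuous_const)
      have c2 : Continuous (fun r : ℝ => Real.arccos (r * ⟪T s, p⟫_ℝ)) :=
        Real.continuous_arccos.comp (continuous_id.mul continuous_const)
      exact (c1.sub c2).abs
    exact (hc.tendsto 1).mono_left nhdsWithin_le_nhds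
  rw [one_mul, one_mul] at hlim
  apply le_of_tendsto hlim
  have hmem : Ioo (0 : ℝ) 1 ∈ nhdsWithin (1 : ℝ) (Iio 1) := Ioo_mem_nhdsLT one_pos
  filter_upwards [hmem] with r hr
  exact key r hr

/-- **Fenchel's theorem**, in the form used here: the unit tangent field of a closed curve has
length at least `2π`. -/
theorem fenchel {γ T T' : ℝ → E n} {v A : ℝ → ℝ} (hγ : ∀ t, HasDerivAt γ (v t • T t) t)
    (hv : ∀ t, 0 < v t) (hT : ∀ t, HasDerivAt T (T' t) t)
    (hT1 : ∀ t, ‖T t‖ = 1) (hA : ∀ t, HasDerivAt A ‖T' t‖ t) (hA0 : A 0 = 0)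
    (hcl : γ (2 * π) = γ 0) (hTcl : T (2 * π) = T 0) : 2 * π ≤ A (2 * π) := by
  have hpi := Real.pi_pos
  by_contra hlt
  rw [not_le] at hlt
  have hmono : Monotone A := by
    apply monotone_of_deriv_nonneg (fun t => (hA t).differentiableAt)
    intro t
    rw [(hA t).deriv]
    exact norm_nonneg _
  have hA2 : 0 ≤ A (2 * π) := by
    rw [← hA0]
    exact hmono (by positivity)
  have hcont : ContinuousOn A (Icc 0 (2 * π)) := fun t _ => (hA t).continuousAt.continuousWithinAt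
  obtain ⟨a, ha, haA⟩ := intermediate_value_Icc (by positivity : (0 : ℝ) ≤ 2 * π) hcont
    (show A (2 * π) / 2 ∈ Icc (A 0) (A (2 * π)) from ⟨by rw [hA0]; linarith, by linarith⟩)
  set p := T 0 with hp
  set q := T a with hq
  have hp1 : ‖p‖ = 1 := hT1 0
  have hq1 : ‖q‖ = 1 := hT1 a
  have hpp : Real.arccos ⟪T 0, p⟫_ℝ = 0 := by
    rw [← hp, real_inner_self_eq_norm_sq, hp1]
    norm_num
  have hpp2 : Real.arccos ⟪T (2 * π), p⟫_ℝ = 0 := by rw [hTcl]; exact hpp
  have hqq : Real.arccos ⟪T a, q⟫_ℝ = 0 := by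
    rw [← hq, real_inner_self_eq_norm_sq, hq1]
    norm_num
  have hsum : ∀ t ∈ Icc 0 (2 * π),
      Real.arccos ⟪T t, p⟫_ℝ + Real.arccos ⟪T t, q⟫_ℝ ≤ A (2 * π) / 2 := by
    intro t ht
    rcases le_total t a with hta | hta
    · have h1 := arccos_lip hT hT1 hA hp1 ht.1
      have h2 := arccos_lip hT hT1 hA hq1 hta
      rw [hpp, sub_zero, hA0, sub_zero] at h1
      rw [hqq, zero_sub, abs_neg] at h2
      have h3 := (le_abs_self _).trans h1
      have h4 := (le_abs_self _).trans h2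
      linarith
    · have h1 := arccos_lip hT hT1 hA hp1 ht.2
      have h2 := arccos_lip hT hT1 hA hq1 hta
      rw [hpp2, zero_sub, abs_neg] at h1
      rw [hqq, sub_zero] at h2
      have h3 := (le_abs_self _).trans h1
      have h4 := (le_abs_self _).trans h2
      linarith
  have hpos : ∀ t ∈ Icc 0 (2 * π), 0 < ⟪T t, p + q⟫_ℝ := by
    intro t ht
    have h1 := hsum t ht
    have hu : |⟪T t, p⟫_ℝ| ≤ 1 := by
      refine (abs_real_inner_le_norm _ _).trans ?_
      rw [hT1, hp1, one_mul]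
    have hw : |⟪T t, q⟫_ℝ| ≤ 1 := by
      refine (abs_real_inner_le_norm _ _).trans ?_
      rw [hT1, hq1, one_mul]
    rw [abs_le] at hu hw
    have h2 : Real.cos (π - Real.arccos ⟪T t, q⟫_ℝ) < Real.cos (Real.arccos ⟪T t, p⟫_ℝ) := by
      apply Real.cos_lt_cos_of_nonneg_of_le_pi (Real.arccos_nonneg _)
      · linarith [Real.arccos_nonneg ⟪T t, q⟫_ℝ]
      · linarith
    rw [Real.cos_pi_sub, Real.cos_arccos hu.1 hu.2, Real.cos_arccos hw.1 hw.2] at h2
    rw [inner_add_right]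
    linarith
  have hg : ∀ t, HasDerivAt (fun t => ⟪γ t, p + q⟫_ℝ) (v t * ⟪T t, p + q⟫_ℝ) t := by
    intro t
    have := (hγ t).inner ℝ (hasDerivAt_const t (p + q))
    refine this.congr_deriv ?_
    rw [inner_zero_right, zero_add, real_inner_smul_left]
  obtain ⟨c, hc, hc0⟩ := exists_hasDerivAt_eq_zero (f := fun t => ⟪γ t, p + q⟫_ℝ)
    (f' := fun t => v t * ⟪T t, p + q⟫_ℝ) (by positivity : (0 : ℝ) < 2 * π)
    (fun t _ => (hg t).continuousAt.continuousWithinAt) (by simp only [hcl])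
    (fun t _ => hg t)
  have := mul_pos (hv c) (hpos c (Ioo_subset_Icc_self hc))
  linarith

end Q186.Nd
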