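import Mathlib
import Pool.Agent.Q186.NdC

/-!
Frenet frames, curvatures and the length of the Frenet frame.
-/

namespace Q186.Nd

open Real Set Function InnerProductSpace
open scoped ContDiff InnerProductSpace

variable {n : ℕ}

/-- the Frenet frame: Gram-Schmidt orthonormalisation of `γ', γ'', …` (`frame γ i` is the vector
`e_{i+1}`) -/
noncomputable def frame (γ : ℝ → E n) (i : ℕ) (t : ℝ) : E n :=
  gramSchmidtNormed ℝ (fun j : ℕ => iteratedDeriv (j + 1) γ t) i

/-- the curvature `κ_{i+1} = ⟨de_{i+1}/ds, e_{i+2}⟩` -/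
noncomputable def curvature (γ : ℝ → E n) (i : ℕ) (t : ℝ) : ℝ :=
  ⟪deriv (frame γ i) t, frame γ (i + 1) t⟫_ℝ / ‖deriv γ t‖

/-- the length of the Frenet frame, `∫ (κ_1² + ⋯ + κ_{n-1}²)^{1/2} ds` -/
noncomputable def frameLength (γ : ℝ → E n) : ℝ :=
  ∫ t in (0 : ℝ)..(2 * π),
    Real.sqrt (∑ i ∈ Finset.range (n - 1), curvature γ i t ^ 2) * ‖deriv γ t‖

/-- unnormalised frame -/
noncomputable def gs (γ : ℝ → E n) (i : ℕ) (t : ℝ) : E n :=
  gramSchmidt ℝ (fun j : ℕ => iteratedDeriv (j + 1) γ t) i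

lemma indep_Iic {γ : ℝ → E n} (h : NondegClosed n γ) {i : ℕ} (hi : i < n) (t : ℝ) :
    LinearIndependent ℝ
      ((fun j : ℕ => iteratedDeriv (j + 1) γ t) ∘ ((↑) : Set.Iic i → ℕ)) := by
  have h1 := h.nondeg t
  let φ : Set.Iic i → Fin n := fun j => ⟨j.1, lt_of_le_of_lt j.2 hi⟩
  have hφ : Function.Injective φ := by
    intro a b hab
    have : (φ a : ℕ) = (φ b : ℕ) := congrArg _ hab
    exact Subtype.ext this
  exact h1.comp φ hφ

lemma gs_ne {γ : ℝ → E n} (h : NondegClosed n γ) {i : ℕ} (hi : i < n) (t : ℝ) :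
    gs γ i t ≠ 0 := gramSchmidt_ne_zero_coe i (indep_Iic h hi t)

lemma frame_eq {γ : ℝ → E n} (i : ℕ) (t : ℝ) : frame γ i t = ‖gs γ i t‖⁻¹ • gs γ i t := rfl

lemma frame_norm {γ : ℝ → E n} (h : NondegClosed n γ) {i : ℕ} (hi : i < n) (t : ℝ) :
    ‖frame γ i t‖ = 1 := gramSchmidtNormed_unit_length_coe i (indep_Iic h hi t)

lemma frame_orth {γ : ℝ → E n} {i j : ℕ} (hij : i ≠ j) (t : ℝ) :
    ⟪frame γ i t, frame γ j t⟫_ℝ = 0 := by
  rw [frame_eq, frame_eq, inner_smul_left, inner_smul_right]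
  have : ⟪gs γ i t, gs γ j t⟫_ℝ = 0 := gramSchmidt_orthogonal ℝ _ hij
  rw [this]
  simp

lemma gs_def (γ : ℝ → E n) (i : ℕ) (t : ℝ) :
    gs γ i t = iteratedDeriv (i + 1) γ t - ∑ j ∈ Finset.Iio i,
      (⟪gs γ j t, iteratedDeriv (i + 1) γ t⟫_ℝ / ‖gs γ j t‖ ^ 2) • gs γ j t := by
  have := gramSchmidt_def'' ℝ (fun j : ℕ => iteratedDeriv (j + 1) γ t) i
  simp only [RCLike.ofReal_real_eq_id, id] at this
  rw [eq_sub_iff_add_eq]
  exact this.symm

lemma iter_smooth {γ : ℝ → E n} (h : ContDiff ℝ ∞ γ) (j : ℕ) :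
    ContDiff ℝ ∞ (iteratedDeriv j γ) := by
  rw [iteratedDeriv_eq_iterate]
  exact h.iterate_deriv j

lemma gs_smooth {γ : ℝ → E n} (h : NondegClosed n γ) {i : ℕ} (hi : i < n) :
    ContDiff ℝ ∞ (gs γ i) := by
  induction i using Nat.strong_induction_on with
  | _ i ih =>
    have e : gs γ i = fun t => iteratedDeriv (i + 1) γ t - ∑ j ∈ Finset.Iio i,
      (⟪gs γ j t, iteratedDeriv (i + 1) γ t⟫_ℝ / ‖gs γ j t‖ ^ 2) • gs γ j t :=
      funext fun t => gs_def γ i t
    rw [e]
    apply (iter_smooth h.smooth (i + 1)).sub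
    apply ContDiff.sum
    intro j hj
    rw [Finset.mem_Iio] at hj
    have hj' : j < n := hj.trans hi
    have hs := ih j hj hj'
    refine ContDiff.fun_smul ?_ hs
    apply ContDiff.div
    · exact hs.inner ℝ (iter_smooth h.smooth (i + 1))
    · exact hs.norm_sq ℝ
    · intro t
      have := norm_pos_iff.2 (gs_ne h hj' t)
      positivity

lemma frame_smooth {γ : ℝ → E n} (h : NondegClosed n γ) {i : ℕ} (hi : i < n) :
    ContDiff ℝ ∞ (frame γ i) := by
  have e : frame γ i = fun t => ‖gs γ i t‖⁻¹ • gs γ i t := funext fun t => frame_eq i t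
  rw [e]
  have hs := gs_smooth h hi
  refine ContDiff.fun_smul ?_ hs
  apply ContDiff.inv
  · exact hs.norm ℝ (fun t => gs_ne h hi t)
  · intro t
    exact (norm_pos_iff.2 (gs_ne h hi t)).ne'

lemma frame_hasDeriv {γ : ℝ → E n} (h : NondegClosed n γ) {i : ℕ} (hi : i < n) (t : ℝ) :
    HasDerivAt (frame γ i) (deriv (frame γ i) t) t :=
  ((frame_smooth h hi).differentiable (by simp)).differentiableAt.hasDerivAt

lemma gs_zero (γ : ℝ → E n) (t : ℝ) : gs γ 0 t = deriv γ t := by
  rw [gs_def]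
  simp

lemma speed_pos {γ : ℝ → E n} (h : NondegClosed n γ) (hn : 0 < n) (t : ℝ) :
    0 < ‖deriv γ t‖ := by
  rw [← gs_zero]
  exact norm_pos_iff.2 (gs_ne h hn t)

/-- `γ' = v e_1` -/
lemma deriv_eq {γ : ℝ → E n} (h : NondegClosed n γ) (hn : 0 < n) (t : ℝ) :
    deriv γ t = ‖deriv γ t‖ • frame γ 0 t := by
  rw [frame_eq, gs_zero, smul_smul, mul_inv_cancel₀ (speed_pos h hn t).ne', one_smul]

lemma gs_eq {γ : ℝ → E n} (h : NondegClosed n γ) {i : ℕ} (hi : i < n) (t : ℝ) :
    gs γ i t = ‖gs γ i t‖ • frame γ i t := by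
  rw [frame_eq, smul_smul, mul_inv_cancel₀ (norm_pos_iff.2 (gs_ne h hi t)).ne', one_smul]

/-- the second derivative in terms of the first two frame vectors -/
lemma second_eq {γ : ℝ → E n} (h : NondegClosed n γ) (hn : 1 < n) (t : ℝ) :
    iteratedDeriv 2 γ t = ⟪frame γ 0 t, iteratedDeriv 2 γ t⟫_ℝ • frame γ 0 t
      + ‖gs γ 1 t‖ • frame γ 1 t := by
  have h0 := gs_def γ 1 t
  have h1 : Finset.Iio 1 = {0} := rfl
  rw [h1, Finset.sum_singleton] at h0
  have h2 := gs_eq h (by omega : 0 < n) t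
  have hne := norm_pos_iff.2 (gs_ne h (by omega : 0 < n) t)
  have e : (⟪gs γ 0 t, iteratedDeriv (1 + 1) γ t⟫_ℝ / ‖gs γ 0 t‖ ^ 2) • gs γ 0 t
      = ⟪frame γ 0 t, iteratedDeriv 2 γ t⟫_ℝ • frame γ 0 t := by
    rw [frame_eq, inner_smul_left, smul_smul]
    congr 1
    simp only [conj_trivial]
    field_simp
  rw [e] at h0
  rw [← gs_eq h hn t, h0]
  abel

/-- the third derivative has a nonzero component along the third frame vector -/
lemma third_ne {γ : ℝ → E n} (h : NondegClosed n γ) (hn : 2 < n) (t : ℝ) :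
    ⟪iteratedDeriv 3 γ t, frame γ 2 t⟫_ℝ ≠ 0 := by
  have h0 := gs_def γ 2 t
  rw [eq_sub_iff_add_eq] at h0
  rw [show (3 : ℕ) = 2 + 1 by norm_num, ← h0, inner_add_left, sum_inner, gs_eq h hn t,
    inner_smul_left, real_inner_self_eq_norm_sq, frame_norm h hn]
  have hsum : ∑ j ∈ Finset.Iio 2, ⟪(⟪gs γ j t, iteratedDeriv (2 + 1) γ t⟫_ℝ
      / ‖gs γ j t‖ ^ 2) • gs γ j t, frame γ 2 t⟫_ℝ = 0 := by
    apply Finset.sum_eq_zero
    intro j hj
    rw [Finset.mem_Iio] at hj
    rw [inner_smul_left, frame_eq, inner_smul_right]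
    have : ⟪gs γ j t, gs γ 2 t⟫_ℝ = 0 := gramSchmidt_orthogonal ℝ _ (by omega)
    rw [this]
    simp
  rw [hsum]
  have := norm_pos_iff.2 (gs_ne h hn t)
  simp only [conj_trivial]
  nlinarith

/-- a unit frame vector is orthogonal to its derivative -/
lemma frame_deriv_orth {γ : ℝ → E n} (h : NondegClosed n γ) {i : ℕ} (hi : i < n) (t : ℝ) :
    ⟪deriv (frame γ i) t, frame γ i t⟫_ℝ = 0 := by
  have h1 := (frame_hasDeriv h hi t).inner ℝ (frame_hasDeriv h hi t)
  have h2 : (fun t => ⟪frame γ i t, frame γ i t⟫_ℝ) = fun _ => 1 := by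
    funext t
    rw [real_inner_self_eq_norm_sq, frame_norm h hi]
    norm_num
  rw [h2] at h1
  have h3 := h1.unique (hasDerivAt_const t (1 : ℝ))
  rw [real_inner_comm] at h3
  linarith

/-- first Frenet equation -/
lemma frenet_one {γ : ℝ → E n} (h : NondegClosed n γ) (hn : 1 < n) (t : ℝ) :
    deriv (frame γ 0) t = ⟪deriv (frame γ 0) t, frame γ 1 t⟫_ℝ • frame γ 1 t := by
  have hn0 : 0 < n := by omega
  -- the derivative lies in the span of the first two frame vectors
  have hs : ∃ a b : ℝ, deriv (frame γ 0) t = a • frame γ 0 t + b • frame γ 1 t := by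
    have e : frame γ 0 = fun t => ‖deriv γ t‖⁻¹ • deriv γ t := by
      funext t
      rw [frame_eq, gs_zero]
    have hd1 : HasDerivAt (deriv γ) (iteratedDeriv 2 γ t) t := by
      have := hasDerivAt_iter h.smooth 1 t
      rwa [iteratedDeriv_one] at this
    have hsm : ContDiff ℝ ∞ (fun t => ‖deriv γ t‖⁻¹) := by
      have h1 : ContDiff ℝ ∞ (deriv γ) := by
        have := iter_smooth h.smooth 1
        rwa [iteratedDeriv_one] at this
      exact (h1.norm ℝ (fun t => norm_pos_iff.1 (speed_pos h hn0 t))).inv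
        (fun t => (speed_pos h hn0 t).ne')
    have hd2 : HasDerivAt (fun t => ‖deriv γ t‖⁻¹) (deriv (fun t => ‖deriv γ t‖⁻¹) t) t :=
      (hsm.differentiable (by simp)).differentiableAt.hasDerivAt
    have hd3 := hd2.smul hd1
    have hd4 : deriv (frame γ 0) t = ‖deriv γ t‖⁻¹ • iteratedDeriv 2 γ t
        + (deriv (fun t => ‖deriv γ t‖⁻¹) t) • deriv γ t := by
      rw [e]
      exact hd3.deriv
    refine ⟨‖deriv γ t‖⁻¹ * ⟪frame γ 0 t, iteratedDeriv 2 γ t⟫_ℝ
      + (deriv (fun t => ‖deriv γ t‖⁻¹) t) * ‖deriv γ t‖, ‖deriv γ t‖⁻¹ * ‖gs γ 1 t‖, ?_⟩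
    have q1 : ‖deriv γ t‖⁻¹ • iteratedDeriv 2 γ t = ‖deriv γ t‖⁻¹ •
        (⟪frame γ 0 t, iteratedDeriv 2 γ t⟫_ℝ • frame γ 0 t + ‖gs γ 1 t‖ • frame γ 1 t) :=
      congrArg (fun z => ‖deriv γ t‖⁻¹ • z) (second_eq h hn t)
    have q2 : (deriv (fun t => ‖deriv γ t‖⁻¹) t) • deriv γ t
        = (deriv (fun t => ‖deriv γ t‖⁻¹) t) • (‖deriv γ t‖ • frame γ 0 t) :=
      congrArg (fun z => (deriv (fun t => ‖deriv γ t‖⁻¹) t) • z) (deriv_eq h hn0 t)
    rw [hd4, q1, q2, smul_add, smul_smul, smul_smul, smul_smul, add_smul]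
    abel
  obtain ⟨a, b, hab⟩ := hs
  have h1 := frame_deriv_orth h hn0 t
  have h2 : ⟪frame γ 1 t, frame γ 0 t⟫_ℝ = 0 := frame_orth (by norm_num) t
  have h3 : ⟪frame γ 0 t, frame γ 1 t⟫_ℝ = 0 := frame_orth (by norm_num) t
  have ha : a = 0 := by
    rw [hab, inner_add_left, inner_smul_left, inner_smul_left, h2,
      real_inner_self_eq_norm_sq, frame_norm h hn0] at h1
    simpa using h1
  have hb : ⟪deriv (frame γ 0) t, frame γ 1 t⟫_ℝ = b := by
    rw [hab, inner_add_left, inner_smul_left, inner_smul_left, h3,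
      real_inner_self_eq_norm_sq, frame_norm h hn]
    simp
  rw [hb, hab, ha, zero_smul, zero_add]

/-- the second curvature does not vanish -/
lemma second_curv_ne {γ : ℝ → E n} (h : NondegClosed n γ) (hn : 2 < n) (t : ℝ) :
    ⟪deriv (frame γ 1) t, frame γ 2 t⟫_ℝ ≠ 0 := by
  have hn0 : 0 < n := by omega
  have hn1 : 1 < n := by omega
  -- differentiate the expression of the second derivative
  set c0 : ℝ → ℝ := fun t => ⟪frame γ 0 t, iteratedDeriv 2 γ t⟫_ℝ with hc0
  set c1 : ℝ → ℝ := fun t => ‖gs γ 1 t‖ with hc1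
  have s0 : ContDiff ℝ ∞ c0 := (frame_smooth h hn0).inner ℝ (iter_smooth h.smooth 2)
  have s1 : ContDiff ℝ ∞ c1 := (gs_smooth h hn1).norm ℝ (fun t => gs_ne h hn1 t)
  have d0 : HasDerivAt c0 (deriv c0 t) t :=
    (s0.differentiable (by simp)).differentiableAt.hasDerivAt
  have d1 : HasDerivAt c1 (deriv c1 t) t :=
    (s1.differentiable (by simp)).differentiableAt.hasDerivAt
  have e : iteratedDeriv 2 γ = fun t => c0 t • frame γ 0 t + c1 t • frame γ 1 t :=
    funext fun t => second_eq h hn1 t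
  have hd := (d0.smul (frame_hasDeriv h hn0 t)).add (d1.smul (frame_hasDeriv h hn1 t))
  have hd' : iteratedDeriv 3 γ t = (c0 t • deriv (frame γ 0) t + deriv c0 t • frame γ 0 t)
      + (c1 t • deriv (frame γ 1) t + deriv c1 t • frame γ 1 t) := by
    rw [iteratedDeriv_succ, e]
    exact hd.deriv
  have h02 : ⟪frame γ 0 t, frame γ 2 t⟫_ℝ = 0 := frame_orth (by norm_num) t
  have h12 : ⟪frame γ 1 t, frame γ 2 t⟫_ℝ = 0 := frame_orth (by norm_num) t
  have h0 : ⟪deriv (frame γ 0) t, frame γ 2 t⟫_ℝ = 0 := by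
    rw [frenet_one h hn1 t, inner_smul_left, h12]
    simp
  have h3 := third_ne h hn t
  rw [hd'] at h3
  intro hz
  apply h3
  simp only [inner_add_left, inner_smul_left, h02, h12, h0, hz]
  simp

/-- the integrand of the frame length is continuous -/
lemma integrand_cont {γ : ℝ → E n} (h : NondegClosed n γ) (hn : 0 < n) :
    Continuous (fun t => Real.sqrt (∑ i ∈ Finset.range (n - 1), curvature γ i t ^ 2)
      * ‖deriv γ t‖) := by
  have hv : Continuous (fun t => ‖deriv γ t‖) := by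
    have := (iter_smooth h.smooth 1).continuous
    rw [iteratedDeriv_one] at this
    exact this.norm
  apply Continuous.mul _ hv
  apply Real.continuous_sqrt.comp
  apply continuous_finsetSum
  intro i hi
  rw [Finset.mem_range] at hi
  have hi1 : i < n := by omega
  have hi2 : i + 1 < n := by omega
  apply Continuous.pow
  unfold curvature
  apply Continuous.div _ hv (fun t => (speed_pos h hn t).ne')
  have c1 : Continuous (deriv (frame γ i)) :=
    (frame_smooth h hi1).continuous_deriv (by simp)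
  exact c1.inner (frame_smooth h hi2).continuous

/-- the Frenet frame of a nondegenerate closed curve in `ℝ^n`, `n ≥ 3`, is longer than `2π` -/
theorem two_pi_lt_frameLength {γ : ℝ → E n} (h : NondegClosed n γ) (hn : 2 < n) :
    2 * π < frameLength γ := by
  have hn0 : 0 < n := by omega
  have hn1 : 1 < n := by omega
  set T' : ℝ → E n := deriv (frame γ 0) with hT'
  have cT' : Continuous (fun t => ‖T' t‖) :=
    ((frame_smooth h hn0).continuous_deriv (by simp)).norm
  set A : ℝ → ℝ := fun t => ∫ s in (0 : ℝ)..t, ‖T' s‖ with hA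
  have dA : ∀ t, HasDerivAt A ‖T' t‖ t := fun t =>
    intervalIntegral.integral_hasDerivAt_right (cT'.intervalIntegrable 0 t)
      cT'.stronglyMeasurable.stronglyMeasurableAtFilter cT'.continuousAt
  have hper : γ (2 * π) = γ 0 := by
    have := h.periodic 0
    rwa [zero_add] at this
  have hperT : frame γ 0 (2 * π) = frame γ 0 0 := by
    have h1 : ∀ j, iteratedDeriv j γ (2 * π) = iteratedDeriv j γ 0 := by
      intro j
      have e : (fun z => γ (z + 2 * π)) = γ := funext h.periodic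
      have h2 := iteratedDeriv_comp_add_const j γ (2 * π)
      rw [e] at h2
      have := congrFun h2 0
      simp only [zero_add] at this
      exact this.symm
    unfold frame
    simp only [h1]
  have hF := fenchel (γ := γ) (T := frame γ 0) (T' := T') (v := fun t => ‖deriv γ t‖) (A := A)
    (fun t => by
      have hd : HasDerivAt γ (deriv γ t) t := by
        have := hasDerivAt_iter h.smooth 0 t
        simpa [iteratedDeriv_zero, iteratedDeriv_one] using this
      rw [← deriv_eq h hn0 t]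
      exact hd)
    (fun t => speed_pos h hn0 t) (fun t => frame_hasDeriv h hn0 t)
    (fun t => frame_norm h hn0 t) dA (by simp [hA]) hper hperT
  refine lt_of_le_of_lt hF ?_
  rw [hA, frameLength]
  have hlt : ∀ t, ‖T' t‖ < Real.sqrt (∑ i ∈ Finset.range (n - 1), curvature γ i t ^ 2)
      * ‖deriv γ t‖ := by
    intro t
    have hv := speed_pos h hn0 t
    have e1 : ‖T' t‖ = |curvature γ 0 t| * ‖deriv γ t‖ := by
      rw [hT', frenet_one h hn1 t, norm_smul, frame_norm h hn1, mul_one, curvature, abs_div,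
        abs_of_pos hv, div_mul_cancel₀ _ hv.ne', Real.norm_eq_abs]
    rw [e1]
    apply mul_lt_mul_of_pos_right _ hv
    rw [← Real.sqrt_sq_eq_abs]
    apply Real.sqrt_lt_sqrt (sq_nonneg _)
    have e2 : curvature γ 0 t ^ 2 + curvature γ 1 t ^ 2
        ≤ ∑ i ∈ Finset.range (n - 1), curvature γ i t ^ 2 := by
      have hsub : ({0, 1} : Finset ℕ) ⊆ Finset.range (n - 1) := by
        intro i hi
        simp only [Finset.mem_insert, Finset.mem_singleton] at hi
        rw [Finset.mem_range]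
        omega
      have := Finset.sum_le_sum_of_subset_of_nonneg (f := fun i => curvature γ i t ^ 2) hsub
        (fun i _ _ => sq_nonneg _)
      simpa using this
    have e3 : 0 < curvature γ 1 t ^ 2 := by
      have : curvature γ 1 t ≠ 0 := div_ne_zero (second_curv_ne h hn t) hv.ne'
      positivity
    linarith
  have hcI := integrand_cont h hn0
  apply intervalIntegral.integral_lt_integral_of_continuousOn_of_le_of_exists_lt
    (by positivity) cT'.continuousOn hcI.continuousOn (fun t _ => (hlt t).le)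
  exact ⟨0, ⟨le_rfl, by positivity⟩, hlt 0⟩

end Q186.Nd
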